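import Pool.Agent.P.MP_0cf84d_an.Defs

namespace Pool.Agent.P.MP_0cf84d_an

open MeasureTheory Filter Topology Metric

abbrev E := EuclideanSpace ℝ (Fin 2)

abbrev B : Set E := ball 0 1

noncomputable abbrev mB : Measure E := volume.restrict B

instance : IsFiniteMeasure mB := isFiniteMeasure_restrict.mpr measure_ball_lt_top.ne

lemma memLp_of_continuousOn {F : Type*} [NormedAddCommGroup F] {f : E → F}
    (hf : ContinuousOn f (closedBall 0 1)) (p : ENNReal) : MemLp f p mB := by
  obtain ⟨C, hC⟩ := (isCompact_closedBall (0 : E) 1).exists_bound_of_continuousOn hf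
  have h1 : AEStronglyMeasurable f mB :=
    (hf.mono ball_subset_closedBall).aestronglyMeasurable measurableSet_ball
  apply MemLp.of_bound h1 C
  filter_upwards [ae_restrict_mem measurableSet_ball] with x hx
  exact hC x (ball_subset_closedBall hx)

lemma memLp_of_continuous {F : Type*} [NormedAddCommGroup F] {f : E → F}
    (hf : Continuous f) (p : ENNReal) : MemLp f p mB :=
  memLp_of_continuousOn hf.continuousOn p

lemma tendsto_pairing {F : Type*} [NormedAddCommGroup F] [InnerProductSpace ℝ F]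
    {a g : E → F} {f : ℕ → E → F} (ha : MemLp a 2 mB) (hf : ∀ n, MemLp (f n) 2 mB)
    (hg : MemLp g 2 mB) (h : Tendsto (fun n => eLpNorm (f n - g) 2 mB) atTop (𝓝 0)) :
    Tendsto (fun n => ∫ x, inner ℝ (a x) (f n x) ∂mB) atTop (𝓝 (∫ x, inner ℝ (a x) (g x) ∂mB)) := by
  have h1 := (Lp.tendsto_Lp_iff_tendsto_eLpNorm'' f hf g hg).mpr h
  have h2 : Tendsto (fun n => inner ℝ (ha.toLp a) ((hf n).toLp (f n))) atTop
      (𝓝 (inner ℝ (ha.toLp a) (hg.toLp g))) := Filter.Tendsto.inner tendsto_const_nhds h1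
  have e : ∀ {k : E → F} (hk : MemLp k 2 mB),
      inner ℝ (ha.toLp a) (hk.toLp k) = ∫ x, inner ℝ (a x) (k x) ∂mB := by
    intro k hk
    rw [L2.inner_def]
    apply integral_congr_ae
    filter_upwards [ha.coeFn_toLp, hk.coeFn_toLp] with x h1 h2
    rw [h1, h2]
  simp only [e] at h2
  exact h2

lemma tendsto_pairing_mul {a g : E → ℝ} {f : ℕ → E → ℝ} (ha : MemLp a 2 mB)
    (hf : ∀ n, MemLp (f n) 2 mB) (hg : MemLp g 2 mB)
    (h : Tendsto (fun n => eLpNorm (f n - g) 2 mB) atTop (𝓝 0)) :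
    Tendsto (fun n => ∫ x, a x * f n x ∂mB) atTop (𝓝 (∫ x, a x * g x ∂mB)) := by
  have := tendsto_pairing ha hf hg h
  simpa [mul_comm] using this

lemma tendsto_eLpNorm_of_bdd {F : Type*} [NormedAddCommGroup F] {f : ℕ → E → F} {g : E → F}
    (hf : ∀ n, AEStronglyMeasurable (f n) mB) (hg : MemLp g 2 mB) (C : ℝ)
    (hC : ∀ n, ∀ x ∈ B, ‖f n x‖ ≤ C) (h : ∀ x ∈ B, ∀ᶠ n in atTop, f n x = g x) :
    Tendsto (fun n => eLpNorm (f n - g) 2 mB) atTop (𝓝 0) := by
  apply tendsto_Lp_finite_of_tendsto_ae (by norm_num) (by norm_num) hf hg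
  · intro ε hε
    obtain ⟨δ, hδ, h2⟩ := unifIntegrable_const (ι := ℕ) (μ := mB) (g := fun _ : E => C) (p := 2)
      (by norm_num) (by norm_num) (memLp_const C) hε
    refine ⟨δ, hδ, fun i s hs hμ => le_trans ?_ (h2 i s hs hμ)⟩
    apply eLpNorm_mono_ae
    filter_upwards [ae_restrict_mem measurableSet_ball] with x hx
    by_cases hxs : x ∈ s
    · simp only [Set.indicator_of_mem hxs]
      exact le_trans (hC i x hx) (le_abs_self C)
    · simp [Set.indicator_of_notMem hxs]
  · filter_upwards [ae_restrict_mem measurableSet_ball] with x hx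
    exact tendsto_const_nhds.congr' ((h x hx).mono fun n hn => hn.symm)

lemma sum_single (x : E) :
    x = x 0 • (EuclideanSpace.single 0 1 : E) + x 1 • (EuclideanSpace.single 1 1 : E) := by
  ext i; fin_cases i <;> simp

/-- the divergence theorem for the field `g(x) x` -/
lemma div_zero {g : E → ℝ} (hg : ContDiff ℝ 1 g) (hc : HasCompactSupport g) :
    ∫ x, (fderiv ℝ g x x + 2 * g x) = 0 := by
  have hcont : Continuous g := hg.continuous
  have hd : Continuous (fderiv ℝ g) := hg.continuous_fderiv (by norm_num)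
  have hdc : HasCompactSupport (fderiv ℝ g) := hc.fderiv ℝ
  have hgi : Integrable g := hcont.integrable_of_hasCompactSupport hc
  have key : ∀ i : Fin 2, Integrable (fun x : E => x i * fderiv ℝ g x (EuclideanSpace.single i 1))
      ∧ ∫ x : E, x i * fderiv ℝ g x (EuclideanSpace.single i 1) = - ∫ x, g x := by
    intro i
    have hp : ∀ x : E, HasFDerivAt (fun x : E => x i) (EuclideanSpace.proj i : E →L[ℝ] ℝ) x :=
      fun x => (EuclideanSpace.proj i : E →L[ℝ] ℝ).hasFDerivAt
    have hpc : Continuous (fun x : E => x i) := (EuclideanSpace.proj i : E →L[ℝ] ℝ).continuous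
    have e1 : ∀ x : E, fderiv ℝ (fun x : E => x i) x (EuclideanSpace.single i 1) = 1 := by
      intro x; rw [(hp x).fderiv]; simp
    have i1 : Integrable (fun x : E => x i * fderiv ℝ g x (EuclideanSpace.single i 1)) := by
      apply Continuous.integrable_of_hasCompactSupport
      · exact hpc.mul (hd.clm_apply continuous_const)
      · exact HasCompactSupport.mul_left (hc.fderiv_apply ℝ _)
    refine ⟨i1, ?_⟩
    have := integral_mul_fderiv_eq_neg_fderiv_mul_of_integrable (μ := (volume : Measure E))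
      (f := fun x : E => x i) (g := g) (v := EuclideanSpace.single i 1) ?_ i1 ?_ ?_ ?_
    · rw [this]; simp [e1]
    · simpa [e1] using hgi
    · apply Continuous.integrable_of_hasCompactSupport (hpc.mul hcont)
      exact HasCompactSupport.mul_left hc
    · intro x _; exact (hp x).differentiableAt
    · intro x _; exact hg.differentiable (by norm_num) x
  have e : ∀ x : E, fderiv ℝ g x x + 2 * g x
      = (x 0 * fderiv ℝ g x (EuclideanSpace.single 0 1)
        + x 1 * fderiv ℝ g x (EuclideanSpace.single 1 1)) + 2 * g x := by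
    intro x
    congr 1
    conv_lhs => rw [show fderiv ℝ g x x = fderiv ℝ g x
      (x 0 • (EuclideanSpace.single 0 1 : E) + x 1 • (EuclideanSpace.single 1 1 : E)) from by
        rw [← sum_single x]]
    simp
  simp only [e]
  have i01 : Integrable (fun x : E => x 0 * fderiv ℝ g x (EuclideanSpace.single 0 1)
      + x 1 * fderiv ℝ g x (EuclideanSpace.single 1 1)) := (key 0).1.add (key 1).1
  rw [integral_add i01 (hgi.const_mul 2), integral_add (key 0).1 (key 1).1,
    (key 0).2, (key 1).2, integral_const_mul]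
  ring

lemma continuous_gradient {φ : E → ℝ} (hφ : ContDiff ℝ 1 φ) : Continuous (gradient φ) := by
  have hd : Continuous (fderiv ℝ φ) := hφ.continuous_fderiv (by norm_num)
  exact (InnerProductSpace.toDual ℝ E).symm.continuous.comp hd

/-- integration by parts against the field `a(x) x` for elements of `H^1_0` -/
lemma ibp {v : E → ℝ} {H : E → E} (hv : InH10 B v H) {a : E → ℝ} (ha : ContDiff ℝ 1 a) :
    ∫ x, inner ℝ (a x • x) (H x) ∂mB = - ∫ x, (fderiv ℝ a x x + 2 * a x) * v x ∂mB := by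
  obtain ⟨hv2, hH2, φ, hφ, h1, h2⟩ := hv
  have hφ1 : ∀ n, ContDiff ℝ 1 (φ n) := fun n => (hφ n).1.of_le (by exact_mod_cast le_top)
  have had : Continuous (fderiv ℝ a) := ha.continuous_fderiv (by norm_num)
  have c1 : Continuous (fun x : E => a x • x) := ha.continuous.smul continuous_id
  have c2 : Continuous (fun x : E => fderiv ℝ a x x + 2 * a x) :=
    (had.clm_apply continuous_id).add (continuous_const.mul ha.continuous)
  have t1 := tendsto_pairing (memLp_of_continuous c1 2)
    (fun n => memLp_of_continuous (continuous_gradient (hφ1 n)) 2) hH2 h2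
  have t2 := tendsto_pairing_mul (memLp_of_continuous c2 2)
    (fun n => memLp_of_continuous (hφ1 n).continuous 2) hv2 h1
  refine tendsto_nhds_unique t1 (t2.neg.congr fun n => ?_)
  have hz := div_zero (g := fun x => a x * φ n x) (ha.mul (hφ1 n))
    (HasCompactSupport.mul_left (hφ n).2.1)
  have e : ∀ x, fderiv ℝ (fun x => a x * φ n x) x x + 2 * (a x * φ n x)
      = inner ℝ (a x • x) (gradient (φ n) x) + (fderiv ℝ a x x + 2 * a x) * φ n x := by
    intro x
    rw [fderiv_fun_mul (ha.differentiable (by norm_num) x) ((hφ1 n).differentiable (by norm_num) x),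
      real_inner_smul_left, real_inner_comm, inner_gradient_left]
    simp; ring
  simp only [e] at hz
  rw [← setIntegral_eq_integral_of_forall_compl_eq_zero (s := B), integral_add] at hz
  · linarith
  · exact (memLp_of_continuous (c1.inner (continuous_gradient (hφ1 n))) 1).integrable le_rfl
  · exact (memLp_of_continuous (c2.mul (hφ1 n).continuous) 1).integrable le_rfl
  · intro x hx
    have hx' : x ∉ tsupport (φ n) := fun h => hx ((hφ n).2.2 h)
    have h3 : φ n =ᶠ[𝓝 x] fun _ => 0 := notMem_tsupport_iff_eventuallyEq.mp hx'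
    rw [h3.gradient_eq, h3.eq_of_nhds]
    simp

lemma hasGradientAt_radial {F : ℝ → ℝ} {F' : ℝ} {x : E} (hF : HasDerivAt F F' (‖x‖ ^ 2)) :
    HasGradientAt (fun y : E => F (‖y‖ ^ 2)) ((2 * F') • x) x := by
  have h1 := hF.comp_hasFDerivAt x (hasStrictFDerivAt_norm_sq x).hasFDerivAt
  rw [hasGradientAt_iff_hasFDerivAt]
  have e : (InnerProductSpace.toDual ℝ E) ((2 * F') • x) = F' • 2 • (innerSL ℝ) x := by
    ext y
    simp
    ring
  rw [e]
  exact h1

lemma fderiv_radial {F : ℝ → ℝ} {F' : ℝ} {x : E} (hF : HasDerivAt F F' (‖x‖ ^ 2)) :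
    fderiv ℝ (fun y : E => F (‖y‖ ^ 2)) x x = 2 * ‖x‖ ^ 2 * F' := by
  rw [(hasGradientAt_radial hF).fderiv_apply, real_inner_smul_left, real_inner_self_eq_norm_sq]
  ring

lemma contDiff_radial {F : ℝ → ℝ} {n : WithTop ℕ∞} (hF : ContDiff ℝ n F) :
    ContDiff ℝ n (fun y : E => F (‖y‖ ^ 2)) := hF.comp (contDiff_norm_sq ℝ)

lemma normsq_lt {x : E} (hx : x ∈ B) : ‖x‖ ^ 2 < 1 := by
  have := mem_ball_zero_iff.mp hx
  have h0 := norm_nonneg x
  nlinarith

lemma normsq_le {x : E} (hx : x ∈ closedBall (0 : E) 1) : ‖x‖ ^ 2 ≤ 1 := by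
  have := mem_closedBall_zero_iff.mp hx
  have h0 := norm_nonneg x
  nlinarith

lemma eta_bound : ∃ M : ℝ, 0 ≤ M ∧ ∀ t : ℝ, 0 ≤ t → |t * deriv Real.smoothTransition (t - 1)| ≤ M := by
  have hc : Continuous (deriv Real.smoothTransition) :=
    (Real.smoothTransition.contDiff (n := 1)).continuous_deriv (by norm_num)
  have hc2 : Continuous (fun t : ℝ => t * deriv Real.smoothTransition (t - 1)) :=
    continuous_id.mul (hc.comp (continuous_id.sub continuous_const))
  obtain ⟨C, hC⟩ := (isCompact_Icc (a := (0 : ℝ)) (b := 2)).exists_bound_of_continuousOn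
    hc2.continuousOn
  refine ⟨max C 0, le_max_right _ _, fun t ht => ?_⟩
  by_cases h : t ≤ 2
  · exact le_trans (hC t ⟨ht, h⟩) (le_max_left _ _)
  · have : Real.smoothTransition =ᶠ[𝓝 (t - 1)] fun _ => 1 := by
      filter_upwards [Ioi_mem_nhds (show (1 : ℝ) < t - 1 by linarith)] with y hy
      exact Real.smoothTransition.one_of_one_le (le_of_lt hy)
    rw [this.deriv_eq]; simp

/-- smooth radial functions vanishing on the unit circle lie in `H^1_0` -/
lemma inH10_radial {q F' : ℝ → ℝ} (hq : ContDiff ℝ (⊤ : ℕ∞) q)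
    (hF : ∀ s, HasDerivAt (fun s => (1 - s) * q s) (F' s) s) :
    InH10 B (fun x : E => (1 - ‖x‖ ^ 2) * q (‖x‖ ^ 2)) (fun x : E => (2 * F' (‖x‖ ^ 2)) • x) := by
  have hFs : ContDiff ℝ (⊤ : ℕ∞) (fun s : ℝ => (1 - s) * q s) :=
    (contDiff_const.sub contDiff_id).mul hq
  have hF'c : Continuous F' := by
    have : F' = deriv (fun s => (1 - s) * q s) := by funext s; exact (hF s).deriv.symm
    rw [this]; exact hFs.continuous_deriv (by exact_mod_cast le_top)
  have hn : Continuous (fun x : E => ‖x‖ ^ 2) := continuous_norm.pow 2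
  have m1 : MemLp (fun x : E => (1 - ‖x‖ ^ 2) * q (‖x‖ ^ 2)) 2 mB :=
    memLp_of_continuous (hFs.continuous.comp hn) 2
  have m2 : MemLp (fun x : E => (2 * F' (‖x‖ ^ 2)) • x) 2 mB :=
    memLp_of_continuous ((continuous_const.mul (hF'c.comp hn)).smul continuous_id) 2
  let Θ : ℕ → ℝ → ℝ := fun n s => Real.smoothTransition (n * (1 - s) - 1) * ((1 - s) * q s)
  have hΘ : ∀ n, ContDiff ℝ (⊤ : ℕ∞) (Θ n) := fun n =>
    (Real.smoothTransition.contDiff.comp
      ((contDiff_const.mul (contDiff_const.sub contDiff_id)).sub contDiff_const)).mul hFs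
  have hΘ' : ∀ (n : ℕ) s, HasDerivAt (Θ n)
      (deriv Real.smoothTransition (n * (1 - s) - 1) * (-n) * ((1 - s) * q s)
        + Real.smoothTransition (n * (1 - s) - 1) * F' s) s := by
    intro n s
    have h1 : HasDerivAt (fun s : ℝ => (n : ℝ) * (1 - s) - 1) (-n) s := by
      simpa using (((hasDerivAt_id s).const_sub 1).const_mul (n : ℝ)).sub_const 1
    have h2 : HasDerivAt Real.smoothTransition (deriv Real.smoothTransition (n * (1 - s) - 1))
        (n * (1 - s) - 1) :=
      ((Real.smoothTransition.contDiff (n := 1)).differentiable (by norm_num) _).hasDerivAt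
    exact (h2.comp s h1).mul (hF s)
  have hev : ∀ x ∈ B, ∀ᶠ n : ℕ in atTop, ∀ᶠ y in 𝓝 x,
      Θ n (‖y‖ ^ 2) = (1 - ‖y‖ ^ 2) * q (‖y‖ ^ 2) := by
    intro x hx
    have h0 : 0 < 1 - ‖x‖ ^ 2 := by linarith [normsq_lt hx]
    have h1 : Tendsto (fun n : ℕ => (n : ℝ) * (1 - ‖x‖ ^ 2)) atTop atTop :=
      tendsto_natCast_atTop_atTop.atTop_mul_const h0
    filter_upwards [h1.eventually_gt_atTop 2] with n hn'
    have h2 : ContinuousAt (fun y : E => (n : ℝ) * (1 - ‖y‖ ^ 2)) x :=
      (continuous_const.mul (continuous_const.sub hn)).continuousAt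
    filter_upwards [h2.eventually (Ioi_mem_nhds hn')] with y hy
    simp only [Θ]
    rw [Real.smoothTransition.one_of_one_le (by linarith), one_mul]
  obtain ⟨Q, hQ⟩ := (isCompact_Icc (a := (0 : ℝ)) (b := 1)).exists_bound_of_continuousOn
    hq.continuous.continuousOn
  obtain ⟨Q', hQ'⟩ := (isCompact_Icc (a := (0 : ℝ)) (b := 1)).exists_bound_of_continuousOn
    hF'c.continuousOn
  obtain ⟨M, hM0, hM⟩ := eta_bound
  refine ⟨m1, m2, fun n x => Θ n (‖x‖ ^ 2), fun n => ⟨contDiff_radial (hΘ n), ?_⟩, ?_, ?_⟩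
  · have hK : IsCompact ({x : E | 1 ≤ (n : ℝ) * (1 - ‖x‖ ^ 2)} ∩ closedBall 0 1) :=
      (isCompact_closedBall 0 1).inter_left
        (isClosed_le continuous_const (continuous_const.mul (continuous_const.sub hn)))
    have hsub : Function.support (fun x : E => Θ n (‖x‖ ^ 2))
        ⊆ {x : E | 1 ≤ (n : ℝ) * (1 - ‖x‖ ^ 2)} ∩ closedBall 0 1 := by
      intro x hx
      have h1 : 1 ≤ (n : ℝ) * (1 - ‖x‖ ^ 2) := by
        by_contra h
        apply hx
        simp only [Θ]
        rw [Real.smoothTransition.zero_of_nonpos (by linarith), zero_mul]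
      refine ⟨h1, mem_closedBall_zero_iff.mpr ?_⟩
      by_contra h
      have h2 : 1 - ‖x‖ ^ 2 ≤ 0 := by nlinarith [norm_nonneg x]
      have h3 : (0 : ℝ) ≤ n := Nat.cast_nonneg n
      nlinarith
    have hts := closure_minimal hsub hK.isClosed
    refine ⟨hK.of_isClosed_subset isClosed_closure hts, fun x hx => ?_⟩
    obtain ⟨h1, h2⟩ := hts hx
    rw [mem_ball_zero_iff]
    by_contra h
    have h2 : 1 - ‖x‖ ^ 2 ≤ 0 := by nlinarith [norm_nonneg x]
    have h3 : (0 : ℝ) ≤ n := Nat.cast_nonneg n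
    have h1' : 1 ≤ (n : ℝ) * (1 - ‖x‖ ^ 2) := h1
    nlinarith
  · apply tendsto_eLpNorm_of_bdd
      (fun n => ((hΘ n).continuous.comp hn).aestronglyMeasurable) m1 Q
    · intro n x hx
      have h1 := normsq_lt hx
      have h0 : 0 ≤ ‖x‖ ^ 2 := sq_nonneg _
      have h2 := hQ _ ⟨h0, h1.le⟩
      simp only [Θ, Function.comp, norm_mul, Real.norm_eq_abs] at h2 ⊢
      rw [abs_of_nonneg (Real.smoothTransition.nonneg _), abs_of_nonneg (by linarith)]
      have h3 := Real.smoothTransition.le_one (n * (1 - ‖x‖ ^ 2) - 1)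
      have h4 := Real.smoothTransition.nonneg (n * (1 - ‖x‖ ^ 2) - 1)
      have h5 := abs_nonneg (q (‖x‖ ^ 2))
      have h6 : (1 - ‖x‖ ^ 2) * |q (‖x‖ ^ 2)| ≤ Q := by nlinarith
      have h7 : 0 ≤ (1 - ‖x‖ ^ 2) * |q (‖x‖ ^ 2)| := by nlinarith
      nlinarith
    · intro x hx
      filter_upwards [hev x hx] with n hn'
      exact hn'.self_of_nhds
  · apply tendsto_eLpNorm_of_bdd (fun n => (continuous_gradient
      ((contDiff_radial (hΘ n)).of_le (by exact_mod_cast le_top))).aestronglyMeasurable) m2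
      (2 * (M * Q + Q'))
    · intro n x hx
      rw [(hasGradientAt_radial (hΘ' n (‖x‖ ^ 2))).gradient, norm_smul]
      have h1 := normsq_lt hx
      have h0 : 0 ≤ ‖x‖ ^ 2 := sq_nonneg _
      have h2 := hQ _ ⟨h0, h1.le⟩
      have h2' := hQ' _ ⟨h0, h1.le⟩
      have h3 := Real.smoothTransition.le_one (n * (1 - ‖x‖ ^ 2) - 1)
      have h4 := Real.smoothTransition.nonneg (n * (1 - ‖x‖ ^ 2) - 1)
      have h5 := hM (n * (1 - ‖x‖ ^ 2)) (mul_nonneg (Nat.cast_nonneg n) (by linarith))
      have h6 : ‖x‖ ≤ 1 := (mem_ball_zero_iff.mp hx).le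
      rw [Real.norm_eq_abs] at h2 h2'
      have h7 : |deriv Real.smoothTransition (n * (1 - ‖x‖ ^ 2) - 1) * (-n)
          * ((1 - ‖x‖ ^ 2) * q (‖x‖ ^ 2))| ≤ M * Q := by
        have : deriv Real.smoothTransition (n * (1 - ‖x‖ ^ 2) - 1) * (-n)
            * ((1 - ‖x‖ ^ 2) * q (‖x‖ ^ 2)) = -((n * (1 - ‖x‖ ^ 2)
              * deriv Real.smoothTransition (n * (1 - ‖x‖ ^ 2) - 1)) * q (‖x‖ ^ 2)) := by ring
        rw [this, abs_neg, abs_mul]
        exact mul_le_mul h5 h2 (abs_nonneg _) hM0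
      have h8 : |Real.smoothTransition (n * (1 - ‖x‖ ^ 2) - 1) * F' (‖x‖ ^ 2)| ≤ Q' := by
        rw [abs_mul, abs_of_nonneg h4]
        have := abs_nonneg (F' (‖x‖ ^ 2))
        nlinarith
      have h9 := le_trans (abs_add_le _ _) (add_le_add h7 h8)
      rw [Real.norm_eq_abs, abs_mul, abs_two]
      have h10 := abs_nonneg (deriv Real.smoothTransition (n * (1 - ‖x‖ ^ 2) - 1) * (-n)
          * ((1 - ‖x‖ ^ 2) * q (‖x‖ ^ 2))
          + Real.smoothTransition (n * (1 - ‖x‖ ^ 2) - 1) * F' (‖x‖ ^ 2))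
      have h11 := norm_nonneg x
      nlinarith
    · intro x hx
      filter_upwards [hev x hx] with n hn'
      have : (fun y : E => Θ n (‖y‖ ^ 2)) =ᶠ[𝓝 x] fun y : E => (1 - ‖y‖ ^ 2) * q (‖y‖ ^ 2) := hn'
      rw [this.gradient_eq]
      exact (hasGradientAt_radial (hF (‖x‖ ^ 2))).gradient

end Pool.Agent.P.MP_0cf84d_an
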