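import Pool.Agent.P.MP_0cf84d_an.DDefs

/-! Working definitions for the dichotomy theorem. -/

set_option linter.unusedSectionVars false
set_option linter.unusedVariables false

namespace Pool.Agent.P.MP_0cf84d_an

open MeasureTheory Filter Topology Metric Set Module
open scoped RealInnerProductSpace ENNReal NNReal

variable {V : Type*} [NormedAddCommGroup V] [InnerProductSpace ℝ V] [FiniteDimensional ℝ V]
  [MeasurableSpace V] [BorelSpace V] [CompleteSpace V] {Ω : Set V}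

/-- Lebesgue measure on `Ω` -/
noncomputable abbrev mm (Ω : Set V) : Measure V := volume.restrict Ω

/-- open, bounded, dimension at least two -/
structure OB (Ω : Set V) : Prop where
  op : IsOpen Ω
  bd : Bornology.IsBounded Ω
  dim : 2 ≤ finrank ℝ V

/-- smooth test functions -/
def Tst (Ω : Set V) (φ : V → ℝ) : Prop :=
  ContDiff ℝ (⊤ : ℕ∞) φ ∧ HasCompactSupport φ ∧ tsupport φ ⊆ Ω

/-- bounded elements of `H^1_0` -/
def TT (Ω : Set V) (v : V → ℝ) (H : V → V) : Prop := InH10 Ω v H ∧ MemLp v ⊤ (mm Ω)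

/-- `-div G ≥ f` -/
structure WGe (Ω : Set V) (G : V → V) (f : V → ℝ) : Prop where
  l2 : MemLp G 2 (mm Ω)
  l1 : Integrable f (mm Ω)
  le : ∀ v H, TT Ω v H → (∀ᵐ x ∂mm Ω, 0 ≤ v x) →
    ∫ x, f x * v x ∂mm Ω ≤ ∫ x, ⟪G x, H x⟫ ∂mm Ω

/-- `-div G = f` -/
structure WEq (Ω : Set V) (G : V → V) (f : V → ℝ) : Prop where
  l2 : MemLp G 2 (mm Ω)
  l1 : Integrable f (mm Ω)
  eq : ∀ v H, TT Ω v H → ∫ x, ⟪G x, H x⟫ ∂mm Ω = ∫ x, f x * v x ∂mm Ω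

/-- `W` is `C^1` in `Ω` with gradient `F`, both are bounded -/
structure Reg (Ω : Set V) (W : V → ℝ) (F : V → V) : Prop where
  grad : ∀ x ∈ Ω, HasGradientAt W (F x) x
  cont : ContinuousOn F Ω
  bdd : ∃ C, ∀ x ∈ Ω, |W x| ≤ C ∧ ‖F x‖ ≤ C

/-- convergence in `L^2` -/
def L2T {α E : Type*} [MeasurableSpace α] [NormedAddCommGroup E] (m : Measure α)
    (f : ℕ → α → E) (g : α → E) : Prop :=
  (∀ n, MemLp (f n) 2 m) ∧ MemLp g 2 m ∧
    Tendsto (fun n => ∫ x, ‖f n x - g x‖ ^ 2 ∂m) atTop (𝓝 0)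

/-- distance to the complement -/
noncomputable def dd (Ω : Set V) (x : V) : ℝ := infDist x Ωᶜ

/-- exterior balls -/
def ExtB (Ω : Set V) (r : ℝ) : Prop :=
  ∀ x ∈ Ω, ∃ y, (∀ z ∈ Ω, r ≤ ‖z - y‖) ∧ ‖x - y‖ ≤ r + dd Ω x

/-- interior balls -/
def IntB (Ω : Set V) (r : ℝ) : Prop :=
  ∀ x ∈ Ω, dd Ω x < r → ∃ y, ball y r ⊆ Ω ∧ ‖x - y‖ ≤ r - dd Ω x

/-- two balls that touch the boundary at `x₀` -/
def TwoB (Ω : Set V) (r : ℝ) (x₀ : V) : Prop :=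
  ∃ ν : V, ‖ν‖ = 1 ∧ ball (x₀ - r • ν) r ⊆ Ω ∧ ∀ z ∈ Ω, r ≤ ‖z - (x₀ + r • ν)‖

/-- the data -/
structure Dat (Ω : Set V) (q : ℝ) (c h μ : V → ℝ) (μ₁ μ₂ : ℝ) : Prop where
  hq : (finrank ℝ V : ℝ) < q
  cq : MemLp c (ENNReal.ofReal q) (mm Ω)
  hh : MemLp h (ENNReal.ofReal q) (mm Ω)
  c0 : ∀ᵐ x ∂mm Ω, 0 ≤ c x
  mum : AEStronglyMeasurable μ (mm Ω)
  pos : 0 < μ₁
  le : μ₁ ≤ μ₂
  mu : ∀ᵐ x ∂mm Ω, μ₁ ≤ μ x ∧ μ x ≤ μ₂

/-- the right side of the equation with Hamiltonian `Hk` -/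
def rhs (c h μ : V → ℝ) (l : ℝ) (Hk : V → ℝ) (u : V → ℝ) (G : V → V) (x : V) : ℝ :=
  l * (c x * u x) + μ x * Hk (G x) + h x

/-- the quadratic Hamiltonian -/
def H2 (p : V) : ℝ := ‖p‖ ^ 2

/-- the truncated Hamiltonian -/
def HH (k : ℝ) (p : V) : ℝ := min (‖p‖ ^ 2) (k ^ 2)

/-- subsolutions of `-Δ u = g` are dominated by `v` -/
def Dom (Ω : Set V) (q : ℝ) (v : V → ℝ) : Prop :=
  ∀ g : V → ℝ, MemLp g (ENNReal.ofReal q) (mm Ω) → (∀ᵐ x ∂mm Ω, 0 ≤ g x) →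
    ∃ C, 0 ≤ C ∧ ∀ u G, InH10 Ω u G → WGe Ω (fun x => -G x) (fun x => -g x) →
      ∀ᵐ x ∂mm Ω, u x ≤ C * v x

/-- the norm of `L^q` -/
noncomputable def nq (Ω : Set V) (q : ℝ) (g : V → ℝ) : ℝ :=
  (eLpNorm g (ENNReal.ofReal q) (mm Ω)).toReal

/-- the regularised Newton kernel as a function of the square of the distance -/
noncomputable def kap (N : ℕ) (D ε s : ℝ) : ℝ := 1 / 2 * ∫ t in s..D, (t + ε) ^ (-(N : ℝ) / 2)

/-- minus its Laplacian -/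
noncomputable def rho (N : ℕ) (ε s : ℝ) : ℝ := N * ε * (s + ε) ^ (-(N : ℝ) / 2 - 1)

/-- the reflected square distance -/
noncomputable def rb (y : V) (r : ℝ) (z x : V) : ℝ :=
  ‖x - z‖ ^ 2 + (‖x - y‖ ^ 2 - r ^ 2) * (‖z - y‖ ^ 2 - r ^ 2) / r ^ 2

/-- a convex combination of exponentials -/
noncomputable def VV (θ a b : ℝ) : ℝ := (1 - θ) * Real.exp a + θ * Real.exp b

/-- the weight of the second term -/
noncomputable def sg (θ a b : ℝ) : ℝ := θ * Real.exp b / VV θ a b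

theorem OB.fin (h : OB Ω) : IsFiniteMeasure (mm Ω) :=
  isFiniteMeasure_restrict.2 h.bd.measure_lt_top.ne

theorem OB.mem (h : OB Ω) : ∀ᵐ x ∂mm Ω, x ∈ Ω := ae_restrict_mem h.op.measurableSet

theorem OB.radius (h : OB Ω) (y : V) : ∃ R, 0 < R ∧ ∀ x ∈ Ω, ‖x - y‖ ≤ R := by
  obtain ⟨R, hR, h1⟩ := h.bd.subset_closedBall_lt 0 y
  exact ⟨R, hR, fun x hx => mem_closedBall_iff_norm.1 (h1 hx)⟩

theorem OB.two_of_q (hΩ : OB Ω) {q : ℝ} (hq : (finrank ℝ V : ℝ) < q) {g : V → ℝ}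
    (hg : MemLp g (ENNReal.ofReal q) (mm Ω)) : MemLp g 2 (mm Ω) := by
  have := hΩ.fin
  have h2 : (2 : ℝ) ≤ finrank ℝ V := by exact_mod_cast hΩ.dim
  refine hg.mono_exponent ?_
  rw [← ENNReal.ofReal_ofNat]
  exact ENNReal.ofReal_le_ofReal (by linarith)

theorem OB.memLp_of_bdd (hΩ : OB Ω) {E : Type*} [NormedAddCommGroup E] {f : V → E}
    (hf : ContinuousOn f Ω) {C : ℝ} (hC : ∀ x ∈ Ω, ‖f x‖ ≤ C) (p : ℝ≥0∞) : MemLp f p (mm Ω) := by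
  have := hΩ.fin
  exact MemLp.of_bound (hf.aestronglyMeasurable hΩ.op.measurableSet) C (hΩ.mem.mono hC)

theorem Reg.contW {W : V → ℝ} {F : V → V} (h : Reg Ω W F) : ContinuousOn W Ω :=
  fun x hx => (h.grad x hx).continuousAt.continuousWithinAt

theorem Reg.memW (hΩ : OB Ω) {W : V → ℝ} {F : V → V} (h : Reg Ω W F) (p : ℝ≥0∞) :
    MemLp W p (mm Ω) := by
  obtain ⟨C, hC⟩ := h.bdd
  exact hΩ.memLp_of_bdd h.contW (fun x hx => (hC x hx).1) p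

theorem Reg.memF (hΩ : OB Ω) {W : V → ℝ} {F : V → V} (h : Reg Ω W F) (p : ℝ≥0∞) :
    MemLp F p (mm Ω) := by
  obtain ⟨C, hC⟩ := h.bdd
  exact hΩ.memLp_of_bdd h.cont (fun x hx => (hC x hx).2) p

theorem reg_const (Ω : Set V) (a : ℝ) : Reg Ω (fun _ => a) (fun _ => 0) :=
  ⟨fun x _ => hasGradientAt_const x a, continuousOn_const,
    |a|, fun _ _ => ⟨le_rfl, by simp⟩⟩

theorem Reg.add {W W' : V → ℝ} {F F' : V → V} (h : Reg Ω W F) (h' : Reg Ω W' F') :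
    Reg Ω (fun x => W x + W' x) (fun x => F x + F' x) := by
  obtain ⟨C, hC⟩ := h.bdd
  obtain ⟨C', hC'⟩ := h'.bdd
  refine ⟨fun x hx => ?_, h.cont.add h'.cont, C + C', fun x hx => ⟨(abs_add_le _ _).trans
    (add_le_add (hC x hx).1 (hC' x hx).1), (norm_add_le _ _).trans
    (add_le_add (hC x hx).2 (hC' x hx).2)⟩⟩
  have h1 := (h.grad x hx).hasFDerivAt.add (h'.grad x hx).hasFDerivAt
  rw [← map_add] at h1
  exact hasGradientAt_iff_hasFDerivAt.2 h1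

theorem Reg.smul {W : V → ℝ} {F : V → V} (h : Reg Ω W F) (a : ℝ) :
    Reg Ω (fun x => a * W x) (fun x => a • F x) := by
  obtain ⟨C, hC⟩ := h.bdd
  refine ⟨fun x hx => ?_, h.cont.const_smul a, |a| * C, fun x hx => ⟨?_, ?_⟩⟩
  · have h1 := (h.grad x hx).hasFDerivAt.const_mul a
    refine hasGradientAt_iff_hasFDerivAt.2 (h1.congr_fderiv ?_)
    ext v
    simp
  · rw [abs_mul]
    exact mul_le_mul_of_nonneg_left (hC x hx).1 (abs_nonneg a)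
  · rw [norm_smul]
    exact mul_le_mul_of_nonneg_left (hC x hx).2 (abs_nonneg a)

end Pool.Agent.P.MP_0cf84d_an
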