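import Pool.Agent.P.MP_0cf84d_an.DChain0

/-! Chain rule for bounded functions, products, truncation. -/

set_option linter.unusedSectionVars false
set_option linter.unusedVariables false

namespace Pool.Agent.P.MP_0cf84d_an

open MeasureTheory Filter Topology Metric Set Module
open scoped RealInnerProductSpace ENNReal NNReal

variable {V : Type*} [NormedAddCommGroup V] [InnerProductSpace ℝ V] [FiniteDimensional ℝ V]
  [MeasurableSpace V] [BorelSpace V] [CompleteSpace V] {Ω : Set V}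

variable {u v : V → ℝ} {G H : V → V}

theorem chain1 (hΩ : OB Ω) (hu : TT Ω u G) {a b : ℝ} (ha : a ≤ 0) (hb : 0 ≤ b)
    (h : ∀ᵐ x ∂mm Ω, u x ∈ Icc a b) {P ψ : ℝ → ℝ} (hP : ∀ s ∈ Icc a b, HasDerivAt P (ψ s) s)
    (hψ : ContinuousOn ψ (Icc a b)) :
    TT Ω (fun x => P (u x) - P 0) (fun x => ψ (u x) • G x) := by
  have hab : a ≤ b := ha.trans hb
  have cm : ∀ s : ℝ, max a (min s b) ∈ Icc a b := fun s =>
    ⟨le_max_left _ _, max_le hab (min_le_right _ _)⟩
  have ce : ∀ s ∈ Icc a b, max a (min s b) = s := fun s hs => by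
    rw [min_eq_left hs.2, max_eq_right hs.1]
  have c1 : Continuous fun s : ℝ => ψ (max a (min s b)) :=
    hψ.comp_continuous (f := fun s : ℝ => max a (min s b)) (by fun_prop) cm
  obtain ⟨L, hL⟩ := isCompact_Icc.exists_bound_of_continuousOn hψ
  have d1 : ∀ s : ℝ, HasDerivAt (fun s : ℝ => ∫ t in (0 : ℝ)..s, ψ (max a (min t b)))
      (ψ (max a (min s b))) s := fun s => (c1.integral_hasStrictDerivAt 0 s).hasDerivAt
  have e1 : ∀ s ∈ Icc a b, ∫ t in (0 : ℝ)..s, ψ (max a (min t b)) = P s - P 0 := fun s hs => by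
    have sub : uIcc 0 s ⊆ Icc a b := uIcc_subset_Icc ⟨ha, hb⟩ hs
    refine intervalIntegral.integral_eq_sub_of_hasDerivAt (fun t ht => ?_)
      (c1.intervalIntegrable _ _)
    rw [ce t (sub ht)]
    exact hP t (sub ht)
  have k := chain0 hΩ hu.1 (reg_const Ω 0) isCompact_empty (empty_subset Ω) d1 c1
    (L := L) (fun s => hL _ (cm s)) (fun x _ _ => by simp)
  refine ⟨k.congr (h.mono fun x hx => ?_) (h.mono fun x hx => ?_), ?_⟩
  · simp only [sub_zero]
    exact e1 _ hx
  · simp only [sub_zero]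
    rw [ce _ hx]
  · exact memLp_top_comp hu.2.1 h (P := fun s => P s - P 0)
      (ContinuousOn.sub (fun s hs => (hP s hs).continuousAt.continuousWithinAt) continuousOn_const)

theorem dchain_sq (hΩ : OB Ω) (hu : TT Ω u G) :
    TT Ω (fun x => u x ^ 2) (fun x => (2 * u x) • G x) := by
  obtain ⟨M, hM, h⟩ := top_bound hu.2
  have k := chain1 hΩ hu (a := -M) (b := M) (by linarith) hM.le
    (h.mono fun x hx => abs_le.1 hx) (P := fun s => s ^ 2) (ψ := fun s => 2 * s)
    (fun s _ => by simpa using hasDerivAt_pow 2 s) (by fun_prop)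
  exact k.congr (Eventually.of_forall fun x => by simp) EventuallyEq.rfl

theorem TT.mul (hΩ : OB Ω) (hu : TT Ω u G) (hv : TT Ω v H) :
    TT Ω (fun x => u x * v x) (fun x => u x • H x + v x • G x) := by
  have k := ((dchain_sq hΩ (hu.add hΩ hv)).sub hΩ (dchain_sq hΩ (hu.sub hΩ hv))).smul hΩ (1 / 4)
  refine k.congr (Eventually.of_forall fun x => ?_) (Eventually.of_forall fun x => ?_)
  · simp only
    ring
  · simp only
    module

theorem trunc (hΩ : OB Ω) (hv : InH10 Ω v H) (h0 : ∀ᵐ x ∂mm Ω, 0 ≤ v x) :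
    ∃ (w : ℕ → V → ℝ) (D : ℕ → V → V), (∀ n, TT Ω (w n) (D n)) ∧ (∀ n, ∀ᵐ x ∂mm Ω, 0 ≤ w n x) ∧
      L2T (mm Ω) w v ∧ L2T (mm Ω) D H := by
  have k : ∀ n : ℕ, InH10 Ω (fun x => v x - max (v x - n) 0)
      (fun x => H x - if (n : ℝ) < v x then H x - 0 else 0) := fun n =>
    hv.sub hΩ (posPart hΩ hv (reg_const Ω n) isCompact_empty (empty_subset Ω)
      (fun x _ _ => Nat.cast_nonneg n))
  have b : ∀ (n : ℕ) (t : ℝ), 0 ≤ t → 0 ≤ t - max (t - n) 0 ∧ t - max (t - n) 0 ≤ n ∧
      t - max (t - n) 0 ≤ t := fun n t ht => by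
    have hn : (0 : ℝ) ≤ n := Nat.cast_nonneg n
    rcases le_total (t - n) 0 with h | h
    · rw [max_eq_right h]
      exact ⟨by linarith, by linarith, by linarith⟩
    · rw [max_eq_left h]
      exact ⟨by linarith, by linarith, by linarith⟩
  have ev : ∀ t : ℝ, ∀ᶠ n : ℕ in atTop, t ≤ n := fun t =>
    tendsto_natCast_atTop_atTop.eventually_ge_atTop t
  refine ⟨fun n x => v x - max (v x - n) 0,
    fun n x => H x - if (n : ℝ) < v x then H x - 0 else 0, fun n => (k n).tt (M := n) ?_,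
    fun n => h0.mono fun x hx => (b n _ hx).1, ?_, ?_⟩
  · refine h0.mono fun x hx => ?_
    rw [abs_of_nonneg (b n _ hx).1]
    exact (b n _ hx).2.1
  · refine l2t_of_dom (fun n => (k n).1.1) hv.1 (fun n => h0.mono fun x hx => ?_)
      (Eventually.of_forall fun x => ?_)
    · rw [Real.norm_eq_abs, abs_of_nonneg (b n _ hx).1]
      exact (b n _ hx).2.2
    · refine tendsto_const_nhds.congr' ((ev (v x)).mono fun n hn => ?_)
      simp only
      rw [max_eq_right (sub_nonpos.2 hn), sub_zero]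
  · refine l2t_of_dom (fun n => (k n).2.1.1) hv.2.1.norm
      (fun n => Eventually.of_forall fun x => ?_) (Eventually.of_forall fun x => ?_)
    · split_ifs <;> simp
    · refine tendsto_const_nhds.congr' ((ev (v x)).mono fun n hn => ?_)
      simp only
      rw [if_neg (not_lt.2 hn), sub_zero]

end Pool.Agent.P.MP_0cf84d_an
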