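import Pool.Agent.P.MP_0cf84d_an.DMoll

/-! Chain rule, positive part. -/

set_option linter.unusedSectionVars false
set_option linter.unusedVariables false

namespace Pool.Agent.P.MP_0cf84d_an

open MeasureTheory Filter Topology Metric Set Module
open scoped RealInnerProductSpace ENNReal NNReal

variable {V : Type*} [NormedAddCommGroup V] [InnerProductSpace ℝ V] [FiniteDimensional ℝ V]
  [MeasurableSpace V] [BorelSpace V] [CompleteSpace V] {Ω : Set V}

variable {u W : V → ℝ} {G F : V → V} {K : Set V}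

theorem dchain0_lip {P ψ : ℝ → ℝ} (hP : ∀ s, HasDerivAt P (ψ s) s) {L : ℝ}
    (hL : ∀ s, |ψ s| ≤ L) (a b : ℝ) : |P a - P b| ≤ L * |a - b| := by
  have := Convex.norm_image_sub_le_of_norm_hasDerivWithin_le (f := P) (f' := ψ) (s := univ)
    (C := L) (fun x _ => (hP x).hasDerivWithinAt) (fun x _ => hL x) convex_univ
    (mem_univ b) (mem_univ a)
  simpa [Real.norm_eq_abs] using this

theorem dchain0_sub {W' : V → ℝ} {F' : V → V} (h : Reg Ω W F) (h' : Reg Ω W' F') :
    Reg Ω (fun x => W x - W' x) (fun x => F x - F' x) := by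
  have := h.add (h'.smul (-1))
  simpa [sub_eq_add_neg] using this

theorem dchain0_comp (h : Reg Ω W F) {P ψ : ℝ → ℝ} (hP : ∀ s, HasDerivAt P (ψ s) s)
    (hψ : Continuous ψ) {L : ℝ} (hL : ∀ s, |ψ s| ≤ L) :
    Reg Ω (fun x => P (W x)) (fun x => ψ (W x) • F x) := by
  obtain ⟨C, hC⟩ := h.bdd
  have hL0 : 0 ≤ L := (abs_nonneg _).trans (hL 0)
  refine ⟨fun x hx => ?_, (hψ.comp_continuousOn h.contW).smul h.cont,
    |P 0| + L * C, fun x hx => ⟨?_, ?_⟩⟩
  · have h1 := (hP (W x)).comp_hasFDerivAt x (h.grad x hx).hasFDerivAt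
    refine hasGradientAt_iff_hasFDerivAt.2 (h1.congr_fderiv ?_)
    ext v
    simp
  · have h1 := dchain0_lip hP hL (W x) 0
    rw [sub_zero] at h1
    have h2 := mul_le_mul_of_nonneg_left (hC x hx).1 hL0
    have h3 : |P (W x)| ≤ |P 0| + |P (W x) - P 0| := by
      have := abs_add_le (P 0) (P (W x) - P 0)
      simpa using this
    linarith
  · rw [norm_smul, Real.norm_eq_abs]
    have h1 := mul_le_mul (hL (W x)) (hC x hx).2 (norm_nonneg _) hL0
    linarith [abs_nonneg (P 0)]

theorem dchain0_memP {α : Type*} [MeasurableSpace α] {m : Measure α} [IsFiniteMeasure m]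
    {a : α → ℝ} (ha : MemLp a 2 m) {P ψ : ℝ → ℝ} (hP : ∀ s, HasDerivAt P (ψ s) s) {L : ℝ}
    (hL : ∀ s, |ψ s| ≤ L) : MemLp (fun x => P (a x)) 2 m := by
  have hc : Continuous P := continuous_iff_continuousAt.2 fun s => (hP s).continuousAt
  have hb : MemLp (fun x => |P 0| + L * ‖a x‖) 2 m :=
    MemLp.add (f := fun _ => |P 0|) (g := fun x => L * ‖a x‖) (memLp_const _)
      (ha.norm.const_mul L)
  refine hb.mono' (hc.comp_aestronglyMeasurable ha.1) (Eventually.of_forall fun x => ?_)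
  have h1 := dchain0_lip hP hL (a x) 0
  rw [sub_zero] at h1
  have h3 : |P (a x)| ≤ |P 0| + |P (a x) - P 0| := by
    have := abs_add_le (P 0) (P (a x) - P 0)
    simpa using this
  simp only [Real.norm_eq_abs]
  linarith

theorem dchain0_memS {α : Type*} [MeasurableSpace α] {m : Measure α}
    {a : α → ℝ} (ha : AEStronglyMeasurable a m) {H : α → V} (hH : MemLp H 2 m) {ψ : ℝ → ℝ}
    (hψ : Continuous ψ) {L : ℝ} (hL : ∀ s, |ψ s| ≤ L) :
    MemLp (fun x => ψ (a x) • H x) 2 m :=
  memLp_top_smul (memLp_top_of_bound (hψ.comp_aestronglyMeasurable ha) L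
    (Eventually.of_forall fun x => hL _)) hH

theorem chain0 (hΩ : OB Ω) (hu : InH10 Ω u G) (hW : Reg Ω W F) (hK : IsCompact K) (hKΩ : K ⊆ Ω)
    {P ψ : ℝ → ℝ} (hP : ∀ s, HasDerivAt P (ψ s) s) (hψ : Continuous ψ) {L : ℝ}
    (hL : ∀ s, |ψ s| ≤ L) (h0 : ∀ x ∈ Ω, x ∉ K → P (-W x) = 0) :
    InH10 Ω (fun x => P (u x - W x)) (fun x => ψ (u x - W x) • (G x - F x)) := by
  have hfin := hΩ.fin
  have hL0 : 0 ≤ L := (abs_nonneg _).trans (hL 0)
  obtain ⟨φ₀, ht₀, h1₀, h2₀⟩ := hu.approx hΩ
  obtain ⟨σ, hσ, hae⟩ := h1₀.subseq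
  have h1 := h1₀.comp hσ.tendsto_atTop
  have h2 := h2₀.comp hσ.tendsto_atTop
  set φ : ℕ → V → ℝ := fun n => φ₀ (σ n) with hφ
  have ht : ∀ n, Tst Ω (φ n) := fun n => ht₀ (σ n)
  have hWm := hW.memW hΩ 2
  have hFm := hW.memF hΩ 2
  have hGF : MemLp (fun x => G x - F x) 2 (mm Ω) := hu.2.1.sub hFm
  have huW : MemLp (fun x => u x - W x) 2 (mm Ω) := hu.1.sub hWm
  have hreg : ∀ n, Reg Ω (fun x => P (φ n x - W x))
      (fun x => ψ (φ n x - W x) • (gradient (φ n) x - F x)) := fun n =>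
    dchain0_comp (dchain0_sub (ht n).reg hW) hP hψ hL
  have hφW : ∀ n, AEStronglyMeasurable (fun x => φ n x - W x) (mm Ω) := fun n =>
    (h1.1 n).1.sub hWm.1
  refine inH10_limit hΩ (w := fun n x => P (φ n x - W x))
    (D := fun n x => ψ (φ n x - W x) • (gradient (φ n) x - F x)) (fun n => ?_) ?_ ?_
  · refine c1_mem hΩ (hreg n) (hK.union (ht n).2.1.isCompact)
      (union_subset hKΩ (ht n).2.2) (fun x hx hxK => ?_)
    have h3 : φ n x = 0 := image_eq_zero_of_notMem_tsupport fun h => hxK (Or.inr h)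
    rw [h3, zero_sub]
    exact h0 x hx fun h => hxK (Or.inl h)
  · refine h1.of_le (fun n => (hreg n).memW hΩ 2) (dchain0_memP huW hP hL) L
      (fun n => Eventually.of_forall fun x => ?_)
    have h3 := dchain0_lip hP hL (φ n x - W x) (u x - W x)
    rw [sub_sub_sub_cancel_right] at h3
    exact h3
  · have hA : L2T (mm Ω) (fun n x => ψ (φ n x - W x) • (gradient (φ n) x - G x))
        (fun _ => (0 : V)) := by
      refine h2.of_le (fun n => dchain0_memS (hφW n) ((h2.1 n).sub hu.2.1) hψ hL)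
        (memLp_const _) L (fun n => Eventually.of_forall fun x => ?_)
      rw [sub_zero, norm_smul, Real.norm_eq_abs]
      exact mul_le_mul_of_nonneg_right (hL _) (norm_nonneg _)
    have hB : L2T (mm Ω) (fun n x => ψ (φ n x - W x) • (G x - F x))
        (fun x => ψ (u x - W x) • (G x - F x)) := by
      refine l2t_of_dom (fun n => (dchain0_memS (hφW n) hGF hψ hL).1) (hGF.norm.const_mul L)
        (fun n => Eventually.of_forall fun x => ?_) (hae.mono fun x hx => ?_)
      · rw [norm_smul, Real.norm_eq_abs]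
        exact mul_le_mul_of_nonneg_right (hL _) (norm_nonneg _)
      · exact ((hψ.tendsto _).comp (hx.sub_const (W x))).smul_const _
    refine (hA.add hB).congr (fun n => Eventually.of_forall fun x => ?_)
      (Eventually.of_forall fun x => ?_)
    · simp only
      rw [← smul_add, sub_add_sub_cancel]
    · simp

/-- the clamped ramp -/
noncomputable def dchain0_ps (k : ℕ) (t : ℝ) : ℝ := min 1 (max 0 (k * t))

theorem dchain0_ps_cont (k : ℕ) : Continuous (dchain0_ps k) :=
  continuous_const.min (continuous_const.max (continuous_const.mul continuous_id))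

theorem dchain0_ps_abs (k : ℕ) (t : ℝ) : |dchain0_ps k t| ≤ 1 := by
  rw [abs_le]
  refine ⟨?_, min_le_left _ _⟩
  exact le_min (by norm_num) ((by norm_num : (-1 : ℝ) ≤ 0).trans (le_max_left _ _))

theorem dchain0_ps_neg (k : ℕ) {t : ℝ} (ht : t ≤ 0) : dchain0_ps k t = 0 := by
  unfold dchain0_ps
  rw [max_eq_left (mul_nonpos_of_nonneg_of_nonpos (Nat.cast_nonneg k) ht)]
  simp

theorem dchain0_ps_pos {t : ℝ} (ht : 0 < t) : ∀ᶠ k : ℕ in atTop, dchain0_ps k t = 1 := by
  have h1 : Tendsto (fun k : ℕ => (k : ℝ) * t) atTop atTop :=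
    tendsto_natCast_atTop_atTop.atTop_mul_const ht
  filter_upwards [h1.eventually_ge_atTop 1] with k hk
  exact min_eq_left (hk.trans (le_max_right _ _))

/-- its primitive -/
noncomputable def dchain0_P (k : ℕ) (s : ℝ) : ℝ := ∫ t in (0 : ℝ)..s, dchain0_ps k t

theorem dchain0_P_deriv (k : ℕ) (s : ℝ) : HasDerivAt (dchain0_P k) (dchain0_ps k s) s :=
  ((dchain0_ps_cont k).integral_hasStrictDerivAt 0 s).hasDerivAt

theorem dchain0_P_neg (k : ℕ) {s : ℝ} (hs : s ≤ 0) : dchain0_P k s = 0 := by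
  unfold dchain0_P
  rw [intervalIntegral.integral_congr (g := fun _ => (0 : ℝ))]
  · simp
  · intro t ht
    rw [uIcc_of_ge hs] at ht
    exact dchain0_ps_neg k ht.2

theorem dchain0_P_abs (k : ℕ) (s : ℝ) : |dchain0_P k s| ≤ |s| := by
  have h1 := dchain0_lip (dchain0_P_deriv k) (dchain0_ps_abs k) s 0
  rwa [dchain0_P_neg k le_rfl, sub_zero, sub_zero, one_mul] at h1

theorem dchain0_P_lim (s : ℝ) : Tendsto (fun k => dchain0_P k s) atTop (𝓝 (max s 0)) := by
  rcases le_or_gt s 0 with hs | hs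
  · simp only [dchain0_P_neg _ hs, max_eq_right hs]
    exact tendsto_const_nhds
  · have h1 : max s 0 = ∫ t in (0 : ℝ)..s, (1 : ℝ) := by simp [hs.le]
    rw [h1]
    refine intervalIntegral.tendsto_integral_filter_of_dominated_convergence (fun _ => 1)
      (Eventually.of_forall fun k => (dchain0_ps_cont k).aestronglyMeasurable)
      (Eventually.of_forall fun k => Eventually.of_forall fun t _ => dchain0_ps_abs k t)
      intervalIntegrable_const (Eventually.of_forall fun t ht => ?_)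
    rw [uIoc_of_le hs.le] at ht
    exact tendsto_const_nhds.congr' ((dchain0_ps_pos ht.1).mono fun k hk => hk.symm)

theorem posPart (hΩ : OB Ω) (hu : InH10 Ω u G) (hW : Reg Ω W F) (hK : IsCompact K) (hKΩ : K ⊆ Ω)
    (h0 : ∀ x ∈ Ω, x ∉ K → 0 ≤ W x) :
    InH10 Ω (fun x => max (u x - W x) 0) (fun x => if W x < u x then G x - F x else 0) := by
  have hGF : MemLp (fun x => G x - F x) 2 (mm Ω) := hu.2.1.sub (hW.memF hΩ 2)
  have huW : MemLp (fun x => u x - W x) 2 (mm Ω) := hu.1.sub (hW.memW hΩ 2)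
  have hk : ∀ k, InH10 Ω (fun x => dchain0_P k (u x - W x))
      (fun x => dchain0_ps k (u x - W x) • (G x - F x)) := fun k =>
    chain0 hΩ hu hW hK hKΩ (dchain0_P_deriv k) (dchain0_ps_cont k) (dchain0_ps_abs k)
      fun x hx hxK => dchain0_P_neg k (neg_nonpos.2 (h0 x hx hxK))
  refine inH10_limit hΩ hk ?_ ?_
  · exact l2t_of_dom (fun k => (hk k).1.1) huW.norm
      (fun k => Eventually.of_forall fun x => dchain0_P_abs k _)
      (Eventually.of_forall fun x => dchain0_P_lim _)
  · refine l2t_of_dom (fun k => (hk k).2.1.1) hGF.norm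
      (fun k => Eventually.of_forall fun x => ?_) (Eventually.of_forall fun x => ?_)
    · rw [norm_smul, Real.norm_eq_abs]
      exact mul_le_of_le_one_left (norm_nonneg _) (dchain0_ps_abs k _)
    · split_ifs with h
      · refine tendsto_const_nhds.congr' ((dchain0_ps_pos (sub_pos.2 h)).mono fun k hk => ?_)
        simp only [hk, one_smul]
      · simp only [dchain0_ps_neg _ (sub_nonpos.2 (not_lt.1 h)), zero_smul]
        exact tendsto_const_nhds

end Pool.Agent.P.MP_0cf84d_an
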