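import Pool.Agent.P.MP_0cf84d_an.DSob

/-! Radial fields. -/

set_option linter.unusedSectionVars false
set_option linter.unusedVariables false

namespace Pool.Agent.P.MP_0cf84d_an

open MeasureTheory Filter Topology Metric Set Module
open scoped RealInnerProductSpace ENNReal NNReal

variable {V : Type*} [NormedAddCommGroup V] [InnerProductSpace ℝ V] [FiniteDimensional ℝ V]
  [MeasurableSpace V] [BorelSpace V] [CompleteSpace V] {Ω : Set V}

theorem dibp_sq (y x : V) :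
    HasFDerivAt (fun z : V => ‖z - y‖ ^ 2) (2 • innerSL ℝ (x - y)) x := by
  have h := (hasStrictFDerivAt_norm_sq (x - y)).hasFDerivAt.comp x ((hasFDerivAt_id x).sub_const y)
  rw [ContinuousLinearMap.comp_id] at h
  exact h

theorem dibp_grad (y : V) {A : ℝ → ℝ} {t : ℝ} {x : V} (h : HasDerivAt A t (‖x - y‖ ^ 2)) :
    HasGradientAt (fun x => A (‖x - y‖ ^ 2)) ((2 * t) • (x - y)) x := by
  have h1 := h.comp_hasFDerivAt x (dibp_sq y x)
  rw [hasGradientAt_iff_hasFDerivAt]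
  have e : (InnerProductSpace.toDual ℝ V) ((2 * t) • (x - y)) = t • 2 • (innerSL ℝ) (x - y) := by
    ext z
    simp only [map_smul, smul_apply, InnerProductSpace.toDual_apply_apply,
      smul_eq_mul, innerSL_apply_apply, nsmul_eq_mul, Nat.cast_ofNat]
    ring
  rw [e]
  exact h1

theorem dibp_aux (hΩ : OB Ω) {φ : V → ℝ} (hφ : Tst Ω φ) (e : V) {g g' : V → ℝ}
    (hg : MemLp g 2 (mm Ω)) (hg' : MemLp g' 2 (mm Ω))
    (hd : ∀ x ∈ Ω, HasLineDerivAt ℝ g (g' x) x e) :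
    ∫ x, φ x * g' x ∂mm Ω = -∫ x, ⟪gradient φ x, e⟫ * g x ∂mm Ω := by
  have h1 : MemLp φ 2 (mm Ω) := hφ.reg.memW hΩ 2
  have h2 : MemLp (fun x => ⟪gradient φ x, e⟫) 2 (mm Ω) := (hφ.reg.memF hΩ 2).inner_const e
  have z1 : ∀ x, x ∉ Ω → φ x = 0 := fun x hx =>
    image_eq_zero_of_notMem_tsupport fun h => hx (hφ.2.2 h)
  have z2 : ∀ x, x ∉ Ω → ⟪gradient φ x, e⟫ = 0 := by
    intro x hx
    have : fderiv ℝ φ x = 0 := by
      by_contra h
      exact hx (hφ.2.2 (support_fderiv_subset ℝ h))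
    simp [gradient, this]
  have hφd : ∀ x, HasLineDerivAt ℝ φ ⟪gradient φ x, e⟫ x e := by
    intro x
    have h3 : DifferentiableAt ℝ φ x := hφ.1.differentiable (by simp) x
    have h4 := h3.hasGradientAt.hasFDerivAt.hasLineDerivAt e
    simpa using h4
  have i1 : Integrable (fun x => ⟪gradient φ x, e⟫ * g x) volume :=
    IntegrableOn.integrable_of_forall_notMem_eq_zero (int_mul h2 hg) fun x hx => by
      rw [z2 x hx, zero_mul]
  have i2 : Integrable (fun x => φ x * g' x) volume :=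
    IntegrableOn.integrable_of_forall_notMem_eq_zero (int_mul h1 hg') fun x hx => by
      rw [z1 x hx, zero_mul]
  have i3 : Integrable (fun x => φ x * g x) volume :=
    IntegrableOn.integrable_of_forall_notMem_eq_zero (int_mul h1 hg) fun x hx => by
      rw [z1 x hx, zero_mul]
  have key := integral_bilinear_hasLineDerivAt_right_eq_neg_left_of_integrable
    (μ := (volume : Measure V)) (B := ContinuousLinearMap.mul ℝ ℝ) (v := e) (f := φ)
    (f' := fun x => ⟪gradient φ x, e⟫) (g := g) (g' := g') i1 i2 i3 (fun x _ => hφd x)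
    (fun x hx => hd x (hφ.2.2 hx))
  simp only [ContinuousLinearMap.mul_apply'] at key
  rw [setIntegral_eq_integral_of_forall_compl_eq_zero fun x hx => by rw [z1 x hx, zero_mul],
    setIntegral_eq_integral_of_forall_compl_eq_zero fun x hx => by rw [z2 x hx, zero_mul]]
  exact key

theorem reg_radial (hΩ : OB Ω) (y : V) {A a : ℝ → ℝ}
    (hA : ∀ x ∈ Ω, HasDerivAt A (a (‖x - y‖ ^ 2)) (‖x - y‖ ^ 2))
    (hc : ContinuousOn (fun x => a (‖x - y‖ ^ 2)) Ω) {C : ℝ}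
    (hb : ∀ x ∈ Ω, |A (‖x - y‖ ^ 2)| ≤ C ∧ |a (‖x - y‖ ^ 2)| ≤ C) :
    Reg Ω (fun x => A (‖x - y‖ ^ 2)) (fun x => (2 * a (‖x - y‖ ^ 2)) • (x - y)) := by
  obtain ⟨R, hR, hR'⟩ := hΩ.radius y
  refine ⟨fun x hx => dibp_grad y (hA x hx),
    (continuousOn_const.mul hc).smul (continuousOn_id.sub continuousOn_const),
    max C (2 * C * R), fun x hx => ⟨(hb x hx).1.trans (le_max_left _ _), ?_⟩⟩
  refine le_trans ?_ (le_max_right _ _)
  rw [norm_smul, Real.norm_eq_abs, abs_mul, abs_two]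
  have h1 := (hb x hx).2
  have h2 := abs_nonneg (a (‖x - y‖ ^ 2))
  exact mul_le_mul (by linarith) (hR' x hx) (norm_nonneg _) (by linarith)

theorem weq_radial (hΩ : OB Ω) (y : V) {a a' : ℝ → ℝ}
    (ha : ∀ x ∈ Ω, HasDerivAt a (a' (‖x - y‖ ^ 2)) (‖x - y‖ ^ 2))
    (hc : ContinuousOn (fun x => a' (‖x - y‖ ^ 2)) Ω) {C : ℝ}
    (hb : ∀ x ∈ Ω, |a (‖x - y‖ ^ 2)| ≤ C ∧ |a' (‖x - y‖ ^ 2)| ≤ C) :
    WEq Ω (fun x => a (‖x - y‖ ^ 2) • (x - y))
      (fun x => -(finrank ℝ V * a (‖x - y‖ ^ 2) + 2 * ‖x - y‖ ^ 2 * a' (‖x - y‖ ^ 2))) := by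
  obtain ⟨R, hR, hR'⟩ := hΩ.radius y
  have hreg := reg_radial hΩ y ha hc hb
  have ca : ContinuousOn (fun x => a (‖x - y‖ ^ 2)) Ω := hreg.contW
  have cs : ContinuousOn (fun x : V => x - y) Ω := continuousOn_id.sub continuousOn_const
  have ma : MemLp (fun x => a (‖x - y‖ ^ 2)) ⊤ (mm Ω) := hreg.memW hΩ ⊤
  have ma2 : MemLp (fun x => a (‖x - y‖ ^ 2)) 2 (mm Ω) := hreg.memW hΩ 2
  have ma' : MemLp (fun x => a' (‖x - y‖ ^ 2)) ⊤ (mm Ω) :=
    hΩ.memLp_of_bdd hc (fun x hx => (hb x hx).2) ⊤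
  have ms : ∀ p, MemLp (fun x : V => x - y) p (mm Ω) := hΩ.memLp_of_bdd cs hR'
  have mq : MemLp (fun x : V => 2 * ‖x - y‖ ^ 2) 2 (mm Ω) := by
    refine hΩ.memLp_of_bdd (f := fun x : V => 2 * ‖x - y‖ ^ 2)
      (continuousOn_const.mul (cs.norm.pow 2)) (C := 2 * R ^ 2) (fun x hx => ?_) 2
    have h1 := hR' x hx
    have h2 := norm_nonneg (x - y)
    rw [Real.norm_eq_abs, abs_of_nonneg (by positivity)]
    nlinarith
  refine weq_of_tst hΩ (memLp_top_smul ma (ms 2))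
    ((ma2.const_mul _).add (memLp_mul_top mq ma')).neg fun φ hφ => ?_
  set b := stdOrthonormalBasis ℝ V with hbdef
  have mi : ∀ i p, MemLp (fun x : V => ⟪x - y, b i⟫) p (mm Ω) := fun i p => (ms p).inner_const _
  have mg : ∀ i, MemLp (fun x => ⟪x - y, b i⟫ * a (‖x - y‖ ^ 2)) 2 (mm Ω) :=
    fun i => memLp_mul_top (mi i 2) ma
  have mg' : ∀ i, MemLp (fun x => a (‖x - y‖ ^ 2) +
      2 * (⟪x - y, b i⟫ * ⟪x - y, b i⟫ * a' (‖x - y‖ ^ 2))) 2 (mm Ω) :=
    fun i => ma2.add ((memLp_mul_top (memLp_mul_top (mi i 2) (mi i ⊤)) ma').const_mul 2)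
  have hd : ∀ i, ∀ x ∈ Ω, HasLineDerivAt ℝ (fun x => ⟪x - y, b i⟫ * a (‖x - y‖ ^ 2))
      (a (‖x - y‖ ^ 2) + 2 * (⟪x - y, b i⟫ * ⟪x - y, b i⟫ * a' (‖x - y‖ ^ 2))) x (b i) := by
    intro i x hx
    have h1 : HasFDerivAt (fun x : V => ⟪x - y, b i⟫) (innerSL ℝ (b i)) x := by
      have h0 := ((innerSL ℝ (b i)).hasFDerivAt (x := x)).sub_const ⟪b i, y⟫
      refine h0.congr_of_eventuallyEq (Eventually.of_forall fun z => ?_)
      simp only [innerSL_apply_apply]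
      rw [real_inner_comm, inner_sub_right]
    have h2 := (h1.mul (dibp_grad y (ha x hx)).hasFDerivAt).hasLineDerivAt (b i)
    have e1 : ⟪b i, b i⟫ = (1 : ℝ) := by
      rw [real_inner_self_eq_norm_sq, b.orthonormal.1 i]
      norm_num
    refine h2.congr_deriv ?_
    simp only [add_apply, smul_apply,
      InnerProductSpace.toDual_apply_apply, smul_eq_mul, innerSL_apply_apply, e1,
      real_inner_smul_left]
    ring
  have key := fun i => dibp_aux hΩ hφ (b i) (mg i) (mg' i) (hd i)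
  have h1 : MemLp φ 2 (mm Ω) := hφ.reg.memW hΩ 2
  have h2 : ∀ i, MemLp (fun x => ⟪gradient φ x, b i⟫) 2 (mm Ω) :=
    fun i => (hφ.reg.memF hΩ 2).inner_const _
  have s1 := Finset.sum_congr (s₁ := Finset.univ) rfl fun i _ => key i
  rw [Finset.sum_neg_distrib, ← integral_finsetSum _ fun i _ => int_mul h1 (mg' i),
    ← integral_finsetSum _ fun i _ => int_mul (h2 i) (mg i)] at s1
  have e1 : ∀ x, ∑ i, ⟪gradient φ x, b i⟫ * (⟪x - y, b i⟫ * a (‖x - y‖ ^ 2)) =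
      ⟪a (‖x - y‖ ^ 2) • (x - y), gradient φ x⟫ := by
    intro x
    rw [real_inner_smul_left, real_inner_comm, ← b.sum_inner_mul_inner, Finset.mul_sum]
    refine Finset.sum_congr rfl fun i _ => ?_
    rw [real_inner_comm (x - y) (b i)]
    ring
  have e2 : ∀ x, ∑ i, φ x * (a (‖x - y‖ ^ 2) +
      2 * (⟪x - y, b i⟫ * ⟪x - y, b i⟫ * a' (‖x - y‖ ^ 2))) =
      -(-(finrank ℝ V * a (‖x - y‖ ^ 2) + 2 * ‖x - y‖ ^ 2 * a' (‖x - y‖ ^ 2)) * φ x) := by
    intro x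
    have e3 : ∑ i, ⟪x - y, b i⟫ * ⟪x - y, b i⟫ = ‖x - y‖ ^ 2 := by
      rw [← real_inner_self_eq_norm_sq, ← b.sum_inner_mul_inner]
      refine Finset.sum_congr rfl fun i _ => ?_
      rw [real_inner_comm (x - y) (b i)]
    rw [← Finset.mul_sum, Finset.sum_add_distrib, ← Finset.mul_sum, ← Finset.sum_mul, e3]
    simp only [Finset.sum_const, Finset.card_univ, Fintype.card_fin, nsmul_eq_mul]
    ring
  simp only [e1, e2] at s1
  rw [integral_neg] at s1
  exact (neg_inj.1 s1).symm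

end Pool.Agent.P.MP_0cf84d_an
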