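import Pool.Agent.P.MP_0cf84d_an.DWG
import Pool.Agent.P.MP_0cf84d_an.DIbp

/-! Poincare inequality and comparison principle. -/

set_option linter.unusedSectionVars false
set_option linter.unusedVariables false

namespace Pool.Agent.P.MP_0cf84d_an

open MeasureTheory Filter Topology Metric Set Module
open scoped RealInnerProductSpace ENNReal NNReal

variable {V : Type*} [NormedAddCommGroup V] [InnerProductSpace ℝ V] [FiniteDimensional ℝ V]
  [MeasurableSpace V] [BorelSpace V] [CompleteSpace V] {Ω : Set V}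

theorem dcmp_tt (hΩ : OB Ω) {R : ℝ} (hR : ∀ x ∈ Ω, ‖x - 0‖ ≤ R) {v : V → ℝ} {H : V → V}
    (hv : TT Ω v H) : ∫ x, v x * v x ∂mm Ω ≤ R ^ 2 * ∫ x, ⟪H x, H x⟫ ∂mm Ω := by
  have hw := weq_radial hΩ (0 : V) (a := fun _ => 1) (a' := fun _ => 0) (C := 1)
    (fun x _ => hasDerivAt_const _ _) continuousOn_const (fun x _ => by simp)
  have hm := TT.mul hΩ hv hv
  have h1 := hw.eq _ _ hm
  have i1 := int_inner hw.l2 hm.1.2.1
  have i2 := int_mul_top hw.l1 hm.2
  have i3 := int_mul hv.1.1 hv.1.1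
  have i4 := (int_inner hv.1.2.1 hv.1.2.1).const_mul (R ^ 2)
  have hN : (2 : ℝ) ≤ finrank ℝ V := by exact_mod_cast hΩ.dim
  have h2 := integral_mono_ae (i3.sub i4) (i1.sub i2) (hΩ.mem.mono fun x hx => by
    have e1 := abs_real_inner_le_norm (x - 0) (H x)
    have e2 := mul_le_mul_of_nonneg_right (hR x hx) (norm_nonneg (H x))
    have e3 : |v x * ⟪x - 0, H x⟫| ≤ |v x| * (R * ‖H x‖) := by
      rw [abs_mul]
      exact mul_le_mul_of_nonneg_left (e1.trans e2) (abs_nonneg _)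
    have e4 := (abs_le.1 e3).1
    have e5 := sq_nonneg (|v x| - R * ‖H x‖)
    have e6 := sq_abs (v x)
    have e7 := mul_le_mul_of_nonneg_right hN (mul_self_nonneg (v x))
    simp only [Pi.sub_apply, one_smul, inner_add_right, real_inner_smul_right,
      real_inner_self_eq_norm_sq]
    nlinarith)
  simp only [Pi.sub_apply] at h2
  rw [integral_sub i3 i4, integral_sub i1 i2, h1, sub_self, integral_const_mul] at h2
  linarith

theorem poincare (hΩ : OB Ω) : ∃ C, 0 < C ∧ ∀ v H, InH10 Ω v H →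
    ∫ x, v x ^ 2 ∂mm Ω ≤ C * ∫ x, ‖H x‖ ^ 2 ∂mm Ω := by
  obtain ⟨R, hR0, hR⟩ := hΩ.radius (0 : V)
  refine ⟨R ^ 2, by positivity, fun v H hv => ?_⟩
  obtain ⟨φ, h1, h2, h3⟩ := hv.approx hΩ
  have h4 := le_of_tendsto_of_tendsto' (h2.mul h2) ((h3.inner h3).const_mul (R ^ 2))
    fun n => dcmp_tt hΩ hR ((h1 n).mem hΩ)
  simp only [real_inner_self_eq_norm_sq, ← sq] at h4
  exact h4

theorem cmp (hΩ : OB Ω) {u W f : V → ℝ} {G F : V → V} (hu : InH10 Ω u G) (hW : Reg Ω W F)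
    {K : Set V} (hK : IsCompact K) (hKΩ : K ⊆ Ω) (h0 : ∀ x ∈ Ω, x ∉ K → 0 ≤ W x)
    (h : WGe Ω (fun x => F x - G x) f) (hf : MemLp f 2 (mm Ω)) {κ Λ : ℝ} (hΛ : Λ ^ 2 ≤ 2 * κ)
    (hle : ∀ᵐ x ∂mm Ω, W x < u x → κ * (u x - W x) - Λ * ‖G x - F x‖ ≤ f x) :
    ∀ᵐ x ∂mm Ω, u x ≤ W x := by
  have hz := posPart hΩ hu hW hK hKΩ h0
  have h1 := h.ext hΩ hf hz (Eventually.of_forall fun x => le_max_right _ _)
  have i1 := int_inner h.l2 hz.2.1
  have i2 := int_mul hf hz.1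
  have i3 := (int_sq hz.2.1).const_mul (-(1 / 2 : ℝ))
  have h2 := integral_mono_ae (i1.sub i2) i3 (hle.mono fun x hx => by
    simp only [Pi.sub_apply]
    by_cases hx' : W x < u x
    · have e1 := mul_le_mul_of_nonneg_right (hx hx') (sub_pos.2 hx').le
      have e2 := sq_nonneg (‖G x - F x‖ - Λ * (u x - W x))
      have e3 := mul_le_mul_of_nonneg_right hΛ (sq_nonneg (u x - W x))
      rw [if_pos hx', max_eq_left (sub_pos.2 hx').le, ← neg_sub (G x) (F x), inner_neg_left,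
        real_inner_self_eq_norm_sq]
      nlinarith
    · rw [if_neg hx', max_eq_right (sub_nonpos.2 (not_lt.1 hx'))]
      simp)
  simp only [Pi.sub_apply] at h2
  rw [integral_sub i1 i2, integral_const_mul] at h2
  obtain ⟨C, hC, hP⟩ := poincare hΩ
  have h3 := hP _ _ hz
  have h4 : ∫ x, ‖if W x < u x then G x - F x else 0‖ ^ 2 ∂mm Ω ≤ 0 := by linarith
  have h5 : ∫ x, (max (u x - W x) 0) ^ 2 ∂mm Ω ≤ 0 :=
    h3.trans (mul_nonpos_of_nonneg_of_nonpos hC.le h4)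
  have i4 : Integrable (fun x => (max (u x - W x) 0) ^ 2) (mm Ω) := by
    simpa only [← sq] using int_mul hz.1 hz.1
  have h6 := (integral_eq_zero_iff_of_nonneg (fun x => sq_nonneg _) i4).1
    (le_antisymm h5 (integral_nonneg fun x => sq_nonneg _))
  refine h6.mono fun x hx => ?_
  have h7 : max (u x - W x) 0 = 0 := pow_eq_zero_iff two_ne_zero |>.1 hx
  have h8 := le_max_left (u x - W x) 0
  linarith

/-- the weak maximum principle -/
theorem max_pr (hΩ : OB Ω) {u f : V → ℝ} {G : V → V} (hu : InH10 Ω u G) (h : WGe Ω G f)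
    (h0 : ∀ᵐ x ∂mm Ω, 0 ≤ f x) : ∀ᵐ x ∂mm Ω, 0 ≤ u x := by
  have h1 : WGe Ω G fun _ => 0 := h.mono' (integrable_zero _ _ _) h0
  have h2 : WGe Ω (fun x => (fun _ => (0 : V)) x - (fun x => -G x) x) fun _ => 0 :=
    h1.congr (Eventually.of_forall fun x => by simp) (EventuallyEq.refl _ _)
  have h3 := cmp hΩ (hu.neg hΩ) (reg_const Ω 0) isCompact_empty (empty_subset _)
    (fun _ _ _ => le_rfl) h2 MemLp.zero' (κ := 0) (Λ := 0) (by norm_num)
    (Eventually.of_forall fun x _ => by simp)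
  exact h3.mono fun x hx => neg_nonpos.1 hx

end Pool.Agent.P.MP_0cf84d_an
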