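import Pool.Agent.P.MP_0cf84d_an.Defs

namespace Pool.Agent.P.MP_0cf84d_an

/-- A bounded domain with boundary of class `C^{1,1}`: near each boundary point it is the set
`ρ < 0` for a function `ρ` with Lipschitz derivative that does not vanish at the point. -/
def IsC11Domain {V : Type*} [NormedAddCommGroup V] [NormedSpace ℝ V] (Ω : Set V) : Prop :=
  IsOpen Ω ∧ IsConnected Ω ∧ Bornology.IsBounded Ω ∧
    ∀ x₀ ∈ frontier Ω, ∃ (r : ℝ) (L : NNReal) (ρ : V → ℝ) (D : V → V →L[ℝ] ℝ), 0 < r ∧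
      (∀ x ∈ Metric.ball x₀ r, HasFDerivAt ρ (D x) x) ∧ LipschitzOnWith L D (Metric.ball x₀ r) ∧
      D x₀ ≠ 0 ∧ ∀ x ∈ Metric.ball x₀ r, x ∈ Ω ↔ ρ x < 0

end Pool.Agent.P.MP_0cf84d_an
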