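import Pool.Agent.P.MP_0cf84d_an.DWG

/-! Removing the truncation. -/

set_option linter.unusedSectionVars false
set_option linter.unusedVariables false

namespace Pool.Agent.P.MP_0cf84d_an

open MeasureTheory Filter Topology Metric Set Module
open scoped RealInnerProductSpace ENNReal NNReal

variable {V : Type*} [NormedAddCommGroup V] [InnerProductSpace ℝ V] [FiniteDimensional ℝ V]
  [MeasurableSpace V] [BorelSpace V] [CompleteSpace V] {Ω : Set V}

variable {q μ₁ μ₂ l : ℝ} {c h μ : V → ℝ}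

theorem dlim_min {a b k : ℝ} (ha : 0 ≤ a) (hk : 0 ≤ k) : min (a ^ 2) (k ^ 2) = min a k * min a k := by
  rcases le_total a k with h | h
  · rw [min_eq_left h, min_eq_left (pow_le_pow_left₀ ha h 2), sq]
  · rw [min_eq_right h, min_eq_right (pow_le_pow_left₀ hk h 2), sq]

theorem dlim_HH {k : ℝ} (hk : 0 ≤ k) (p : V) : HH k p = min ‖p‖ k * min ‖p‖ k :=
  dlim_min (b := 0) (norm_nonneg p) hk

theorem dlim_min_sub (k : ℝ) (p p' : V) : |min ‖p‖ k - min ‖p'‖ k| ≤ ‖p - p'‖ := by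
  have h1 := abs_min_sub_min_le_max ‖p‖ k ‖p'‖ k
  rw [sub_self, abs_zero, max_eq_left (abs_nonneg _)] at h1
  exact h1.trans (abs_norm_sub_norm_le p p')

theorem HH_lip {k : ℝ} (hk : 0 ≤ k) : LipschitzWith (Real.toNNReal (2 * k)) (HH (V := V) k) := by
  refine LipschitzWith.of_dist_le_mul fun p p' => ?_
  rw [Real.coe_toNNReal _ (by linarith), Real.dist_eq, dist_eq_norm, dlim_HH hk, dlim_HH hk,
    mul_self_sub_mul_self, abs_mul]
  have h1 : 0 ≤ min ‖p‖ k := le_min (norm_nonneg p) hk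
  have h2 : 0 ≤ min ‖p'‖ k := le_min (norm_nonneg p') hk
  have h3 : min ‖p‖ k ≤ k := min_le_right _ _
  have h4 : min ‖p'‖ k ≤ k := min_le_right _ _
  refine mul_le_mul ?_ (dlim_min_sub k p p') (abs_nonneg _) (by linarith)
  rw [abs_of_nonneg (by linarith)]
  linarith

theorem dlim_HH_nonneg (k : ℝ) (p : V) : 0 ≤ HH k p := le_min (sq_nonneg _) (sq_nonneg _)

theorem HH_abs (k : ℝ) (p : V) : |HH k p| ≤ k ^ 2 := by
  rw [abs_of_nonneg (dlim_HH_nonneg k p)]
  exact min_le_right _ _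

theorem dlim_cauchy {a e : ℕ → ℝ} {d : ℕ → ℕ → ℝ} {B : ℝ} (hB : ∀ n, a n ≤ B)
    (he : Tendsto e atTop (𝓝 0)) (hd0 : ∀ i j, 0 ≤ d i j)
    (hd : ∀ i j, i ≤ j → d i j ≤ a j - a i + 2 * e i) (ε : ℝ) (hε : 0 < ε) :
    ∃ N, ∀ i j, N ≤ i → i ≤ j → d i j ≤ ε := by
  have hb : BddAbove (range fun i => a i - 2 * e i) := by
    refine ⟨B, ?_⟩
    rintro _ ⟨i, rfl⟩
    have h1 := hd i i le_rfl
    have h2 := hd0 i i
    have h3 := hB i
    show a i - 2 * e i ≤ B
    linarith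
  obtain ⟨i₀, hi₀⟩ := exists_lt_of_lt_ciSup
    (show (⨆ i, (a i - 2 * e i)) - ε / 2 < ⨆ i, (a i - 2 * e i) by linarith)
  obtain ⟨N, hN⟩ := eventually_atTop.1 (he.eventually (gt_mem_nhds (show (0 : ℝ) < ε / 8 by linarith)))
  refine ⟨max i₀ N, fun i j hi hij => ?_⟩
  have h1 := hd i₀ i ((le_max_left _ _).trans hi)
  have h2 := hd0 i₀ i
  have h3 := le_ciSup hb j
  have h4 := hN i ((le_max_right _ _).trans hi)
  have h5 := hN j (((le_max_right _ _).trans hi).trans hij)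
  have h6 := hd i j hij
  linarith

theorem dlim_split {α : Type*} [MeasurableSpace α] {m : Measure α} {c h μ u v s f : α → ℝ}
    (hc : MemLp c 2 m) (hh : MemLp h 2 m) (hμ : MemLp μ ⊤ m) (hv : MemLp v ⊤ m)
    (hv2 : MemLp v 2 m) (hu : MemLp u 2 m) (hs : MemLp s 2 m) (l : ℝ)
    (hf : ∀ x, f x = l * (c x * u x) + μ x * (s x * s x) + h x) :
    ∫ x, f x * v x ∂m = l * (∫ x, c x * v x * u x ∂m) + (∫ x, s x * μ x * v x * s x ∂m) +
      ∫ x, h x * v x ∂m := by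
  have i1 : Integrable (fun x => l * (c x * v x * u x)) m :=
    (int_mul (memLp_mul_top hc hv) hu).const_mul l
  have i2 : Integrable (fun x => s x * μ x * v x * s x) m :=
    int_mul (memLp_mul_top (memLp_mul_top hs hμ) hv) hs
  have i3 : Integrable (fun x => h x * v x) m := int_mul hh hv2
  have i4 : Integrable (fun x => l * (c x * v x * u x) + s x * μ x * v x * s x) m := i1.add i2
  rw [← integral_const_mul, ← integral_add i1 i2, ← integral_add i4 i3]
  refine integral_congr_ae (Eventually.of_forall fun x => ?_)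
  show f x * v x = l * (c x * v x * u x) + s x * μ x * v x * s x + h x * v x
  rw [hf x]
  ring

theorem dlim_trunc {α : Type*} [MeasurableSpace α] {m : Measure α} {G : ℕ → α → V} {D : α → V}
    (hG : L2T m G D) {k₀ : ℝ} (hk : 0 ≤ k₀) :
    L2T m (fun n x => min ‖G n x‖ (k₀ + n)) (fun x => ‖D x‖) := by
  have hkn : ∀ n : ℕ, 0 ≤ k₀ + n := fun n => add_nonneg hk (Nat.cast_nonneg n)
  have hle : ∀ (n : ℕ) (p : V), ‖min ‖p‖ (k₀ + n)‖ ≤ ‖p‖ := fun n p => by
    rw [Real.norm_eq_abs, abs_of_nonneg (le_min (norm_nonneg p) (hkn n))]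
    exact min_le_left _ _
  have hmeas : ∀ (n : ℕ) {F : α → V}, MemLp F 2 m →
      AEStronglyMeasurable (fun x => min ‖F x‖ (k₀ + n)) m := fun n F hF =>
    (continuous_norm.min continuous_const).comp_aestronglyMeasurable hF.1
  have hmem : ∀ (n : ℕ) {F : α → V}, MemLp F 2 m → MemLp (fun x => min ‖F x‖ (k₀ + n)) 2 m :=
    fun n F hF => hF.of_le (hmeas n hF) (Eventually.of_forall fun x => hle n (F x))
  have h1 : L2T m (fun (n : ℕ) x => min ‖D x‖ (k₀ + n)) (fun x => ‖D x‖) := by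
    refine l2t_of_dom (fun n => hmeas n hG.2.1) hG.2.1.norm
      (fun n => Eventually.of_forall fun x => hle n (D x)) (Eventually.of_forall fun x => ?_)
    obtain ⟨N, hN⟩ := exists_nat_ge ‖D x‖
    refine tendsto_const_nhds.congr' (eventually_atTop.2 ⟨N, fun n hn => ?_⟩)
    have h2 : (N : ℝ) ≤ n := Nat.cast_le.2 hn
    exact (min_eq_left (by linarith)).symm
  have h2 : L2T m (fun (n : ℕ) x => min ‖G n x‖ (k₀ + n) - min ‖D x‖ (k₀ + n)) (fun _ => (0 : ℝ)) := by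
    refine hG.of_le (fun n => (hmem n (hG.1 n)).sub (hmem n hG.2.1)) MemLp.zero' 1
      fun n => Eventually.of_forall fun x => ?_
    rw [sub_zero, one_mul]
    exact dlim_min_sub _ _ _
  refine (h2.add h1).congr (fun n => Eventually.of_forall fun x => ?_)
    (Eventually.of_forall fun x => ?_)
  · exact sub_add_cancel _ _
  · exact zero_add _

theorem dlim_mul_top {α : Type*} [MeasurableSpace α] {m : Measure α} {s : ℕ → α → ℝ} {t b : α → ℝ}
    (hs : L2T m s t) (hb : MemLp b ⊤ m) : L2T m (fun n x => s n x * b x) (fun x => t x * b x) := by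
  obtain ⟨M, -, hM⟩ := top_bound hb
  refine hs.of_le (fun n => memLp_mul_top (hs.1 n) hb) (memLp_mul_top hs.2.1 hb) M
    fun n => hM.mono fun x hx => ?_
  rw [← sub_mul, norm_mul, mul_comm]
  exact mul_le_mul_of_nonneg_right hx (norm_nonneg _)

theorem dlim_energy {α : Type*} [MeasurableSpace α] {m : Measure α} {F F' : α → V}
    (hF : MemLp F 2 m) (hF' : MemLp F' 2 m) :
    ∫ x, ‖F' x - F x‖ ^ 2 ∂m = (∫ x, ‖F' x‖ ^ 2 ∂m) - (∫ x, ‖F x‖ ^ 2 ∂m) -
      2 * ∫ x, ⟪F x, F' x - F x⟫ ∂m := by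
  have i1 := int_sq hF
  have i2 := int_sq hF'
  have i3 : Integrable (fun x => 2 * ⟪F x, F' x - F x⟫) m :=
    (int_inner (g' := fun x => F' x - F x) hF (hF'.sub hF)).const_mul 2
  have i4 : Integrable (fun x => ‖F' x‖ ^ 2 - ‖F x‖ ^ 2) m := i2.sub i1
  rw [← integral_const_mul, ← integral_sub i2 i1, ← integral_sub i4 i3]
  refine integral_congr_ae (Eventually.of_forall fun x => ?_)
  show ‖F' x - F x‖ ^ 2 = ‖F' x‖ ^ 2 - ‖F x‖ ^ 2 - 2 * ⟪F x, F' x - F x⟫
  rw [norm_sub_sq_real, inner_sub_right, real_inner_self_eq_norm_sq, real_inner_comm]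
  ring

theorem lim_sol (hΩ : OB Ω) (hD : Dat Ω q c h μ μ₁ μ₂) {k₀ : ℝ} (hk : 0 ≤ k₀) {u : ℕ → V → ℝ}
    {G : ℕ → V → V} (hu : ∀ n, TT Ω (u n) (G n))
    (he : ∀ n : ℕ, WEq Ω (G n) (rhs c h μ l (HH (k₀ + n)) (u n) (G n)))
    (hm : ∀ n, ∀ᵐ x ∂mm Ω, u n x ≤ u (n + 1) x) (h0 : ∀ n, ∀ᵐ x ∂mm Ω, u n x ≤ 0) :
    ∃ w D, TT Ω w D ∧ WEq Ω D (rhs c h μ l H2 w D) ∧ ∀ᵐ x ∂mm Ω, w x ≤ 0 := by
  have := hΩ.fin
  have hc2 := hΩ.two_of_q hD.hq hD.cq
  have hh2 := hΩ.two_of_q hD.hq hD.hh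
  obtain ⟨M, hM0, hM⟩ := top_bound (hu 0).2
  set w : V → ℝ := fun x => ⨆ n, u n x with hw
  set b : V → ℝ := fun x => |l| * M * |c x| + |h x| with hb
  have hb2 : MemLp b 2 (mm Ω) := (hc2.abs.const_mul (|l| * M)).add hh2.abs
  have hb0 : ∀ x, 0 ≤ b x := fun x => by
    simp only [hb]
    positivity
  have key : ∀ᵐ x ∂mm Ω, Monotone (fun n => u n x) ∧ (∀ n, -M ≤ u n x ∧ u n x ≤ w x) ∧ w x ≤ 0 ∧
      Tendsto (fun n => u n x) atTop (𝓝 (w x)) ∧
      ∀ n : ℕ, -b x ≤ rhs c h μ l (HH (k₀ + n)) (u n) (G n) x := by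
    filter_upwards [ae_all_iff.2 hm, ae_all_iff.2 h0, hM, hD.mu] with x h1 h2 h3 h4
    have hmono : Monotone (fun n => u n x) := monotone_nat_of_le_succ h1
    have hbd : BddAbove (range fun n => u n x) := ⟨0, by rintro _ ⟨n, rfl⟩; exact h2 n⟩
    have hlow : ∀ n, -M ≤ u n x := fun n => (abs_le.1 h3).1.trans (hmono (Nat.zero_le n))
    refine ⟨hmono, fun n => ⟨hlow n, le_ciSup hbd n⟩, ciSup_le h2, tendsto_atTop_ciSup hmono hbd,
      fun n => ?_⟩
    have h5 : 0 ≤ μ x * HH (k₀ + n) (G n x) :=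
      mul_nonneg (hD.pos.le.trans h4.1) (dlim_HH_nonneg _ _)
    have h6 : |l * (c x * u n x)| ≤ |l| * M * |c x| := by
      have h7 : |u n x| ≤ M := abs_le.2 ⟨hlow n, (h2 n).trans hM0.le⟩
      rw [abs_mul, abs_mul, mul_assoc, mul_comm M]
      exact mul_le_mul_of_nonneg_left (mul_le_mul_of_nonneg_left h7 (abs_nonneg _)) (abs_nonneg _)
    have h8 := (abs_le.1 h6).1
    have h9 := neg_abs_le (h x)
    simp only [hb, rhs]
    linarith
  have huw : L2T (mm Ω) u w := by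
    refine l2t_of_dom (fun n => (hu n).2.1) (memLp_const M) (fun n => key.mono fun x hx => ?_)
      (key.mono fun x hx => hx.2.2.2.1)
    exact abs_le.2 ⟨(hx.2.1 n).1, ((hx.2.1 n).2.trans hx.2.2.1).trans hM0.le⟩
  have hG2 : ∀ n, MemLp (G n) 2 (mm Ω) := fun n => (he n).l2
  have hB : ∀ n, ∫ x, ‖G n x‖ ^ 2 ∂mm Ω ≤ ∫ x, b x * M ∂mm Ω := fun n => by
    have h1 := (he n).eq _ _ (hu n)
    simp only [real_inner_self_eq_norm_sq] at h1
    rw [h1]
    refine integral_mono_ae (int_mul_top (he n).l1 (hu n).2) (int_mul hb2 (memLp_const M))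
      (key.mono fun x hx => ?_)
    have h2 := hx.2.2.2.2 n
    have h3 := (hx.2.1 n).1
    have h4 := (hx.2.1 n).2.trans hx.2.2.1
    have h5 := hb0 x
    show rhs c h μ l (HH (k₀ + n)) (u n) (G n) x * u n x ≤ b x * M
    nlinarith
  have hE : Tendsto (fun n => ∫ x, b x * (w x - u n x) ∂mm Ω) atTop (𝓝 0) := by
    have h1 := (l2t_const hb2).mul ((l2t_const huw.2.1).sub huw)
    simpa only [sub_self, mul_zero, integral_zero] using h1
  obtain ⟨D, hGD⟩ := exists_l2t hG2 (dlim_cauchy hB hE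
    (fun i j => integral_nonneg fun x => sq_nonneg _) fun i j hij => by
      have h1 := ((he i).eq _ _ (TT.sub hΩ (hu j) (hu i)))
      have h2 : ∫ x, -(b x * (w x - u i x)) ∂mm Ω ≤
          ∫ x, rhs c h μ l (HH (k₀ + i)) (u i) (G i) x * (u j x - u i x) ∂mm Ω := by
        refine integral_mono_ae (int_mul hb2 (huw.2.1.sub (huw.1 i))).neg
          (int_mul_top (he i).l1 (TT.sub hΩ (hu j) (hu i)).2) (key.mono fun x hx => ?_)
        have h3 := hx.2.2.2.2 i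
        have h4 : u i x ≤ u j x := hx.1 hij
        have h5 := (hx.2.1 j).2
        have h6 := hb0 x
        show -(b x * (w x - u i x)) ≤ rhs c h μ l (HH (k₀ + i)) (u i) (G i) x * (u j x - u i x)
        nlinarith
      rw [integral_neg] at h2
      rw [dlim_energy (hG2 i) (hG2 j), h1]
      linarith)
  have hT : TT Ω w D := by
    refine (inH10_limit hΩ (fun n => (hu n).1) huw hGD).tt (M := M) (key.mono fun x hx => ?_)
    exact abs_le.2 ⟨(hx.2.1 0).1.trans (hx.2.1 0).2, hx.2.2.1.trans hM0.le⟩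
  refine ⟨w, D, hT, ⟨hGD.2.1, hD.int_rhs hΩ l hT.2 hGD.2.1, fun v H hv => ?_⟩,
    key.mono fun x hx => hx.2.2.1⟩
  have hs := dlim_trunc hGD hk
  have h1 := hGD.inner (l2t_const hv.1.2.1)
  have h2 := (((l2t_const (memLp_mul_top hc2 hv.2)).mul huw).const_mul l).add
    ((dlim_mul_top (dlim_mul_top hs hD.mu_top) hv.2).mul hs)
  have h3 := h2.add_const (∫ x, h x * v x ∂mm Ω)
  rw [dlim_split hc2 hh2 hD.mu_top hv.2 hv.1.1 huw.2.1 hs.2.1 l
    (f := rhs c h μ l H2 w D) (fun x => by simp only [rhs, H2, sq])]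
  refine tendsto_nhds_unique h1 (h3.congr fun n => ?_)
  rw [(he n).eq v H hv, dlim_split hc2 hh2 hD.mu_top hv.2 hv.1.1 (huw.1 n) (hs.1 n) l
    (f := rhs c h μ l (HH (k₀ + n)) (u n) (G n))
    (fun x => by simp only [rhs, dlim_HH (add_nonneg hk (Nat.cast_nonneg n))])]

end Pool.Agent.P.MP_0cf84d_an
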