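import Pool.Agent.P.MP_0cf84d_an.DPot

/-! A lower solution. -/

set_option linter.unusedSectionVars false
set_option linter.unusedVariables false

namespace Pool.Agent.P.MP_0cf84d_an

open MeasureTheory Filter Topology Metric Set Module
open scoped RealInnerProductSpace ENNReal NNReal

variable {V : Type*} [NormedAddCommGroup V] [InnerProductSpace ℝ V] [FiniteDimensional ℝ V]
  [MeasurableSpace V] [BorelSpace V] [CompleteSpace V] {Ω : Set V}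

/-- a function in `L^q` is a bounded function plus a small one -/
theorem dlow_split {q : ℝ} {c : V → ℝ} (hc : MemLp c (ENNReal.ofReal q) (mm Ω)) {δ : ℝ}
    (hδ : 0 < δ) : ∃ (R0 : ℝ) (c2 : V → ℝ), 0 ≤ R0 ∧ MemLp c2 (ENNReal.ofReal q) (mm Ω) ∧
      nq Ω q c2 ≤ δ ∧ ∀ x, c x ≤ R0 + c2 x := by
  have h0 : ENNReal.ofReal δ ≠ 0 := (ENNReal.ofReal_pos.2 hδ).ne'
  obtain ⟨g, hg, hgm⟩ := hc.exists_simpleFunc_eLpNorm_sub_lt ENNReal.ofReal_ne_top h0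
  obtain ⟨C, hC⟩ := g.exists_forall_norm_le
  refine ⟨C, c - ⇑g, (norm_nonneg _).trans (hC 0), hc.sub hgm, ?_, fun x => ?_⟩
  · exact ENNReal.toReal_le_of_le_ofReal hδ.le hg.le
  · have h1 : g x ≤ C := (le_abs_self _).trans (hC x)
    simp only [Pi.sub_apply]
    linarith

/-- the choice of the constants -/
theorem dlow_num {l M Ch R1 R0 μ₁ ρ : ℝ} (hl : 0 ≤ l) (hM : 0 ≤ M) (hCh : 0 ≤ Ch) (hR0 : 0 ≤ R0)
    (hμ : 0 < μ₁) (hρ : 0 ≤ ρ) (h1 : l * ρ ≤ 1 / 4) (h2 : l * ρ * R1 ^ 2 ≤ 1 / 2) :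
    ∃ A B : ℝ, 0 ≤ A ∧ 0 ≤ B ∧ l * (M + 2 * (B * ρ) + 2 * Ch + A * R1 ^ 2 / 2) ≤ B ∧
      ∀ t, A - B * ρ - Ch ≤ t → R0 * B ≤ μ₁ * t ^ 2 := by
  obtain ⟨C', hC'⟩ : ∃ C', C' = (M + 2 * Ch) / 2 + Ch := ⟨_, rfl⟩
  obtain ⟨a, ha⟩ : ∃ a, a = R0 * (2 * l * (M + 2 * Ch)) := ⟨_, rfl⟩
  obtain ⟨b, hb⟩ : ∃ b, b = R0 * (l * R1 ^ 2) := ⟨_, rfl⟩
  have hC0 : 0 ≤ C' := by rw [hC']; positivity
  have ha0 : 0 ≤ a := by rw [ha]; positivity
  have hb0 : 0 ≤ b := by rw [hb]; positivity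
  obtain ⟨k, hk⟩ : ∃ k, k = (a + 2 * b * C' + 2 * b) / μ₁ := ⟨_, rfl⟩
  have hk0 : 0 ≤ k := by rw [hk]; positivity
  have hk1 : μ₁ * k = a + 2 * b * C' + 2 * b := by rw [hk]; field_simp
  obtain ⟨A, hA⟩ : ∃ A, A = 2 * (1 + k + C') := ⟨_, rfl⟩
  have hA0 : 0 ≤ A := by rw [hA]; positivity
  obtain ⟨B, hB⟩ : ∃ B, B = 2 * l * (M + 2 * Ch + A * R1 ^ 2 / 2) := ⟨_, rfl⟩
  have hB0 : 0 ≤ B := by rw [hB]; positivity
  refine ⟨A, B, hA0, hB0, ?_, fun t ht => ?_⟩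
  · have h3 : l * ρ * B ≤ 1 / 4 * B := mul_le_mul_of_nonneg_right h1 hB0
    have h4 : l * (M + 2 * (B * ρ) + 2 * Ch + A * R1 ^ 2 / 2) = B / 2 + 2 * (l * ρ * B) := by
      rw [hB]; ring
    rw [h4]; linarith
  · have h3 : B * ρ = 2 * (l * ρ * (M + 2 * Ch)) + l * ρ * R1 ^ 2 * A := by rw [hB]; ring
    have h4 : l * ρ * (M + 2 * Ch) ≤ 1 / 4 * (M + 2 * Ch) :=
      mul_le_mul_of_nonneg_right h1 (by positivity)
    have h5 : l * ρ * R1 ^ 2 * A ≤ 1 / 2 * A := mul_le_mul_of_nonneg_right h2 hA0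
    have h6 : 1 + k ≤ t := by linarith
    have h7 : (1 + k) ^ 2 ≤ t ^ 2 := pow_le_pow_left₀ (by positivity) h6 2
    have h8 : R0 * B = a + b * A := by rw [hB, ha, hb]; ring
    have h9 : μ₁ * (1 + k) ^ 2 ≤ μ₁ * t ^ 2 := mul_le_mul_of_nonneg_left h7 hμ.le
    have h10 : μ₁ * (1 + k) ^ 2 = μ₁ * (1 + k) + (μ₁ * k) * (1 + k) := by ring
    have h11 : 0 ≤ μ₁ * (1 + k) := by positivity
    have h12 : 0 ≤ (a + 2 * b * C') * k := by positivity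
    rw [hk1] at h10
    have h13 : (a + 2 * b * C' + 2 * b) * (1 + k) =
        a + b * A + (a + 2 * b * C') * k := by rw [hA]; ring
    rw [h8]
    linarith

/-- a point at distance at least one from the domain -/
theorem dlow_pt (hΩ : OB Ω) : ∃ (y : V) (R1 : ℝ), ∀ x ∈ Ω, 1 ≤ ‖x - y‖ ∧ ‖x - y‖ ≤ R1 := by
  have hd : 0 < finrank ℝ V := lt_of_lt_of_le (by norm_num) hΩ.dim
  have : Nontrivial V := Module.nontrivial_of_finrank_pos hd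
  obtain ⟨R, hR, h1⟩ := hΩ.radius 0
  obtain ⟨y, hy⟩ := exists_norm_eq V (show 0 ≤ R + 1 by positivity)
  obtain ⟨R1, -, h2⟩ := hΩ.radius y
  refine ⟨y, R1, fun x hx => ⟨?_, h2 x hx⟩⟩
  have h3 := h1 x hx
  rw [sub_zero] at h3
  have h4 : ‖y‖ - ‖x‖ ≤ ‖x - y‖ := by
    rw [norm_sub_rev]; exact norm_sub_norm_le y x
  linarith

theorem dlow_reg (hΩ : OB Ω) (y : V) {R1 : ℝ} (hy : ∀ x ∈ Ω, ‖x - y‖ ≤ R1) (M' A : ℝ) :
    Reg Ω (fun x => M' + A * (R1 ^ 2 - ‖x - y‖ ^ 2) / 2) (fun x => (-A) • (x - y)) := by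
  have h := reg_radial hΩ y (A := fun s => M' + A * (R1 ^ 2 - s) / 2) (a := fun _ => -A / 2)
    (fun x _ => by
      have h1 := ((((hasDerivAt_id (‖x - y‖ ^ 2)).const_sub (R1 ^ 2)).const_mul A).div_const
        2).const_add M'
      exact h1.congr_deriv (by ring))
    continuousOn_const (C := |M'| + |A| * R1 ^ 2 + |A|) (fun x hx => by
      have h1 : ‖x - y‖ ^ 2 ≤ R1 ^ 2 := pow_le_pow_left₀ (norm_nonneg _) (hy x hx) 2
      have h2 : 0 ≤ ‖x - y‖ ^ 2 := by positivity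
      have h3 : |A * (R1 ^ 2 - ‖x - y‖ ^ 2) / 2| ≤ |A| * R1 ^ 2 := by
        rw [abs_div, abs_mul, abs_of_nonneg (sub_nonneg.2 h1), abs_two]
        have h4 : 0 ≤ |A| * ‖x - y‖ ^ 2 := by positivity
        have h5 : 0 ≤ |A| * R1 ^ 2 := by positivity
        nlinarith
      have h6 := abs_add_le M' (A * (R1 ^ 2 - ‖x - y‖ ^ 2) / 2)
      have h7 : |-A / 2| = |A| / 2 := by rw [abs_div, abs_neg, abs_two]
      have h8 := abs_nonneg A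
      have h9 := abs_nonneg M'
      have h5 : 0 ≤ |A| * R1 ^ 2 := by positivity
      constructor
      · linarith
      · rw [h7]; linarith)
  have h2 : (2 * (-A / 2)) = -A := by ring
  simpa only [h2] using h

theorem dlow_weq (hΩ : OB Ω) (y : V) (A : ℝ) :
    WEq Ω (fun x => (-A) • (x - y)) (fun _ => finrank ℝ V * A) := by
  have h := weq_radial hΩ y (a := fun _ => -A) (a' := fun _ => 0)
    (fun x _ => hasDerivAt_const _ _) continuousOn_const (C := |A|)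
    (fun x _ => ⟨by rw [abs_neg], by simp⟩)
  refine h.congr (Eventually.of_forall fun _ => rfl) (Eventually.of_forall fun x => ?_)
  simp

theorem low (hΩ : OB Ω) {q μ₁ μ₂ l : ℝ} {c h μ : V → ℝ} (hD : Dat Ω q c h μ μ₁ μ₂) (hl : 0 ≤ l)
    {M : ℝ} (hM : 0 ≤ M) : ∃ W F, Reg Ω W F ∧ (∀ x ∈ Ω, M ≤ W x) ∧
      WGe Ω F (fun x => -rhs c h μ l H2 (fun x => -W x) (fun x => -F x) x) := by
  obtain ⟨C, hC, hpot⟩ := pot' hΩ hD.hq
  obtain ⟨y, R1, hy⟩ := dlow_pt hΩ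
  obtain ⟨K, hK⟩ : ∃ K, K = 4 * (l * C) * (1 + R1 ^ 2) + 1 := ⟨_, rfl⟩
  have hK0 : 0 < K := by rw [hK]; positivity
  obtain ⟨R0, c2, hR0, hc2, hn2, hsp⟩ := dlow_split hD.cq (δ := 1 / K) (by positivity)
  have hlC : 0 ≤ l * C := by positivity
  have hρ0 : 0 ≤ C * (1 / K) := by positivity
  have hρ1 : l * (C * (1 / K)) ≤ 1 / 4 := by
    have e : l * (C * (1 / K)) = l * C / K := by ring
    rw [e, div_le_iff₀ hK0, hK]
    have : 0 ≤ l * C * R1 ^ 2 := by positivity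
    nlinarith
  have hρ2 : l * (C * (1 / K)) * R1 ^ 2 ≤ 1 / 2 := by
    have e : l * (C * (1 / K)) * R1 ^ 2 = l * C * R1 ^ 2 / K := by ring
    rw [e, div_le_iff₀ hK0, hK]
    have : 0 ≤ l * C * R1 ^ 2 := by positivity
    nlinarith
  generalize hρ : C * (1 / K) = ρ at hρ0 hρ1 hρ2
  obtain ⟨w2, F2, hr2, he2, hb2⟩ := hpot c2 hc2
  have hb2' : ∀ x ∈ Ω, |w2 x| ≤ ρ ∧ ‖F2 x‖ ≤ ρ := fun x hx => by
    have h1 : C * nq Ω q c2 ≤ ρ := hρ ▸ mul_le_mul_of_nonneg_left hn2 hC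
    exact ⟨(hb2 x hx).1.trans h1, (hb2 x hx).2.trans h1⟩
  obtain ⟨wh, Fh, hrh, heh, hbh⟩ := hpot (fun x => -h x) hD.hh.neg
  have hCh : 0 ≤ C * nq Ω q (fun x => -h x) := mul_nonneg hC ENNReal.toReal_nonneg
  generalize C * nq Ω q (fun x => -h x) = Ch at hbh hCh
  obtain ⟨A, B, hA, hB, hn1, hn3⟩ := dlow_num (R1 := R1) hl hM hCh hR0 hD.pos hρ0 hρ1 hρ2
  have hreg := ((dlow_reg hΩ y (fun x hx => (hy x hx).2) (M + B * ρ + Ch) A).add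
    (hr2.smul B)).add hrh
  have heq := ((dlow_weq hΩ y A).add (he2.smul B)).add heh
  have hW : ∀ x ∈ Ω, M ≤ M + B * ρ + Ch + A * (R1 ^ 2 - ‖x - y‖ ^ 2) / 2 + B * w2 x + wh x ∧
      M + B * ρ + Ch + A * (R1 ^ 2 - ‖x - y‖ ^ 2) / 2 + B * w2 x + wh x ≤
        M + 2 * (B * ρ) + 2 * Ch + A * R1 ^ 2 / 2 := fun x hx => by
    have h1 : ‖x - y‖ ^ 2 ≤ R1 ^ 2 := pow_le_pow_left₀ (norm_nonneg _) (hy x hx).2 2
    have h2 : 0 ≤ A * (R1 ^ 2 - ‖x - y‖ ^ 2) := mul_nonneg hA (sub_nonneg.2 h1)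
    have h3 : 0 ≤ A * ‖x - y‖ ^ 2 := by positivity
    have h4 := abs_le.1 (hb2' x hx).1
    have h5 := abs_le.1 (hbh x hx).1
    have h6 : B * w2 x ≤ B * ρ := mul_le_mul_of_nonneg_left h4.2 hB
    have h7 : B * (-ρ) ≤ B * w2 x := mul_le_mul_of_nonneg_left h4.1 hB
    constructor
    · linarith [h5.1]
    · nlinarith [h5.2]
  have hF : ∀ x ∈ Ω, A - B * ρ - Ch ≤ ‖(-A) • (x - y) + B • F2 x + Fh x‖ := fun x hx => by
    have h1 : A ≤ ‖(-A) • (x - y)‖ := by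
      rw [norm_smul, norm_neg, Real.norm_of_nonneg hA]
      exact le_mul_of_one_le_right hA (hy x hx).1
    have h2 : ‖B • F2 x‖ ≤ B * ρ := by
      rw [norm_smul, Real.norm_of_nonneg hB]
      exact mul_le_mul_of_nonneg_left (hb2' x hx).2 hB
    have h3 := (hbh x hx).2
    have h4 := norm_sub_le ((-A) • (x - y) + B • F2 x + Fh x) (Fh x)
    have h5 := norm_sub_le ((-A) • (x - y) + B • F2 x) (B • F2 x)
    rw [add_sub_cancel_right] at h4 h5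
    linarith
  refine ⟨_, _, hreg, fun x hx => (hW x hx).1, heq.ge.mono' ?_ ?_⟩
  · exact (hD.int_rhs hΩ l (hreg.memW hΩ ⊤).neg (hreg.memF hΩ 2).neg).neg
  · filter_upwards [hΩ.mem, hD.c0, hD.mu] with x hx hc0 hmu
    have h1 := hW x hx
    have h2 := hn3 _ (hF x hx)
    simp only [rhs, H2, norm_neg]
    generalize ‖(-A) • (x - y) + B • F2 x + Fh x‖ = t at h2
    generalize M + B * ρ + Ch + A * (R1 ^ 2 - ‖x - y‖ ^ 2) / 2 + B * w2 x + wh x = w at h1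
    have h3 : l * w ≤ B := (mul_le_mul_of_nonneg_left h1.2 hl).trans hn1
    have h4 : c x * (l * w) ≤ c x * B := mul_le_mul_of_nonneg_left h3 hc0
    have h5 : c x * B ≤ (R0 + c2 x) * B := mul_le_mul_of_nonneg_right (hsp x) hB
    have h6 : μ₁ * t ^ 2 ≤ μ x * t ^ 2 := mul_le_mul_of_nonneg_right hmu.1 (by positivity)
    have h7 : 0 ≤ (finrank ℝ V : ℝ) * A := by positivity
    nlinarith

end Pool.Agent.P.MP_0cf84d_an
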