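import Pool.Agent.P.MP_0cf84d_an.DIter
import Pool.Agent.P.MP_0cf84d_an.DLim
import Pool.Agent.P.MP_0cf84d_an.DLow

/-! A solution below a nonpositive upper solution. -/

set_option linter.unusedSectionVars false
set_option linter.unusedVariables false

namespace Pool.Agent.P.MP_0cf84d_an

open MeasureTheory Filter Topology Metric Set Module
open scoped RealInnerProductSpace ENNReal NNReal

variable {V : Type*} [NormedAddCommGroup V] [InnerProductSpace ℝ V] [FiniteDimensional ℝ V]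
  [MeasurableSpace V] [BorelSpace V] [CompleteSpace V] {Ω : Set V}

theorem dexist_cont (k : ℝ) : Continuous (HH (V := V) k) := by
  unfold HH
  fun_prop

theorem dexist_int (hΩ : OB Ω) {q μ₁ μ₂ : ℝ} {c h μ u : V → ℝ} {G : V → V}
    (hD : Dat Ω q c h μ μ₁ μ₂) (l k : ℝ) (hu : TT Ω u G) :
    Integrable (rhs c h μ l (HH k) u G) (mm Ω) := by
  have := hΩ.fin
  exact (hD.l2_rhs hΩ l (dexist_cont k) (HH_abs k) hu.2 hu.1.2.1.1).integrable one_le_two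

theorem dexist_up (hΩ : OB Ω) {q μ₁ μ₂ l : ℝ} {c h μ β : V → ℝ} {B : V → V}
    (hD : Dat Ω q c h μ μ₁ μ₂) (hβ : TT Ω β B) (hup : WGe Ω B (rhs c h μ l H2 β B)) (k : ℝ) :
    WGe Ω B (rhs c h μ l (HH k) β B) := by
  refine hup.mono' (dexist_int hΩ hD l k hβ) (hD.mu.mono fun x hx => ?_)
  have h1 : 0 ≤ μ x := hD.pos.le.trans hx.1
  have h2 : HH k (B x) ≤ H2 (B x) := min_le_left _ _
  have h3 := mul_le_mul_of_nonneg_left h2 h1
  unfold rhs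
  linarith

theorem dexist_low (hΩ : OB Ω) {q μ₁ μ₂ l : ℝ} {c h μ u : V → ℝ} {G : V → V}
    (hD : Dat Ω q c h μ μ₁ μ₂) (hu : TT Ω u G) {k k' : ℝ} (hk : 0 ≤ k) (hk' : k ≤ k')
    (he : WEq Ω G (rhs c h μ l (HH k) u G)) :
    WGe Ω (fun x => -G x) (fun x => -rhs c h μ l (HH k') u G x) := by
  refine he.le.mono' (dexist_int hΩ hD l k' hu).neg (hD.mu.mono fun x hx => ?_)
  have h1 : 0 ≤ μ x := hD.pos.le.trans hx.1
  have h2 : HH k (G x) ≤ HH k' (G x) := min_le_min_left _ (pow_le_pow_left₀ hk hk' 2)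
  have h3 := mul_le_mul_of_nonneg_left h2 h1
  unfold rhs
  linarith

theorem dexist_start (hΩ : OB Ω) {q μ₁ μ₂ l : ℝ} {c h μ β : V → ℝ} {B : V → V}
    (hD : Dat Ω q c h μ μ₁ μ₂) (hl : 0 ≤ l) (hβ : TT Ω β B)
    (hup : WGe Ω B (rhs c h μ l H2 β B)) :
    ∃ k, 0 ≤ k ∧ ∃ u G, TT Ω u G ∧ WEq Ω G (rhs c h μ l (HH k) u G) ∧
      ∀ᵐ x ∂mm Ω, u x ≤ β x := by
  obtain ⟨M, hM, hMb⟩ := top_bound hβ.2
  obtain ⟨W, F, hW, hMW, hlow⟩ := low hΩ hD hl hM.le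
  obtain ⟨C, hC⟩ := hW.bdd
  have hk : 0 ≤ |C| := abs_nonneg C
  have hlow' : WGe Ω (fun x => F x - (fun _ => (0 : V)) x)
      (fun x => -rhs c h μ l (HH |C|) (fun x => (fun _ => (0 : ℝ)) x - W x)
        (fun x => (fun _ => (0 : V)) x - F x) x) := by
    refine hlow.congr (Eventually.of_forall fun x => by simp) (hΩ.mem.mono fun x hx => ?_)
    have h1 : ‖F x‖ ^ 2 ≤ |C| ^ 2 :=
      pow_le_pow_left₀ (norm_nonneg _) ((hC x hx).2.trans (le_abs_self C)) 2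
    simp only [rhs, H2, HH, zero_sub, norm_neg, min_eq_left h1]
  have hK : (2 : ℝ) ≤ max 2 (2 * ((Real.toNNReal (2 * |C|) : ℝ) * μ₂) ^ 2) := le_max_left _ _
  have hle : ∀ᵐ x ∂mm Ω, (fun _ => (0 : ℝ)) x - W x ≤ β x := by
    filter_upwards [hMb, hΩ.mem] with x h1 h2
    have h3 := hMW x h2
    have h4 := (abs_le.1 h1).1
    linarith
  obtain ⟨z, Z, hz, -, hzb, hzl⟩ := step hΩ hD hl (HH_lip hk) (HH_abs |C|) hK (le_max_right _ _)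
    (tt_zero Ω) hW (fun x hx => hM.le.trans (hMW x hx)) hlow' hβ (dexist_up hΩ hD hβ hup _) hle
  obtain ⟨u, G, hu, he, hb⟩ := level hΩ hD hl (HH_lip hk) (HH_abs |C|) hz hzl hβ
    (dexist_up hΩ hD hβ hup _) (hzb.mono fun x hx => hx.2)
  exact ⟨|C|, hk, u, G, hu, he, hb.mono fun x hx => hx.2⟩

theorem exists_sol (hΩ : OB Ω) {q μ₁ μ₂ l : ℝ} {c h μ β : V → ℝ} {B : V → V}
    (hD : Dat Ω q c h μ μ₁ μ₂) (hl : 0 ≤ l) (hβ : TT Ω β B) (h0 : ∀ᵐ x ∂mm Ω, β x ≤ 0)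
    (hup : WGe Ω B (rhs c h μ l H2 β B)) : HasNonposSol Ω c h μ l := by
  obtain ⟨k, hk, u0, G0, hu0, he0, hb0⟩ := dexist_start hΩ hD hl hβ hup
  obtain ⟨P, hP⟩ : ∃ P : ℕ → (V → ℝ) × (V → V) → Prop, ∀ n p, P n p ↔
      (TT Ω p.1 p.2 ∧ WEq Ω p.2 (rhs c h μ l (HH (k + n)) p.1 p.2) ∧
        ∀ᵐ x ∂mm Ω, p.1 x ≤ β x) := ⟨_, fun _ _ => Iff.rfl⟩
  have hstep : ∀ n (p : {p // P n p}), ∃ p' : {p // P (n + 1) p},
      ∀ᵐ x ∂mm Ω, p.1.1 x ≤ p'.1.1 x := by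
    intro n p
    obtain ⟨h1, h2, h3⟩ := (hP n p.1).1 p.2
    have hn : (0 : ℝ) ≤ k + n := by positivity
    have hn' : k + n ≤ k + ((n + 1 : ℕ) : ℝ) := by push_cast; linarith
    obtain ⟨u, G, hu, he, hb⟩ := level hΩ hD hl (HH_lip (hn.trans hn')) (HH_abs _) h1
      (dexist_low hΩ hD h1 hn hn' h2) hβ (dexist_up hΩ hD hβ hup _) h3
    exact ⟨⟨(u, G), (hP _ _).2 ⟨hu, he, hb.mono fun x hx => hx.2⟩⟩, hb.mono fun x hx => hx.1⟩
  choose g hg using hstep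
  have hp0 : P 0 (u0, G0) := (hP _ _).2 ⟨hu0, by simpa using he0, hb0⟩
  obtain ⟨s, hs⟩ : ∃ s : ∀ n, {p // P n p}, ∀ n, s (n + 1) = g n (s n) :=
    ⟨fun n => Nat.rec ⟨(u0, G0), hp0⟩ g n, fun _ => rfl⟩
  obtain ⟨w, D, hw, he, hw0⟩ := lim_sol hΩ hD (l := l) hk (u := fun n => (s n).1.1)
    (G := fun n => (s n).1.2) (fun n => ((hP _ _).1 (s n).2).1)
    (fun n => ((hP _ _).1 (s n).2).2.1) (fun n => by simpa only [hs n] using hg n (s n))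
    (fun n => by
      filter_upwards [((hP _ _).1 (s n).2).2.2, h0] with x h1 h2
      exact h1.trans h2)
  exact ⟨w, (hD.isSol_iff hΩ l).2 ⟨D, hw, he⟩, hw0⟩

end Pool.Agent.P.MP_0cf84d_an
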