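import Pool.Agent.P.MP_0cf84d_an.DGeo0

/-! Uniform exterior and interior balls. -/

set_option linter.unusedSectionVars false
set_option linter.unusedVariables false

namespace Pool.Agent.P.MP_0cf84d_an

open MeasureTheory Filter Topology Metric Set Module
open scoped RealInnerProductSpace ENNReal NNReal

variable {V : Type*} [NormedAddCommGroup V] [InnerProductSpace ℝ V] [FiniteDimensional ℝ V]
  [MeasurableSpace V] [BorelSpace V] [CompleteSpace V] {Ω : Set V}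

theorem dgeo_unif (hΩ : OB Ω) (h : IsC11Domain Ω) :
    ∃ r, 0 < r ∧ ∀ x₀ ∈ frontier Ω, TwoB Ω r x₀ := by
  have : ProperSpace V := FiniteDimensional.proper ℝ V
  have hc : IsCompact (frontier Ω) :=
    Metric.isCompact_of_isClosed_isBounded isClosed_frontier
      (hΩ.bd.closure.subset frontier_subset_closure)
  have key : ∃ r, 0 < r ∧ ∀ x₀ ∈ frontier Ω, x₀ ∈ frontier Ω → TwoB Ω r x₀ := by
    refine hc.induction_on
      (p := fun S => ∃ r, 0 < r ∧ ∀ x₀ ∈ S, x₀ ∈ frontier Ω → TwoB Ω r x₀) ?_ ?_ ?_ ?_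
    · exact ⟨1, one_pos, fun _ h => h.elim⟩
    · rintro s t hst ⟨r, hr, H⟩
      exact ⟨r, hr, fun x hx => H x (hst hx)⟩
    · rintro s t ⟨r, hr, H⟩ ⟨r', hr', H'⟩
      refine ⟨min r r', lt_min hr hr', fun x hx hf => ?_⟩
      rcases hx with hx | hx
      · exact (H x hx hf).mono (lt_min hr hr') (min_le_left _ _)
      · exact (H' x hx hf).mono (lt_min hr hr') (min_le_right _ _)
    · intro x hx
      obtain ⟨r, s, hr, hs, H⟩ := twoB_loc h hx
      exact ⟨ball x s, mem_nhdsWithin_of_mem_nhds (ball_mem_nhds x hs), r, hr,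
        fun y hy hf => H y hf hy⟩
  obtain ⟨r, hr, H⟩ := key
  exact ⟨r, hr, fun x hx => H x hx hx⟩

theorem dgeo_near (hΩ : OB Ω) {x : V} (hx : x ∈ Ω) :
    0 < dd Ω x ∧ ball x (dd Ω x) ⊆ Ω ∧ ∃ x₀ ∈ frontier Ω, ‖x - x₀‖ = dd Ω x := by
  have : ProperSpace V := FiniteDimensional.proper ℝ V
  have : Nontrivial V :=
    Module.nontrivial_of_finrank_pos (R := ℝ) (lt_of_lt_of_le two_pos hΩ.dim)
  have hne : (Ωᶜ).Nonempty := by
    by_contra hn
    have hu : Ω = univ := by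
      rw [Set.not_nonempty_iff_eq_empty, compl_empty_iff] at hn
      exact hn
    exact NormedSpace.unbounded_univ ℝ V (hu ▸ hΩ.bd)
  have hcl : IsClosed Ωᶜ := hΩ.op.isClosed_compl
  have hpos : 0 < dd Ω x := (hcl.notMem_iff_infDist_pos hne).1 (fun hh => hh hx)
  have hball : ball x (dd Ω x) ⊆ Ω := by
    intro z hz
    by_contra hzn
    have h1 : infDist x Ωᶜ ≤ dist x z := infDist_le_dist_of_mem hzn
    rw [mem_ball, dist_comm] at hz
    exact absurd hz (not_lt.2 h1)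
  obtain ⟨x₀, hx₀, hd⟩ := hcl.exists_infDist_eq_dist hne x
  refine ⟨hpos, hball, x₀, ?_, ?_⟩
  · rw [hΩ.op.frontier_eq]
    refine ⟨closure_mono hball ?_, hx₀⟩
    rw [closure_ball x hpos.ne', mem_closedBall, dist_comm]
    exact hd.ge
  · rw [← dist_eq_norm]
    exact hd.symm

theorem dgeo_far {x e : V} {r d : ℝ} (hd : 0 < d) (hdr : d < r) (hb : ball x d ⊆ Ω)
    (he : ∀ z ∈ Ω, r ≤ ‖z - e‖) : r + d ≤ ‖x - e‖ := by
  have hL : r ≤ ‖x - e‖ := he x (hb (mem_ball_self hd))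
  have hL0 : 0 < ‖x - e‖ := by linarith
  have key : ∀ t, 0 < t → t < d → r + t ≤ ‖x - e‖ := by
    intro t ht htd
    have hz : x - (t / ‖x - e‖) • (x - e) ∈ ball x d := by
      rw [mem_ball, dist_eq_norm, sub_sub_cancel_left, norm_neg, norm_smul, Real.norm_eq_abs,
        abs_of_pos (div_pos ht hL0), div_mul_cancel₀ _ hL0.ne']
      exact htd
    have h1 := he _ (hb hz)
    have h2 : x - (t / ‖x - e‖) • (x - e) - e = (1 - t / ‖x - e‖) • (x - e) := by
      rw [sub_smul, one_smul]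
      abel
    have h3 : 0 ≤ 1 - t / ‖x - e‖ := by
      rw [sub_nonneg, div_le_one hL0]
      linarith
    rw [h2, norm_smul, Real.norm_eq_abs, abs_of_nonneg h3, sub_mul,
      div_mul_cancel₀ _ hL0.ne'] at h1
    linarith
  by_contra hn
  rw [not_le] at hn
  have h4 := key ((‖x - e‖ - r + d) / 2) (by linarith) (by linarith)
  linarith

theorem geo (hΩ : OB Ω) (h : IsC11Domain Ω) : ∃ r, 0 < r ∧ ExtB Ω r ∧ IntB Ω r := by
  obtain ⟨r, hr, H⟩ := dgeo_unif hΩ h
  refine ⟨r, hr, fun x hx => ?_, fun x hx hdr => ?_⟩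
  · obtain ⟨hpos, hball, x₀, hx₀, hd⟩ := dgeo_near hΩ hx
    obtain ⟨ν, hν, -, he⟩ := H x₀ hx₀
    refine ⟨x₀ + r • ν, he, ?_⟩
    have hn : ‖r • ν‖ = r := by rw [norm_smul, hν, mul_one, Real.norm_eq_abs, abs_of_pos hr]
    have h1 : x - (x₀ + r • ν) = (x - x₀) - r • ν := by abel
    rw [h1]
    have h2 := norm_sub_le (x - x₀) (r • ν)
    linarith
  · obtain ⟨hpos, hball, x₀, hx₀, hd⟩ := dgeo_near hΩ hx
    obtain ⟨ν, hν, hi, he⟩ := H x₀ hx₀
    refine ⟨x₀ - r • ν, hi, ?_⟩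
    have hn : ‖r • ν‖ = r := by rw [norm_smul, hν, mul_one, Real.norm_eq_abs, abs_of_pos hr]
    have hfar := dgeo_far hpos hdr hball he
    have h1 : x - (x₀ + r • ν) = (x - x₀) - r • ν := by abel
    have h2 : x - (x₀ - r • ν) = (x - x₀) + r • ν := by abel
    rw [h1] at hfar
    rw [h2]
    have h3 := norm_add_sq_real (x - x₀) (r • ν)
    have h4 := norm_sub_sq_real (x - x₀) (r • ν)
    rw [hn, hd] at h3 h4
    have h5 : (r + dd Ω x) ^ 2 ≤ ‖x - x₀ - r • ν‖ ^ 2 :=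
      pow_le_pow_left₀ (by linarith) hfar 2
    refine abs_le_of_sq_le_sq' ?_ (by linarith) |>.2
    nlinarith

end Pool.Agent.P.MP_0cf84d_an
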