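import Pool.Agent.P.MP_0cf84d_an.DBase

/-! Tangent balls near a boundary point. -/

set_option linter.unusedSectionVars false
set_option linter.unusedVariables false

namespace Pool.Agent.P.MP_0cf84d_an

open MeasureTheory Filter Topology Metric Set Module
open scoped RealInnerProductSpace ENNReal NNReal

variable {V : Type*} [NormedAddCommGroup V] [InnerProductSpace ℝ V] [FiniteDimensional ℝ V]
  [MeasurableSpace V] [BorelSpace V] [CompleteSpace V] {Ω : Set V}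

theorem TwoB.mono {r r' : ℝ} {x₀ : V} (h : TwoB Ω r x₀) (hr' : 0 < r') (hr : r' ≤ r) :
    TwoB Ω r' x₀ := by
  obtain ⟨ν, h1, h2, h3⟩ := h
  have hn : ‖(r - r') • ν‖ = r - r' := by
    rw [norm_smul, h1, mul_one, Real.norm_of_nonneg (sub_nonneg.2 hr)]
  refine ⟨ν, h1, (ball_subset_ball' ?_).trans h2, fun z hz => ?_⟩
  · rw [dist_eq_norm, show x₀ - r' • ν - (x₀ - r • ν) = (r - r') • ν by module, hn]
    linarith
  · have h4 := h3 z hz
    rw [show z - (x₀ + r • ν) = z - (x₀ + r' • ν) - (r - r') • ν by module] at h4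
    linarith [norm_sub_le (z - (x₀ + r' • ν)) ((r - r') • ν)]

theorem twoB_loc (h : IsC11Domain Ω) {x₁ : V} (hx : x₁ ∈ frontier Ω) :
    ∃ r s, 0 < r ∧ 0 < s ∧ ∀ x₀ ∈ frontier Ω, x₀ ∈ ball x₁ s → TwoB Ω r x₀ := by
  obtain ⟨r0, L, ρ, D, hr0, hd, hL, hD, hΩ⟩ := h.2.2.2 x₁ hx
  have hδ : 0 < ‖D x₁‖ := norm_pos_iff.2 hD
  have hL0 : (0 : ℝ) ≤ L := L.2
  obtain ⟨η, hη, hη1, hη2⟩ : ∃ η : ℝ, 0 < η ∧ 2 * η ≤ r0 ∧ 2 * (L * η) < ‖D x₁‖ := by
    refine ⟨min (r0 / 2) (‖D x₁‖ / (2 * (L + 1))), by positivity,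
      by linarith [min_le_left (r0 / 2) (‖D x₁‖ / (2 * (L + 1)))], ?_⟩
    have h1 := (le_div_iff₀ (by positivity)).1 (min_le_right (r0 / 2) (‖D x₁‖ / (2 * (L + 1))))
    have h2 : 0 < min (r0 / 2) (‖D x₁‖ / (2 * (L + 1))) := by positivity
    linarith
  refine ⟨η / 2, η, half_pos hη, hη, fun x₀ hx₀ hs => ?_⟩
  have hsub : ball x₀ η ⊆ ball x₁ r0 := ball_subset_ball' (by linarith [mem_ball.1 hs])
  have hb : x₀ ∈ ball x₁ r0 := hsub (mem_ball_self hη)
  have hm : L * η < ‖D x₀‖ := by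
    have h1 := hL.dist_le_mul x₁ (mem_ball_self hr0) x₀ hb
    have h2 : (L : ℝ) * dist x₁ x₀ ≤ L * η :=
      mul_le_mul_of_nonneg_left (mem_ball'.1 hs).le hL0
    rw [dist_eq_norm] at h1
    linarith [norm_sub_norm_le (D x₁) (D x₀)]
  have hm0 : 0 < ‖D x₀‖ := lt_of_le_of_lt (by positivity) hm
  have h0 : ρ x₀ = 0 := by
    refine le_antisymm (not_lt.1 fun hp => ?_) (not_lt.1 fun hp => ?_)
    · obtain ⟨z, hz, h1, h2⟩ := ((mem_closure_iff_frequently.1 hx₀.1).and_eventually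
        ((continuousAt_const.eventually_lt (hd x₀ hb).continuousAt hp).and
          (isOpen_ball.mem_nhds hb))).exists
      exact lt_asymm h1 ((hΩ z h2).1 hz)
    · exact hx₀.2 (h.1.interior_eq.symm ▸ (hΩ x₀ hb).2 hp)
  have hT : ∀ z, ‖z - x₀‖ < η → |ρ z - D x₀ (z - x₀)| ≤ L * ‖z - x₀‖ ^ 2 := fun z hz => by
    have hc : closedBall x₀ ‖z - x₀‖ ⊆ ball x₁ r0 := (closedBall_subset_ball hz).trans hsub
    have h1 := (convex_closedBall x₀ ‖z - x₀‖).norm_image_sub_le_of_norm_hasFDerivWithin_le'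
      (f := ρ) (f' := D) (φ := D x₀) (C := L * ‖z - x₀‖)
      (fun y hy => (hd y (hc hy)).hasFDerivWithinAt)
      (fun y hy => by
        rw [← dist_eq_norm]
        exact (hL.dist_le_mul y (hc hy) x₀ hb).trans (mul_le_mul_of_nonneg_left hy hL0))
      (mem_closedBall_self (norm_nonneg _)) (mem_closedBall_iff_norm.2 le_rfl)
    rwa [h0, sub_zero, Real.norm_eq_abs, mul_assoc, ← sq] at h1
  obtain ⟨ν, hν, hνD⟩ : ∃ ν : V, ‖ν‖ = 1 ∧ ∀ v, D x₀ v = ‖D x₀‖ * ⟪v, ν⟫ := by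
    refine ⟨‖D x₀‖⁻¹ • (InnerProductSpace.toDual ℝ V).symm (D x₀), ?_, fun v => ?_⟩
    · rw [norm_smul, LinearIsometryEquiv.norm_map, norm_inv, norm_norm, inv_mul_cancel₀ hm0.ne']
    · rw [real_inner_smul_right, mul_inv_cancel_left₀ hm0.ne', real_inner_comm,
        InnerProductSpace.toDual_symm_apply]
  have hn : ‖(η / 2) • ν‖ = η / 2 := by
    rw [norm_smul, hν, mul_one, Real.norm_of_nonneg (half_pos hη).le]
  refine ⟨ν, hν, fun z hz => ?_, fun z hz => not_lt.1 fun hlt => ?_⟩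
  · rw [mem_ball_iff_norm, show z - (x₀ - (η / 2) • ν) = z - x₀ + (η / 2) • ν by abel] at hz
    have h1 : ‖z - x₀‖ < η := by
      have := norm_sub_le (z - x₀ + (η / 2) • ν) ((η / 2) • ν)
      rw [add_sub_cancel_right] at this
      linarith
    have h2 := pow_lt_pow_left₀ hz (norm_nonneg _) two_ne_zero
    rw [norm_add_sq_real, hn, real_inner_smul_right] at h2
    have h3 := (abs_le.1 (hT z h1)).2
    rw [hνD] at h3
    have h4 : ⟪z - x₀, ν⟫ < 0 := by nlinarith [sq_nonneg ‖z - x₀‖]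
    refine (hΩ z (hsub (mem_ball_iff_norm.2 h1))).2 ?_
    nlinarith [mul_le_mul_of_nonneg_left h2.le hL0, mul_pos (sub_pos.2 hm) (neg_pos.2 h4)]
  · rw [show z - (x₀ + (η / 2) • ν) = z - x₀ - (η / 2) • ν by abel] at hlt
    have h1 : ‖z - x₀‖ < η := by
      have := norm_add_le (z - x₀ - (η / 2) • ν) ((η / 2) • ν)
      rw [sub_add_cancel] at this
      linarith
    have h2 := pow_lt_pow_left₀ hlt (norm_nonneg _) two_ne_zero
    rw [norm_sub_sq_real, hn, real_inner_smul_right] at h2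
    have h3 := (abs_le.1 (hT z h1)).1
    rw [hνD] at h3
    have h4 : 0 < ⟪z - x₀, ν⟫ := by nlinarith [sq_nonneg ‖z - x₀‖]
    have h5 := (hΩ z (hsub (mem_ball_iff_norm.2 h1))).1 hz
    nlinarith [mul_le_mul_of_nonneg_left h2.le hL0, mul_pos (sub_pos.2 hm) h4]

end Pool.Agent.P.MP_0cf84d_an
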