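import Pool.Agent.P.MP_0cf84d_an.DCmp

/-! The boundary point lemma. -/

set_option linter.unusedSectionVars false
set_option linter.unusedVariables false

namespace Pool.Agent.P.MP_0cf84d_an

open MeasureTheory Filter Topology Metric Set Module
open scoped RealInnerProductSpace ENNReal NNReal

variable {V : Type*} [NormedAddCommGroup V] [InnerProductSpace ℝ V] [FiniteDimensional ℝ V]
  [MeasurableSpace V] [BorelSpace V] [CompleteSpace V] {Ω : Set V}

theorem eig_super (hΩ : OB Ω) {c φ : V → ℝ} (hc : MemLp c 2 (mm Ω)) (h0 : ∀ᵐ x ∂mm Ω, 0 ≤ c x)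
    (hφ : IsPosEigenfun Ω c φ) : ∃ G, InH10 Ω φ G ∧ WGe Ω G (fun _ => 0) := by
  obtain ⟨_, hpos, γ, G, hG, heq⟩ := hφ
  refine ⟨G, hG, hG.2.1, integrable_zero _ _ _, fun v H hv hv0 => ?_⟩
  simp only [zero_mul, integral_zero]
  rcases le_or_gt 0 γ with hγ | hγ
  · rw [heq v H hv.1]
    refine mul_nonneg hγ (integral_nonneg_of_ae ?_)
    filter_upwards [h0, hv0, hΩ.mem] with x h1 h2 h3
    exact mul_nonneg (mul_nonneg h1 (hpos x h3).le) h2
  · have h1 : 0 ≤ ∫ x, c x * φ x * φ x ∂mm Ω := by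
      refine integral_nonneg_of_ae ?_
      filter_upwards [h0, hΩ.mem] with x h1 h3
      exact mul_nonneg (mul_nonneg h1 (hpos x h3).le) (hpos x h3).le
    have h2 : ∫ x, ⟪G x, G x⟫ ∂mm Ω ≤ 0 := by
      rw [heq φ G hG]
      exact mul_nonpos_of_nonpos_of_nonneg hγ.le h1
    have h3 : (0 : V → ℝ) ≤ fun x => ⟪G x, G x⟫ := fun x => real_inner_self_nonneg
    have h4 : (fun x => ⟪G x, G x⟫) =ᵐ[mm Ω] 0 :=
      (integral_eq_zero_iff_of_nonneg h3 (int_inner hG.2.1 hG.2.1)).1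
        (le_antisymm h2 (integral_nonneg h3))
    refine integral_nonneg_of_ae ?_
    filter_upwards [h4] with x hx
    have h5 : G x = 0 := inner_self_eq_zero.1 hx
    simp [h5]

theorem dhopf_bdd (hΩ : OB Ω) {g : V → ℝ} (hg : Continuous g) : ∃ C, ∀ x ∈ Ω, |g x| ≤ C := by
  obtain ⟨R, _, hR⟩ := hΩ.radius 0
  obtain ⟨C, hC⟩ := (isCompact_closedBall (0 : V) R).exists_bound_of_continuousOn hg.continuousOn
  exact ⟨C, fun x hx => hC x (mem_closedBall_iff_norm.2 (hR x hx))⟩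

theorem dhopf_compl (hΩ : OB Ω) : (Ωᶜ).Nonempty := by
  have hd := hΩ.dim
  have : Nontrivial V := Module.nontrivial_of_finrank_pos (R := ℝ) (by omega)
  rw [Set.nonempty_compl]
  rintro rfl
  exact NormedSpace.unbounded_univ ℝ V hΩ.bd

theorem dhopf_exp (k α s : ℝ) :
    HasDerivAt (fun s => k * Real.exp (-(α * s))) (-(k * α) * Real.exp (-(α * s))) s := by
  have h1 : HasDerivAt (fun s => -(α * s)) (-α) s :=
    ((hasDerivAt_id' s).const_mul α).fun_neg.congr_deriv (by ring)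
  exact (h1.exp.const_mul k).congr_deriv (by ring)

theorem dhopf_barrier (hΩ : OB Ω) {r r' m α : ℝ} (hr : 0 < r) (hr0 : 0 ≤ r') (hr' : r' < r)
    (hm : 0 < m) (hα : 0 < α) (hαN : α * r ^ 2 = 2 * finrank ℝ V) {φ : V → ℝ} {G : V → V}
    (hc : ContinuousOn φ Ω) (hφ : InH10 Ω φ G) (h : WGe Ω G (fun _ => 0))
    (hS : ∀ x, r / 2 ≤ dd Ω x → m ≤ φ x) {y : V} (hy : ball y r ⊆ Ω) :
    ∀ x ∈ Ω, m * Real.exp (-(α * ‖x - y‖ ^ 2)) - m * Real.exp (-(α * r' ^ 2)) ≤ φ x := by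
  have hce : ∀ k : ℝ, Continuous fun x : V => k * Real.exp (-(α * ‖x - y‖ ^ 2)) := fun k => by
    fun_prop
  obtain ⟨C1, hC1⟩ := dhopf_bdd hΩ (g := fun x =>
    -m * Real.exp (-(α * ‖x - y‖ ^ 2)) + m * Real.exp (-(α * r' ^ 2))) (by fun_prop)
  obtain ⟨C2, hC2⟩ := dhopf_bdd hΩ (hce (-(-m * α)))
  obtain ⟨C3, hC3⟩ := dhopf_bdd hΩ (hce (2 * m * α))
  obtain ⟨C4, hC4⟩ := dhopf_bdd hΩ (hce (-(2 * m * α * α)))
  have hW := reg_radial hΩ y
    (A := fun s => -m * Real.exp (-(α * s)) + m * Real.exp (-(α * r' ^ 2)))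
    (a := fun s => -(-m * α) * Real.exp (-(α * s)))
    (fun x _ => (dhopf_exp (-m) α _).add_const _) (hce _).continuousOn (C := max C1 C2)
    (fun x hx => ⟨(hC1 x hx).trans (le_max_left _ _), (hC2 x hx).trans (le_max_right _ _)⟩)
  have hE := weq_radial hΩ y (a := fun s => 2 * m * α * Real.exp (-(α * s)))
    (a' := fun s => -(2 * m * α * α) * Real.exp (-(α * s)))
    (fun x _ => dhopf_exp (2 * m * α) α _) (hce _).continuousOn (C := max C3 C4)
    (fun x hx => ⟨(hC3 x hx).trans (le_max_left _ _), (hC4 x hx).trans (le_max_right _ _)⟩)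
  have hfc : Continuous fun x : V => 2 * m * α * Real.exp (-(α * ‖x - y‖ ^ 2)) *
      (2 * α * ‖x - y‖ ^ 2 - finrank ℝ V) := by fun_prop
  obtain ⟨C5, hC5⟩ := dhopf_bdd hΩ hfc
  have hf : MemLp (fun x : V => 2 * m * α * Real.exp (-(α * ‖x - y‖ ^ 2)) *
      (2 * α * ‖x - y‖ ^ 2 - finrank ℝ V)) 2 (mm Ω) :=
    hΩ.memLp_of_bdd hfc.continuousOn hC5 2
  have hG : WGe Ω (fun x => (2 * (-(-m * α) * Real.exp (-(α * ‖x - y‖ ^ 2)))) • (x - y) - -G x)
      (fun x : V => 2 * m * α * Real.exp (-(α * ‖x - y‖ ^ 2)) *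
        (2 * α * ‖x - y‖ ^ 2 - finrank ℝ V)) := by
    refine (hE.ge.add h).congr (Eventually.of_forall fun x => ?_)
      (Eventually.of_forall fun x => ?_)
    · simp only [sub_neg_eq_add]
      congr 2
      ring
    · simp only
      ring
  have hae := cmp hΩ (hφ.neg hΩ) hW (isCompact_closedBall y r')
    ((closedBall_subset_ball hr').trans hy) (by
      intro x _ hx
      have h1 : r' ≤ ‖x - y‖ := le_of_lt (not_le.1 fun hh => hx (mem_closedBall_iff_norm.2 hh))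
      have h2 : r' ^ 2 ≤ ‖x - y‖ ^ 2 := pow_le_pow_left₀ hr0 h1 2
      have h3 : Real.exp (-(α * ‖x - y‖ ^ 2)) ≤ Real.exp (-(α * r' ^ 2)) :=
        Real.exp_le_exp.2 (neg_le_neg (mul_le_mul_of_nonneg_left h2 hα.le))
      have h4 := mul_le_mul_of_nonneg_left h3 hm.le
      linarith) hG hf (κ := 0) (Λ := 0) (by norm_num) (by
      refine Eventually.of_forall fun x hx => ?_
      have h1 : Real.exp (-(α * ‖x - y‖ ^ 2)) ≤ 1 :=
        Real.exp_le_one_iff.2 (neg_nonpos.2 (by positivity))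
      have h2 := mul_le_mul_of_nonneg_left h1 hm.le
      have h3 : 0 < m * Real.exp (-(α * r' ^ 2)) := by positivity
      have h4 : φ x < m := by linarith
      have h5 : r / 2 ≤ ‖x - y‖ := by
        by_contra hlt
        refine absurd (hS x ?_) (not_le.2 h4)
        refine (le_infDist (dhopf_compl hΩ)).2 fun z hz => ?_
        have h6 : r ≤ dist z y := not_lt.1 fun hh => hz (hy hh)
        have h7 := dist_triangle z x y
        rw [dist_comm z x, dist_eq_norm x y] at h7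
        linarith [not_le.1 hlt]
      have h6 : (r / 2) ^ 2 ≤ ‖x - y‖ ^ 2 := pow_le_pow_left₀ (by positivity) h5 2
      have h7 := mul_le_mul_of_nonneg_left h6 hα.le
      have h8 : 0 ≤ 2 * α * ‖x - y‖ ^ 2 - finrank ℝ V := by nlinarith
      simp only [zero_mul, sub_zero]
      positivity)
  have hψ : Continuous fun x : V =>
      m * Real.exp (-(α * ‖x - y‖ ^ 2)) - m * Real.exp (-(α * r' ^ 2)) := by fun_prop
  have heq : EqOn (fun x => max
      (m * Real.exp (-(α * ‖x - y‖ ^ 2)) - m * Real.exp (-(α * r' ^ 2))) (φ x)) φ Ω := by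
    refine Measure.eqOn_open_of_ae_eq (μ := volume) ?_ hΩ.op (hψ.continuousOn.sup hc) hc
    filter_upwards [hae] with x hx
    exact max_eq_right (by linarith)
  intro x hx
  exact max_eq_right_iff.1 (heq hx)

theorem hopf (hΩ : OB Ω) {r : ℝ} (hr : 0 < r) (hI : IntB Ω r) {φ : V → ℝ} {G : V → V}
    (hc : ContinuousOn φ Ω) (hp : ∀ x ∈ Ω, 0 < φ x) (hφ : InH10 Ω φ G)
    (h : WGe Ω G (fun _ => 0)) : ∃ c₀, 0 < c₀ ∧ ∀ x ∈ Ω, c₀ * dd Ω x ≤ φ x := by
  have hsub : {x | r / 2 ≤ dd Ω x} ⊆ Ω := by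
    intro x hx
    by_contra hn
    have h1 : dd Ω x = 0 := infDist_zero_of_mem hn
    have h2 : r / 2 ≤ dd Ω x := hx
    linarith
  have hK : IsCompact {x | r / 2 ≤ dd Ω x} :=
    isCompact_of_isClosed_isBounded (isClosed_le continuous_const (continuous_infDist_pt _))
      (hΩ.bd.subset hsub)
  obtain ⟨m, hm, hS⟩ := hK.exists_forall_le' (hc.mono hsub) (fun x hx => hp x (hsub hx))
  obtain ⟨z, hz⟩ := dhopf_compl hΩ
  obtain ⟨R, hR, hRz⟩ := hΩ.radius z
  have hN : (0 : ℝ) < finrank ℝ V := by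
    have := hΩ.dim
    exact_mod_cast (by omega : 0 < finrank ℝ V)
  obtain ⟨α, hα, hαN⟩ : ∃ α : ℝ, 0 < α ∧ α * r ^ 2 = 2 * finrank ℝ V :=
    ⟨2 * finrank ℝ V / r ^ 2, by positivity, by field_simp⟩
  refine ⟨min (m * Real.exp (-(α * r ^ 2)) * (α * (r / 4))) (m / R),
    lt_min (by positivity) (by positivity), fun x hx => ?_⟩
  have hd0 : 0 ≤ dd Ω x := infDist_nonneg
  rcases lt_or_ge (dd Ω x) r with hd | hd
  · rcases hd0.eq_or_lt with hd1 | hd1
    · rw [← hd1, mul_zero]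
      exact (hp x hx).le
    obtain ⟨y, hy, hxy⟩ := hI x hx hd
    have hb := dhopf_barrier hΩ (r' := r - dd Ω x / 2) hr (by linarith) (by linarith) hm hα hαN
      hc hφ h hS hy x hx
    refine le_trans (mul_le_mul_of_nonneg_right (min_le_left _ _) hd0) (le_trans ?_ hb)
    generalize dd Ω x = d at *
    have h1 : ‖x - y‖ ^ 2 ≤ (r - d) ^ 2 := pow_le_pow_left₀ (norm_nonneg _) hxy 2
    generalize ‖x - y‖ ^ 2 = s at *
    have h2 : r / 4 * d ≤ (r - d / 2) ^ 2 - s := by nlinarith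
    have h3 : Real.exp (-(α * r ^ 2)) ≤ Real.exp (-(α * (r - d / 2) ^ 2)) :=
      Real.exp_le_exp.2 (neg_le_neg (mul_le_mul_of_nonneg_left (by nlinarith) hα.le))
    have h4 : Real.exp (-(α * s)) =
        Real.exp (-(α * (r - d / 2) ^ 2)) * Real.exp (α * ((r - d / 2) ^ 2 - s)) := by
      rw [← Real.exp_add]
      congr 1
      ring
    have h5 := Real.add_one_le_exp (α * ((r - d / 2) ^ 2 - s))
    have h6 : α * (r / 4 * d) ≤ Real.exp (α * ((r - d / 2) ^ 2 - s)) - 1 := by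
      have := mul_le_mul_of_nonneg_left h2 hα.le
      linarith
    have h7 : Real.exp (-(α * r ^ 2)) * (α * (r / 4 * d)) ≤
        Real.exp (-(α * (r - d / 2) ^ 2)) * (Real.exp (α * ((r - d / 2) ^ 2 - s)) - 1) :=
      mul_le_mul h3 h6 (by positivity) (by positivity)
    have h8 := mul_le_mul_of_nonneg_left h7 hm.le
    rw [h4]
    calc _ = m * (Real.exp (-(α * r ^ 2)) * (α * (r / 4 * d))) := by ring
      _ ≤ _ := h8
      _ = _ := by ring
  · have h1 : dd Ω x ≤ R := by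
      refine (infDist_le_dist_of_mem hz).trans ?_
      rw [dist_eq_norm]
      exact hRz x hx
    have h2 : m ≤ φ x := hS x (show r / 2 ≤ dd Ω x by linarith)
    calc _ ≤ m / R * dd Ω x := mul_le_mul_of_nonneg_right (min_le_right _ _) hd0
      _ ≤ m / R * R := mul_le_mul_of_nonneg_left h1 (by positivity)
      _ = m := by field_simp
      _ ≤ φ x := h2

end Pool.Agent.P.MP_0cf84d_an
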