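import Pool.Agent.P.MP_0cf84d_an.DStep

/-! A solution between a lower and an upper solution, Lipschitz Hamiltonian. -/

set_option linter.unusedSectionVars false
set_option linter.unusedVariables false

namespace Pool.Agent.P.MP_0cf84d_an

open MeasureTheory Filter Topology Metric Set Module
open scoped RealInnerProductSpace ENNReal NNReal

variable {V : Type*} [NormedAddCommGroup V] [InnerProductSpace ℝ V] [FiniteDimensional ℝ V]
  [MeasurableSpace V] [BorelSpace V] [CompleteSpace V] {Ω : Set V}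

variable {q μ₁ μ₂ l B₀ : ℝ} {c h μ y β : V → ℝ} {Y B : V → V} {Hk : V → ℝ} {Λ : ℝ≥0}

theorem diter_seq {K : ℝ} (hΩ : OB Ω) (hD : Dat Ω q c h μ μ₁ μ₂) (hl : 0 ≤ l)
    (hH : LipschitzWith Λ Hk) (hB : ∀ p, |Hk p| ≤ B₀) (hK : 2 ≤ K) (hK' : 2 * (Λ * μ₂) ^ 2 ≤ K)
    (hy : TT Ω y Y) (hlow : WGe Ω (fun x => -Y x) (fun x => -rhs c h μ l Hk y Y x))
    (hβ : TT Ω β B) (hup : WGe Ω B (rhs c h μ l Hk β B)) (hle : ∀ᵐ x ∂mm Ω, y x ≤ β x) :
    ∃ (z : ℕ → V → ℝ) (Z : ℕ → V → V), z 0 = y ∧ (∀ n, TT Ω (z n) (Z n)) ∧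
      (∀ n, WEq Ω (Z (n + 1)) (fun x => (l * (c x * z n x) + K * z n x + h x) +
        μ x * Hk (Z (n + 1) x) - K * z (n + 1) x)) ∧
      (∀ n, ∀ᵐ x ∂mm Ω, z n x ≤ z (n + 1) x) ∧ ∀ n, ∀ᵐ x ∂mm Ω, z n x ≤ β x := by
  have hstep : ∀ p : {p : (V → ℝ) × (V → V) // TT Ω p.1 p.2 ∧
      WGe Ω (fun x => -p.2 x) (fun x => -rhs c h μ l Hk p.1 p.2 x) ∧ ∀ᵐ x ∂mm Ω, p.1 x ≤ β x},
      ∃ p' : {p : (V → ℝ) × (V → V) // TT Ω p.1 p.2 ∧
        WGe Ω (fun x => -p.2 x) (fun x => -rhs c h μ l Hk p.1 p.2 x) ∧ ∀ᵐ x ∂mm Ω, p.1 x ≤ β x},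
      WEq Ω p'.1.2 (fun x => (l * (c x * p.1.1 x) + K * p.1.1 x + h x) + μ x * Hk (p'.1.2 x) -
        K * p'.1.1 x) ∧ ∀ᵐ x ∂mm Ω, p.1.1 x ≤ p'.1.1 x := by
    rintro ⟨⟨a, A⟩, h1, h2, h3⟩
    obtain ⟨z, Z, k1, k2, k3, k4⟩ := step0 hΩ hD hl hH hB hK hK' h1 h2 hβ hup h3
    exact ⟨⟨(z, Z), k1, k4, k3.mono fun x hx => hx.2⟩, k2, k3.mono fun x hx => hx.1⟩
  choose F hF using hstep
  refine ⟨fun n => (F^[n] ⟨(y, Y), hy, hlow, hle⟩).1.1, fun n => (F^[n] ⟨(y, Y), hy, hlow, hle⟩).1.2,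
    rfl, fun n => (F^[n] ⟨(y, Y), hy, hlow, hle⟩).2.1, fun n => ?_, fun n => ?_,
    fun n => (F^[n] ⟨(y, Y), hy, hlow, hle⟩).2.2.2⟩
  · simp only [Function.iterate_succ_apply']
    exact (hF _).1
  · simp only [Function.iterate_succ_apply']
    exact (hF _).2

theorem diter_top {a : V → ℝ} (ha : AEStronglyMeasurable a (mm Ω)) {M : ℝ}
    (hM : ∀ᵐ x ∂mm Ω, |a x| ≤ M) : MemLp a ⊤ (mm Ω) :=
  memLp_top_of_bound ha M hM

theorem level (hΩ : OB Ω) (hD : Dat Ω q c h μ μ₁ μ₂) (hl : 0 ≤ l) (hH : LipschitzWith Λ Hk)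
    (hB : ∀ p, |Hk p| ≤ B₀) (hy : TT Ω y Y)
    (hlow : WGe Ω (fun x => -Y x) (fun x => -rhs c h μ l Hk y Y x))
    (hβ : TT Ω β B) (hup : WGe Ω B (rhs c h μ l Hk β B)) (hle : ∀ᵐ x ∂mm Ω, y x ≤ β x) :
    ∃ u G, TT Ω u G ∧ WEq Ω G (rhs c h μ l Hk u G) ∧ ∀ᵐ x ∂mm Ω, y x ≤ u x ∧ u x ≤ β x := by
  have hfin := hΩ.fin
  obtain ⟨K, hK, hK'⟩ : ∃ K : ℝ, 2 ≤ K ∧ 2 * (Λ * μ₂) ^ 2 ≤ K :=
    ⟨max 2 (2 * (Λ * μ₂) ^ 2), le_max_left _ _, le_max_right _ _⟩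
  obtain ⟨z, Z, z0, hT, hE, hm, hb⟩ := diter_seq hΩ hD hl hH hB hK hK' hy hlow hβ hup hle
  obtain ⟨M1, hM1, b1⟩ := top_bound hy.2
  obtain ⟨M2, hM2, b2⟩ := top_bound hβ.2
  have hc2 : MemLp c 2 (mm Ω) := hΩ.two_of_q hD.hq hD.cq
  have hh2 : MemLp h 2 (mm Ω) := hΩ.two_of_q hD.hq hD.hh
  have hμ : ∀ᵐ x ∂mm Ω, |μ x| ≤ μ₂ := hD.mu.mono fun x hx =>
    abs_le.2 ⟨by linarith [hD.pos, hD.le, hx.1], hx.2⟩
  obtain ⟨u, hu⟩ : ∃ u : V → ℝ, u = fun x => ⨆ n, z n x := ⟨_, rfl⟩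
  have key : ∀ᵐ x ∂mm Ω, (∀ n, |z n x| ≤ M1 + M2) ∧ Tendsto (fun n => z n x) atTop (𝓝 (u x)) ∧
      y x ≤ u x ∧ u x ≤ β x ∧ |u x| ≤ M1 + M2 := by
    filter_upwards [ae_all_iff.2 hm, ae_all_iff.2 hb, b1, b2] with x h1 h2 h3 h4
    have hmono : Monotone fun n => z n x := monotone_nat_of_le_succ h1
    have hbdd : BddAbove (range fun n => z n x) := ⟨β x, forall_mem_range.2 h2⟩
    have h5 : ∀ n, y x ≤ z n x := fun n => by
      have := hmono (Nat.zero_le n)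
      simpa only [z0] using this
    have h6 : y x ≤ u x := by rw [hu]; exact (h5 0).trans (le_ciSup hbdd 0)
    have h7 : u x ≤ β x := by rw [hu]; exact ciSup_le h2
    obtain ⟨h3a, h3b⟩ := abs_le.1 h3
    obtain ⟨h4a, h4b⟩ := abs_le.1 h4
    refine ⟨fun n => abs_le.2 ⟨by linarith [h5 n], by linarith [h2 n]⟩, ?_, h6, h7,
      abs_le.2 ⟨by linarith, by linarith⟩⟩
    rw [hu]
    exact tendsto_atTop_ciSup hmono hbdd
  have hz : L2T (mm Ω) z u :=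
    l2t_of_dom (fun n => (hT n).2.1) (memLp_const (M1 + M2)) (fun n => key.mono fun x hx => hx.1 n)
      (key.mono fun x hx => hx.2.1)
  have hf2 : ∀ n, MemLp (fun x => l * (c x * z n x) + K * z n x + h x) 2 (mm Ω) := fun n =>
    (((memLp_mul_top hc2 (hT n).2).const_mul l).add ((hT n).1.1.const_mul K)).add hh2
  have hf : L2T (mm Ω) (fun n x => l * (c x * z n x) + K * z n x + h x)
      (fun x => l * (c x * u x) + K * u x + h x) := by
    refine l2t_of_dom (fun n => (hf2 n).1)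
      (b := fun x => l * (M1 + M2) * ‖c x‖ + K * (M1 + M2) + ‖h x‖)
      (((hc2.norm.const_mul _).add (memLp_const _)).add hh2.norm) (fun n => ?_) ?_
    · filter_upwards [key] with x hx
      have h1 := hx.1 n
      have h2 : |l * (c x * z n x)| ≤ l * (M1 + M2) * |c x| := by
        rw [abs_mul, abs_mul, abs_of_nonneg hl, mul_assoc, mul_comm (M1 + M2)]
        gcongr
      have h3 : |K * z n x| ≤ K * (M1 + M2) := by
        rw [abs_mul, abs_of_nonneg (by linarith : (0 : ℝ) ≤ K)]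
        gcongr
      simp only [Real.norm_eq_abs]
      linarith [abs_add_three (l * (c x * z n x)) (K * z n x) (h x)]
    · filter_upwards [key] with x hx
      exact (((hx.2.1.const_mul (c x)).const_mul l).add (hx.2.1.const_mul K)).add_const (h x)
  obtain ⟨G, hG⟩ : ∃ G, L2T (mm Ω) (fun n => Z (n + 1)) G := by
    refine exists_l2t (fun n => (hT (n + 1)).1.2.1) fun ε hε => ?_
    obtain ⟨N, hN⟩ := hf.cauchy hε
    refine ⟨N, fun i j hi hij => ?_⟩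
    have h1 := trunc_stab hΩ hD.mum hμ hH hB hK hK' (hf2 j) (hf2 i) (hT (j + 1)).1 (hT (i + 1)).1
      (hE j) (hE i)
    have h2 := hN i j hi (hi.trans hij)
    simp only [Real.norm_eq_abs, sq_abs] at h2
    exact h1.trans h2
  have hz' : L2T (mm Ω) (fun n => z (n + 1)) u := hz.comp (tendsto_add_atTop_nat 1)
  have huH : InH10 Ω u G := inH10_limit hΩ (fun n => (hT (n + 1)).1) hz' hG
  have huT : TT Ω u G := huH.tt (key.mono fun x hx => hx.2.2.2.2)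
  have hHk : ∀ D : V → V, AEStronglyMeasurable D (mm Ω) →
      MemLp (fun x => μ x * Hk (D x)) 2 (mm Ω) := by
    intro D hDm
    have h1 : MemLp (fun x => Hk (D x)) ⊤ (mm Ω) :=
      diter_top (hH.continuous.comp_aestronglyMeasurable hDm) (Eventually.of_forall fun x => hB _)
    exact memLp_mul_top (hD.mu_top.mono_exponent le_top) h1
  have hq : L2T (mm Ω) (fun n x => μ x * Hk (Z (n + 1) x)) (fun x => μ x * Hk (G x)) := by
    refine hG.of_le (fun n => hHk _ (hT (n + 1)).1.2.1.1) (hHk _ hG.2.1.1) (μ₂ * Λ) fun n => ?_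
    filter_upwards [hμ] with x hx
    have h1 := hH.norm_sub_le (Z (n + 1) x) (G x)
    rw [← mul_sub, norm_mul, mul_assoc]
    exact mul_le_mul hx h1 (norm_nonneg _) ((abs_nonneg _).trans hx)
  have hKz : L2T (mm Ω) (fun n x => K * z (n + 1) x) (fun x => K * u x) := by
    refine hz'.of_le (fun n => (hT (n + 1)).1.1.const_mul K) (huH.1.const_mul K) |K| fun n => ?_
    refine Eventually.of_forall fun x => ?_
    rw [← mul_sub, norm_mul, Real.norm_eq_abs]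
  have hall := ((hf.add hq).sub hKz).congr (fun n => EventuallyEq.rfl)
    (g' := rhs c h μ l Hk u G) (Eventually.of_forall fun x => by simp only [rhs]; ring)
  refine ⟨u, G, huT, ⟨hG.2.1, hall.2.1.integrable one_le_two, fun v H hv => ?_⟩,
    key.mono fun x hx => ⟨hx.2.2.1, hx.2.2.2.1⟩⟩
  have t1 := hG.inner (l2t_const hv.1.2.1)
  have t2 := hall.mul (l2t_const hv.1.1)
  exact tendsto_nhds_unique t1 (t2.congr fun n => ((hE n).eq v H hv).symm)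

end Pool.Agent.P.MP_0cf84d_an
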