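import Pool.Agent.P.MP_0cf84d_an.DL2

/-! Kernel estimates. -/

set_option linter.unusedSectionVars false
set_option linter.unusedVariables false

namespace Pool.Agent.P.MP_0cf84d_an

open MeasureTheory Filter Topology Metric Set Module
open scoped RealInnerProductSpace ENNReal NNReal

variable {V : Type*} [NormedAddCommGroup V] [InnerProductSpace ℝ V] [FiniteDimensional ℝ V]
  [MeasurableSpace V] [BorelSpace V] [CompleteSpace V] {Ω : Set V}

theorem ker_bound (hΩ : OB Ω) {q γ : ℝ} (hq : 1 < q) (hγ0 : 0 ≤ γ)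
    (hγ : γ < finrank ℝ V * (1 - 1 / q)) : ∃ C, 0 ≤ C ∧ ∀ g : V → ℝ,
      MemLp g (ENNReal.ofReal q) (mm Ω) → ∀ x ∈ Ω,
        Integrable (fun z => ‖x - z‖ ^ (-γ) * |g z|) (mm Ω) ∧
          ∫ z, ‖x - z‖ ^ (-γ) * |g z| ∂mm Ω ≤ C * nq Ω q g := by
  obtain ⟨p, hpq⟩ : ∃ p : ℝ, p.HolderConjugate q := ⟨_, (Real.HolderConjugate.conjExponent hq).symm⟩
  have hp := hpq.pos
  have hα : γ * p < finrank ℝ V := by
    rw [one_div, hpq.symm.one_sub_inv] at hγ
    exact (lt_div_iff₀ hp).1 hγ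
  obtain ⟨R, hR, hR'⟩ := hΩ.radius 0
  have hm : Measurable fun w : V => ‖w‖ ^ (-(γ * p)) := by fun_prop
  have hK : Integrable ((ball (0 : V) (2 * R + 1)).indicator fun w : V => ‖w‖ ^ (-(γ * p))) :=
    (integrable_indicator_iff measurableSet_ball).2
      (integrableOn_ball_of_norm_le_rpow (C := 1) (le_trans one_le_two hΩ.dim) hα
        (Eventually.of_forall fun w => by
          rw [one_mul, Real.norm_of_nonneg (Real.rpow_nonneg (norm_nonneg w) _)])
        hm.aestronglyMeasurable)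
  have hK0 : ∀ w, 0 ≤ (ball (0 : V) (2 * R + 1)).indicator (fun w : V => ‖w‖ ^ (-(γ * p))) w :=
    fun w => indicator_nonneg (fun w _ => Real.rpow_nonneg (norm_nonneg w) _) w
  have hKe : ∀ x ∈ Ω, ∀ z ∈ Ω, (ball (0 : V) (2 * R + 1)).indicator
      (fun w : V => ‖w‖ ^ (-(γ * p))) (x - z) = ‖‖x - z‖ ^ (-γ)‖ ^ p := by
    intro x hx z hz
    have h1 := hR' x hx
    have h2 := hR' z hz
    rw [sub_zero] at h1 h2
    rw [indicator_of_mem (mem_ball_zero_iff.2 ((norm_sub_le x z).trans_lt (by linarith))),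
      Real.norm_of_nonneg (Real.rpow_nonneg (norm_nonneg _) _), ← Real.rpow_mul (norm_nonneg _),
      neg_mul]
  generalize (ball (0 : V) (2 * R + 1)).indicator (fun w : V => ‖w‖ ^ (-(γ * p))) = K
    at hK hK0 hKe
  refine ⟨(∫ w, K w) ^ (1 / p), Real.rpow_nonneg (integral_nonneg hK0) _, fun g hg x hx => ?_⟩
  have h1 : (fun z => K (x - z)) =ᵐ[mm Ω] fun z => ‖‖x - z‖ ^ (-γ)‖ ^ p :=
    hΩ.mem.mono (hKe x hx)
  have h2 : Integrable fun z => K (x - z) := hK.comp_sub_left x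
  have hm2 : Measurable fun z : V => ‖x - z‖ ^ (-γ) := by fun_prop
  have h3 : MemLp (fun z => ‖x - z‖ ^ (-γ)) (ENNReal.ofReal p) (mm Ω) := by
    rw [← integrable_norm_rpow_iff hm2.aestronglyMeasurable (ENNReal.ofReal_pos.2 hp).ne'
      ENNReal.ofReal_ne_top, ENNReal.toReal_ofReal hp.le]
    exact h2.restrict.congr h1
  have h4 : ∫ z, ‖‖x - z‖ ^ (-γ)‖ ^ p ∂mm Ω ≤ ∫ w, K w := by
    rw [← integral_congr_ae h1, ← integral_sub_left_eq_self K volume x]
    exact setIntegral_le_integral h2 (Eventually.of_forall fun z => hK0 _)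
  have h5 : nq Ω q g = (∫ z, ‖g z‖ ^ q ∂mm Ω) ^ (1 / q) := by
    rw [nq, hg.eLpNorm_eq_integral_rpow_norm (ENNReal.ofReal_pos.2 hpq.symm.pos).ne'
      ENNReal.ofReal_ne_top, ENNReal.toReal_ofReal hpq.symm.pos.le, one_div, ENNReal.toReal_ofReal]
    exact Real.rpow_nonneg (integral_nonneg fun z => Real.rpow_nonneg (norm_nonneg _) _) _
  have := hpq.ennrealOfReal
  refine ⟨h3.integrable_mul hg.abs, ?_⟩
  have h6 : ∫ z, ‖x - z‖ ^ (-γ) * |g z| ∂mm Ω = ∫ z, ‖‖x - z‖ ^ (-γ)‖ * ‖g z‖ ∂mm Ω :=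
    integral_congr_ae (Eventually.of_forall fun z => by
      simp only [Real.norm_of_nonneg (Real.rpow_nonneg (norm_nonneg (x - z)) (-γ)),
        Real.norm_eq_abs (g z)])
  rw [h6, h5]
  refine (integral_mul_norm_le_Lp_mul_Lq hpq h3 hg).trans (mul_le_mul_of_nonneg_right ?_ ?_)
  · exact Real.rpow_le_rpow (integral_nonneg fun z => Real.rpow_nonneg (norm_nonneg _) _) h4
      (one_div_pos.2 hp).le
  · exact Real.rpow_nonneg (integral_nonneg fun z => Real.rpow_nonneg (norm_nonneg _) _) _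

theorem dker_ii (e : ℝ) {ε a b : ℝ} (ha : 0 < a + ε) (hb : 0 < b + ε) :
    IntervalIntegrable (fun t => (t + ε) ^ e) volume a b := by
  refine ContinuousOn.intervalIntegrable fun t ht => ?_
  have h1 : 0 < t + ε := by
    rcases mem_uIcc.1 ht with h | h <;> linarith [h.1]
  exact ((continuousAt_id.add continuousAt_const).rpow_const (Or.inl h1.ne')).continuousWithinAt

theorem kap_deriv (N : ℕ) {D ε s : ℝ} (hD : 0 < D + ε) (hs : 0 < s + ε) :
    HasDerivAt (kap N D ε) (-(1 / 2) * (s + ε) ^ (-(N : ℝ) / 2)) s := by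
  have hm : Measurable fun t : ℝ => (t + ε) ^ (-(N : ℝ) / 2) := by fun_prop
  have h1 := (intervalIntegral.integral_hasDerivAt_left (dker_ii (-(N : ℝ) / 2) hs hD)
    hm.stronglyMeasurable.stronglyMeasurableAtFilter
    ((continuousAt_id.add continuousAt_const).rpow_const (Or.inl hs.ne'))).const_mul (1 / 2)
  rw [neg_mul_comm]
  exact h1

theorem dker_int {f : ℝ → ℝ} {a b M : ℝ} (ha : 0 < a) (hab : a ≤ b)
    (hf : IntervalIntegrable f volume a b) (h0 : ∀ t ∈ Icc a b, 0 ≤ f t)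
    (h1 : ∀ t ∈ Icc a b, f t ≤ M * t ^ (-(1 / 2) : ℝ)) :
    0 ≤ 1 / 2 * ∫ t in a..b, f t ∧ 1 / 2 * ∫ t in a..b, f t ≤ M * (√b - √a) := by
  refine ⟨mul_nonneg one_half_pos.le (intervalIntegral.integral_nonneg hab h0), ?_⟩
  have h2 := intervalIntegral.integral_mono_on hab hf
    ((intervalIntegral.intervalIntegrable_rpow' (by norm_num : (-1 : ℝ) < -(1 / 2))).const_mul M) h1
  rw [intervalIntegral.integral_const_mul, integral_rpow (Or.inl (by norm_num)),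
    show (-(1 / 2) + 1 : ℝ) = 1 / 2 by norm_num, ← Real.sqrt_eq_rpow, ← Real.sqrt_eq_rpow] at h2
  linarith

theorem dker_pow {a t e : ℝ} (ha : 0 < a) (hat : a ≤ t) (he : e ≤ 0) :
    t ^ (e + -(1 / 2)) ≤ a ^ e * t ^ (-(1 / 2) : ℝ) := by
  have ht := ha.trans_le hat
  rw [Real.rpow_add ht]
  exact mul_le_mul_of_nonneg_right (Real.rpow_le_rpow_of_nonpos ha hat he)
    (Real.rpow_nonneg ht.le _)

theorem kap_sub {N : ℕ} (hN : 1 ≤ N) {D ε a b : ℝ} (hD : 0 < D) (hε : 0 ≤ ε) (ha : 0 < a)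
    (hab : a ≤ b) : 0 ≤ kap N D ε a - kap N D ε b ∧
      kap N D ε a - kap N D ε b ≤ a ^ (-((N : ℝ) - 1) / 2) * (√b - √a) := by
  have hN' : (1 : ℝ) ≤ N := by exact_mod_cast hN
  have h1 := dker_ii (-(N : ℝ) / 2) (ε := ε) (a := a) (b := b) (by linarith) (by linarith)
  have h2 : kap N D ε a - kap N D ε b = 1 / 2 * ∫ t in a..b, (t + ε) ^ (-(N : ℝ) / 2) := by
    rw [kap, kap, ← intervalIntegral.integral_add_adjacent_intervals h1
      (dker_ii _ (b := D) (by linarith) (by linarith))]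
    ring
  rw [h2]
  refine dker_int ha hab h1 (fun t ht => Real.rpow_nonneg (by linarith [ht.1]) _) fun t ht => ?_
  refine le_trans ?_ (dker_pow ha ht.1 (by linarith))
  rw [show -((N : ℝ) - 1) / 2 + -(1 / 2) = -(N : ℝ) / 2 by ring]
  exact Real.rpow_le_rpow_of_nonpos (ha.trans_le ht.1) (by linarith) (by linarith)

theorem kap_self (N : ℕ) (D ε : ℝ) : kap N D ε D = 0 := by
  rw [kap, intervalIntegral.integral_same, mul_zero]

theorem dker_u {n u β : ℝ} (hn : 1 ≤ n) (hu : 0 ≤ u) (hβ : 0 < β) (hβ1 : β ≤ 1) :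
    1 - (1 + u) ^ (-n / 2) ≤ n * u ^ β := by
  have h0 : 0 < 1 + u := by linarith
  rcases le_total u 1 with h | h
  · have h1 := Real.add_one_le_exp (Real.log (1 + u) * (-n / 2))
    have h2 := Real.log_le_sub_one_of_pos h0
    have h3 := Real.self_le_rpow_of_le_one hu h hβ1
    rw [Real.rpow_def_of_pos h0]
    nlinarith
  · have h1 := Real.rpow_nonneg h0.le (-n / 2)
    have h2 := Real.one_le_rpow h hβ.le
    nlinarith

theorem pow_reg {N : ℕ} (hN : 1 ≤ N) {ε s β : ℝ} (hε : 0 ≤ ε) (hs : 0 < s) (hβ : 0 < β)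
    (hβ1 : β ≤ 1) : 0 ≤ s ^ (-(N : ℝ) / 2) - (s + ε) ^ (-(N : ℝ) / 2) ∧
      s ^ (-(N : ℝ) / 2) - (s + ε) ^ (-(N : ℝ) / 2) ≤ N * ε ^ β * s ^ (-(N : ℝ) / 2 - β) := by
  have hN' : (1 : ℝ) ≤ N := by exact_mod_cast hN
  refine ⟨sub_nonneg.2 (Real.rpow_le_rpow_of_nonpos hs (by linarith) (by linarith)), ?_⟩
  have hu : 0 ≤ ε / s := div_nonneg hε hs.le
  have h1 := mul_le_mul_of_nonneg_left (dker_u hN' hu hβ hβ1)
    (Real.rpow_nonneg hs.le (-(N : ℝ) / 2))
  rw [mul_sub, mul_one, ← Real.mul_rpow hs.le (by linarith), mul_add, mul_one,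
    mul_div_cancel₀ _ hs.ne', Real.div_rpow hε hs.le] at h1
  rw [Real.rpow_sub hs]
  refine h1.trans_eq ?_
  ring

theorem kap_reg {N : ℕ} (hN : 1 ≤ N) {D ε s β : ℝ} (hε : 0 ≤ ε) (hs : 0 < s) (hsD : s ≤ D)
    (hβ : 0 < β) (hβ1 : β ≤ 1) :
    |kap N D ε s - kap N D 0 s| ≤ N * ε ^ β * √D * s ^ (-((N : ℝ) - 1) / 2 - β) := by
  have hN' : (1 : ℝ) ≤ N := by exact_mod_cast hN
  have h1 := dker_ii (-(N : ℝ) / 2) (ε := ε) (a := s) (b := D) (by linarith) (by linarith)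
  have h2 := dker_ii (-(N : ℝ) / 2) (ε := 0) (a := s) (b := D) (by linarith) (by linarith)
  have h3 : kap N D 0 s - kap N D ε s =
      1 / 2 * ∫ t in s..D, ((t + 0) ^ (-(N : ℝ) / 2) - (t + ε) ^ (-(N : ℝ) / 2)) := by
    rw [kap, kap, intervalIntegral.integral_sub h2 h1, mul_sub]
  have hc : 0 ≤ N * ε ^ β := mul_nonneg (by linarith) (Real.rpow_nonneg hε _)
  obtain ⟨h4, h5⟩ := dker_int (M := N * ε ^ β * s ^ (-((N : ℝ) - 1) / 2 - β)) hs hsD (h2.sub h1)
    (fun t ht => by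
      rw [add_zero]
      exact (pow_reg hN hε (hs.trans_le ht.1) hβ hβ1).1) fun t ht => by
      rw [add_zero, mul_assoc]
      refine (pow_reg hN hε (hs.trans_le ht.1) hβ hβ1).2.trans
        (mul_le_mul_of_nonneg_left (le_trans (le_of_eq ?_) (dker_pow hs ht.1 (by linarith))) hc)
      congr 1
      ring
  rw [abs_sub_comm, h3, abs_of_nonneg h4, mul_right_comm]
  exact h5.trans (mul_le_mul_of_nonneg_left (sub_le_self _ (Real.sqrt_nonneg s))
    (mul_nonneg hc (Real.rpow_nonneg hs.le _)))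

end Pool.Agent.P.MP_0cf84d_an
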