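import Pool.Agent.P.MP_0cf84d_an.DBase

/-! Convergence in `L^2`. -/

set_option linter.unusedSectionVars false
set_option linter.unusedVariables false

namespace Pool.Agent.P.MP_0cf84d_an

open MeasureTheory Filter Topology Metric Set Module
open scoped RealInnerProductSpace ENNReal NNReal

variable {V : Type*} [NormedAddCommGroup V] [InnerProductSpace ℝ V] [FiniteDimensional ℝ V]
  [MeasurableSpace V] [BorelSpace V] [CompleteSpace V] {Ω : Set V}

section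
variable {α E E' : Type*} [MeasurableSpace α] {m : Measure α} [NormedAddCommGroup E]
  [NormedAddCommGroup E'] {f f' : ℕ → α → E} {g g' : α → E}

theorem dl2_int (hg : MemLp g 2 m) : Integrable (fun x => ‖g x‖ ^ 2) m := hg.norm.integrable_sq

theorem dl2_sq (hg : MemLp g 2 m) : ∫ x, ‖g x‖ ^ 2 ∂m = (eLpNorm g 2 m).toReal ^ 2 := by
  have h0 : 0 ≤ ∫ x, ‖g x‖ ^ 2 ∂m := integral_nonneg fun x => sq_nonneg _
  rw [hg.eLpNorm_eq_integral_rpow_norm two_ne_zero ENNReal.ofNat_ne_top]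
  simp only [ENNReal.toReal_ofNat, Real.rpow_two]
  rw [ENNReal.toReal_ofReal (Real.rpow_nonneg h0 _)]
  exact (Real.rpow_inv_natCast_pow h0 two_ne_zero).symm

theorem dl2_dist (hg : MemLp g 2 m) (hg' : MemLp g' 2 m) :
    ∫ x, ‖g x - g' x‖ ^ 2 ∂m = dist (hg.toLp g) (hg'.toLp g') ^ 2 := by
  rw [dist_eq_norm, ← MemLp.toLp_sub, Lp.norm_toLp]
  exact dl2_sq (hg.sub hg')

theorem dl2_lp (hf : ∀ n, MemLp (f n) 2 m) (hg : MemLp g 2 m) :
    L2T m f g ↔ Tendsto (fun n => (hf n).toLp (f n)) atTop (𝓝 (hg.toLp g)) := by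
  have e : (fun n => ∫ x, ‖f n x - g x‖ ^ 2 ∂m) =
      fun n => dist ((hf n).toLp (f n)) (hg.toLp g) ^ 2 := funext fun n => dl2_dist (hf n) hg
  rw [tendsto_iff_dist_tendsto_zero, L2T, e]
  refine ⟨fun h => ?_, fun h => ⟨hf, hg, by simpa using h.pow 2⟩⟩
  simpa only [Real.sqrt_sq dist_nonneg, Real.sqrt_zero] using h.2.2.sqrt

theorem dl2_inner {F : Type*} [NormedAddCommGroup F] [InnerProductSpace ℝ F] {a b : ℕ → α → F}
    {a' b' : α → F} (h : L2T m a a') (h' : L2T m b b') :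
    Tendsto (fun n => ∫ x, ⟪a n x, b n x⟫ ∂m) atTop (𝓝 (∫ x, ⟪a' x, b' x⟫ ∂m)) := by
  have h2 := Filter.Tendsto.inner (𝕜 := ℝ) ((dl2_lp h.1 h.2.1).1 h) ((dl2_lp h'.1 h'.2.1).1 h')
  have e : ∀ {k l : α → F} (hk : MemLp k 2 m) (hl : MemLp l 2 m),
      ⟪hk.toLp k, hl.toLp l⟫ = ∫ x, ⟪k x, l x⟫ ∂m := by
    intro k l hk hl
    rw [L2.inner_def]
    refine integral_congr_ae ?_
    filter_upwards [hk.coeFn_toLp, hl.coeFn_toLp] with x h1 h2
    rw [h1, h2]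
  simpa only [e] using h2

theorem l2t_iff (hf : ∀ n, MemLp (f n) 2 m) (hg : MemLp g 2 m) :
    L2T m f g ↔ Tendsto (fun n => eLpNorm (f n - g) 2 m) atTop (𝓝 0) := by
  rw [dl2_lp hf hg, Lp.tendsto_Lp_iff_tendsto_eLpNorm'']

theorem l2t_of_dom (hf : ∀ n, AEStronglyMeasurable (f n) m) {b : α → ℝ} (hb : MemLp b 2 m)
    (hle : ∀ n, ∀ᵐ x ∂m, ‖f n x‖ ≤ b x)
    (h : ∀ᵐ x ∂m, Tendsto (fun n => f n x) atTop (𝓝 (g x))) : L2T m f g := by
  have hgm : AEStronglyMeasurable g m := aestronglyMeasurable_of_tendsto_ae atTop hf h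
  have hgb : ∀ᵐ x ∂m, ‖g x‖ ≤ b x := by
    filter_upwards [ae_all_iff.2 hle, h] with x h1 h2
    exact le_of_tendsto' h2.norm h1
  have hm : ∀ {k : α → E}, AEStronglyMeasurable k m → (∀ᵐ x ∂m, ‖k x‖ ≤ b x) → MemLp k 2 m :=
    fun hk h1 => hb.of_le hk (h1.mono fun x hx => hx.trans (le_abs_self _))
  refine ⟨fun n => hm (hf n) (hle n), hm hgm hgb, ?_⟩
  have := tendsto_integral_of_dominated_convergence (μ := m)
    (F := fun n x => ‖f n x - g x‖ ^ 2) (f := fun _ => (0 : ℝ)) (fun x => 4 * b x ^ 2)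
    (fun n => ((hf n).sub hgm).norm.pow 2) (hb.integrable_sq.const_mul 4) (fun n => by
      filter_upwards [hle n, hgb] with x h1 h2
      rw [Real.norm_of_nonneg (sq_nonneg _)]
      have := pow_le_pow_left₀ (norm_nonneg _) ((norm_sub_le _ _).trans (add_le_add h1 h2)) 2
      linarith) (by
      filter_upwards [h] with x hx
      simpa using (tendsto_iff_norm_sub_tendsto_zero.1 hx).pow 2)
  simpa using this

theorem l2t_const (hg : MemLp g 2 m) : L2T m (fun _ => g) g :=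
  ⟨fun _ => hg, hg, by simp⟩

theorem L2T.subseq (h : L2T m f g) : ∃ φ : ℕ → ℕ, StrictMono φ ∧
    ∀ᵐ x ∂m, Tendsto (fun n => f (φ n) x) atTop (𝓝 (g x)) :=
  (tendstoInMeasure_of_tendsto_eLpNorm two_ne_zero (fun n => (h.1 n).1) h.2.1.1
    ((l2t_iff h.1 h.2.1).1 h)).exists_seq_tendsto_ae

theorem L2T.comp (h : L2T m f g) {φ : ℕ → ℕ} (hφ : Tendsto φ atTop atTop) :
    L2T m (fun n => f (φ n)) g :=
  ⟨fun n => h.1 (φ n), h.2.1, h.2.2.comp hφ⟩

theorem L2T.of_le (h : L2T m f g) {k : ℕ → α → E'} {l : α → E'} (hk : ∀ n, MemLp (k n) 2 m)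
    (hl : MemLp l 2 m) (C : ℝ) (hle : ∀ n, ∀ᵐ x ∂m, ‖k n x - l x‖ ≤ C * ‖f n x - g x‖) :
    L2T m k l := by
  refine ⟨hk, hl, squeeze_zero (fun n => integral_nonneg fun x => sq_nonneg _)
    (g := fun n => C ^ 2 * ∫ x, ‖f n x - g x‖ ^ 2 ∂m) (fun n => ?_)
    (by simpa using h.2.2.const_mul (C ^ 2))⟩
  rw [← integral_const_mul]
  refine integral_mono_ae (dl2_int ((hk n).sub hl)) ((dl2_int ((h.1 n).sub h.2.1)).const_mul _) ?_
  filter_upwards [hle n] with x hx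
  rw [← mul_pow]
  exact pow_le_pow_left₀ (norm_nonneg _) hx 2

theorem L2T.add (h : L2T m f g) (h' : L2T m f' g') :
    L2T m (fun n x => f n x + f' n x) (fun x => g x + g' x) :=
  (dl2_lp (fun n => (h.1 n).add (h'.1 n)) (h.2.1.add h'.2.1)).2
    (((dl2_lp h.1 h.2.1).1 h).add ((dl2_lp h'.1 h'.2.1).1 h'))

theorem L2T.sub (h : L2T m f g) (h' : L2T m f' g') :
    L2T m (fun n x => f n x - f' n x) (fun x => g x - g' x) :=
  (dl2_lp (fun n => (h.1 n).sub (h'.1 n)) (h.2.1.sub h'.2.1)).2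
    (((dl2_lp h.1 h.2.1).1 h).sub ((dl2_lp h'.1 h'.2.1).1 h'))

theorem L2T.congr (h : L2T m f g) (hf : ∀ n, f n =ᵐ[m] f' n) (hg : g =ᵐ[m] g') :
    L2T m f' g' := by
  refine ⟨fun n => (h.1 n).ae_eq (hf n), h.2.1.ae_eq hg, h.2.2.congr fun n => ?_⟩
  refine integral_congr_ae ?_
  filter_upwards [hf n, hg] with x h1 h2
  rw [h1, h2]

theorem exists_l2t [CompleteSpace E] (hf : ∀ n, MemLp (f n) 2 m)
    (h : ∀ ε : ℝ, 0 < ε → ∃ N, ∀ i j, N ≤ i → i ≤ j → ∫ x, ‖f j x - f i x‖ ^ 2 ∂m ≤ ε) :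
    ∃ g, L2T m f g := by
  have hc : CauchySeq fun n => (hf n).toLp (f n) := by
    refine Metric.cauchySeq_iff'.2 fun ε hε => ?_
    obtain ⟨N, hN⟩ := h ((ε / 2) ^ 2) (by positivity)
    refine ⟨N, fun n hn => ?_⟩
    have h1 := hN N n le_rfl hn
    rw [dl2_dist (hf n) (hf N)] at h1
    have := le_of_sq_le_sq h1 (by positivity)
    linarith
  obtain ⟨G, hG⟩ := cauchySeq_tendsto_of_complete hc
  refine ⟨G, (dl2_lp hf (Lp.memLp G)).2 ?_⟩
  rwa [Lp.toLp_coeFn]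

theorem L2T.cauchy (h : L2T m f g) {ε : ℝ} (hε : 0 < ε) :
    ∃ N, ∀ i j, N ≤ i → N ≤ j → ∫ x, ‖f j x - f i x‖ ^ 2 ∂m ≤ ε := by
  obtain ⟨N, hN⟩ := Metric.cauchySeq_iff.1 ((dl2_lp h.1 h.2.1).1 h).cauchySeq (√ε)
    (Real.sqrt_pos.2 hε)
  refine ⟨N, fun i j hi hj => ?_⟩
  rw [dl2_dist (h.1 j) (h.1 i), ← Real.sq_sqrt hε.le]
  exact pow_le_pow_left₀ dist_nonneg (hN j hj i hi).le 2

theorem int_sq (hg : MemLp g 2 m) : Integrable (fun x => ‖g x‖ ^ 2) m := dl2_int hg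

theorem int_mul {a b : α → ℝ} (ha : MemLp a 2 m) (hb : MemLp b 2 m) :
    Integrable (fun x => a x * b x) m := memLp_one_iff_integrable.1 (hb.mul' ha)

theorem int_mul_top {a b : α → ℝ} (ha : Integrable a m) (hb : MemLp b ⊤ m) :
    Integrable (fun x => a x * b x) m :=
  memLp_one_iff_integrable.1 (hb.mul' (memLp_one_iff_integrable.2 ha))

theorem memLp_mul_top {p : ℝ≥0∞} {a b : α → ℝ} (ha : MemLp a p m) (hb : MemLp b ⊤ m) :
    MemLp (fun x => a x * b x) p m := hb.mul' ha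

theorem memLp_top_smul [NormedSpace ℝ E] {p : ℝ≥0∞} {b : α → ℝ} (hb : MemLp b ⊤ m)
    (hg : MemLp g p m) : MemLp (fun x => b x • g x) p m := hg.smul hb

theorem top_bound {b : α → ℝ} (hb : MemLp b ⊤ m) : ∃ M, 0 < M ∧ ∀ᵐ x ∂m, |b x| ≤ M := by
  refine ⟨(eLpNormEssSup b m).toReal + 1, by positivity, ?_⟩
  have h1 : eLpNormEssSup b m ≠ ⊤ := by
    rw [← eLpNorm_exponent_top]
    exact hb.2.ne
  filter_upwards [ae_le_eLpNormEssSup (f := b) (μ := m)] with x hx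
  have := ENNReal.toReal_mono h1 hx
  rw [toReal_enorm, Real.norm_eq_abs] at this
  linarith

/-- a continuous function of a bounded function is bounded -/
theorem memLp_top_comp {b : α → ℝ} (hb : AEStronglyMeasurable b m) {s t : ℝ}
    (h : ∀ᵐ x ∂m, b x ∈ Icc s t) {P : ℝ → ℝ} (hP : ContinuousOn P (Icc s t)) :
    MemLp (fun x => P (b x)) ⊤ m := by
  obtain ⟨C, hC⟩ := isCompact_Icc.exists_bound_of_continuousOn hP
  refine memLp_top_of_bound ?_ C (h.mono fun x hx => hC _ hx)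
  rcases le_or_gt s t with hst | hst
  · have hc : Continuous fun y => P (projIcc s t hst y) :=
      hP.domRestrict.comp (continuous_projIcc (h := hst))
    refine (hc.comp_aestronglyMeasurable hb).congr (h.mono fun x hx => ?_)
    simp only [projIcc_of_mem hst hx]
  · refine (aestronglyMeasurable_const (b := (0 : ℝ))).congr (h.mono fun x hx => ?_)
    exact absurd (hx.1.trans hx.2) (not_le.2 hst)

theorem L2T.mul {a b : ℕ → α → ℝ} {a' b' : α → ℝ} (h : L2T m a a') (h' : L2T m b b') :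
    Tendsto (fun n => ∫ x, a n x * b n x ∂m) atTop (𝓝 (∫ x, a' x * b' x ∂m)) := by
  simpa [mul_comm] using dl2_inner h h'

end

section
variable {α E : Type*} [MeasurableSpace α] {m : Measure α} [NormedAddCommGroup E]
  [InnerProductSpace ℝ E] {f f' : ℕ → α → E} {g g' : α → E}

theorem int_inner (hg : MemLp g 2 m) (hg' : MemLp g' 2 m) :
    Integrable (fun x => ⟪g x, g' x⟫) m := by
  refine (L2.integrable_inner (𝕜 := ℝ) (hg.toLp g) (hg'.toLp g')).congr ?_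
  filter_upwards [hg.coeFn_toLp, hg'.coeFn_toLp] with x h1 h2
  rw [h1, h2]

theorem L2T.inner (h : L2T m f g) (h' : L2T m f' g') :
    Tendsto (fun n => ∫ x, ⟪f n x, f' n x⟫ ∂m) atTop (𝓝 (∫ x, ⟪g x, g' x⟫ ∂m)) :=
  dl2_inner h h'

end

end Pool.Agent.P.MP_0cf84d_an
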