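import Pool.Agent.P.MP_0cf84d_an.DCmp

/-! The linear problem. -/

set_option linter.unusedSectionVars false
set_option linter.unusedVariables false

namespace Pool.Agent.P.MP_0cf84d_an

open MeasureTheory Filter Topology Metric Set Module
open scoped RealInnerProductSpace ENNReal NNReal

variable {V : Type*} [NormedAddCommGroup V] [InnerProductSpace ℝ V] [FiniteDimensional ℝ V]
  [MeasurableSpace V] [BorelSpace V] [CompleteSpace V] {Ω : Set V}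

theorem dlin_abs {A B : Type*} [NormedAddCommGroup A] [InnerProductSpace ℝ A] [CompleteSpace A]
    [NormedAddCommGroup B] [InnerProductSpace ℝ B] [CompleteSpace B]
    (S : Submodule ℝ (WithLp 2 (A × B))) (hS : IsClosed (S : Set (WithLp 2 (A × B)))) {K C : ℝ}
    (hK : 0 ≤ K) (hC : 0 < C) (hP : ∀ p ∈ S, ‖p.fst‖ ^ 2 ≤ C * ‖p.snd‖ ^ 2) (f : A) :
    ∃ p ∈ S, ∀ p' ∈ S, ⟪p.snd, p'.snd⟫ + K * ⟪p.fst, p'.fst⟫ = ⟪f, p'.fst⟫ := by
  have := hS.completeSpace_coe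
  obtain ⟨a, ha⟩ : ∃ a : S →L[ℝ] A, ∀ p, a p = p.1.fst :=
    ⟨(WithLp.fstL 2 ℝ A B).comp S.subtypeL, fun _ => rfl⟩
  obtain ⟨b, hb⟩ : ∃ b : S →L[ℝ] B, ∀ p, b p = p.1.snd :=
    ⟨(WithLp.sndL 2 ℝ A B).comp S.subtypeL, fun _ => rfl⟩
  obtain ⟨Q, hQ⟩ : ∃ Q : S →L[ℝ] S →L[ℝ] ℝ, ∀ p p', Q p p' = ⟪b p, b p'⟫ + K * ⟪a p, a p'⟫ :=
    ⟨(innerSL ℝ).bilinearComp b b + K • (innerSL ℝ).bilinearComp a a, fun _ _ => rfl⟩
  have hc : IsCoercive Q := by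
    refine ⟨1 / (C + 1), by positivity, fun p => ?_⟩
    have h1 : ‖p‖ ^ 2 = ‖p.1.fst‖ ^ 2 + ‖p.1.snd‖ ^ 2 := WithLp.prod_norm_sq_eq_of_L2 p.1
    have h2 := hP p.1 p.2
    rw [hQ, ha, hb, real_inner_self_eq_norm_sq, real_inner_self_eq_norm_sq, mul_assoc, ← sq, h1,
      one_div, inv_mul_le_iff₀ (by positivity)]
    have h3 : 0 ≤ K * ‖p.1.fst‖ ^ 2 := by positivity
    nlinarith [mul_nonneg hC.le h3]
  obtain ⟨p, hp⟩ := hc.continuousLinearEquivOfBilin.surjective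
    ((InnerProductSpace.toDual ℝ S).symm ((innerSL ℝ f).comp a))
  refine ⟨p.1, p.2, fun p' hp' => ?_⟩
  have h := hc.continuousLinearEquivOfBilin_apply p ⟨p', hp'⟩
  rw [hp, InnerProductSpace.toDual_symm_apply, hQ, ha, ha, hb, hb] at h
  rw [← h, ContinuousLinearMap.comp_apply, ha]
  rfl

theorem dlin_norm_sq {E : Type*} [NormedAddCommGroup E] [InnerProductSpace ℝ E]
    (g : Lp E 2 (mm Ω)) : ‖g‖ ^ 2 = ∫ x, ‖g x‖ ^ 2 ∂mm Ω := by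
  rw [← real_inner_self_eq_norm_sq, L2.inner_def]
  simp only [real_inner_self_eq_norm_sq]

theorem dlin_l2t {E : Type*} [NormedAddCommGroup E] {g : ℕ → Lp E 2 (mm Ω)} {g₀ : Lp E 2 (mm Ω)}
    (h : Tendsto g atTop (𝓝 g₀)) : L2T (mm Ω) (fun n => g n) g₀ :=
  (l2t_iff (fun n => Lp.memLp (g n)) (Lp.memLp g₀)).2
    ((Lp.tendsto_Lp_iff_tendsto_eLpNorm' g g₀).1 h)

/-- `H^1_0` as a subspace of `L^2 × L^2` -/
def dlin_S (hΩ : OB Ω) : Submodule ℝ (WithLp 2 (Lp ℝ 2 (mm Ω) × Lp V 2 (mm Ω))) where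
  carrier := {p | InH10 Ω p.fst p.snd}
  add_mem' {p p'} h h' := (InH10.add hΩ h h').congr (Lp.coeFn_add p.fst p'.fst).symm
    (Lp.coeFn_add p.snd p'.snd).symm
  zero_mem' := (inH10_zero Ω).congr (Lp.coeFn_zero ℝ 2 (mm Ω)).symm (Lp.coeFn_zero V 2 (mm Ω)).symm
  smul_mem' a p h := (InH10.smul hΩ h a).congr (Lp.coeFn_smul a p.fst).symm
    (Lp.coeFn_smul a p.snd).symm

theorem dlin_closed (hΩ : OB Ω) :
    IsClosed (dlin_S hΩ : Set (WithLp 2 (Lp ℝ 2 (mm Ω) × Lp V 2 (mm Ω)))) := by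
  refine IsSeqClosed.isClosed fun p p₀ hp h => ?_
  exact inH10_limit hΩ hp (dlin_l2t (((WithLp.fstL 2 ℝ _ _).continuous.tendsto p₀).comp h))
    (dlin_l2t (((WithLp.sndL 2 ℝ _ _).continuous.tendsto p₀).comp h))

theorem solve_lin (hΩ : OB Ω) {K : ℝ} (hK : 0 ≤ K) {f : V → ℝ} (hf : MemLp f 2 (mm Ω)) :
    ∃ y Y, InH10 Ω y Y ∧ WEq Ω Y (fun x => f x - K * y x) := by
  have := hΩ.fin
  obtain ⟨C, hC, hP⟩ := poincare hΩ
  obtain ⟨p, hp, h⟩ := dlin_abs (dlin_S hΩ) (dlin_closed hΩ) hK hC (fun p hp => by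
    rw [dlin_norm_sq, dlin_norm_sq]
    simpa only [Real.norm_eq_abs, sq_abs] using hP _ _ hp) (hf.toLp f)
  have hy : MemLp p.fst 2 (mm Ω) := Lp.memLp _
  refine ⟨p.fst, p.snd, hp, Lp.memLp _,
    (hf.sub (hy.const_mul K)).integrable one_le_two, fun v H hv => ?_⟩
  have hv2 : MemLp v 2 (mm Ω) := hv.1.1
  have hH2 : MemLp H 2 (mm Ω) := hv.1.2.1
  have h1 := h (WithLp.toLp 2 (hv2.toLp v, hH2.toLp H))
    (hv.1.congr hv2.coeFn_toLp.symm hH2.coeFn_toLp.symm)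
  have e1 : ⟪p.snd, hH2.toLp H⟫ = ∫ x, ⟪p.snd x, H x⟫ ∂mm Ω := by
    rw [L2.inner_def]
    exact integral_congr_ae (hH2.coeFn_toLp.mono fun x hx => by simp only [hx])
  have e2 : ⟪p.fst, hv2.toLp v⟫ = ∫ x, p.fst x * v x ∂mm Ω := by
    rw [L2.inner_def]
    exact integral_congr_ae (hv2.coeFn_toLp.mono fun x hx => by simp [hx, mul_comm])
  have e3 : ⟪hf.toLp f, hv2.toLp v⟫ = ∫ x, f x * v x ∂mm Ω := by
    rw [L2.inner_def]
    refine integral_congr_ae ?_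
    filter_upwards [hv2.coeFn_toLp, hf.coeFn_toLp] with x h2 h3
    simp [h2, h3, mul_comm]
  have h2 : ∫ x, ⟪p.snd x, H x⟫ ∂mm Ω + K * ∫ x, p.fst x * v x ∂mm Ω = ∫ x, f x * v x ∂mm Ω := by
    rw [← e1, ← e2, ← e3]
    exact h1
  have e4 : ∀ x, (f x - K * p.fst x) * v x = f x * v x - K * (p.fst x * v x) := fun x => by ring
  simp only [e4]
  rw [integral_sub (int_mul hf hv2) ((int_mul hy hv2).const_mul K), integral_const_mul]
  linarith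

end Pool.Agent.P.MP_0cf84d_an
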