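import Pool.Agent.P.MP_0cf84d_an.DWG

/-! Combination of two upper solutions. -/

set_option linter.unusedSectionVars false
set_option linter.unusedVariables false

namespace Pool.Agent.P.MP_0cf84d_an

open MeasureTheory Filter Topology Metric Set Module
open scoped RealInnerProductSpace ENNReal NNReal

variable {V : Type*} [NormedAddCommGroup V] [InnerProductSpace ℝ V] [FiniteDimensional ℝ V]
  [MeasurableSpace V] [BorelSpace V] [CompleteSpace V] {Ω : Set V}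

theorem dlse_exp (hΩ : OB Ω) {u f : V → ℝ} {G : V → V} (hu : TT Ω u G) (h : WGe Ω G f) (m : ℝ)
    {M : ℝ} (hM : 0 < M) (hb : ∀ᵐ x ∂mm Ω, |u x| ≤ M) :
    TT Ω (fun x => Real.exp (m * u x) - Real.exp (m * 0)) (fun x => (Real.exp (m * u x) * m) • G x) ∧
      WGe Ω (fun x => Real.exp (m * u x) • G x)
        (fun x => Real.exp (m * u x) * f x - Real.exp (m * u x) * m * ⟪G x, G x⟫) := by
  have hab : ∀ᵐ x ∂mm Ω, u x ∈ Icc (-M) M := hb.mono fun x hx => abs_le.1 hx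
  have hd : ∀ s ∈ Icc (-M) M, HasDerivAt (fun s => Real.exp (m * s)) (Real.exp (m * s) * m) s :=
    fun s _ => by simpa using ((hasDerivAt_id s).const_mul m).exp
  have hc : ContinuousOn (fun s => Real.exp (m * s) * m) (Icc (-M) M) := by fun_prop
  exact ⟨chain1 hΩ hu (by linarith) hM.le hab hd hc,
    h.mul hΩ hu (by linarith) hM.le hab hd hc fun s _ => (Real.exp_pos _).le⟩

theorem dlse_conv (p q : V) {σ : ℝ} (h0 : 0 ≤ σ) (h1 : σ ≤ 1) :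
    ‖(1 - σ) • p + σ • q‖ ^ 2 ≤ (1 - σ) * ‖p‖ ^ 2 + σ * ‖q‖ ^ 2 := by
  have h := norm_add_le ((1 - σ) • p) (σ • q)
  rw [norm_smul, norm_smul, Real.norm_of_nonneg h0, Real.norm_of_nonneg (by linarith)] at h
  have h2 := pow_le_pow_left₀ (norm_nonneg _) h 2
  nlinarith [mul_nonneg (mul_nonneg h0 (sub_nonneg.2 h1)) (sq_nonneg (‖p‖ - ‖q‖))]

theorem dlse_pos {θ : ℝ} (hθ : 0 < θ) (hθ1 : θ < 1) (a b : ℝ) : 0 < VV θ a b :=
  add_pos (mul_pos (by linarith) (Real.exp_pos _)) (mul_pos hθ (Real.exp_pos _))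

theorem dlse_sg {θ : ℝ} (hθ : 0 < θ) (hθ1 : θ < 1) (a b : ℝ) : 0 ≤ sg θ a b ∧ sg θ a b ≤ 1 := by
  have h := dlse_pos hθ hθ1 a b
  refine ⟨div_nonneg (mul_pos hθ (Real.exp_pos _)).le h.le, (div_le_one h).2 ?_⟩
  have := mul_pos (sub_pos.2 hθ1) (Real.exp_pos a)
  unfold VV
  linarith

theorem dlse_pt {θ m μ a b f₁ f₂ W σ : ℝ} (p q : V) (hW : W = (1 - θ) * a + θ * b) (h0 : 0 < W)
    (hσ : σ = θ * b / W) (s0 : 0 ≤ σ) (s1 : σ ≤ 1) (hm : m ≤ μ) :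
    μ * ‖W⁻¹ • ((1 - θ) • a • p + θ • b • q)‖ ^ 2 + ((1 - σ) * f₁ + σ * f₂) ≤
      W⁻¹ * ((1 - θ) * (a * (μ * ‖p‖ ^ 2 + f₁) - a * m * ⟪p, p⟫) +
        θ * (b * (μ * ‖q‖ ^ 2 + f₂) - b * m * ⟪q, q⟫)) -
      -(W⁻¹ ^ 2) * ⟪(1 - θ) • a • p + θ • b • q, (1 - θ) • (a * m) • p + θ • (b * m) • q⟫ := by
  have e1 : W⁻¹ * ((1 - θ) * a) = 1 - σ := by
    rw [hσ]
    field_simp
    linarith
  have e2 : W⁻¹ * (θ * b) = σ := by rw [hσ]; field_simp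
  have e3 : W⁻¹ • ((1 - θ) • a • p + θ • b • q) = (1 - σ) • p + σ • q := by
    simp only [smul_add, smul_smul, e1, e2]
  have e4 : (1 - θ) • (a * m) • p + θ • (b * m) • q = m • ((1 - θ) • a • p + θ • b • q) := by
    simp only [smul_add, smul_smul]
    congr 2 <;> ring
  have e5 : W⁻¹ ^ 2 * ‖(1 - θ) • a • p + θ • b • q‖ ^ 2 = ‖(1 - σ) • p + σ • q‖ ^ 2 := by
    rw [← e3, norm_smul, mul_pow, Real.norm_eq_abs, sq_abs]
  have h := mul_le_mul_of_nonneg_left (dlse_conv p q s0 s1) (sub_nonneg.2 hm)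
  rw [e3, e4, real_inner_smul_right, real_inner_self_eq_norm_sq, real_inner_self_eq_norm_sq,
    real_inner_self_eq_norm_sq]
  have e6 : W⁻¹ * ((1 - θ) * (a * (μ * ‖p‖ ^ 2 + f₁) - a * m * ‖p‖ ^ 2) +
      θ * (b * (μ * ‖q‖ ^ 2 + f₂) - b * m * ‖q‖ ^ 2)) =
      W⁻¹ * ((1 - θ) * a) * ((μ - m) * ‖p‖ ^ 2 + f₁) + W⁻¹ * (θ * b) * ((μ - m) * ‖q‖ ^ 2 + f₂) := by
    ring
  rw [e6, e1, e2, neg_mul, mul_left_comm (W⁻¹ ^ 2), e5]
  nlinarith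

theorem lse (hΩ : OB Ω) {q μ₁ μ₂ : ℝ} {c h μ ω u f₁ f₂ : V → ℝ} {Gω G : V → V}
    (hD : Dat Ω q c h μ μ₁ μ₂) (hω : TT Ω ω Gω) (hu : TT Ω u G) (i₁ : Integrable f₁ (mm Ω))
    (i₂ : Integrable f₂ (mm Ω)) (h₁ : WGe Ω Gω (fun x => μ x * ‖Gω x‖ ^ 2 + f₁ x))
    (h₂ : WGe Ω G (fun x => μ x * ‖G x‖ ^ 2 + f₂ x)) {θ : ℝ} (hθ : 0 < θ) (hθ1 : θ < 1) :
    ∃ B, TT Ω (fun x => Real.log (VV θ (μ₁ * ω x) (μ₁ * u x)) / μ₁) B ∧
      WGe Ω B (fun x => μ x * ‖B x‖ ^ 2 + ((1 - sg θ (μ₁ * ω x) (μ₁ * u x)) * f₁ x +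
        sg θ (μ₁ * ω x) (μ₁ * u x) * f₂ x)) := by
  obtain ⟨M₁, hM₁, b₁⟩ := top_bound hω.2
  obtain ⟨M₂, hM₂, b₂⟩ := top_bound hu.2
  have hm := hD.pos
  have hM : 0 < M₁ + M₂ := add_pos hM₁ hM₂
  have c₁ : ∀ᵐ x ∂mm Ω, |ω x| ≤ M₁ + M₂ := b₁.mono fun x hx => by linarith
  have c₂ : ∀ᵐ x ∂mm Ω, |u x| ≤ M₁ + M₂ := b₂.mono fun x hx => by linarith
  obtain ⟨t₁, w₁⟩ := dlse_exp hΩ hω h₁ μ₁ hM c₁
  obtain ⟨t₂, w₂⟩ := dlse_exp hΩ hu h₂ μ₁ hM c₂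
  have hJ := (w₁.smul (sub_pos.2 hθ1).le).add (w₂.smul hθ.le)
  have hY := ((t₁.smul hΩ (1 - θ)).add hΩ (t₂.smul hΩ θ)).congr
    (v := fun x => VV θ (μ₁ * ω x) (μ₁ * u x) - 1)
    (Eventually.of_forall fun x => by simp only [VV, mul_zero, Real.exp_zero]; ring)
    EventuallyEq.rfl
  have hlo : Real.exp (-(μ₁ * (M₁ + M₂))) - 1 ≤ 0 :=
    sub_nonpos.2 (Real.exp_le_one_iff.2 (neg_nonpos.2 (mul_pos hm hM).le))
  have hhi : 0 ≤ Real.exp (μ₁ * (M₁ + M₂)) - 1 :=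
    sub_nonneg.2 (Real.one_le_exp (mul_pos hm hM).le)
  have hab : ∀ᵐ x ∂mm Ω, VV θ (μ₁ * ω x) (μ₁ * u x) - 1 ∈
      Icc (Real.exp (-(μ₁ * (M₁ + M₂))) - 1) (Real.exp (μ₁ * (M₁ + M₂)) - 1) := by
    filter_upwards [c₁, c₂] with x h1 h2
    rw [abs_le] at h1 h2
    have e1 : Real.exp (-(μ₁ * (M₁ + M₂))) ≤ Real.exp (μ₁ * ω x) :=
      Real.exp_le_exp.2 (by nlinarith [h1.1])
    have e2 : Real.exp (-(μ₁ * (M₁ + M₂))) ≤ Real.exp (μ₁ * u x) :=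
      Real.exp_le_exp.2 (by nlinarith [h2.1])
    have e3 : Real.exp (μ₁ * ω x) ≤ Real.exp (μ₁ * (M₁ + M₂)) :=
      Real.exp_le_exp.2 (by nlinarith [h1.2])
    have e4 : Real.exp (μ₁ * u x) ≤ Real.exp (μ₁ * (M₁ + M₂)) :=
      Real.exp_le_exp.2 (by nlinarith [h2.2])
    unfold VV
    constructor <;> nlinarith
  have hp : ∀ s ∈ Icc (Real.exp (-(μ₁ * (M₁ + M₂))) - 1) (Real.exp (μ₁ * (M₁ + M₂)) - 1),
      0 < 1 + s := fun s hs => by linarith [hs.1, Real.exp_pos (-(μ₁ * (M₁ + M₂)))]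
  have hc : ContinuousOn (fun s : ℝ => (1 + s)⁻¹)
      (Icc (Real.exp (-(μ₁ * (M₁ + M₂))) - 1) (Real.exp (μ₁ * (M₁ + M₂)) - 1)) :=
    (continuousOn_const.add continuousOn_id).inv₀ fun s hs => (hp s hs).ne'
  have hB := hJ.mul hΩ hY hlo hhi hab (ψ := fun s => (1 + s)⁻¹) (ψ' := fun s => -((1 + s)⁻¹ ^ 2))
    (fun s hs => by
      have := ((hasDerivAt_id' s).const_add 1).fun_inv (hp s hs).ne'
      exact this.congr_deriv (by rw [neg_div, one_div, inv_pow]))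
    (hc.pow 2).neg fun s hs => (inv_pos.2 (hp s hs)).le
  have hT := chain1 hΩ hY hlo hhi hab (P := fun s => Real.log (1 + s) / μ₁)
    (ψ := fun s => (1 + s)⁻¹ / μ₁)
    (fun s hs => by
      have := (((hasDerivAt_id s).const_add 1).log (hp s hs).ne').div_const μ₁
      simpa using this)
    (hc.div_const μ₁)
  simp only [add_sub_cancel] at hB hT
  refine ⟨_, hT.congr (Eventually.of_forall fun x => by simp) (Eventually.of_forall fun x => ?_),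
    hB.mono' ?_ ?_⟩
  · simp only [smul_add, smul_smul]
    congr 2 <;> field_simp
  · have m₁ := hω.2.1.aemeasurable
    have m₂ := hu.2.1.aemeasurable
    have hs : MemLp (fun x => sg θ (μ₁ * ω x) (μ₁ * u x)) ⊤ (mm Ω) := by
      refine memLp_top_of_bound (AEMeasurable.aestronglyMeasurable ?_) 1
        (Eventually.of_forall fun x => ?_)
      · unfold sg VV
        fun_prop
      · rw [Real.norm_of_nonneg (dlse_sg hθ hθ1 _ _).1]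
        exact (dlse_sg hθ hθ1 _ _).2
    refine ((int_mul_top (int_sq hB.l2) hD.mu_top).add
      ((i₁.sub (int_mul_top i₁ hs)).add (int_mul_top i₂ hs))).congr
        (Eventually.of_forall fun x => ?_)
    simp only [Pi.add_apply, Pi.sub_apply]
    ring
  · filter_upwards [hD.mu] with x hx
    exact dlse_pt _ _ rfl (dlse_pos hθ hθ1 _ _) rfl (dlse_sg hθ hθ1 _ _).1
      (dlse_sg hθ hθ1 _ _).2 hx.1

end Pool.Agent.P.MP_0cf84d_an
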