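import Pool.Agent.P.MP_0cf84d_an.DReal0

/-! The choice of the constants. -/

set_option linter.unusedSectionVars false
set_option linter.unusedVariables false

namespace Pool.Agent.P.MP_0cf84d_an

open MeasureTheory Filter Topology Metric Set Module
open scoped RealInnerProductSpace ENNReal NNReal

variable {V : Type*} [NormedAddCommGroup V] [InnerProductSpace ℝ V] [FiniteDimensional ℝ V]
  [MeasurableSpace V] [BorelSpace V] [CompleteSpace V] {Ω : Set V}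

/-- the final comparison of the constants -/
theorem dreal_core {L κ C₂ M ε τ θ v η S : ℝ} (hL : 0 < L) (hκ : 0 < κ) (hC : 0 < C₂)
    (hM : 0 < M) (hε : 0 < ε) (hθ : 0 < θ) (hθ1 : θ ≤ 1 / 2) (hS : 0 < S)
    (hτ : 0 < τ) (e1 : τ * κ = 4 * S * (θ * ε ^ 2))
    (e2 : ε * (6 * (S + L * (4 * S / κ) * C₂ * M)) ≤ κ / (2 * L * C₂))
    (hv : 0 ≤ v) (hvM : v ≤ M) (hη : 0 ≤ η) (hη1 : η ≤ τ * C₂ * v) (hη2 : η ≤ v / 2) :
    0 ≤ (1 - θ) * (τ * κ - L * η) + θ * (ε * (v - η) / 3 - S * ε ^ 2) := by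
  have p0 : 0 < θ * ε ^ 2 := by positivity
  have p1 : 0 ≤ θ * (ε * (v - η)) := by
    have : 0 ≤ v - η := by linarith
    positivity
  rcases le_total v (κ / (2 * L * C₂)) with h | h
  · have a1 : v * (2 * L * C₂) ≤ κ := (le_div_iff₀ (by positivity)).1 h
    have a2 : L * η ≤ τ * κ / 2 := by
      have b1 : L * η ≤ L * (τ * C₂ * v) := mul_le_mul_of_nonneg_left hη1 hL.le
      have b2 : τ * (v * (2 * L * C₂)) ≤ τ * κ := mul_le_mul_of_nonneg_left a1 hτ.le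
      nlinarith
    have a3 : (1 / 2) * (τ * κ / 2) ≤ (1 - θ) * (τ * κ - L * η) :=
      mul_le_mul (by linarith) (by linarith) (by positivity) (by linarith)
    nlinarith
  · have t1 : τ = 4 * S / κ * (θ * ε ^ 2) := by
      field_simp
      linarith
    have a1 : L * η ≤ L * (4 * S / κ) * C₂ * M * (θ * ε ^ 2) := by
      have b1 : τ * C₂ * v ≤ τ * C₂ * M := mul_le_mul_of_nonneg_left hvM (by positivity)
      have b2 : L * η ≤ L * (τ * C₂ * M) := mul_le_mul_of_nonneg_left (hη1.trans b1) hL.le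
      rw [t1] at b2
      linarith
    have a2 : -(L * η) ≤ (1 - θ) * (τ * κ - L * η) := by
      have b1 : 0 ≤ (1 - θ) * (τ * κ) := mul_nonneg (by linarith) (by positivity)
      have b2 : 0 ≤ θ * (L * η) := by positivity
      nlinarith
    generalize L * (4 * S / κ) * C₂ * M = W at e2 a1
    have a3 : ε * (S + W) ≤ (v - η) / 3 := by linarith
    have a4 : (θ * ε) * (ε * (S + W)) ≤ (θ * ε) * ((v - η) / 3) :=
      mul_le_mul_of_nonneg_left a3 (by positivity)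
    nlinarith

theorem numbers {L κ C₂ M τ₀ : ℝ} (hL : 0 < L) (hκ : 0 < κ) (hC : 0 < C₂) (hM : 0 < M)
    (hτ : 0 < τ₀) : ∃ ε₁, 0 < ε₁ ∧ ∀ ε, 0 < ε → ε < ε₁ → ∀ Mu Cu : ℝ, ∃ τ θ ε' : ℝ,
      0 < τ ∧ τ ≤ τ₀ ∧ 0 < θ ∧ θ < 1 ∧ 0 < ε' ∧ ε' ≤ L ∧ ∀ v η u : ℝ, 0 ≤ v → v ≤ M → 0 ≤ η →
        η ≤ τ * C₂ * v → |u| ≤ Mu → Real.exp u - 1 ≤ Cu * v →
          Real.log (VV θ (-v + η) u) ≤ 0 ∧ (L - ε') * Real.log (VV θ (-v + η) u) ≤
            (1 - sg θ (-v + η) u) * (-L * v + τ * κ) + sg θ (-v + η) u * ((L - ε) * u) := by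
  obtain ⟨S, hSd⟩ : ∃ S : ℝ, S = 9 / L + 1 := ⟨_, rfl⟩
  have hS : 0 < S := by rw [hSd]; positivity
  obtain ⟨Z, hZd⟩ : ∃ Z : ℝ, Z = 6 * (S + L * (4 * S / κ) * C₂ * M) := ⟨_, rfl⟩
  have hZ : 0 < Z := by rw [hZd]; positivity
  refine ⟨min (L / 2) (min (L / (4 * M)) (κ / (2 * L * C₂) / Z)), by positivity, ?_⟩
  intro ε hε hε1 Mu Cu
  have c1 : ε ≤ L / 2 := hε1.le.trans (min_le_left _ _)
  have c2 : ε * M ≤ L / 4 := by
    have : ε ≤ L / (4 * M) := hε1.le.trans ((min_le_right _ _).trans (min_le_left _ _))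
    have := (le_div_iff₀ (by positivity)).1 this
    linarith
  have c3 : ε * Z ≤ κ / (2 * L * C₂) :=
    (le_div_iff₀ hZ).1 (hε1.le.trans ((min_le_right _ _).trans (min_le_right _ _)))
  obtain ⟨T, hTd⟩ : ∃ T : ℝ, T = |Mu| + M := ⟨_, rfl⟩
  have hT : 0 < T := by rw [hTd]; positivity
  obtain ⟨B, hBd⟩ : ∃ B : ℝ, B = Real.exp T + 1 := ⟨_, rfl⟩
  have hB : 0 < B := by rw [hBd]; positivity
  obtain ⟨A, hAd⟩ : ∃ A : ℝ, A = 4 * S / κ * ε ^ 2 := ⟨_, rfl⟩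
  have hA : 0 < A := by rw [hAd]; positivity
  obtain ⟨θ, hθ, d1, d2, d3, d4, d5⟩ : ∃ θ : ℝ, 0 < θ ∧ θ ≤ 1 / 2 ∧ θ ≤ τ₀ / A ∧
      θ ≤ 1 / (2 * A * C₂) ∧ θ ≤ 1 / ((|Cu| + 1) * (4 * (1 + M))) ∧
      θ ≤ ε ^ 2 / (2 * L * B ^ 2) := by
    refine ⟨min (1 / 2) (min (τ₀ / A) (min (1 / (2 * A * C₂))
      (min (1 / ((|Cu| + 1) * (4 * (1 + M)))) (ε ^ 2 / (2 * L * B ^ 2))))), by positivity,
      min_le_left _ _, (min_le_right _ _).trans (min_le_left _ _),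
      (min_le_right _ _).trans ((min_le_right _ _).trans (min_le_left _ _)),
      (min_le_right _ _).trans ((min_le_right _ _).trans ((min_le_right _ _).trans
        (min_le_left _ _))),
      (min_le_right _ _).trans ((min_le_right _ _).trans ((min_le_right _ _).trans
        (min_le_right _ _)))⟩
  have d2' : θ * A ≤ τ₀ := (le_div_iff₀ hA).1 d2
  have d3' : θ * (2 * A * C₂) ≤ 1 := (le_div_iff₀ (by positivity)).1 d3
  have d4' : θ * ((|Cu| + 1) * (4 * (1 + M))) ≤ 1 := (le_div_iff₀ (by positivity)).1 d4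
  have d5' : θ * (2 * L * B ^ 2) ≤ ε ^ 2 := (le_div_iff₀ (by positivity)).1 d5
  obtain ⟨ε', hε', f1, f2⟩ : ∃ ε' : ℝ, 0 < ε' ∧ ε' ≤ L ∧ ε' ≤ θ * ε ^ 2 / (2 * B * T) :=
    ⟨min L (θ * ε ^ 2 / (2 * B * T)), by positivity, min_le_left _ _, min_le_right _ _⟩
  have f2' : ε' * (2 * B * T) ≤ θ * ε ^ 2 := (le_div_iff₀ (by positivity)).1 f2
  refine ⟨θ * A, θ, ε', by positivity, d2', hθ, by linarith, hε', f1, ?_⟩
  intro v η u hv hvM hη hη1 hu hCu
  have hθ1 : θ < 1 := by linarith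
  have hη2 : η ≤ v / 2 := by
    have : (θ * (2 * A * C₂)) * v ≤ 1 * v := mul_le_mul_of_nonneg_right d3' hv
    linarith
  have hs : θ * Cu * (4 * (1 + M)) ≤ 1 := by
    have g1 : Cu ≤ |Cu| + 1 := (le_abs_self Cu).trans (by linarith)
    have g2 : θ * (Cu * (4 * (1 + M))) ≤ θ * ((|Cu| + 1) * (4 * (1 + M))) :=
      mul_le_mul_of_nonneg_left (mul_le_mul_of_nonneg_right g1 (by positivity)) hθ.le
    linarith
  refine ⟨real_C hθ d1 hv hvM hη2 hη hCu hs, ?_⟩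
  have hMu : Mu ≤ |Mu| := le_abs_self Mu
  have hMu0 : 0 ≤ |Mu| := abs_nonneg Mu
  have rD : |Real.log (VV θ (-v + η) u)| ≤ T :=
    real_D hθ hθ1 (abs_le.2 ⟨by linarith, by linarith⟩) (by linarith)
  have rA := real_A (t := u + (v - η)) (m := v - η) hL hε c1 c2 (by linarith) (by linarith)
  have rB := real_B (L := L) (κ := κ) (ε := ε) (ε' := ε') (τ := θ * A) (θ := θ) (v := v) (η := η)
    (u := u) hL.le hθ hθ1
  have rE := dreal_core (τ := θ * A) (S := S) hL hκ hC hM hε hθ d1 hS (by positivity)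
    (by rw [hAd]; field_simp) (hZd ▸ c3) hv hvM hη hη1 hη2
  have x0 : 0 < Real.exp (u + (v - η)) := Real.exp_pos _
  have x1 : Real.exp (u + (v - η)) ≤ Real.exp T :=
    Real.exp_le_exp.2 (by linarith [(abs_le.1 hu).2])
  generalize Real.exp (u + (v - η)) = x at rA rB x0 x1
  generalize Real.log (VV θ (-v + η) u) = y at rB rD ⊢
  have D0 : 0 < 1 - θ + θ * x := by
    have : 0 < θ * x := by positivity
    linarith
  have D1 : 1 - θ + θ * x ≤ B := by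
    have : θ * x ≤ 1 * x := mul_le_mul_of_nonneg_right hθ1.le x0.le
    linarith
  have k1 : (x - 1) ^ 2 ≤ B ^ 2 := sq_le_sq' (by linarith [Real.exp_pos T]) (by linarith)
  have k2 : L * θ ^ 2 * (x - 1) ^ 2 ≤ θ * ε ^ 2 / 2 := by
    have g1 : L * θ ^ 2 * (x - 1) ^ 2 ≤ L * θ ^ 2 * B ^ 2 :=
      mul_le_mul_of_nonneg_left k1 (by positivity)
    have g2 : θ * (θ * (2 * L * B ^ 2)) ≤ θ * ε ^ 2 := mul_le_mul_of_nonneg_left d5' hθ.le
    linarith
  have k3 : -(θ * ε ^ 2 / 2) ≤ ε' * ((1 - θ + θ * x) * y) := by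
    have g1 : (1 - θ + θ * x) * (-T) ≤ (1 - θ + θ * x) * y :=
      mul_le_mul_of_nonneg_left (abs_le.1 rD).1 D0.le
    have g2 : (1 - θ + θ * x) * T ≤ B * T := mul_le_mul_of_nonneg_right D1 hT.le
    have g3 : ε' * (-(B * T)) ≤ ε' * ((1 - θ + θ * x) * y) :=
      mul_le_mul_of_nonneg_left (by linarith) hε'.le
    linarith
  have k4 := mul_le_mul_of_nonneg_left rA hθ.le
  have k5 : θ * (ε * (v - η) / 3 - S * ε ^ 2) =
      θ * (ε * (v - η) / 3 - 9 * ε ^ 2 / L) - θ * ε ^ 2 := by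
    rw [hSd]
    ring
  have k6 := le_trans (show (0 : ℝ) ≤ _ by linarith) rB
  have k7 := nonneg_of_mul_nonneg_right k6 D0
  linarith

end Pool.Agent.P.MP_0cf84d_an
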