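import Pool.Agent.P.MP_0cf84d_an.DLin

/-! A strict upper solution, an upper bound for solutions. -/

set_option linter.unusedSectionVars false
set_option linter.unusedVariables false

namespace Pool.Agent.P.MP_0cf84d_an

open MeasureTheory Filter Topology Metric Set Module
open scoped RealInnerProductSpace ENNReal NNReal

variable {V : Type*} [NormedAddCommGroup V] [InnerProductSpace ℝ V] [FiniteDimensional ℝ V]
  [MeasurableSpace V] [BorelSpace V] [CompleteSpace V] {Ω : Set V}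

variable {q μ₁ μ₂ l : ℝ} {c h μ u : V → ℝ} {G : V → V}

theorem exp_bound (hΩ : OB Ω) (hD : Dat Ω q c h μ μ₁ μ₂) {v : V → ℝ} (hv : Dom Ω q v)
    (h0 : ∀ᵐ x ∂mm Ω, 0 ≤ v x) (hu : TT Ω u G) (he : WEq Ω G (rhs c h μ l H2 u G)) :
    ∃ Cu, ∀ᵐ x ∂mm Ω, Real.exp (μ₁ * u x) - 1 ≤ Cu * v x := by
  obtain ⟨M, hM0, hM⟩ := top_bound hu.2
  have hμ2 : 0 < μ₂ := hD.pos.trans_le hD.le
  have hab : ∀ᵐ x ∂mm Ω, u x ∈ Icc (-M) M := hM.mono fun x hx => abs_le.1 hx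
  have dP : ∀ s : ℝ, HasDerivAt (fun s => Real.exp (μ₂ * s)) (μ₂ * Real.exp (μ₂ * s)) s := by
    intro s
    have h1 : HasDerivAt (fun s : ℝ => μ₂ * s) μ₂ s := by simpa using (hasDerivAt_id s).const_mul μ₂
    exact h1.exp.congr_deriv (mul_comm _ _)
  have hU : TT Ω (fun x => Real.exp (μ₂ * u x) - Real.exp (μ₂ * 0))
      (fun x => (μ₂ * Real.exp (μ₂ * u x)) • G x) :=
    chain1 hΩ hu (by linarith) hM0.le hab (P := fun s => Real.exp (μ₂ * s))
      (ψ := fun s => μ₂ * Real.exp (μ₂ * s)) (fun s _ => dP s) (by fun_prop)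
  have h1 := he.le.mul hΩ hu (by linarith) hM0.le hab (ψ := fun s => μ₂ * Real.exp (μ₂ * s))
    (ψ' := fun s => μ₂ * (μ₂ * Real.exp (μ₂ * s))) (fun s _ => (dP s).const_mul μ₂) (by fun_prop)
    (fun s _ => by positivity)
  have hg : MemLp (fun x => μ₂ * Real.exp (μ₂ * M) * (|l| * M * c x + |h x|)) (ENNReal.ofReal q)
      (mm Ω) := ((hD.cq.const_mul _).add hD.hh.abs).const_mul _
  obtain ⟨C, hC0, hC⟩ := hv _ hg (hD.c0.mono fun x hx => by positivity)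
  have := hΩ.fin
  have hgi : Integrable (fun x => -(μ₂ * Real.exp (μ₂ * M) * (|l| * M * c x + |h x|))) (mm Ω) :=
    ((hΩ.two_of_q hD.hq hg).integrable one_le_two).neg
  have h2 := h1.mono' hgi (by
    filter_upwards [hM, hD.c0, hD.mu] with x h3 h4 h5
    have e1 : Real.exp (μ₂ * u x) ≤ Real.exp (μ₂ * M) :=
      Real.exp_le_exp.2 (mul_le_mul_of_nonneg_left (le_of_abs_le h3) hμ2.le)
    have e2 : 0 < Real.exp (μ₂ * u x) := Real.exp_pos _
    have e3 : l * (c x * u x) + h x ≤ |l| * M * c x + |h x| := by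
      have a1 : l * u x ≤ |l| * M := by
        calc l * u x ≤ |l * u x| := le_abs_self _
          _ = |l| * |u x| := abs_mul _ _
          _ ≤ |l| * M := mul_le_mul_of_nonneg_left h3 (abs_nonneg _)
      have a2 := mul_le_mul_of_nonneg_right a1 h4
      have a3 := le_abs_self (h x)
      nlinarith
    have e4 : 0 ≤ |l| * M * c x + |h x| := by positivity
    have e5 : μ₂ * Real.exp (μ₂ * u x) * (l * (c x * u x) + h x) ≤
        μ₂ * Real.exp (μ₂ * M) * (|l| * M * c x + |h x|) :=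
      (mul_le_mul_of_nonneg_left e3 (by positivity)).trans
        (mul_le_mul_of_nonneg_right (mul_le_mul_of_nonneg_left e1 hμ2.le) e4)
    have e6 : 0 ≤ μ₂ * Real.exp (μ₂ * u x) * ((μ₂ - μ x) * ‖G x‖ ^ 2) :=
      mul_nonneg (by positivity) (mul_nonneg (by linarith [h5.2]) (by positivity))
    simp only [rhs, H2, inner_neg_left, real_inner_self_eq_norm_sq]
    nlinarith)
  have h3 := hC _ _ hU.1 (h2.congr (Eventually.of_forall fun x => smul_neg _ _) (EventuallyEq.refl _ _))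
  refine ⟨C, ?_⟩
  filter_upwards [h3, h0] with x h4 h5
  rcases le_total 0 (u x) with h6 | h6
  · have : Real.exp (μ₁ * u x) ≤ Real.exp (μ₂ * u x) :=
      Real.exp_le_exp.2 (mul_le_mul_of_nonneg_right hD.le h6)
    rw [mul_zero, Real.exp_zero] at h4
    linarith
  · have : Real.exp (μ₁ * u x) ≤ 1 :=
      Real.exp_le_one_iff.2 (mul_nonpos_of_nonneg_of_nonpos hD.pos.le h6)
    have := mul_nonneg hC0 h5
    linarith

theorem dstrict_real (a d : V) {m m₂ p : ℝ} (h0 : 0 ≤ m) (h1 : m ≤ m₂) (hp : 0 ≤ p)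
    (h2 : p * (2 * m₂) ≤ 1) :
    m * ‖a + p • d‖ ^ 2 ≤ m * ‖a‖ ^ 2 + p * (2 * m₂ * (m * ‖a‖ ^ 2)) + p * ‖d‖ ^ 2 := by
  rw [norm_add_sq_real, inner_smul_right, norm_smul, Real.norm_eq_abs, abs_of_nonneg hp]
  have a1 : ⟪a, d⟫ ≤ ‖a‖ * ‖d‖ := real_inner_le_norm a d
  have a2 : 2 * m * ⟪a, d⟫ ≤ 2 * m₂ * (m * ‖a‖ ^ 2) + ‖d‖ ^ 2 / 2 := by
    have b1 : 2 * m * ⟪a, d⟫ ≤ 2 * m * (‖a‖ * ‖d‖) :=
      mul_le_mul_of_nonneg_left a1 (by positivity)
    have b2 : m * (m * ‖a‖ ^ 2) ≤ m₂ * (m * ‖a‖ ^ 2) :=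
      mul_le_mul_of_nonneg_right h1 (by positivity)
    nlinarith [sq_nonneg (2 * m * ‖a‖ - ‖d‖)]
  have a3 : m * p ≤ 1 / 2 := by nlinarith [mul_le_mul_of_nonneg_left h1 hp]
  have a4 := mul_le_mul_of_nonneg_left a2 hp
  have a5 : m * p * (p * ‖d‖ ^ 2) ≤ 1 / 2 * (p * ‖d‖ ^ 2) :=
    mul_le_mul_of_nonneg_right a3 (by positivity)
  nlinarith

theorem strict (hΩ : OB Ω) (hD : Dat Ω q c h μ μ₁ μ₂) (hv : Dom Ω q fun x => -u x)
    (h0 : ∀ᵐ x ∂mm Ω, u x ≤ 0) (hu : TT Ω u G) (he : WEq Ω G (rhs c h μ l H2 u G)) :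
    ∃ τ₀ κ₀ C₂ : ℝ, 0 < τ₀ ∧ 0 < κ₀ ∧ 0 < C₂ ∧ ∀ τ, 0 < τ → τ ≤ τ₀ → ∃ ω Gω, TT Ω ω Gω ∧
      (∀ᵐ x ∂mm Ω, 0 ≤ ω x - u x ∧ ω x - u x ≤ τ * C₂ * -u x) ∧
      WGe Ω Gω (fun x => μ x * ‖Gω x‖ ^ 2 + (h x + c x * (l * u x + τ * κ₀))) := by
  have := hΩ.fin
  obtain ⟨M, hM0, hM⟩ := top_bound hu.2
  have hμ2 : 0 < μ₂ := hD.pos.trans_le hD.le
  have hg : MemLp (fun x => c x + |l * (c x * u x) + h x|) (ENNReal.ofReal q) (mm Ω) :=
    hD.cq.add (((memLp_mul_top hD.cq hu.2).const_mul l).add hD.hh).abs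
  have hg0 : ∀ᵐ x ∂mm Ω, 0 ≤ c x + |l * (c x * u x) + h x| :=
    hD.c0.mono fun x hx => by positivity
  obtain ⟨w, W, hw, hW0⟩ := solve_lin hΩ le_rfl (hΩ.two_of_q hD.hq hg)
  have hW : WEq Ω W (fun x => c x + |l * (c x * u x) + h x|) :=
    hW0.congr (EventuallyEq.refl _ _) (Eventually.of_forall fun x => by simp)
  have w0 := max_pr hΩ hw hW.ge hg0
  obtain ⟨C, hC0, hC⟩ := hv _ hg hg0
  have w1 := hC w W hw hW.le
  have hwT : TT Ω w W := hw.tt (M := C * M) (by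
    filter_upwards [w0, w1, hM] with x h1 h2 h3
    rw [abs_of_nonneg h1]
    exact h2.trans (mul_le_mul_of_nonneg_left (neg_le.1 (neg_le_of_abs_le h3)) hC0))
  have hs : TT Ω (fun x => 2 * μ₂ * (u x + w x)) (fun x => (2 * μ₂) • (G x + W x)) :=
    (hu.add hΩ hwT).smul hΩ _
  have ci : Integrable c (mm Ω) := (hΩ.two_of_q hD.hq hD.cq).integrable one_le_two
  have hi : Integrable h (mm Ω) := (hΩ.two_of_q hD.hq hD.hh).integrable one_le_two
  have sq : ∀ {F : V → V}, MemLp F 2 (mm Ω) → Integrable (fun x => μ x * ‖F x‖ ^ 2) (mm Ω) :=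
    fun hF => (int_mul_top (int_sq hF) hD.mu_top).congr
      (Eventually.of_forall fun x => mul_comm _ _)
  have f1i : Integrable (fun x => 2 * μ₂ * (μ x * ‖G x‖ ^ 2 + c x)) (mm Ω) :=
    ((sq he.l2).add ci).const_mul _
  have hS : WGe Ω (fun x => (2 * μ₂) • (G x + W x)) (fun x => 2 * μ₂ * (μ x * ‖G x‖ ^ 2 + c x)) :=
    ((he.ge.add hW.ge).smul (a := 2 * μ₂) (by positivity)).mono' f1i
      (Eventually.of_forall fun x => mul_le_mul_of_nonneg_left (by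
        have := neg_abs_le (l * (c x * u x) + h x)
        simp only [rhs, H2]
        linarith) (by positivity))
  have s0 := max_pr hΩ hs.1 hS (by
    filter_upwards [hD.c0, hD.mu] with x h1 h2
    have := hD.pos.le.trans h2.1
    positivity)
  obtain ⟨S, hS0, hSb⟩ := top_bound hs.2
  have hab : ∀ᵐ x ∂mm Ω, 2 * μ₂ * (u x + w x) ∈ Icc 0 S := by
    filter_upwards [s0, hSb] with x h1 h2
    exact ⟨h1, le_of_abs_le h2⟩
  refine ⟨1 / (2 * μ₂), 2 * μ₂ * Real.exp (-S), 2 * μ₂ * (C + 1), by positivity, by positivity,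
    by positivity, fun τ hτ hτ1 => ?_⟩
  have hτ2 : τ * (2 * μ₂) ≤ 1 := (le_div_iff₀ (by positivity)).1 hτ1
  have dE : ∀ t : ℝ, HasDerivAt (fun t => τ * Real.exp (-t)) (-(τ * Real.exp (-t))) t := by
    intro t
    exact ((hasDerivAt_neg t).exp.const_mul τ).congr_deriv (by ring)
  have hη : TT Ω (fun x => -(τ * Real.exp (-(2 * μ₂ * (u x + w x)))) - -(τ * Real.exp (-0)))
      (fun x => (τ * Real.exp (-(2 * μ₂ * (u x + w x)))) • ((2 * μ₂) • (G x + W x))) :=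
    chain1 hΩ hs le_rfl hS0.le hab (P := fun t => -(τ * Real.exp (-t)))
      (ψ := fun t => τ * Real.exp (-t)) (fun t _ => (dE t).neg.congr_deriv (neg_neg _))
      (by fun_prop)
  have h1 := hS.mul hΩ hs le_rfl hS0.le hab (ψ := fun t => τ * Real.exp (-t))
    (ψ' := fun t => -(τ * Real.exp (-t))) (fun t _ => dE t) (by fun_prop)
    (fun t _ => by positivity)
  have h2 := he.ge.add h1
  refine ⟨_, _, hu.add hΩ hη, ?_, h2.mono' ?_ ?_⟩
  · filter_upwards [hab, w1, h0] with x a1 a2 a3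
    have b1 : Real.exp (-(2 * μ₂ * (u x + w x))) ≤ 1 := Real.exp_le_one_iff.2 (by linarith [a1.1])
    have b2 := Real.add_one_le_exp (-(2 * μ₂ * (u x + w x)))
    have b3 : 2 * μ₂ * (u x + w x) ≤ 2 * μ₂ * ((C + 1) * -u x) :=
      mul_le_mul_of_nonneg_left (by linarith) (by positivity)
    have b4 : τ * (1 - Real.exp (-(2 * μ₂ * (u x + w x)))) ≤ τ * (2 * μ₂ * ((C + 1) * -u x)) :=
      mul_le_mul_of_nonneg_left (by linarith) hτ.le
    have b5 : 0 ≤ τ * (1 - Real.exp (-(2 * μ₂ * (u x + w x)))) :=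
      mul_nonneg hτ.le (by linarith)
    rw [neg_zero, Real.exp_zero]
    constructor <;> linarith
  · exact (sq h2.l2).add (hi.add (int_mul_top ci ((hu.2.const_mul l).add (memLp_top_const _))))
  · filter_upwards [hab, hD.c0, hD.mu] with x a1 a2 a3
    have b1 : Real.exp (-(2 * μ₂ * (u x + w x))) ≤ 1 := Real.exp_le_one_iff.2 (by linarith [a1.1])
    have b2 : Real.exp (-S) ≤ Real.exp (-(2 * μ₂ * (u x + w x))) :=
      Real.exp_le_exp.2 (by linarith [a1.2])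
    have b3 := dstrict_real (G x) ((2 * μ₂) • (G x + W x)) (hD.pos.le.trans a3.1) a3.2
      (p := τ * Real.exp (-(2 * μ₂ * (u x + w x)))) (by positivity)
      ((mul_le_mul_of_nonneg_right (mul_le_of_le_one_right hτ.le b1) (by positivity)).trans hτ2)
    have b4 : c x * (τ * (2 * μ₂)) * Real.exp (-S) ≤
        c x * (τ * (2 * μ₂)) * Real.exp (-(2 * μ₂ * (u x + w x))) :=
      mul_le_mul_of_nonneg_left b2 (by positivity)
    simp only [rhs, H2, real_inner_self_eq_norm_sq]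
    linarith

end Pool.Agent.P.MP_0cf84d_an
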