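import Pool.Agent.P.MP_0cf84d_an.DRefl
import Pool.Agent.P.MP_0cf84d_an.DCmp

/-! Subsolutions grow at most linearly from the boundary. -/

set_option linter.unusedSectionVars false
set_option linter.unusedVariables false

namespace Pool.Agent.P.MP_0cf84d_an

open MeasureTheory Filter Topology Metric Set Module
open scoped RealInnerProductSpace ENNReal NNReal

variable {V : Type*} [NormedAddCommGroup V] [InnerProductSpace ℝ V] [FiniteDimensional ℝ V]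
  [MeasurableSpace V] [BorelSpace V] [CompleteSpace V] {Ω : Set V}

theorem dup_dd_le (hΩ : OB Ω) : ∃ D, 0 < D ∧ (∀ x ∈ Ω, dd Ω x ≤ D) ∧
    ∀ x ∈ Ω, ∀ z ∈ Ω, ‖z - x‖ ≤ D := by
  obtain ⟨R, hR, h⟩ := hΩ.radius 0
  have hnt : Nontrivial V := Module.nontrivial_of_finrank_pos (R := ℝ) (by
    have := hΩ.dim; omega)
  obtain ⟨e, he⟩ := exists_norm_eq V (c := R + 1) (by linarith)
  have heΩ : e ∈ Ωᶜ := fun h1 => by
    have := h e h1
    rw [sub_zero, he] at this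
    linarith
  refine ⟨2 * R + 1, by linarith, fun x hx => ?_, fun x hx z hz => ?_⟩
  · refine (infDist_le_dist_of_mem heΩ).trans ?_
    rw [dist_eq_norm]
    have h1 := h x hx
    rw [sub_zero] at h1
    have := norm_sub_le x e
    linarith
  · have h1 := h x hx
    have h2 := h z hz
    rw [sub_zero] at h1 h2
    have := norm_sub_le z x
    linarith

theorem dup_one (hΩ : OB Ω) {g u W : V → ℝ} {G F : V → V} (hu : InH10 Ω u G)
    (hG : WGe Ω (fun x => -G x) (fun x => -g x)) (hW : Reg Ω W F) (he : WEq Ω F g)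
    (h0 : ∀ x ∈ Ω, 0 ≤ W x) : ∀ᵐ x ∂mm Ω, u x ≤ W x := by
  have h1 : WGe Ω (fun x => F x - G x) (fun _ => (0 : ℝ)) :=
    (he.ge.add hG).congr (ae_of_all _ fun x => (sub_eq_add_neg _ _).symm)
      (ae_of_all _ fun x => by simp)
  refine cmp hΩ hu hW isCompact_empty (empty_subset _) (fun x hx _ => h0 x hx) h1
    MemLp.zero' (κ := 0) (Λ := 0) (by norm_num) (ae_of_all _ fun x _ => by simp)

theorem dom_dd (hΩ : OB Ω) {q r : ℝ} (hq : (finrank ℝ V : ℝ) < q) (hr : 0 < r) (hE : ExtB Ω r) :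
    Dom Ω q (dd Ω) := by
  intro g hg h0
  obtain ⟨D, hD, hD1, hD2⟩ := dup_dd_le hΩ
  obtain ⟨C, hC, hb⟩ := barrier hΩ (R := r + 2 * D) hq hr hg h0
  refine ⟨C * (2 * r + D), by positivity, fun u G hu hG => ?_⟩
  have key : ∀ y : V, (∀ z ∈ Ω, r ≤ ‖z - y‖ ∧ ‖z - y‖ ≤ r + 2 * D) →
      ∀ᵐ x ∂mm Ω, u x ≤ C * (‖x - y‖ ^ 2 - r ^ 2) := by
    intro y hy
    have h1 : ∀ n : ℕ, ∀ᵐ x ∂mm Ω,
        u x ≤ C * (‖x - y‖ ^ 2 - (r - r / 2 * (1 / ((n : ℝ) + 1))) ^ 2) := by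
      intro n
      have hn : (0 : ℝ) < 1 / ((n : ℝ) + 1) := by positivity
      have hn1 : 1 / ((n : ℝ) + 1) ≤ 1 := by
        rw [div_le_one (by positivity)]
        have : (0 : ℝ) ≤ n := Nat.cast_nonneg n
        linarith
      obtain ⟨W, F, hW, he, hle⟩ := hb y (r - r / 2 * (1 / ((n : ℝ) + 1))) (by nlinarith)
        (by nlinarith) hy
      filter_upwards [dup_one hΩ hu hG hW he (fun x hx => (hle x hx).1), hΩ.mem] with x h2 hx
      exact h2.trans (hle x hx).2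
    filter_upwards [ae_all_iff.2 h1] with x hx
    have ht : Tendsto (fun n : ℕ => C * (‖x - y‖ ^ 2 - (r - r / 2 * (1 / ((n : ℝ) + 1))) ^ 2))
        atTop (𝓝 (C * (‖x - y‖ ^ 2 - (r - r / 2 * 0) ^ 2))) :=
      (((tendsto_const_nhds.sub (tendsto_one_div_add_atTop_nhds_zero_nat.const_mul
        (r / 2))).pow 2).const_sub _).const_mul C
    rw [mul_zero, sub_zero] at ht
    exact ge_of_tendsto' ht hx
  obtain ⟨T, hT1, hT2, hT3⟩ := (TopologicalSpace.IsSeparable.of_separableSpace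
    {y : V | ∀ z ∈ Ω, r ≤ ‖z - y‖ ∧ ‖z - y‖ ≤ r + 2 * D}).exists_countable_dense_subset
  have h2 : ∀ᵐ x ∂mm Ω, ∀ y ∈ T, u x ≤ C * (‖x - y‖ ^ 2 - r ^ 2) :=
    (ae_ball_iff hT2).2 fun y hy => key y (hT1 hy)
  filter_upwards [h2, hΩ.mem] with x hx hxΩ
  obtain ⟨y, hy1, hy2⟩ := hE x hxΩ
  have hd := hD1 x hxΩ
  have hd0 : 0 ≤ dd Ω x := infDist_nonneg
  have hyY : y ∈ {y : V | ∀ z ∈ Ω, r ≤ ‖z - y‖ ∧ ‖z - y‖ ≤ r + 2 * D} := by
    intro z hz
    refine ⟨hy1 z hz, ?_⟩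
    have h3 := norm_sub_le_norm_sub_add_norm_sub z x y
    have h4 := hD2 x hxΩ z hz
    linarith
  have hcl : IsClosed {y : V | u x ≤ C * (‖x - y‖ ^ 2 - r ^ 2)} :=
    isClosed_le continuous_const (by fun_prop)
  have h5 : u x ≤ C * (‖x - y‖ ^ 2 - r ^ 2) := closure_minimal (fun y hy => hx y hy) hcl (hT3 hyY)
  refine h5.trans ?_
  rw [mul_assoc]
  refine mul_le_mul_of_nonneg_left ?_ hC
  have h6 : ‖x - y‖ ^ 2 ≤ (r + dd Ω x) ^ 2 := pow_le_pow_left₀ (norm_nonneg _) hy2 2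
  nlinarith

end Pool.Agent.P.MP_0cf84d_an
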