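import Pool.Agent.P.MP_0cf84d_an.DExist
import Pool.Agent.P.MP_0cf84d_an.DUp
import Pool.Agent.P.MP_0cf84d_an.DHopf
import Pool.Agent.P.MP_0cf84d_an.DGeo
import Pool.Agent.P.MP_0cf84d_an.DStrict
import Pool.Agent.P.MP_0cf84d_an.DLse
import Pool.Agent.P.MP_0cf84d_an.DReal

/-! The dichotomy at the threshold. -/

set_option linter.unusedSectionVars false
set_option linter.unusedVariables false

namespace Pool.Agent.P.MP_0cf84d_an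

open MeasureTheory Filter Topology Metric Set Module
open scoped RealInnerProductSpace ENNReal NNReal

variable {V : Type*} [NormedAddCommGroup V] [InnerProductSpace ℝ V] [FiniteDimensional ℝ V]
  [MeasurableSpace V] [BorelSpace V] [CompleteSpace V] {Ω : Set V}

theorem exists_dat (hΩ : OB Ω) {p : ℝ≥0∞} (hp : (finrank ℝ V : ℝ≥0∞) < p) {c h μ : V → ℝ}
    (hA : CondA Ω p c h μ) : ∃ q μ₁ μ₂, Dat Ω q c h μ μ₁ μ₂ := by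
  have := hΩ.fin
  obtain ⟨hc, hh, c0, -, hμ, μ₁, μ₂, h1, h2⟩ := hA
  obtain ⟨q, hq0, hq1, hq2⟩ := ENNReal.lt_iff_exists_real_btwn.1 hp
  refine ⟨q, μ₁, max μ₁ μ₂, ?_, hc.mono_exponent hq2.le, hh.mono_exponent hq2.le, c0, hμ.1, h1,
    le_max_left _ _, h2.mono fun x hx => ⟨hx.1, hx.2.trans (le_max_right _ _)⟩⟩
  rw [← ENNReal.ofReal_natCast] at hq1
  exact (ENNReal.ofReal_lt_ofReal_iff_of_nonneg (Nat.cast_nonneg _)).1 hq1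

theorem dom_sol (hΩ : OB Ω) (hC : IsC11Domain Ω) {q μ₁ μ₂ : ℝ} {c h μ φ v : V → ℝ}
    (hD : Dat Ω q c h μ μ₁ μ₂) (hφ : IsPosEigenfun Ω c φ) {ε : ℝ} (hε : 0 < ε)
    (hv : ∀ᵐ x ∂mm Ω, ε * φ x ≤ v x) : Dom Ω q v := by
  obtain ⟨r, hr, hE, hI⟩ := geo hΩ hC
  obtain ⟨G, hG, hG0⟩ := eig_super hΩ (hΩ.two_of_q hD.hq hD.cq) hD.c0 hφ
  obtain ⟨c₀, hc₀, h1⟩ := hopf hΩ hr hI (hφ.1.mono subset_closure) hφ.2.1 hG hG0
  intro g hg hg0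
  obtain ⟨C, hC0, h2⟩ := dom_dd hΩ hD.hq hr hE g hg hg0
  refine ⟨C / (c₀ * ε), by positivity, fun u G' hu he => ?_⟩
  filter_upwards [h2 u G' hu he, hv, hΩ.mem] with x h3 h4 h5
  have h6 : c₀ * ε * dd Ω x ≤ v x := by nlinarith [h1 x h5]
  refine h3.trans ?_
  rw [div_mul_eq_mul_div, le_div_iff₀ (by positivity)]
  nlinarith

theorem upper (hΩ : OB Ω) {q μ₁ μ₂ L : ℝ} {c h μ w : V → ℝ} {D : V → V}
    (hD : Dat Ω q c h μ μ₁ μ₂) (hL : 0 < L) (hv : Dom Ω q fun x => -w x)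
    (h0 : ∀ᵐ x ∂mm Ω, w x ≤ 0) (hw : TT Ω w D) (he : WEq Ω D (rhs c h μ L H2 w D)) :
    ∃ δ, 0 < δ ∧ ∀ l ∈ Ioo (L - δ) L, (∃ u, IsSol Ω c h μ l u) →
      ∃ l', 0 ≤ l' ∧ l' < L ∧ HasNonposSol Ω c h μ l' := by
  have := hΩ.fin
  have hμ := hD.pos
  have c2 := hΩ.two_of_q hD.hq hD.cq
  have h2 := hΩ.two_of_q hD.hq hD.hh
  have c1 : Integrable c (mm Ω) := c2.integrable one_le_two
  have h1 : Integrable h (mm Ω) := h2.integrable one_le_two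
  obtain ⟨τ₀, κ₀, C₂, hτ₀, hκ₀, hC₂, hs⟩ := strict hΩ hD hv h0 hw he
  obtain ⟨M, hM, hwM⟩ := top_bound hw.2
  obtain ⟨ε₁, hε₁, hn⟩ := numbers hL (mul_pos hμ hκ₀) hC₂ (mul_pos hμ hM) hτ₀
  refine ⟨ε₁, hε₁, fun l hl ⟨u, hu⟩ => ?_⟩
  obtain ⟨G, hu, heu⟩ := (hD.isSol_iff hΩ l).1 hu
  obtain ⟨Cu, hCu⟩ := exp_bound hΩ hD hv (h0.mono fun x hx => neg_nonneg.2 hx) hu heu
  obtain ⟨Mu, hMu, huM⟩ := top_bound hu.2
  obtain ⟨τ, θ, ε', hτ, hτ1, hθ, hθ1, hε', hε'L, hnum⟩ :=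
    hn (L - l) (by linarith [hl.2]) (by linarith [hl.1]) (μ₁ * Mu) (Cu / μ₁)
  obtain ⟨ω, Gω, hω, hωw, hωe⟩ := hs τ hτ hτ1
  have i₁ : Integrable (fun x => h x + c x * (L * w x + τ * κ₀)) (mm Ω) :=
    h1.add (int_mul_top c1 ((hw.2.const_mul L).add (memLp_top_const _)))
  have i₂ : Integrable (fun x => h x + c x * (l * u x)) (mm Ω) :=
    h1.add (int_mul_top c1 (hu.2.const_mul l))
  have hue : WGe Ω G (fun x => μ x * ‖G x‖ ^ 2 + (h x + c x * (l * u x))) :=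
    heu.ge.congr EventuallyEq.rfl (Eventually.of_forall fun x => by simp only [rhs, H2]; ring)
  obtain ⟨B, hβ, hβe⟩ := lse hΩ hD hω hu i₁ i₂ hωe hue hθ hθ1
  have key : ∀ᵐ x ∂mm Ω, Real.log (VV θ (μ₁ * ω x) (μ₁ * u x)) ≤ 0 ∧
      (L - ε') * Real.log (VV θ (μ₁ * ω x) (μ₁ * u x)) ≤
        μ₁ * ((1 - sg θ (μ₁ * ω x) (μ₁ * u x)) * (L * w x + τ * κ₀) +
          sg θ (μ₁ * ω x) (μ₁ * u x) * (l * u x)) := by
    filter_upwards [h0, hwM, hωw, huM, hCu] with x a1 a2 a3 a4 a5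
    have a6 := hnum (μ₁ * -w x) (μ₁ * (ω x - w x)) (μ₁ * u x) (by nlinarith)
      (mul_le_mul_of_nonneg_left ((neg_le_abs _).trans a2) hμ.le) (mul_nonneg hμ.le a3.1)
      (by nlinarith [a3.2]) (by
        rw [abs_mul, abs_of_pos hμ]
        exact mul_le_mul_of_nonneg_left a4 hμ.le) (by
        rw [← mul_assoc, div_mul_cancel₀ _ hμ.ne']
        exact a5)
    have e : -(μ₁ * -w x) + μ₁ * (ω x - w x) = μ₁ * ω x := by ring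
    rw [e] at a6
    exact ⟨a6.1, a6.2.trans (le_of_eq (by ring))⟩
  refine ⟨L - ε', by linarith, by linarith, exists_sol hΩ hD (by linarith) hβ
    (key.mono fun x hx => div_nonpos_of_nonpos_of_nonneg hx.1 hμ.le)
    (hβe.mono' (hD.int_rhs hΩ _ hβ.2 hβe.l2) ?_)⟩
  filter_upwards [key, hD.c0] with x a1 a2
  have a3 : (L - ε') * (Real.log (VV θ (μ₁ * ω x) (μ₁ * u x)) / μ₁) ≤
      (1 - sg θ (μ₁ * ω x) (μ₁ * u x)) * (L * w x + τ * κ₀) +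
        sg θ (μ₁ * ω x) (μ₁ * u x) * (l * u x) := by
    rw [← mul_div_assoc, div_le_iff₀ hμ]
    linarith [a1.2]
  have a4 := mul_le_mul_of_nonneg_left a3 a2
  simp only [rhs, H2]
  linarith

theorem dichotomy (hN : 2 ≤ finrank ℝ V) (hC : IsC11Domain Ω) {p : ℝ≥0∞}
    (hp : (finrank ℝ V : ℝ≥0∞) < p) {c h μ φ : V → ℝ} (hA : CondA Ω p c h μ)
    (ha : ¬ HasNonposSol Ω c h μ 0) (hφ : IsPosEigenfun Ω c φ) {L : ℝ}
    (hL : IsGLB {l | 0 ≤ l ∧ HasNonposSol Ω c h μ l} L) {w : V → ℝ} (hw : IsSol Ω c h μ L w)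
    {ε : ℝ} (hε : 0 < ε) (hv : ∀ᵐ x ∂mm Ω, ε * φ x ≤ -w x) :
    ∃ δ, 0 < δ ∧ ∀ l ∈ Ioo (L - δ) L, ¬ ∃ u, IsSol Ω c h μ l u := by
  have hΩ : OB Ω := ⟨hC.1, hC.2.2.1, hN⟩
  obtain ⟨q, μ₁, μ₂, hD⟩ := exists_dat hΩ hp hA
  have h0 : ∀ᵐ x ∂mm Ω, w x ≤ 0 := by
    filter_upwards [hv, hΩ.mem] with x h1 h2
    nlinarith [mul_pos hε (hφ.2.1 x h2)]
  have hL0 : 0 ≤ L := hL.2 fun l hl => hl.1
  have hL1 : 0 < L := hL0.lt_of_ne fun e => ha (e ▸ ⟨w, hw, h0⟩)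
  obtain ⟨D, hw, he⟩ := (hD.isSol_iff hΩ L).1 hw
  obtain ⟨δ, hδ, h1⟩ := upper hΩ hD hL1 (dom_sol hΩ hC hD hφ hε hv) h0 hw he
  refine ⟨δ, hδ, fun l hl hu => ?_⟩
  obtain ⟨l', h2, h3, h4⟩ := h1 l hl hu
  exact h3.not_ge (hL.1 ⟨h2, h4⟩)

end Pool.Agent.P.MP_0cf84d_an
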