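import Pool.Agent.P.MP_0cf84d_an.DSob

/-! `C^1` functions with compact support lie in `H^1_0`. -/

set_option linter.unusedSectionVars false
set_option linter.unusedVariables false

namespace Pool.Agent.P.MP_0cf84d_an

open MeasureTheory Filter Topology Metric Set Module
open scoped RealInnerProductSpace ENNReal NNReal

variable {V : Type*} [NormedAddCommGroup V] [InnerProductSpace ℝ V] [FiniteDimensional ℝ V]
  [MeasurableSpace V] [BorelSpace V] [CompleteSpace V] {Ω : Set V}

open scoped Convolution

/-- bump functions with shrinking supports -/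
noncomputable def dmoll_bump (V : Type*) [NormedAddCommGroup V] (k : ℕ) : ContDiffBump (0 : V) :=
  ⟨1 / (2 * ((k : ℝ) + 1)), 1 / ((k : ℝ) + 1), by positivity, by
    rw [div_lt_div_iff₀ (by positivity) (by positivity)]
    linarith [show (0 : ℝ) ≤ k from Nat.cast_nonneg k]⟩

/-- mollification -/
noncomputable def dmoll_mo {E : Type*} [NormedAddCommGroup E] [NormedSpace ℝ E] (k : ℕ)
    (g : V → E) : V → E :=
  (dmoll_bump V k).normed volume ⋆[ContinuousLinearMap.lsmul ℝ ℝ, volume] g

section
variable {E : Type*} [NormedAddCommGroup E] [NormedSpace ℝ E] [CompleteSpace E] {g : V → E}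

theorem dmoll_smooth (k : ℕ) (hg : Continuous g) : ContDiff ℝ (⊤ : ℕ∞) (dmoll_mo k g) :=
  (dmoll_bump V k).hasCompactSupport_normed.contDiff_convolution_left _
    (dmoll_bump V k).contDiff_normed hg.locallyIntegrable

theorem dmoll_tendsto (hg : Continuous g) (x : V) :
    Tendsto (fun k => dmoll_mo k g x) atTop (𝓝 (g x)) :=
  ContDiffBump.convolution_tendsto_right_of_continuous
    (φ := dmoll_bump V) tendsto_one_div_add_atTop_nhds_zero_nat hg x

theorem dmoll_norm (k : ℕ) (hg : Continuous g) {C : ℝ} (hC : ∀ x, ‖g x‖ ≤ C) (x : V) :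
    ‖dmoll_mo k g x‖ ≤ C := by
  rw [← dist_zero_right]
  exact dist_convolution_le ((norm_nonneg _).trans (hC x)) (dmoll_bump V k).support_normed_eq.subset
    (dmoll_bump V k).nonneg_normed (dmoll_bump V k).integral_normed hg.aestronglyMeasurable
    fun y _ => by
      rw [dist_zero_right]
      exact hC y

theorem dmoll_zero {k : ℕ} {K : Set V} (h0 : ∀ x ∉ K, g x = 0) {x : V}
    (hx : x ∉ cthickening (1 / ((k : ℝ) + 1)) K) : dmoll_mo k g x = 0 := by
  unfold dmoll_mo
  rw [convolution_lsmul_swap]
  refine integral_eq_zero_of_ae (Eventually.of_forall fun t => ?_)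
  by_cases ht : t ∈ K
  · have : (dmoll_bump V k).normed volume (x - t) = 0 := by
      by_contra h
      have h' : x - t ∈ Function.support ((dmoll_bump V k).normed volume) := h
      rw [(dmoll_bump V k).support_normed_eq, mem_ball, dist_zero_right] at h'
      exact hx (mem_cthickening_of_dist_le x t _ K ht (by rw [dist_eq_norm]; exact h'.le))
    simp [this]
  · simp [h0 t ht]

end

theorem dmoll_fderiv (k : ℕ) {z : V → ℝ} (hz : ContDiff ℝ 1 z) (hc : HasCompactSupport z) (x : V) :
    fderiv ℝ (dmoll_mo k z) x = dmoll_mo k (fderiv ℝ z) x := by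
  have h := (hc.hasFDerivAt_convolution_right (μ := volume) (ContinuousLinearMap.lsmul ℝ ℝ)
    ((dmoll_bump V k).continuous_normed (μ := volume)).locallyIntegrable hz x).fderiv
  unfold dmoll_mo
  rw [h]
  congr 1

theorem c1_mem (hΩ : OB Ω) {ζ : V → ℝ} {F : V → V} (h : Reg Ω ζ F) {K : Set V} (hK : IsCompact K)
    (hKΩ : K ⊆ Ω) (h0 : ∀ x ∈ Ω, x ∉ K → ζ x = 0) : InH10 Ω ζ F := by
  classical
  have := hΩ.fin
  have hKo : IsOpen Kᶜ := hK.isClosed.isOpen_compl
  have z0 : ∀ x ∉ K, Ω.indicator ζ x = 0 := fun x hx => by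
    by_cases hx' : x ∈ Ω
    · rw [indicator_of_mem hx', h0 x hx' hx]
    · exact indicator_of_notMem hx' _
  have d1 : ∀ x ∈ Ω, HasFDerivAt (Ω.indicator ζ) (InnerProductSpace.toDual ℝ V (F x)) x := by
    intro x hx
    refine (h.grad x hx).hasFDerivAt.congr_of_eventuallyEq ?_
    filter_upwards [hΩ.op.mem_nhds hx] with y hy using indicator_of_mem hy _
  have d2 : ∀ x ∉ K, HasFDerivAt (Ω.indicator ζ) (0 : V →L[ℝ] ℝ) x := by
    intro x hx
    refine (hasFDerivAt_const (0 : ℝ) x).congr_of_eventuallyEq ?_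
    filter_upwards [hKo.mem_nhds hx] with y hy using z0 y hy
  have hz : ContDiff ℝ 1 (Ω.indicator ζ) := by
    refine contDiff_one_iff_fderiv.2 ⟨fun x => ?_, continuous_iff_continuousAt.2 fun x => ?_⟩
    · by_cases hx : x ∈ K
      exacts [(d1 x (hKΩ hx)).differentiableAt, (d2 x hx).differentiableAt]
    · by_cases hx : x ∈ K
      · have h1 : ContinuousAt (fun y => InnerProductSpace.toDual ℝ V (F y)) x :=
          (InnerProductSpace.toDual ℝ V).continuous.continuousAt.comp
            (h.cont.continuousAt (hΩ.op.mem_nhds (hKΩ hx)))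
        refine h1.congr ?_
        filter_upwards [hΩ.op.mem_nhds (hKΩ hx)] with y hy using (d1 y hy).fderiv.symm
      · refine (continuousAt_const (y := (0 : V →L[ℝ] ℝ))).congr ?_
        filter_upwards [hKo.mem_nhds hx] with y hy using (d2 y hy).fderiv.symm
  have hc : HasCompactSupport (Ω.indicator ζ) := HasCompactSupport.intro hK z0
  have cD : Continuous (fderiv ℝ (Ω.indicator ζ)) := hz.continuous_fderiv one_ne_zero
  obtain ⟨C, hC⟩ := hc.exists_bound_of_continuous hz.continuous
  obtain ⟨C', hC'⟩ := (hc.fderiv ℝ).exists_bound_of_continuous cD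
  obtain ⟨δ, hδ, hδO⟩ := hK.exists_cthickening_subset_open hΩ.op hKΩ
  obtain ⟨N, hN⟩ := exists_nat_one_div_lt hδ
  have ht : ∀ k, Tst Ω (dmoll_mo (k + N) (Ω.indicator ζ)) := by
    intro k
    have hs : tsupport (dmoll_mo (k + N) (Ω.indicator ζ)) ⊆ cthickening δ K := by
      refine closure_minimal (fun x hx => ?_) isClosed_cthickening
      by_contra hx'
      refine hx (dmoll_zero (K := K) z0 fun h' => hx' ?_)
      refine cthickening_mono (le_trans ?_ hN.le) K h'
      push_cast
      gcongr
      exact le_add_of_nonneg_left (by positivity)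
    exact ⟨dmoll_smooth _ hz.continuous,
      hK.cthickening.of_isClosed_subset (isClosed_tsupport _) hs, hs.trans hδO⟩
  have hg : ∀ k x, gradient (dmoll_mo k (Ω.indicator ζ)) x =
      (InnerProductSpace.toDual ℝ V).symm (dmoll_mo k (fderiv ℝ (Ω.indicator ζ)) x) := by
    intro k x
    rw [gradient, dmoll_fderiv k hz hc]
  refine inH10_limit hΩ (fun k => ((ht k).mem hΩ).1) ?_ ?_
  · refine l2t_of_dom (fun k => (ht k).1.continuous.aestronglyMeasurable) (memLp_const C)
      (fun k => Eventually.of_forall fun x => dmoll_norm _ hz.continuous hC x)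
      (hΩ.mem.mono fun x hx => ?_)
    have h1 := (dmoll_tendsto hz.continuous x).comp (tendsto_add_atTop_nat N)
    rwa [indicator_of_mem hx] at h1
  · refine l2t_of_dom (fun k => ((ht k).mem hΩ).1.2.1.1) (memLp_const C')
      (fun k => Eventually.of_forall fun x => ?_) (hΩ.mem.mono fun x hx => ?_)
    · rw [hg, LinearIsometryEquiv.norm_map]
      exact dmoll_norm _ cD hC' x
    · have h1 := ((InnerProductSpace.toDual ℝ V).symm.continuous.tendsto _).comp
        ((dmoll_tendsto cD x).comp (tendsto_add_atTop_nat N))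
      rw [(d1 x hx).fderiv, LinearIsometryEquiv.symm_apply_apply] at h1
      simp only [hg]
      exact h1

end Pool.Agent.P.MP_0cf84d_an
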