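import Pool.Agent.P.MP_0cf84d_an.DWG

/-! Integrals that depend on a parameter. -/

set_option linter.unusedSectionVars false
set_option linter.unusedVariables false

namespace Pool.Agent.P.MP_0cf84d_an

open MeasureTheory Filter Topology Metric Set Module
open scoped RealInnerProductSpace ENNReal NNReal

variable {V : Type*} [NormedAddCommGroup V] [InnerProductSpace ℝ V] [FiniteDimensional ℝ V]
  [MeasurableSpace V] [BorelSpace V] [CompleteSpace V] {Ω : Set V}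

section
variable {E : Type*} [NormedAddCommGroup E] [InnerProductSpace ℝ E] [CompleteSpace E]
  {Γ : V → V → E} {C : ℝ} {g : V → ℝ}

theorem dparam_meas (hΩ : OB Ω) (hΓ : ContinuousOn (fun p : V × V => Γ p.1 p.2) (Ω ×ˢ Ω))
    (hg : Integrable g (mm Ω)) {x : V} (hx : x ∈ Ω) :
    AEStronglyMeasurable (fun z => g z • Γ z x) (mm Ω) := by
  have h1 : ContinuousOn (fun z => Γ z x) Ω :=
    hΓ.comp (f := fun z : V => (z, x)) (by fun_prop) (fun z hz => ⟨hz, hx⟩)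
  exact hg.1.smul (h1.aestronglyMeasurable hΩ.op.measurableSet)

theorem dparam_le (hΩ : OB Ω) (hb : ∀ z ∈ Ω, ∀ x ∈ Ω, ‖Γ z x‖ ≤ C) (g : V → ℝ) :
    ∀ᵐ z ∂mm Ω, ∀ x ∈ Ω, ‖g z • Γ z x‖ ≤ ‖g z‖ * C := by
  filter_upwards [hΩ.mem] with z hz x hx
  rw [norm_smul]
  exact mul_le_mul_of_nonneg_left (hb z hz x hx) (norm_nonneg _)

theorem dparam_int (hΩ : OB Ω) (hΓ : ContinuousOn (fun p : V × V => Γ p.1 p.2) (Ω ×ˢ Ω))
    (hb : ∀ z ∈ Ω, ∀ x ∈ Ω, ‖Γ z x‖ ≤ C) (hg : Integrable g (mm Ω)) {x : V} (hx : x ∈ Ω) :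
    Integrable (fun z => g z • Γ z x) (mm Ω) :=
  (hg.norm.mul_const C).mono' (dparam_meas hΩ hΓ hg hx)
    ((dparam_le hΩ hb g).mono fun z hz => hz x hx)

theorem dparam_cont (hΩ : OB Ω) (hΓ : ContinuousOn (fun p : V × V => Γ p.1 p.2) (Ω ×ˢ Ω))
    (hb : ∀ z ∈ Ω, ∀ x ∈ Ω, ‖Γ z x‖ ≤ C) (hg : Integrable g (mm Ω)) :
    ContinuousOn (fun x => ∫ z, g z • Γ z x ∂mm Ω) Ω := by
  refine continuousOn_of_dominated (bound := fun z => ‖g z‖ * C)
    (fun x hx => dparam_meas hΩ hΓ hg hx)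
    (fun x hx => (dparam_le hΩ hb g).mono fun z hz => hz x hx) (hg.norm.mul_const C) ?_
  filter_upwards [hΩ.mem] with z hz
  have h1 : ContinuousOn (fun x => Γ z x) Ω :=
    hΓ.comp (f := fun x : V => (z, x)) (by fun_prop) (fun x hx => ⟨hz, hx⟩)
  exact h1.const_smul (g z)

theorem dparam_bd (hΩ : OB Ω) (hb : ∀ z ∈ Ω, ∀ x ∈ Ω, ‖Γ z x‖ ≤ C) (hg : Integrable g (mm Ω))
    {x : V} (hx : x ∈ Ω) : ‖∫ z, g z • Γ z x ∂mm Ω‖ ≤ ∫ z, ‖g z‖ * C ∂mm Ω :=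
  norm_integral_le_of_norm_le (hg.norm.mul_const C)
    ((dparam_le hΩ hb g).mono fun z hz => hz x hx)

theorem dparam_swap (hΩ : OB Ω) (hΓ : ContinuousOn (fun p : V × V => Γ p.1 p.2) (Ω ×ˢ Ω))
    (hb : ∀ z ∈ Ω, ∀ x ∈ Ω, ‖Γ z x‖ ≤ C) (hg : Integrable g (mm Ω)) {H : V → E}
    (hH : Integrable H (mm Ω)) :
    ∫ x, ⟪∫ z, g z • Γ z x ∂mm Ω, H x⟫ ∂mm Ω = ∫ z, g z * ∫ x, ⟪Γ z x, H x⟫ ∂mm Ω ∂mm Ω := by
  have hms : MeasurableSet (Ω ×ˢ Ω) := hΩ.op.measurableSet.prod hΩ.op.measurableSet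
  have e : (mm Ω).prod (mm Ω) = ((volume : Measure V).prod volume).restrict (Ω ×ˢ Ω) :=
    Measure.prod_restrict Ω Ω
  have h1 : AEStronglyMeasurable (fun p : V × V => Γ p.1 p.2) ((mm Ω).prod (mm Ω)) := by
    rw [e]; exact hΓ.aestronglyMeasurable hms
  have h2 : ∀ᵐ p : V × V ∂(mm Ω).prod (mm Ω), p ∈ Ω ×ˢ Ω := by
    rw [e]; exact ae_restrict_mem hms
  have h3 : Integrable (fun p : V × V => ‖g p.1‖ * C * ‖H p.2‖) ((mm Ω).prod (mm Ω)) :=
    (hg.norm.mul_const C).mul_prod hH.norm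
  have h4 : Integrable (Function.uncurry fun z x => g z * ⟪Γ z x, H x⟫) ((mm Ω).prod (mm Ω)) := by
    refine h3.mono' (hg.1.comp_fst.mul (h1.inner hH.1.comp_snd)) ?_
    filter_upwards [h2] with p hp
    change ‖g p.1 * ⟪Γ p.1 p.2, H p.2⟫‖ ≤ _
    rw [norm_mul, mul_assoc]
    refine mul_le_mul_of_nonneg_left ?_ (norm_nonneg _)
    exact (norm_inner_le_norm _ _).trans
      (mul_le_mul_of_nonneg_right (hb _ hp.1 _ hp.2) (norm_nonneg _))
  have h5 : ∫ x, ⟪∫ z, g z • Γ z x ∂mm Ω, H x⟫ ∂mm Ω =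
      ∫ x, ∫ z, g z * ⟪Γ z x, H x⟫ ∂mm Ω ∂mm Ω := by
    refine integral_congr_ae ?_
    filter_upwards [hΩ.mem] with x hx
    rw [real_inner_comm, ← integral_inner (dparam_int hΩ hΓ hb hg hx)]
    refine integral_congr_ae (Eventually.of_forall fun z => ?_)
    simp only [inner_smul_right]
    rw [real_inner_comm]
  rw [h5, ← integral_integral_swap h4]
  refine integral_congr_ae (Eventually.of_forall fun z => ?_)
  exact integral_const_mul _ _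

end

theorem param (hΩ : OB Ω) {Φ ρ : V → V → ℝ} {Γ : V → V → V}
    (hΦ : ContinuousOn (fun p : V × V => Φ p.1 p.2) (Ω ×ˢ Ω))
    (hΓ : ContinuousOn (fun p : V × V => Γ p.1 p.2) (Ω ×ˢ Ω))
    (hρ : ContinuousOn (fun p : V × V => ρ p.1 p.2) (Ω ×ˢ Ω)) {C : ℝ}
    (hb : ∀ z ∈ Ω, ∀ x ∈ Ω, |Φ z x| ≤ C ∧ ‖Γ z x‖ ≤ C ∧ |ρ z x| ≤ C)
    (hr : ∀ z ∈ Ω, ∀ x ∈ Ω, HasGradientAt (Φ z) (Γ z x) x) (he : ∀ z ∈ Ω, WEq Ω (Γ z) (ρ z))
    {g : V → ℝ} (hg : Integrable g (mm Ω)) :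
    Reg Ω (fun x => ∫ z, Φ z x * g z ∂mm Ω) (fun x => ∫ z, g z • Γ z x ∂mm Ω) ∧
      WEq Ω (fun x => ∫ z, g z • Γ z x ∂mm Ω) (fun x => ∫ z, ρ z x * g z ∂mm Ω) := by
  have := hΩ.fin
  have b1 : ∀ z ∈ Ω, ∀ x ∈ Ω, ‖Φ z x‖ ≤ C := fun z hz x hx => (hb z hz x hx).1
  have b2 : ∀ z ∈ Ω, ∀ x ∈ Ω, ‖Γ z x‖ ≤ C := fun z hz x hx => (hb z hz x hx).2.1
  have b3 : ∀ z ∈ Ω, ∀ x ∈ Ω, ‖ρ z x‖ ≤ C := fun z hz x hx => (hb z hz x hx).2.2
  have e1 : (fun x => ∫ z, Φ z x * g z ∂mm Ω) = fun x => ∫ z, g z • Φ z x ∂mm Ω := by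
    funext x; simp only [smul_eq_mul, mul_comm]
  have e3 : (fun x => ∫ z, ρ z x * g z ∂mm Ω) = fun x => ∫ z, g z • ρ z x ∂mm Ω := by
    funext x; simp only [smul_eq_mul, mul_comm]
  rw [e1, e3]
  have c2 := dparam_cont hΩ hΓ b2 hg
  have c3 := dparam_cont hΩ hρ b3 hg
  refine ⟨⟨fun x hx => ?_, c2, ∫ z, ‖g z‖ * C ∂mm Ω, fun x hx =>
    ⟨dparam_bd hΩ b1 hg hx, dparam_bd hΩ b2 hg hx⟩⟩,
    hΩ.memLp_of_bdd c2 (fun x hx => dparam_bd hΩ b2 hg hx) 2,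
    memLp_one_iff_integrable.1 (hΩ.memLp_of_bdd c3 (fun x hx => dparam_bd hΩ b3 hg hx) 1),
    fun v H hv => ?_⟩
  · have hn : Ω ∈ 𝓝 x := hΩ.op.mem_nhds hx
    have h := hasFDerivAt_integral_of_dominated_of_fderiv_le (𝕜 := ℝ) (μ := mm Ω)
      (F := fun x z => g z • Φ z x)
      (F' := fun x z => InnerProductSpace.toDual ℝ V (g z • Γ z x))
      (bound := fun z => ‖g z‖ * C) hn
      (Filter.eventually_of_mem hn fun y hy => dparam_meas hΩ hΦ hg hy)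
      (dparam_int hΩ hΦ b1 hg hx)
      ((InnerProductSpace.toDual ℝ V).continuous.comp_aestronglyMeasurable
        (dparam_meas hΩ hΓ hg hx))
      ((dparam_le hΩ b2 g).mono fun z hz y hy => by
        rw [LinearIsometryEquiv.norm_map]; exact hz y hy)
      (hg.norm.mul_const C)
      (hΩ.mem.mono fun z hz y hy => by
        have h1 := (hr z hz y hy).hasFDerivAt.const_smul (g z)
        refine h1.congr_fderiv ?_
        ext w
        simp)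
    refine hasGradientAt_iff_hasFDerivAt.2 (h.congr_fderiv ?_)
    ext w
    have hi : Integrable (fun z => InnerProductSpace.toDual ℝ V (g z • Γ z x)) (mm Ω) := by
      refine (dparam_int hΩ hΓ b2 hg hx).mono
        ((InnerProductSpace.toDual ℝ V).continuous.comp_aestronglyMeasurable
          (dparam_meas hΩ hΓ hg hx)) (Eventually.of_forall fun z => ?_)
      rw [LinearIsometryEquiv.norm_map]
    rw [ContinuousLinearMap.integral_apply hi, InnerProductSpace.toDual_apply_apply,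
      real_inner_comm, ← integral_inner (dparam_int hΩ hΓ b2 hg hx)]
    refine integral_congr_ae (Eventually.of_forall fun z => ?_)
    simp only [InnerProductSpace.toDual_apply_apply]
    rw [real_inner_comm]
  · have hH : Integrable H (mm Ω) := hv.1.2.1.integrable (by norm_num)
    have hv' : Integrable v (mm Ω) := hv.1.1.integrable (by norm_num)
    have h1 := dparam_swap hΩ hΓ b2 hg hH
    have h2 := dparam_swap hΩ hρ b3 hg hv'
    have e : ∀ a b : ℝ, ⟪a, b⟫ = a * b := fun a b => by simp [mul_comm]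
    simp only [e] at h2
    rw [h1, h2]
    refine integral_congr_ae ?_
    filter_upwards [hΩ.mem] with z hz
    rw [(he z hz).eq v H hv]

end Pool.Agent.P.MP_0cf84d_an
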