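import Pool.Agent.P.MP_0cf84d_an.DL2

/-! An approximate identity. -/

set_option linter.unusedSectionVars false
set_option linter.unusedVariables false

namespace Pool.Agent.P.MP_0cf84d_an

open MeasureTheory Filter Topology Metric Set Module
open scoped RealInnerProductSpace ENNReal NNReal

variable {V : Type*} [NormedAddCommGroup V] [InnerProductSpace ℝ V] [FiniteDimensional ℝ V]
  [MeasurableSpace V] [BorelSpace V] [CompleteSpace V] {Ω : Set V}

theorem dpot2_scale (N : ℕ) {δ s : ℝ} (hδ : 0 < δ) (hs : 0 ≤ s) :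
    rho N (δ ^ 2) (δ ^ 2 * s) = (δ ^ N)⁻¹ * rho N 1 s := by
  have h1 : δ ^ 2 * s + δ ^ 2 = δ ^ 2 * (s + 1) := by ring
  have h2 : (δ ^ 2) ^ (-(N : ℝ) / 2 - 1) = (δ ^ N)⁻¹ * (δ ^ 2)⁻¹ := by
    rw [← Real.rpow_natCast δ 2, ← Real.rpow_mul hδ.le, ← Real.rpow_natCast δ N,
      ← Real.rpow_neg hδ.le, ← Real.rpow_neg hδ.le, ← Real.rpow_add hδ]
    congr 1
    push_cast
    ring
  rw [rho, rho, h1, Real.mul_rpow (by positivity) (by positivity), h2]
  field_simp

theorem dpot2_nonneg (N : ℕ) {ε s : ℝ} (hε : 0 < ε) (hs : 0 ≤ s) : 0 ≤ rho N ε s := by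
  unfold rho
  positivity

theorem dpot2_le (N : ℕ) {ε s : ℝ} (hε : 0 < ε) (hs : 0 ≤ s) : rho N ε s ≤ rho N ε 0 := by
  unfold rho
  refine mul_le_mul_of_nonneg_left ?_ (by positivity)
  refine Real.rpow_le_rpow_of_nonpos (by linarith) (by linarith) ?_
  have : (0 : ℝ) ≤ N := Nat.cast_nonneg N
  linarith

theorem dpot2_cont (N : ℕ) {ε : ℝ} (hε : 0 < ε) : Continuous fun w : V => rho N ε (‖w‖ ^ 2) := by
  unfold rho
  refine continuous_const.mul (Continuous.rpow_const (by fun_prop) fun w => Or.inl ?_)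
  positivity

theorem dpot2_int : Integrable fun w : V => rho (finrank ℝ V) 1 (‖w‖ ^ 2) := by
  have h := (integrable_rpow_neg_one_add_norm_sq (E := V) (μ := volume)
    (r := (finrank ℝ V : ℝ) + 2) (by linarith)).const_mul (finrank ℝ V : ℝ)
  refine h.congr (Eventually.of_forall fun w => ?_)
  simp only [rho]
  rw [mul_one, add_comm (‖w‖ ^ 2) 1]
  congr 2
  ring

theorem dpot2_pos (h : 2 ≤ finrank ℝ V) : 0 < ∫ w : V, rho (finrank ℝ V) 1 (‖w‖ ^ 2) := by
  rw [integral_pos_iff_support_of_nonneg (fun w => dpot2_nonneg _ one_pos (by positivity))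
    dpot2_int]
  have : (Function.support fun w : V => rho (finrank ℝ V) 1 (‖w‖ ^ 2)) = univ := by
    refine eq_univ_of_forall fun w => ?_
    have h1 : (0 : ℝ) < finrank ℝ V := by exact_mod_cast (by omega : 0 < finrank ℝ V)
    have h2 : 0 < rho (finrank ℝ V) 1 (‖w‖ ^ 2) := by
      unfold rho
      positivity
    exact h2.ne'
  rw [this]
  exact isOpen_univ.measure_pos volume univ_nonempty

theorem dpot2_conv {δ : ℝ} (hδ : 0 < δ) (φ : V → ℝ) (z : V) :
    ∫ x, rho (finrank ℝ V) (δ ^ 2) (‖x - z‖ ^ 2) * φ x =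
      ∫ w, rho (finrank ℝ V) 1 (‖w‖ ^ 2) * φ (z + δ • w) := by
  have hp : 0 < (δ ^ finrank ℝ V)⁻¹ := by positivity
  have h1 := Measure.integral_comp_smul (volume : Measure V)
    (fun x => rho (finrank ℝ V) (δ ^ 2) (‖z + x - z‖ ^ 2) * φ (z + x)) δ
  rw [integral_add_left_eq_self (fun x => rho (finrank ℝ V) (δ ^ 2) (‖x - z‖ ^ 2) * φ x) z,
    abs_of_pos hp, smul_eq_mul] at h1
  apply mul_left_cancel₀ hp.ne'
  rw [← h1, ← integral_const_mul]
  refine integral_congr_ae (Eventually.of_forall fun w => ?_)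
  simp only []
  rw [add_sub_cancel_left, norm_smul, mul_pow, Real.norm_eq_abs, sq_abs,
    dpot2_scale _ hδ (by positivity), mul_assoc]

theorem dpot2_lim {φ : V → ℝ} (hφ : Continuous φ) {M : ℝ} (hM : ∀ x, ‖φ x‖ ≤ M) (z : V)
    {δ : ℕ → ℝ} (hδ : Tendsto δ atTop (𝓝 0)) :
    Tendsto (fun n => ∫ w, rho (finrank ℝ V) 1 (‖w‖ ^ 2) * φ (z + δ n • w)) atTop
      (𝓝 ((∫ w : V, rho (finrank ℝ V) 1 (‖w‖ ^ 2)) * φ z)) := by
  rw [← integral_mul_const]
  refine tendsto_integral_of_dominated_convergence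
    (fun w : V => rho (finrank ℝ V) 1 (‖w‖ ^ 2) * M) (fun n => ?_) (dpot2_int.mul_const M)
    (fun n => Eventually.of_forall fun w => ?_) (Eventually.of_forall fun w => ?_)
  · exact ((dpot2_cont _ one_pos).mul (hφ.comp (by fun_prop))).aestronglyMeasurable
  · rw [norm_mul, Real.norm_of_nonneg (dpot2_nonneg _ one_pos (by positivity))]
    exact mul_le_mul_of_nonneg_left (hM _) (dpot2_nonneg _ one_pos (by positivity))
  · refine Tendsto.const_mul _ ((hφ.tendsto z).comp ?_)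
    have := (hδ.smul_const w).const_add z
    simpa using this

theorem dpot2_bd {φ : V → ℝ} {M : ℝ} (hM : ∀ x, ‖φ x‖ ≤ M) (z : V) (δ : ℝ) :
    ‖∫ w, rho (finrank ℝ V) 1 (‖w‖ ^ 2) * φ (z + δ • w)‖ ≤
      (∫ w : V, rho (finrank ℝ V) 1 (‖w‖ ^ 2)) * M := by
  rw [← integral_mul_const]
  refine norm_integral_le_of_norm_le (dpot2_int.mul_const M) (Eventually.of_forall fun w => ?_)
  rw [norm_mul, Real.norm_of_nonneg (dpot2_nonneg _ one_pos (by positivity))]
  exact mul_le_mul_of_nonneg_left (hM _) (dpot2_nonneg _ one_pos (by positivity))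

theorem approx_id (hΩ : OB Ω) : ∃ cN : ℝ, 0 < cN ∧ ∀ φ g : V → ℝ, Tst Ω φ → Integrable g (mm Ω) →
    Tendsto (fun n : ℕ => ∫ x, (∫ z, rho (finrank ℝ V) (1 / (n + 1)) (‖x - z‖ ^ 2) * g z ∂mm Ω) *
      φ x ∂mm Ω) atTop (𝓝 (∫ z, cN * g z * φ z ∂mm Ω)) := by
  refine ⟨∫ w : V, rho (finrank ℝ V) 1 (‖w‖ ^ 2), dpot2_pos hΩ.dim, fun φ g hφ hg => ?_⟩
  have hc : Continuous φ := hφ.1.continuous
  obtain ⟨M, hM⟩ := hc.bounded_above_of_compact_support hφ.2.1
  have hi : Integrable φ (mm Ω) := (hc.integrable_of_hasCompactSupport hφ.2.1).restrict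
  have hε : ∀ n : ℕ, (0 : ℝ) < 1 / (n + 1) := fun n => by positivity
  have hP : ∀ n : ℕ, Integrable (Function.uncurry fun x z : V =>
      rho (finrank ℝ V) (1 / (n + 1)) (‖x - z‖ ^ 2) * (φ x * g z)) ((mm Ω).prod (mm Ω)) := by
    intro n
    refine Integrable.bdd_mul (c := rho (finrank ℝ V) (1 / (n + 1)) 0) (hi.mul_prod hg) ?_
      (Eventually.of_forall fun p => ?_)
    · exact ((dpot2_cont _ (hε n)).comp (continuous_fst.sub continuous_snd)).aestronglyMeasurable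
    · rw [Real.norm_of_nonneg (dpot2_nonneg _ (hε n) (by positivity))]
      exact dpot2_le _ (hε n) (by positivity)
  have hF : ∀ (n : ℕ) (z : V),
      ∫ x, rho (finrank ℝ V) (1 / (n + 1)) (‖x - z‖ ^ 2) * (φ x * g z) ∂mm Ω =
      (∫ w, rho (finrank ℝ V) 1 (‖w‖ ^ 2) * φ (z + √(1 / (n + 1) : ℝ) • w)) * g z := by
    intro n z
    rw [← dpot2_conv (Real.sqrt_pos.2 (hε n)), Real.sq_sqrt (hε n).le, ← integral_mul_const,
      setIntegral_eq_integral_of_forall_compl_eq_zero]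
    · simp only [mul_assoc]
    · intro x hx
      rw [image_eq_zero_of_notMem_tsupport fun h => hx (hφ.2.2 h)]
      simp
  have e : ∀ n : ℕ,
      ∫ x, (∫ z, rho (finrank ℝ V) (1 / (n + 1)) (‖x - z‖ ^ 2) * g z ∂mm Ω) * φ x ∂mm Ω =
      ∫ z, (∫ x, rho (finrank ℝ V) (1 / (n + 1)) (‖x - z‖ ^ 2) * (φ x * g z) ∂mm Ω) ∂mm Ω := by
    intro n
    rw [← integral_integral_swap (hP n)]
    refine integral_congr_ae (Eventually.of_forall fun x => ?_)
    simp only []
    rw [← integral_mul_const]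
    refine integral_congr_ae (Eventually.of_forall fun z => ?_)
    simp only []
    ring
  simp only [e]
  have hδ : Tendsto (fun n : ℕ => √(1 / (n + 1) : ℝ)) atTop (𝓝 0) := by
    have := (tendsto_one_div_add_atTop_nhds_zero_nat (𝕜 := ℝ)).sqrt
    simpa using this
  refine tendsto_integral_of_dominated_convergence
    (fun z => (∫ w : V, rho (finrank ℝ V) 1 (‖w‖ ^ 2)) * M * ‖g z‖)
    (fun n => (hP n).integral_prod_right.aestronglyMeasurable) (hg.norm.const_mul _)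
    (fun n => Eventually.of_forall fun z => ?_) (Eventually.of_forall fun z => ?_)
  · rw [hF, norm_mul]
    exact mul_le_mul_of_nonneg_right (dpot2_bd hM z _) (norm_nonneg _)
  · simp only [hF]
    rw [mul_right_comm]
    exact (dpot2_lim hc hM z hδ).mul_const _

end Pool.Agent.P.MP_0cf84d_an
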