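import Pool.Agent.P.MP_0cf84d_an.DPot1
import Pool.Agent.P.MP_0cf84d_an.DPot2

/-! The Newton potential. -/

set_option linter.unusedSectionVars false
set_option linter.unusedVariables false

namespace Pool.Agent.P.MP_0cf84d_an

open MeasureTheory Filter Topology Metric Set Module
open scoped RealInnerProductSpace ENNReal NNReal

variable {V : Type*} [NormedAddCommGroup V] [InnerProductSpace ℝ V] [FiniteDimensional ℝ V]
  [MeasurableSpace V] [BorelSpace V] [CompleteSpace V] {Ω : Set V}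

theorem dpot_ne (hΩ : OB Ω) (x : V) : ∀ᵐ z ∂mm Ω, z ∈ Ω ∧ 0 < ‖x - z‖ := by
  have : Nontrivial V := Module.nontrivial_of_finrank_pos (R := ℝ) (by have := hΩ.dim; omega)
  filter_upwards [hΩ.mem, ae_restrict_of_ae (Measure.ae_ne volume x)] with z h1 h2
  exact ⟨h1, norm_pos_iff.2 (sub_ne_zero.2 h2.symm)⟩

theorem dpot_rp {t : ℝ} (ht : 0 < t) (a : ℝ) : (t ^ 2) ^ a = t ^ (2 * a) := by
  rw [Real.rpow_mul ht.le, Real.rpow_two]

theorem dpot_meas (hΩ : OB Ω) (N : ℕ) {D ε : ℝ} (hD : 0 < D) (hε : 0 ≤ ε) (x : V) :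
    AEStronglyMeasurable (fun z => kap N D ε (‖x - z‖ ^ 2)) (mm Ω) := by
  have : Nontrivial V := Module.nontrivial_of_finrank_pos (R := ℝ) (by have := hΩ.dim; omega)
  have h1 : ContinuousOn (fun z => kap N D ε (‖x - z‖ ^ 2)) {x}ᶜ := fun z hz => by
    have h2 : 0 < ‖x - z‖ := norm_pos_iff.2 (sub_ne_zero.2 (Ne.symm hz))
    have h3 := (kap_deriv N (D := D) (ε := ε) (s := ‖x - z‖ ^ 2) (by positivity)
      (by positivity)).continuousAt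
    exact (ContinuousAt.comp (f := fun z => ‖x - z‖ ^ 2) h3 (by fun_prop)).continuousWithinAt
  have h2 := h1.aestronglyMeasurable (μ := volume) (measurableSet_singleton x).compl
  rw [restrict_compl_singleton] at h2
  exact h2.restrict

theorem dpot_bound {E : Type*} [NormedAddCommGroup E] [NormedSpace ℝ E] {k : V → E} {b : V → ℝ}
    (hk : AEStronglyMeasurable k (mm Ω)) (hb : Integrable b (mm Ω)) {A B : ℝ} (hA : 0 ≤ A)
    (hB : ∫ z, b z ∂mm Ω ≤ B) (h : ∀ᵐ z ∂mm Ω, ‖k z‖ ≤ A * b z) :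
    Integrable k (mm Ω) ∧ ‖∫ z, k z ∂mm Ω‖ ≤ A * B := by
  refine ⟨(hb.const_mul A).mono' hk h,
    (norm_integral_le_of_norm_le (hb.const_mul A) h).trans ?_⟩
  rw [integral_const_mul]
  exact mul_le_mul_of_nonneg_left hB hA

theorem dpot_a {N : ℕ} (hN : 1 ≤ N) {D ε t : ℝ} (hε : 0 ≤ ε) (ht : 0 < t) (hD : t ^ 2 ≤ D) :
    |kap N D ε (t ^ 2)| ≤ √D * t ^ (-((N : ℝ) - 1)) := by
  have h0 : 0 < t ^ 2 := by positivity
  have h := kap_sub hN (h0.trans_le hD) hε h0 hD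
  rw [kap_self, sub_zero, dpot_rp ht] at h
  have e : 2 * (-((N : ℝ) - 1) / 2) = -((N : ℝ) - 1) := by ring
  rw [e] at h
  rw [abs_of_nonneg h.1, mul_comm]
  refine h.2.trans (mul_le_mul_of_nonneg_left ?_ (Real.rpow_nonneg ht.le _))
  linarith [Real.sqrt_nonneg (t ^ 2)]

theorem dpot_b {N : ℕ} (hN : 1 ≤ N) {D ε t β : ℝ} (hε : 0 ≤ ε) (ht : 0 < t) (hD : t ^ 2 ≤ D)
    (hβ : 0 < β) (hβ1 : β ≤ 1) : |kap N D ε (t ^ 2) - kap N D 0 (t ^ 2)| ≤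
      N * ε ^ β * √D * t ^ (-((N : ℝ) - 1 + 2 * β)) := by
  have h := kap_reg hN hε (by positivity : 0 < t ^ 2) hD hβ hβ1
  have e : 2 * (-((N : ℝ) - 1) / 2 - β) = -((N : ℝ) - 1 + 2 * β) := by ring
  rwa [dpot_rp ht, e] at h

theorem dpot_c {N : ℕ} (hN : 1 ≤ N) {ε t : ℝ} (hε : 0 ≤ ε) (ht : 0 < t) :
    |-(t ^ 2 + ε) ^ (-(N : ℝ) / 2)| * t ≤ t ^ (-((N : ℝ) - 1)) := by
  have h := (pow_reg hN hε (by positivity : 0 < t ^ 2) one_pos le_rfl).1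
  have e : -((N : ℝ) - 1) = 2 * (-(N : ℝ) / 2) + 1 := by ring
  rw [dpot_rp ht] at h
  rw [abs_neg, abs_of_nonneg (Real.rpow_nonneg (by positivity) _), e, Real.rpow_add_one ht.ne']
  exact mul_le_mul_of_nonneg_right (by linarith) ht.le

theorem dpot_d {N : ℕ} (hN : 1 ≤ N) {ε t β : ℝ} (hε : 0 ≤ ε) (ht : 0 < t) (hβ : 0 < β)
    (hβ1 : β ≤ 1) : |-(t ^ 2 + ε) ^ (-(N : ℝ) / 2) - -(t ^ 2 + 0) ^ (-(N : ℝ) / 2)| * t ≤
      N * ε ^ β * t ^ (-((N : ℝ) - 1 + 2 * β)) := by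
  have h := pow_reg hN hε (by positivity : 0 < t ^ 2) hβ hβ1
  have e : -((N : ℝ) - 1 + 2 * β) = 2 * (-(N : ℝ) / 2 - β) + 1 := by ring
  rw [add_zero, neg_sub_neg, abs_of_nonneg h.1, e, Real.rpow_add_one ht.ne', ← mul_assoc,
    ← dpot_rp ht]
  exact mul_le_mul_of_nonneg_right h.2 ht.le

theorem dpot_unif {E : Type*} [NormedAddCommGroup E] {f : ℕ → V → E} {f₀ : V → E} {A β : ℝ}
    (hβ : 0 < β) (h : ∀ n : ℕ, ∀ x ∈ Ω, ‖f n x - f₀ x‖ ≤ (1 / ((n : ℝ) + 1)) ^ β * A) :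
    TendstoUniformlyOn f f₀ atTop Ω := by
  have h1 : Tendsto (fun n : ℕ => (1 / ((n : ℝ) + 1)) ^ β * A) atTop (𝓝 0) := by
    have h2 := (tendsto_one_div_add_atTop_nhds_zero_nat (𝕜 := ℝ)).rpow_const (Or.inr hβ.le)
    rw [Real.zero_rpow hβ.ne'] at h2
    simpa only [zero_mul] using h2.mul_const A
  refine Metric.tendstoUniformlyOn_iff.2 fun δ hδ => ?_
  filter_upwards [h1.eventually (gt_mem_nhds hδ)] with n hn x hx
  rw [dist_comm, dist_eq_norm]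
  exact (h n x hx).trans_lt hn

/-- the potential -/
noncomputable def dpotW (Ω : Set V) (D : ℝ) (g : V → ℝ) (ε : ℝ) (x : V) : ℝ :=
  ∫ z, kap (finrank ℝ V) D ε (‖x - z‖ ^ 2) * g z ∂mm Ω

/-- its gradient -/
noncomputable def dpotF (Ω : Set V) (g : V → ℝ) (ε : ℝ) (x : V) : V :=
  ∫ z, g z • (-(‖x - z‖ ^ 2 + ε) ^ (-(finrank ℝ V : ℝ) / 2)) • (x - z) ∂mm Ω

theorem dpot_est (hΩ : OB Ω) {q D : ℝ} (hq : (finrank ℝ V : ℝ) < q) (hD0 : 0 < D)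
    (hD : ∀ x ∈ Ω, ∀ z ∈ Ω, ‖x - z‖ ^ 2 ≤ D) : ∃ C β : ℝ, 0 ≤ C ∧ 0 < β ∧ ∀ g : V → ℝ,
      MemLp g (ENNReal.ofReal q) (mm Ω) → ∀ x ∈ Ω, ∀ ε, 0 ≤ ε →
        Integrable (fun z => kap (finrank ℝ V) D ε (‖x - z‖ ^ 2) * g z) (mm Ω) ∧
        |dpotW Ω D g ε x| ≤ C * nq Ω q g ∧ ‖dpotF Ω g ε x‖ ≤ C * nq Ω q g ∧
        ‖dpotW Ω D g ε x - dpotW Ω D g 0 x‖ ≤ ε ^ β * (C * nq Ω q g) ∧
        ‖dpotF Ω g ε x - dpotF Ω g 0 x‖ ≤ ε ^ β * (C * nq Ω q g) := by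
  have hN : 1 ≤ finrank ℝ V := by have := hΩ.dim; omega
  have hN' : (2 : ℝ) ≤ finrank ℝ V := by exact_mod_cast hΩ.dim
  have hq0 : 0 < q := by linarith
  have h1 : (finrank ℝ V : ℝ) / q < 1 := (div_lt_one hq0).2 hq
  have h2 : 0 < (finrank ℝ V : ℝ) / q := by positivity
  have e : (finrank ℝ V : ℝ) * (1 - 1 / q) = finrank ℝ V - finrank ℝ V / q := by ring
  obtain ⟨β, hβ, hβ1, hβ2⟩ : ∃ β : ℝ, 0 < β ∧ β ≤ 1 ∧ 2 * β < 1 - finrank ℝ V / q :=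
    ⟨(1 - finrank ℝ V / q) / 4, by linarith, by linarith, by linarith⟩
  obtain ⟨C₀, hC₀, k₀⟩ := ker_bound hΩ (q := q) (γ := finrank ℝ V - 1) (by linarith) (by linarith)
    (by rw [e]; linarith)
  obtain ⟨C₁, hC₁, k₁⟩ := ker_bound hΩ (q := q) (γ := finrank ℝ V - 1 + 2 * β) (by linarith)
    (by linarith) (by rw [e]; linarith)
  have hs := Real.sqrt_nonneg D
  refine ⟨(√D + 1) * (C₀ + finrank ℝ V * C₁), β, by positivity, hβ, fun g hg x hx => ?_⟩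
  have hn : 0 ≤ nq Ω q g := ENNReal.toReal_nonneg
  have mW : ∀ ε, 0 ≤ ε → AEStronglyMeasurable
      (fun z => kap (finrank ℝ V) D ε (‖x - z‖ ^ 2) * g z) (mm Ω) :=
    fun ε hε => (dpot_meas hΩ _ hD0 hε x).mul hg.1
  have mF : ∀ ε, AEStronglyMeasurable (fun z =>
      g z • (-(‖x - z‖ ^ 2 + ε) ^ (-(finrank ℝ V : ℝ) / 2)) • (x - z)) (mm Ω) := fun ε =>
    hg.1.smul (AEStronglyMeasurable.smul (Measurable.aestronglyMeasurable (by fun_prop))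
      (Continuous.aestronglyMeasurable (by fun_prop)))
  have bW : ∀ (ε : ℝ) (hε : 0 ≤ ε), _ := fun ε hε =>
    dpot_bound (mW ε hε) (k₀ g hg x hx).1 hs (k₀ g hg x hx).2 (by
      filter_upwards [dpot_ne hΩ x] with z hz
      rw [norm_mul, ← mul_assoc]
      exact mul_le_mul_of_nonneg_right (dpot_a hN hε hz.2 (hD x hx z hz.1)) (norm_nonneg _))
  have bF : ∀ (ε : ℝ) (hε : 0 ≤ ε), _ := fun ε hε =>
    dpot_bound (mF ε) (k₀ g hg x hx).1 zero_le_one (k₀ g hg x hx).2 (by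
      filter_upwards [dpot_ne hΩ x] with z hz
      rw [norm_smul, norm_smul, one_mul, mul_comm]
      exact mul_le_mul_of_nonneg_right (dpot_c hN hε hz.2) (norm_nonneg _))
  intro ε hε
  have hp : 0 ≤ ε ^ β := Real.rpow_nonneg hε β
  have dW := dpot_bound ((mW ε hε).sub (mW 0 le_rfl)) (k₁ g hg x hx).1
    (A := finrank ℝ V * ε ^ β * √D) (by positivity) (k₁ g hg x hx).2 (by
      filter_upwards [dpot_ne hΩ x] with z hz
      rw [Pi.sub_apply, ← sub_mul, norm_mul, ← mul_assoc]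
      exact mul_le_mul_of_nonneg_right (dpot_b hN hε hz.2 (hD x hx z hz.1) hβ hβ1)
        (norm_nonneg _))
  have dF := dpot_bound ((mF ε).sub (mF 0)) (k₁ g hg x hx).1
    (A := finrank ℝ V * ε ^ β) (by positivity) (k₁ g hg x hx).2 (by
      filter_upwards [dpot_ne hΩ x] with z hz
      rw [Pi.sub_apply, ← smul_sub, ← sub_smul, norm_smul, norm_smul, mul_comm, ← mul_assoc]
      exact mul_le_mul_of_nonneg_right (dpot_d hN hε hz.2 hβ hβ1) (norm_nonneg _))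
  have a0 : 0 ≤ C₀ * nq Ω q g := by positivity
  have a1 : 0 ≤ finrank ℝ V * C₁ * nq Ω q g := by positivity
  have a2 := mul_nonneg hs a0
  have a3 := mul_nonneg hs a1
  refine ⟨(bW ε hε).1, (bW ε hε).2.trans (by nlinarith), (bF ε hε).2.trans (by nlinarith), ?_, ?_⟩
  · rw [dpotW, dpotW, ← integral_sub (bW ε hε).1 (bW 0 le_rfl).1]
    refine dW.2.trans ?_
    nlinarith [mul_nonneg hp a0, mul_nonneg hp a1, mul_nonneg hp a2]
  · rw [dpotF, dpotF, ← integral_sub (bF ε hε).1 (bF 0 le_rfl).1]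
    refine dF.2.trans ?_
    nlinarith [mul_nonneg hp a0, mul_nonneg hp a3, mul_nonneg hp a2]

theorem pot (hΩ : OB Ω) {q D : ℝ} (hq : (finrank ℝ V : ℝ) < q) (hD0 : 0 < D)
    (hD : ∀ x ∈ Ω, ∀ z ∈ Ω, ‖x - z‖ ^ 2 ≤ D) : ∃ cN C : ℝ, 0 < cN ∧ 0 ≤ C ∧ ∀ g : V → ℝ,
      MemLp g (ENNReal.ofReal q) (mm Ω) → ∃ F,
        Reg Ω (fun x => ∫ z, kap (finrank ℝ V) D 0 (‖x - z‖ ^ 2) * g z ∂mm Ω) F ∧
        WEq Ω F (fun x => cN * g x) ∧ ∀ x ∈ Ω,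
          Integrable (fun z => kap (finrank ℝ V) D 0 (‖x - z‖ ^ 2) * g z) (mm Ω) ∧
          |∫ z, kap (finrank ℝ V) D 0 (‖x - z‖ ^ 2) * g z ∂mm Ω| ≤ C * nq Ω q g ∧
          ‖F x‖ ≤ C * nq Ω q g := by
  have := hΩ.fin
  obtain ⟨C, β, hC, hβ, hest⟩ := dpot_est hΩ hq hD0 hD
  obtain ⟨cN, hcN, hid⟩ := approx_id hΩ
  refine ⟨cN, C, hcN, hC, fun g hg => ?_⟩
  have g2 := hΩ.two_of_q hq hg
  have g1 : Integrable g (mm Ω) := g2.integrable one_le_two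
  have hp : ∀ n : ℕ, (0 : ℝ) < 1 / ((n : ℝ) + 1) := fun n => Nat.one_div_pos_of_nat
  have hr : ∀ n : ℕ, Reg Ω (dpotW Ω D g (1 / ((n : ℝ) + 1))) (dpotF Ω g (1 / ((n : ℝ) + 1))) :=
    fun n => (pot_reg hΩ hD0 (hp n) g1).1
  have he : ∀ n : ℕ, WEq Ω (dpotF Ω g (1 / ((n : ℝ) + 1))) (fun x =>
      ∫ z, rho (finrank ℝ V) (1 / ((n : ℝ) + 1)) (‖x - z‖ ^ 2) * g z ∂mm Ω) :=
    fun n => (pot_reg hΩ hD0 (hp n) g1).2
  have uW : TendstoUniformlyOn (fun n : ℕ => dpotW Ω D g (1 / ((n : ℝ) + 1))) (dpotW Ω D g 0)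
      atTop Ω := dpot_unif hβ fun n x hx => (hest g hg x hx _ (hp n).le).2.2.2.1
  have uF : TendstoUniformlyOn (fun n : ℕ => dpotF Ω g (1 / ((n : ℝ) + 1))) (dpotF Ω g 0)
      atTop Ω := dpot_unif hβ fun n x hx => (hest g hg x hx _ (hp n).le).2.2.2.2
  have hR : Reg Ω (dpotW Ω D g 0) (dpotF Ω g 0) := by
    refine ⟨fun x hx => ?_, uF.continuousOn (Frequently.of_forall fun n => (hr n).cont),
      C * nq Ω q g, fun x hx => ⟨(hest g hg x hx 0 le_rfl).2.1, (hest g hg x hx 0 le_rfl).2.2.1⟩⟩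
    exact hasGradientAt_iff_hasFDerivAt.2 (hasFDerivAt_of_tendstoUniformlyOn hΩ.op
      ((InnerProductSpace.toDual ℝ V).isometry.uniformContinuous.comp_tendstoUniformlyOn uF)
      (fun n y hy => ((hr n).grad y hy).hasFDerivAt) (fun y hy => uW.tendsto_at hy) hx)
  refine ⟨dpotF Ω g 0, hR, weq_of_tst hΩ (hR.memF hΩ 2) (g2.const_mul cN) fun φ hφ => ?_,
    fun x hx => ⟨(hest g hg x hx 0 le_rfl).1, (hest g hg x hx 0 le_rfl).2.1,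
      (hest g hg x hx 0 le_rfl).2.2.1⟩⟩
  have h1 : L2T (mm Ω) (fun n : ℕ => dpotF Ω g (1 / ((n : ℝ) + 1))) (dpotF Ω g 0) :=
    l2t_of_dom (fun n => ((hr n).memF hΩ 2).1) (memLp_const (C * nq Ω q g))
      (fun n => hΩ.mem.mono fun x hx => (hest g hg x hx _ (hp n).le).2.2.1)
      (hΩ.mem.mono fun x hx => uF.tendsto_at hx)
  have h2 := h1.inner (l2t_const (hφ.mem hΩ).1.2.1)
  simp only [fun n => (he n).eq φ _ (hφ.mem hΩ)] at h2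
  exact tendsto_nhds_unique h2 (hid φ g hφ g1)

theorem pot' (hΩ : OB Ω) {q : ℝ} (hq : (finrank ℝ V : ℝ) < q) : ∃ C : ℝ, 0 ≤ C ∧ ∀ g : V → ℝ,
    MemLp g (ENNReal.ofReal q) (mm Ω) → ∃ W F, Reg Ω W F ∧ WEq Ω F g ∧
      ∀ x ∈ Ω, |W x| ≤ C * nq Ω q g ∧ ‖F x‖ ≤ C * nq Ω q g := by
  obtain ⟨R, hR, h1⟩ := hΩ.radius 0
  obtain ⟨cN, C, hcN, hC, h⟩ := pot hΩ hq (D := (2 * R) ^ 2) (by positivity) fun x hx z hz => by
    have h2 := h1 x hx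
    have h3 := h1 z hz
    rw [sub_zero] at h2 h3
    exact pow_le_pow_left₀ (norm_nonneg _) ((norm_sub_le _ _).trans (by linarith)) 2
  have hi : 0 < cN⁻¹ := inv_pos.2 hcN
  refine ⟨cN⁻¹ * C, by positivity, fun g hg => ?_⟩
  obtain ⟨F, hF, he, hb⟩ := h g hg
  refine ⟨_, _, hF.smul cN⁻¹, (he.smul cN⁻¹).congr EventuallyEq.rfl
    (Eventually.of_forall fun x => inv_mul_cancel_left₀ hcN.ne' _), fun x hx => ⟨?_, ?_⟩⟩
  · rw [abs_mul, abs_of_pos hi, mul_assoc]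
    exact mul_le_mul_of_nonneg_left (hb x hx).2.1 hi.le
  · rw [norm_smul, Real.norm_of_nonneg hi.le, mul_assoc]
    exact mul_le_mul_of_nonneg_left (hb x hx).2.2 hi.le

end Pool.Agent.P.MP_0cf84d_an
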