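import Pool.Agent.P.MP_0cf84d_an.DParam
import Pool.Agent.P.MP_0cf84d_an.DKer
import Pool.Agent.P.MP_0cf84d_an.DIbp

/-! Regularised potentials. -/

set_option linter.unusedSectionVars false
set_option linter.unusedVariables false

namespace Pool.Agent.P.MP_0cf84d_an

open MeasureTheory Filter Topology Metric Set Module
open scoped RealInnerProductSpace ENNReal NNReal

variable {V : Type*} [NormedAddCommGroup V] [InnerProductSpace ℝ V] [FiniteDimensional ℝ V]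
  [MeasurableSpace V] [BorelSpace V] [CompleteSpace V] {Ω : Set V}

theorem dpot1_bdd (hΩ : OB Ω) {E : Type*} [NormedAddCommGroup E] {f : V → E} (hf : Continuous f) :
    ∃ C, ∀ z ∈ Ω, ∀ x ∈ Ω, ‖f (x - z)‖ ≤ C := by
  obtain ⟨R, -, hR⟩ := hΩ.radius 0
  obtain ⟨C, hC⟩ := (isCompact_closedBall (0 : V) (R + R)).exists_bound_of_continuousOn
    hf.continuousOn
  refine ⟨C, fun z hz x hx => hC _ (mem_closedBall_zero_iff.2 ((norm_sub_le _ _).trans ?_))⟩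
  have h1 := hR x hx
  have h2 := hR z hz
  rw [sub_zero] at h1 h2
  exact add_le_add h1 h2

theorem dpot1_pow {ε : ℝ} (hε : 0 < ε) (e : ℝ) :
    Continuous fun w : V => (‖w‖ ^ 2 + ε) ^ e :=
  Continuous.rpow_const (by fun_prop) fun w => Or.inl (by positivity)

theorem dpot1_kap (N : ℕ) {D ε : ℝ} (hD : 0 < D) (hε : 0 < ε) :
    Continuous fun w : V => kap N D ε (‖w‖ ^ 2) := by
  refine continuous_iff_continuousAt.2 fun w => ?_
  have h1 : ContinuousAt (kap N D ε) (‖w‖ ^ 2) :=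
    (kap_deriv N (add_pos hD hε) (by positivity)).continuousAt
  exact ContinuousAt.comp (f := fun w : V => ‖w‖ ^ 2) h1 (by fun_prop)

theorem dpot1_deriv {ε s : ℝ} (hs : 0 < s + ε) (e : ℝ) :
    HasDerivAt (fun s : ℝ => -(s + ε) ^ e) (-e * (s + ε) ^ (e - 1)) s := by
  have h1 := (((hasDerivAt_id s).add_const ε).rpow_const (p := e) (Or.inl hs.ne')).neg
  refine h1.congr_deriv ?_
  simp

theorem pot_reg (hΩ : OB Ω) {D ε : ℝ} (hD : 0 < D) (hε : 0 < ε) {g : V → ℝ}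
    (hg : Integrable g (mm Ω)) :
    Reg Ω (fun x => ∫ z, kap (finrank ℝ V) D ε (‖x - z‖ ^ 2) * g z ∂mm Ω)
      (fun x => ∫ z, g z • (-(‖x - z‖ ^ 2 + ε) ^ (-(finrank ℝ V : ℝ) / 2)) • (x - z) ∂mm Ω) ∧
    WEq Ω (fun x => ∫ z, g z • (-(‖x - z‖ ^ 2 + ε) ^ (-(finrank ℝ V : ℝ) / 2)) • (x - z) ∂mm Ω)
      (fun x => ∫ z, rho (finrank ℝ V) ε (‖x - z‖ ^ 2) * g z ∂mm Ω) := by
  have c1 : Continuous fun w : V => kap (finrank ℝ V) D ε (‖w‖ ^ 2) := dpot1_kap _ hD hε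
  have c2 : Continuous fun w : V => -(‖w‖ ^ 2 + ε) ^ (-(finrank ℝ V : ℝ) / 2) :=
    (dpot1_pow hε _).neg
  have c3 : Continuous fun w : V => (-(‖w‖ ^ 2 + ε) ^ (-(finrank ℝ V : ℝ) / 2)) • w :=
    c2.smul continuous_id
  have c4 : Continuous fun w : V => rho (finrank ℝ V) ε (‖w‖ ^ 2) :=
    continuous_const.mul (dpot1_pow hε _)
  have c5 : Continuous fun w : V =>
      -(1 / 2 : ℝ) * (‖w‖ ^ 2 + ε) ^ (-(finrank ℝ V : ℝ) / 2) :=
    continuous_const.mul (dpot1_pow hε _)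
  have c6 : Continuous fun w : V =>
      -(-(finrank ℝ V : ℝ) / 2) * (‖w‖ ^ 2 + ε) ^ (-(finrank ℝ V : ℝ) / 2 - 1) :=
    continuous_const.mul (dpot1_pow hε _)
  have cs : Continuous fun p : V × V => p.2 - p.1 := by fun_prop
  obtain ⟨C1, b1⟩ := dpot1_bdd hΩ c1
  obtain ⟨C2, b2⟩ := dpot1_bdd hΩ c2
  obtain ⟨C3, b3⟩ := dpot1_bdd hΩ c3
  obtain ⟨C4, b4⟩ := dpot1_bdd hΩ c4
  obtain ⟨C5, b5⟩ := dpot1_bdd hΩ c5
  obtain ⟨C6, b6⟩ := dpot1_bdd hΩ c6
  refine param hΩ (Φ := fun z x => kap (finrank ℝ V) D ε (‖x - z‖ ^ 2))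
    (ρ := fun z x => rho (finrank ℝ V) ε (‖x - z‖ ^ 2))
    (Γ := fun z x => (-(‖x - z‖ ^ 2 + ε) ^ (-(finrank ℝ V : ℝ) / 2)) • (x - z))
    (c1.comp cs).continuousOn (c3.comp cs).continuousOn (c4.comp cs).continuousOn
    (C := max C1 (max C3 C4)) (fun z hz x hx => ⟨(b1 z hz x hx).trans (le_max_left _ _),
      (b3 z hz x hx).trans ((le_max_left _ _).trans (le_max_right _ _)),
      (b4 z hz x hx).trans ((le_max_right _ _).trans (le_max_right _ _))⟩)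
    (fun z hz x hx => ?_) (fun z hz => ?_) hg
  · have h1 := (reg_radial hΩ z (A := kap (finrank ℝ V) D ε)
      (a := fun s => -(1 / 2 : ℝ) * (s + ε) ^ (-(finrank ℝ V : ℝ) / 2))
      (fun x _ => kap_deriv _ (add_pos hD hε) (by positivity))
      (c5.comp (continuous_id.sub continuous_const)).continuousOn (C := max C1 C5)
      (fun x hx => ⟨(b1 z hz x hx).trans (le_max_left _ _),
        (b5 z hz x hx).trans (le_max_right _ _)⟩)).grad x hx
    have e : 2 * (-(1 / 2 : ℝ) * (‖x - z‖ ^ 2 + ε) ^ (-(finrank ℝ V : ℝ) / 2)) =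
        -(‖x - z‖ ^ 2 + ε) ^ (-(finrank ℝ V : ℝ) / 2) := by ring
    rw [e] at h1
    exact h1
  · have h1 := weq_radial hΩ z (a := fun s => -(s + ε) ^ (-(finrank ℝ V : ℝ) / 2))
      (a' := fun s => -(-(finrank ℝ V : ℝ) / 2) * (s + ε) ^ (-(finrank ℝ V : ℝ) / 2 - 1))
      (fun x _ => dpot1_deriv (by positivity) _)
      (c6.comp (continuous_id.sub continuous_const)).continuousOn (C := max C2 C6)
      (fun x hx => ⟨(b2 z hz x hx).trans (le_max_left _ _),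
        (b6 z hz x hx).trans (le_max_right _ _)⟩)
    have e : (fun x : V => -((finrank ℝ V : ℝ) * -(‖x - z‖ ^ 2 + ε) ^ (-(finrank ℝ V : ℝ) / 2) +
        2 * ‖x - z‖ ^ 2 * (-(-(finrank ℝ V : ℝ) / 2) *
          (‖x - z‖ ^ 2 + ε) ^ (-(finrank ℝ V : ℝ) / 2 - 1)))) =
        fun x => rho (finrank ℝ V) ε (‖x - z‖ ^ 2) := by
      funext x
      have hp : 0 < ‖x - z‖ ^ 2 + ε := by positivity
      have e1 : (‖x - z‖ ^ 2 + ε) ^ (-(finrank ℝ V : ℝ) / 2) =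
          (‖x - z‖ ^ 2 + ε) ^ (-(finrank ℝ V : ℝ) / 2 - 1) * (‖x - z‖ ^ 2 + ε) := by
        rw [Real.rpow_sub_one hp.ne', div_mul_cancel₀ _ hp.ne']
      rw [rho, e1]
      ring
    rw [e] at h1
    exact h1

end Pool.Agent.P.MP_0cf84d_an
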