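import Pool.Agent.P.MP_0cf84d_an.DBase

/-! Elementary inequalities. -/

set_option linter.unusedSectionVars false
set_option linter.unusedVariables false

namespace Pool.Agent.P.MP_0cf84d_an

open MeasureTheory Filter Topology Metric Set Module
open scoped RealInnerProductSpace ENNReal NNReal

variable {V : Type*} [NormedAddCommGroup V] [InnerProductSpace ℝ V] [FiniteDimensional ℝ V]
  [MeasurableSpace V] [BorelSpace V] [CompleteSpace V] {Ω : Set V}

theorem real_A {L M ε t m : ℝ} (hL : 0 < L) (hε : 0 < ε) (h1 : ε ≤ L / 2) (h2 : ε * M ≤ L / 4)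
    (hm : 0 ≤ m) (hmM : m ≤ M) :
    ε * m / 3 - 9 * ε ^ 2 / L ≤
      L * (t * Real.exp t - Real.exp t + 1) - ε * t * Real.exp t + ε * Real.exp t * m := by
  have hE := Real.exp_pos t
  have e1 := Real.exp_one_gt_d9
  have e2 := Real.exp_one_lt_d9
  have hq : 0 ≤ ε ^ 2 / L := by positivity
  have hεm : 0 ≤ ε * m := by positivity
  have hεM : ε * m ≤ ε * M := mul_le_mul_of_nonneg_left hmM hε.le
  have hEm : 0 ≤ ε * Real.exp t * m := by positivity
  have hinv : Real.exp (-t) * Real.exp t = 1 := by rw [← Real.exp_add]; simp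
  have e9 : 9 * ε ^ 2 / L = 9 * (ε ^ 2 / L) := by ring
  rw [e9]
  have hup : ∀ c : ℝ, c ≤ Real.exp t → c * (ε * m) ≤ ε * Real.exp t * m := fun c hc => by
    have := mul_le_mul_of_nonneg_right hc hεm
    linarith
  rcases le_total t 0 with ht | ht
  · have hn : 0 ≤ -(ε * t * Real.exp t) := by
      have : 0 ≤ ε * (-t) * Real.exp t := mul_nonneg (mul_nonneg hε.le (by linarith)) hE.le
      linarith
    rcases le_total t (-1) with ht1 | ht1
    · have k1 : Real.exp (-t) = Real.exp 1 * Real.exp (-t - 1) := by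
        rw [← Real.exp_add]; congr 1; ring
      have k2 := Real.add_one_le_exp (-t - 1)
      have k3 : 8 / 3 * (-t) ≤ Real.exp (-t) := by
        rw [k1]
        exact mul_le_mul (by linarith) (by linarith) (by linarith) (by linarith)
      have k4 := mul_le_mul_of_nonneg_right k3 hE.le
      have k5 : Real.exp t ≤ -t * Real.exp t := by nlinarith
      have k6 : 1 / 4 ≤ t * Real.exp t - Real.exp t + 1 := by nlinarith
      have k7 := mul_le_mul_of_nonneg_left k6 hL.le
      linarith
    · have k1 : Real.exp (-t) ≤ 3 := (Real.exp_le_exp.2 (by linarith : -t ≤ 1)).trans (by linarith)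
      have k2 : 1 / 3 ≤ Real.exp t := by nlinarith
      have k3 := Real.add_one_le_exp (-t)
      have k4 := mul_le_mul_of_nonneg_right k3 hE.le
      have k6 : 0 ≤ t * Real.exp t - Real.exp t + 1 := by nlinarith
      have k7 := mul_nonneg hL.le k6
      have k8 := hup _ k2
      linarith
  · have k0 : 1 ≤ Real.exp t := Real.one_le_exp ht
    have k8 := hup _ k0
    rcases le_total t 2 with ht2 | ht2
    · have k1 : Real.exp (-t) = Real.exp (-t / 2) ^ 2 := by
        rw [← Real.exp_nat_mul]; congr 1; push_cast; ring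
      have k2 := Real.add_one_le_exp (-t / 2)
      have k3 : (-t / 2 + 1) ^ 2 ≤ Real.exp (-t) := by
        rw [k1]; exact pow_le_pow_left₀ (by linarith) k2 2
      have k4 := mul_le_mul_of_nonneg_right k3 hE.le
      have k5 : Real.exp t * t ^ 2 / 4 ≤ t * Real.exp t - Real.exp t + 1 := by nlinarith
      have k6 : Real.exp t ≤ 9 := by
        have k7 : Real.exp 2 = Real.exp 1 * Real.exp 1 := by rw [← Real.exp_add]; norm_num
        have k9 := Real.exp_le_exp.2 ht2
        nlinarith
      have k7 : -(ε ^ 2 / L) ≤ L * t ^ 2 / 4 - ε * t := by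
        have k9 : ε ^ 2 / L + L * t ^ 2 / 4 - ε * t = (L * t / 2 - ε) ^ 2 / L := by
          field_simp; ring
        have : 0 ≤ (L * t / 2 - ε) ^ 2 / L := by positivity
        linarith
      have k9 := mul_le_mul_of_nonneg_left k7 hE.le
      have k10 := mul_le_mul_of_nonneg_left k5 hL.le
      have k11 := mul_le_mul_of_nonneg_right k6 hq
      nlinarith
    · have k1 : t * Real.exp t / 2 ≤ t * Real.exp t - Real.exp t + 1 := by nlinarith
      have k2 := mul_le_mul_of_nonneg_left k1 hL.le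
      have k3 := mul_le_mul_of_nonneg_right h1 (mul_nonneg ht hE.le)
      nlinarith

/-- the identity and the estimate of step 7; `D = 1 - θ + θ e^t`, `t = u + m`, `m = v - η` -/
theorem real_B {L κ ε ε' τ θ v η u : ℝ} (hL : 0 ≤ L) (hθ : 0 < θ) (hθ1 : θ < 1) :
    (1 - θ) * (τ * κ - L * η) +
        θ * (L * ((u + (v - η)) * Real.exp (u + (v - η)) - Real.exp (u + (v - η)) + 1) -
          ε * (u + (v - η)) * Real.exp (u + (v - η)) + ε * Real.exp (u + (v - η)) * (v - η)) -
        L * θ ^ 2 * (Real.exp (u + (v - η)) - 1) ^ 2 +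
        ε' * ((1 - θ + θ * Real.exp (u + (v - η))) * Real.log (VV θ (-v + η) u)) ≤
      (1 - θ + θ * Real.exp (u + (v - η))) *
        ((1 - sg θ (-v + η) u) * (-L * v + τ * κ) + sg θ (-v + η) u * ((L - ε) * u) -
          (L - ε') * Real.log (VV θ (-v + η) u)) := by
  have hE := Real.exp_pos (u + (v - η))
  have hx := Real.exp_pos (-v + η)
  have e1 : Real.exp u = Real.exp (-v + η) * Real.exp (u + (v - η)) := by
    rw [← Real.exp_add]; congr 1; ring
  have hD : 0 < 1 - θ + θ * Real.exp (u + (v - η)) := by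
    have := mul_pos hθ hE
    linarith
  have e2 : VV θ (-v + η) u = Real.exp (-v + η) * (1 - θ + θ * Real.exp (u + (v - η))) := by
    unfold VV; rw [e1]; ring
  have e3 : Real.log (VV θ (-v + η) u)
      = -v + η + Real.log (1 - θ + θ * Real.exp (u + (v - η))) := by
    rw [e2, Real.log_mul hx.ne' hD.ne', Real.log_exp]
  have e4 : sg θ (-v + η) u
      = θ * Real.exp (u + (v - η)) / (1 - θ + θ * Real.exp (u + (v - η))) := by
    unfold sg; rw [e2, e1]; field_simp
  have k1 := Real.log_le_sub_one_of_pos hD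
  rw [e3, e4]
  generalize Real.exp (u + (v - η)) = E at *
  generalize Real.log (1 - θ + θ * E) = l at *
  have k2 : 0 ≤ L * (1 - θ + θ * E) * (1 - θ + θ * E - 1 - l) :=
    mul_nonneg (mul_nonneg hL hD.le) (by linarith)
  have k3 : (1 - θ + θ * E) *
        ((1 - θ * E / (1 - θ + θ * E)) * (-L * v + τ * κ) + θ * E / (1 - θ + θ * E) * ((L - ε) * u) -
          (L - ε') * (-v + η + l))
      = (1 - θ) * (-L * v + τ * κ) + θ * E * ((L - ε) * u)
        - (1 - θ + θ * E) * ((L - ε') * (-v + η + l)) := by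
    field_simp; ring
  rw [k3]
  linarith

theorem real_C {θ v η u M Cu : ℝ} (hθ : 0 < θ) (hθ1 : θ ≤ 1 / 2) (hv : 0 ≤ v) (hM : v ≤ M)
    (hη : η ≤ v / 2) (hη0 : 0 ≤ η) (hu : Real.exp u - 1 ≤ Cu * v)
    (hs : θ * Cu * (4 * (1 + M)) ≤ 1) : Real.log (VV θ (-v + η) u) ≤ 0 := by
  have hx := Real.exp_pos (-v + η)
  have hy := Real.exp_pos u
  have hinv : Real.exp (v - η) * Real.exp (-v + η) = 1 := by rw [← Real.exp_add]; simp
  have k1 := mul_le_mul_of_nonneg_right (Real.add_one_le_exp (v - η)) hx.le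
  have k2 : Real.exp (-v + η) ≤ 1 := Real.exp_le_one_iff.2 (by linarith)
  have hM0 : 0 < 1 + M := by linarith
  refine Real.log_nonpos ?_ ?_
  · unfold VV
    have := mul_pos hθ hy
    have := mul_pos (by linarith : 0 < 1 - θ) hx
    linarith
  unfold VV
  generalize Real.exp (-v + η) = x at *
  have k3 : v / 2 ≤ (1 - x) * (1 + M) := by nlinarith
  have k4 : v / 4 ≤ (1 - θ) * (1 - x) * (1 + M) := by nlinarith
  have k5 : θ * (Real.exp u - 1) * (1 + M) ≤ v / 4 := by
    have k6 := mul_le_mul_of_nonneg_right (mul_le_mul_of_nonneg_left hu hθ.le) hM0.le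
    have k7 := mul_le_mul_of_nonneg_right hs hv
    nlinarith
  have k8 := le_of_mul_le_mul_right (k5.trans k4) hM0
  linarith

theorem real_D {θ a b T : ℝ} (hθ : 0 < θ) (hθ1 : θ < 1) (ha : |a| ≤ T) (hb : |b| ≤ T) :
    |Real.log (VV θ a b)| ≤ T := by
  rw [abs_le] at ha hb ⊢
  have h1 : 0 < 1 - θ := by linarith
  have l1 := mul_le_mul_of_nonneg_left (Real.exp_le_exp.2 ha.1) h1.le
  have l2 := mul_le_mul_of_nonneg_left (Real.exp_le_exp.2 hb.1) hθ.le
  have l3 := mul_le_mul_of_nonneg_left (Real.exp_le_exp.2 ha.2) h1.le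
  have l4 := mul_le_mul_of_nonneg_left (Real.exp_le_exp.2 hb.2) hθ.le
  have k1 : Real.exp (-T) ≤ VV θ a b := by unfold VV; linarith
  have k2 : VV θ a b ≤ Real.exp T := by unfold VV; linarith
  have k3 : 0 < VV θ a b := (Real.exp_pos _).trans_le k1
  exact ⟨(Real.le_log_iff_exp_le k3).2 k1, (Real.log_le_iff_le_exp k3).2 k2⟩

end Pool.Agent.P.MP_0cf84d_an
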