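import Pool.Agent.P.MP_0cf84d_an.DRefl0
import Pool.Agent.P.MP_0cf84d_an.DPot

/-! A barrier at an exterior ball. -/

set_option linter.unusedSectionVars false
set_option linter.unusedVariables false

namespace Pool.Agent.P.MP_0cf84d_an

open MeasureTheory Filter Topology Metric Set Module
open scoped RealInnerProductSpace ENNReal NNReal

variable {V : Type*} [NormedAddCommGroup V] [InnerProductSpace ℝ V] [FiniteDimensional ℝ V]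
  [MeasurableSpace V] [BorelSpace V] [CompleteSpace V] {Ω : Set V}

theorem drefl_pt {N : ℕ} (hN : 1 ≤ N) {D r r' R : ℝ} (hD : 0 < D) (hr : 0 < r) (h1 : r / 2 ≤ r')
    {x y z : V} (hx : r' ≤ ‖x - y‖) (hx' : ‖x - y‖ ≤ R) (hz : r' ≤ ‖z - y‖) (hz' : ‖z - y‖ ≤ R)
    (hne : z ≠ x) : 0 ≤ kap N D 0 (‖x - z‖ ^ 2) - kap N D 0 (rb y r' z x) ∧
      kap N D 0 (‖x - z‖ ^ 2) - kap N D 0 (rb y r' z x) ≤
        4 * |R| / r ^ 2 * (‖x - y‖ ^ 2 - r' ^ 2) * ‖x - z‖ ^ (-((N : ℝ) - 1)) := by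
  have hr' : 0 < r' := by linarith
  have h2 : 0 < ‖x - z‖ := norm_pos_iff.2 (sub_ne_zero.2 hne.symm)
  obtain ⟨h3, h4⟩ := rb_le hr' hx hx' hz hz'
  obtain ⟨h5, h6⟩ := kap_sub hN hD le_rfl (pow_pos h2 2) h3
  refine ⟨h5, h6.trans ?_⟩
  have h7 : (‖x - z‖ ^ 2) ^ (-((N : ℝ) - 1) / 2) = ‖x - z‖ ^ (-((N : ℝ) - 1)) := by
    rw [← Real.rpow_natCast, ← Real.rpow_mul h2.le]
    refine congrArg _ ?_
    push_cast
    ring
  rw [h7, mul_comm]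
  refine mul_le_mul_of_nonneg_right (h4.trans (mul_le_mul_of_nonneg_right ?_
    (sub_nonneg.2 (pow_le_pow_left₀ hr'.le hx 2)))) (Real.rpow_nonneg h2.le _)
  rw [div_le_div_iff₀ (pow_pos hr' 2) (pow_pos hr 2)]
  have h8 : r ^ 2 ≤ 4 * r' ^ 2 := by nlinarith
  calc R * r ^ 2 ≤ |R| * r ^ 2 := mul_le_mul_of_nonneg_right (le_abs_self R) (sq_nonneg r)
    _ ≤ |R| * (4 * r' ^ 2) := mul_le_mul_of_nonneg_left h8 (abs_nonneg R)
    _ = _ := by ring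

theorem barrier (hΩ : OB Ω) {q r R : ℝ} (hq : (finrank ℝ V : ℝ) < q) (hr : 0 < r) {g : V → ℝ}
    (hg : MemLp g (ENNReal.ofReal q) (mm Ω)) (h0 : ∀ᵐ x ∂mm Ω, 0 ≤ g x) :
    ∃ C, 0 ≤ C ∧ ∀ (y : V) (r' : ℝ), r / 2 ≤ r' → r' < r →
      (∀ z ∈ Ω, r ≤ ‖z - y‖ ∧ ‖z - y‖ ≤ R) → ∃ W F, Reg Ω W F ∧ WEq Ω F g ∧
        ∀ x ∈ Ω, 0 ≤ W x ∧ W x ≤ C * (‖x - y‖ ^ 2 - r' ^ 2) := by
  have := hΩ.fin
  have hN : (2 : ℝ) ≤ finrank ℝ V := by exact_mod_cast hΩ.dim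
  have hN1 : 1 ≤ finrank ℝ V := le_trans one_le_two hΩ.dim
  have : Nontrivial V := Module.nontrivial_of_finrank_pos (R := ℝ) hN1
  have hq0 : 0 < q := by linarith
  obtain ⟨R0, hR0, hR⟩ := hΩ.radius 0
  have hD0 : 0 < (2 * R0) ^ 2 := by positivity
  obtain ⟨cN, C0, hc, -, hpot⟩ := pot hΩ hq hD0 fun x hx z hz => by
    refine pow_le_pow_left₀ (norm_nonneg _) ?_ 2
    have h1 := hR x hx
    have h2 := hR z hz
    rw [sub_zero] at h1 h2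
    linarith [norm_sub_le x z]
  obtain ⟨F1, hreg1, hweq1, hx1⟩ := hpot g hg
  obtain ⟨Ck, hCk, hker⟩ := ker_bound hΩ (q := q) (γ := (finrank ℝ V : ℝ) - 1) (by linarith)
    (by linarith) (by
      have h1 : (finrank ℝ V : ℝ) * (1 / q) < 1 := by
        rw [mul_one_div, div_lt_one hq0]
        exact hq
      linarith)
  have hgi : Integrable g (mm Ω) := (hΩ.two_of_q hq hg).integrable one_le_two
  have hnq : 0 ≤ nq Ω q g := ENNReal.toReal_nonneg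
  have hA : 0 ≤ 4 * |R| / r ^ 2 := by positivity
  refine ⟨cN⁻¹ * (4 * |R| / r ^ 2 * (Ck * nq Ω q g)),
    mul_nonneg (inv_nonneg.2 hc.le) (mul_nonneg hA (mul_nonneg hCk hnq)),
    fun y r' h1 h2 hy => ?_⟩
  have hr' : 0 < r' := by linarith
  obtain ⟨⟨F2, hreg2, hweq2⟩, hint2⟩ := refl_harm hΩ hD0 hr' h2 (fun z hz => (hy z hz).1) hgi
  refine ⟨_, _, (hreg1.add (hreg2.smul (-1))).smul cN⁻¹,
    ((hweq1.add (hweq2.smul (-1))).smul cN⁻¹).congr (ae_eq_refl _)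
      (Eventually.of_forall fun x => ?_), fun x hx => ?_⟩
  · have h3 := hc.ne'
    field_simp
    ring
  have hpt : ∀ᵐ z ∂mm Ω, 0 ≤ kap (finrank ℝ V) ((2 * R0) ^ 2) 0 (‖x - z‖ ^ 2) * g z -
      kap (finrank ℝ V) ((2 * R0) ^ 2) 0 (rb y r' z x) * g z ∧
      kap (finrank ℝ V) ((2 * R0) ^ 2) 0 (‖x - z‖ ^ 2) * g z -
        kap (finrank ℝ V) ((2 * R0) ^ 2) 0 (rb y r' z x) * g z ≤
      4 * |R| / r ^ 2 * (‖x - y‖ ^ 2 - r' ^ 2) *
        (‖x - z‖ ^ (-((finrank ℝ V : ℝ) - 1)) * |g z|) := by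
    filter_upwards [hΩ.mem, h0, ae_restrict_of_ae (Measure.ae_ne volume x)] with z hz hg0 hne
    obtain ⟨h3, h4⟩ := drefl_pt hN1 hD0 hr h1 (h2.le.trans (hy x hx).1) (hy x hx).2
      (h2.le.trans (hy z hz).1) (hy z hz).2 hne
    rw [← sub_mul, abs_of_nonneg hg0, ← mul_assoc]
    exact ⟨mul_nonneg h3 hg0, mul_le_mul_of_nonneg_right h4 hg0⟩
  have hsub := integral_sub (hx1 x hx).1 (hint2 x hx)
  have hlo := integral_nonneg_of_ae (hpt.mono fun z hz => hz.1)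
  have hup := integral_mono_ae ((hx1 x hx).1.sub (hint2 x hx)) ((hker g hg x hx).1.const_mul _)
    (hpt.mono fun z hz => hz.2)
  have hd : 0 ≤ ‖x - y‖ ^ 2 - r' ^ 2 :=
    sub_nonneg.2 (pow_le_pow_left₀ hr'.le (h2.le.trans (hy x hx).1) 2)
  have hup2 := mul_le_mul_of_nonneg_left (hker g hg x hx).2 (mul_nonneg hA hd)
  simp only [Pi.sub_apply] at hup
  rw [integral_const_mul, hsub] at hup
  rw [hsub] at hlo
  rw [neg_one_mul, ← sub_eq_add_neg, mul_assoc]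
  refine ⟨mul_nonneg (inv_nonneg.2 hc.le) hlo,
    mul_le_mul_of_nonneg_left ((hup.trans hup2).trans (le_of_eq ?_)) (inv_nonneg.2 hc.le)⟩
  ring

end Pool.Agent.P.MP_0cf84d_an
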