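import Pool.Agent.P.MP_0cf84d_an.DParam
import Pool.Agent.P.MP_0cf84d_an.DKer
import Pool.Agent.P.MP_0cf84d_an.DIbp

/-! The reflected kernel. -/

set_option linter.unusedSectionVars false
set_option linter.unusedVariables false

namespace Pool.Agent.P.MP_0cf84d_an

open MeasureTheory Filter Topology Metric Set Module
open scoped RealInnerProductSpace ENNReal NNReal

variable {V : Type*} [NormedAddCommGroup V] [InnerProductSpace ℝ V] [FiniteDimensional ℝ V]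
  [MeasurableSpace V] [BorelSpace V] [CompleteSpace V] {Ω : Set V}

theorem rb_eq {y z : V} {r : ℝ} (hr : r ≠ 0) (hz : z ≠ y) (x : V) :
    rb y r z x = ‖z - y‖ ^ 2 / r ^ 2 * ‖x - (y + (r ^ 2 / ‖z - y‖ ^ 2) • (z - y))‖ ^ 2 := by
  have hb : ‖z - y‖ ≠ 0 := norm_ne_zero_iff.2 (sub_ne_zero.2 hz)
  have e1 : x - z = (x - y) - (z - y) := by abel
  have e2 : x - (y + (r ^ 2 / ‖z - y‖ ^ 2) • (z - y)) = (x - y) - (r ^ 2 / ‖z - y‖ ^ 2) • (z - y) := by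
    abel
  unfold rb
  rw [e1, e2, norm_sub_sq_real (x - y), norm_sub_sq_real (x - y), norm_smul, mul_pow,
    Real.norm_eq_abs, sq_abs, real_inner_smul_right]
  field_simp
  ring

theorem rb_le {y z x : V} {r R : ℝ} (hr : 0 < r) (hx : r ≤ ‖x - y‖) (hx' : ‖x - y‖ ≤ R)
    (hz : r ≤ ‖z - y‖) (hz' : ‖z - y‖ ≤ R) : ‖x - z‖ ^ 2 ≤ rb y r z x ∧
      √(rb y r z x) - √(‖x - z‖ ^ 2) ≤ R / r ^ 2 * (‖x - y‖ ^ 2 - r ^ 2) := by
  have h1 : 0 ≤ ‖x - y‖ ^ 2 - r ^ 2 := by nlinarith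
  have h2 : 0 ≤ ‖z - y‖ ^ 2 - r ^ 2 := by nlinarith
  have hR : r ≤ R := hx.trans hx'
  have hs : 0 ≤ ‖x - z‖ := norm_nonneg _
  have ht : ‖z - y‖ ≤ ‖x - y‖ + ‖x - z‖ := by
    have := norm_sub_le (x - y) (x - z)
    rwa [sub_sub_sub_cancel_left] at this
  have h3 : ‖z - y‖ ^ 2 - r ^ 2 ≤ ‖x - y‖ ^ 2 - r ^ 2 + 2 * R * ‖x - z‖ := by
    have a1 : (‖z - y‖ - ‖x - y‖) * (‖z - y‖ + ‖x - y‖) ≤ ‖x - z‖ * (‖z - y‖ + ‖x - y‖) :=
      mul_le_mul_of_nonneg_right (by linarith) (by positivity)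
    have a2 : ‖x - z‖ * (‖z - y‖ + ‖x - y‖) ≤ ‖x - z‖ * (2 * R) :=
      mul_le_mul_of_nonneg_left (by linarith) hs
    nlinarith
  unfold rb
  generalize ‖x - y‖ ^ 2 - r ^ 2 = a at h1 h3 ⊢
  generalize ‖z - y‖ ^ 2 - r ^ 2 = b at h2 h3 ⊢
  generalize ‖x - z‖ = s at hs h3 ⊢
  have hR0 : 0 < R := hr.trans_le hR
  refine ⟨le_add_of_nonneg_right (by positivity), ?_⟩
  rw [Real.sqrt_sq hs, sub_le_iff_le_add', Real.sqrt_le_left (by positivity)]
  have b1 : a * b / r ^ 2 ≤ a * (a + 2 * R * s) / r ^ 2 := by gcongr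
  have b2 : a * a / r ^ 2 ≤ (R / r ^ 2 * a) ^ 2 := by
    have e : (R / r ^ 2 * a) ^ 2 = a * a / r ^ 2 * (R ^ 2 / r ^ 2) := by field_simp
    rw [e]
    refine le_mul_of_one_le_right (by positivity) ?_
    rw [one_le_div (by positivity)]
    gcongr
  have e : a * (a + 2 * R * s) / r ^ 2 = a * a / r ^ 2 + 2 * s * (R / r ^ 2 * a) := by ring
  nlinarith

theorem drefl0_bd {f : ℝ → ℝ} (hf : ContinuousOn f (Ioi 0)) {m : ℝ} (hm : 0 < m) (M : ℝ) :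
    ∃ C, 0 ≤ C ∧ ∀ t ∈ Icc m M, |f t| ≤ C := by
  obtain ⟨C, hC⟩ := (isCompact_Icc (a := m) (b := M)).exists_bound_of_continuousOn
    (hf.mono fun t ht => hm.trans_le ht.1)
  exact ⟨max C 0, le_max_right _ _, fun t ht => (hC t ht).trans (le_max_left _ _)⟩

theorem drefl0_kap (N : ℕ) {D : ℝ} (hD : 0 < D) : ContinuousOn (kap N D 0) (Ioi 0) :=
  fun t ht => (kap_deriv N (by simpa using hD)
    (by simpa using ht)).continuousAt.continuousWithinAt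

theorem drefl0_pow (p : ℝ) : ContinuousOn (fun t : ℝ => t ^ p) (Ioi 0) :=
  continuousOn_id.rpow_const fun t ht => Or.inl (ne_of_gt ht)

theorem drefl0_rad (hΩ : OB Ω) {D l m M : ℝ} (hD : 0 < D) (hm : 0 < m) (w : V)
    (hb : ∀ x ∈ Ω, l * ‖x - w‖ ^ 2 ∈ Icc m M) :
    (∀ x ∈ Ω, HasGradientAt (fun x => kap (finrank ℝ V) D 0 (l * ‖x - w‖ ^ 2))
      ((-(l * (l * ‖x - w‖ ^ 2) ^ (-(finrank ℝ V : ℝ) / 2))) • (x - w)) x) ∧
    WEq Ω (fun x => (-(l * (l * ‖x - w‖ ^ 2) ^ (-(finrank ℝ V : ℝ) / 2))) • (x - w))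
      (fun _ => 0) := by
  obtain ⟨C1, p1, h1⟩ := drefl0_bd (drefl0_kap (finrank ℝ V) hD) hm M
  obtain ⟨C2, p2, h2⟩ := drefl0_bd (drefl0_pow (-(finrank ℝ V : ℝ) / 2)) hm M
  obtain ⟨C3, p3, h3⟩ := drefl0_bd (drefl0_pow (-(finrank ℝ V : ℝ) / 2 - 1)) hm M
  have hpos : ∀ x ∈ Ω, 0 < l * ‖x - w‖ ^ 2 := fun x hx => hm.trans_le (hb x hx).1
  have hc : Continuous fun x : V => l * ‖x - w‖ ^ 2 := by fun_prop
  have hcp : ∀ p : ℝ, ContinuousOn (fun x : V => (l * ‖x - w‖ ^ 2) ^ p) Ω := fun p =>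
    hc.continuousOn.rpow_const fun x hx => Or.inl (hpos x hx).ne'
  have hl : ∀ s : ℝ, HasDerivAt (fun s : ℝ => l * s) l s := fun s => by
    simpa using (hasDerivAt_id s).const_mul l
  constructor
  · have hr := reg_radial hΩ w (A := fun s => kap (finrank ℝ V) D 0 (l * s))
      (a := fun s => -(1 / 2) * (l * s) ^ (-(finrank ℝ V : ℝ) / 2) * l)
      (fun x hx => by
        have h0 := kap_deriv (finrank ℝ V) (D := D) (ε := 0) (s := l * ‖x - w‖ ^ 2)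
          (by simpa using hD) (by simpa using hpos x hx)
        rw [add_zero] at h0
        exact h0.comp _ (hl _))
      ((continuousOn_const.mul (hcp _)).mul continuousOn_const) (C := C1 + C2 * |l|)
      (fun x hx => by
        have a1 := h1 _ (hb x hx)
        have a2 := mul_le_mul_of_nonneg_right (h2 _ (hb x hx)) (abs_nonneg l)
        have a3 := mul_nonneg p2 (abs_nonneg l)
        refine ⟨by linarith, ?_⟩
        rw [mul_assoc, abs_mul, abs_mul, abs_neg, abs_of_pos (by norm_num : (0 : ℝ) < 1 / 2)]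
        linarith)
    intro x hx
    have h0 := hr.grad x hx
    have e : 2 * (-(1 / 2) * (l * ‖x - w‖ ^ 2) ^ (-(finrank ℝ V : ℝ) / 2) * l) =
        -(l * (l * ‖x - w‖ ^ 2) ^ (-(finrank ℝ V : ℝ) / 2)) := by ring
    rw [← e]
    exact h0
  · have hw := weq_radial hΩ w (a := fun s => -(l * (l * s) ^ (-(finrank ℝ V : ℝ) / 2)))
      (a' := fun s => -(l * (l * (-(finrank ℝ V : ℝ) / 2) * (l * s) ^ (-(finrank ℝ V : ℝ) / 2 - 1))))
      (fun x hx => (((hl _).rpow_const (Or.inl (hpos x hx).ne')).const_mul l).neg)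
      (continuousOn_const.mul (continuousOn_const.mul (hcp _))).neg
      (C := |l| * C2 + |l| * (|l * (-(finrank ℝ V : ℝ) / 2)| * C3))
      (fun x hx => by
        have a2 := mul_le_mul_of_nonneg_left (h2 _ (hb x hx)) (abs_nonneg l)
        have a3 := mul_le_mul_of_nonneg_left (mul_le_mul_of_nonneg_left (h3 _ (hb x hx))
          (abs_nonneg (l * (-(finrank ℝ V : ℝ) / 2)))) (abs_nonneg l)
        have a4 : 0 ≤ |l| * C2 := by positivity
        have a5 : 0 ≤ |l| * (|l * (-(finrank ℝ V : ℝ) / 2)| * C3) := by positivity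
        constructor
        · rw [abs_neg, abs_mul]
          linarith
        · rw [abs_neg, abs_mul, abs_mul]
          linarith)
    refine hw.congr (Eventually.of_forall fun _ => rfl) (hΩ.mem.mono fun x hx => ?_)
    have e := Real.rpow_sub_one (hpos x hx).ne' (-(finrank ℝ V : ℝ) / 2)
    have h0 := (hpos x hx).ne'
    have e' : (l * ‖x - w‖ ^ 2) ^ (-(finrank ℝ V : ℝ) / 2) =
        l * ‖x - w‖ ^ 2 * (l * ‖x - w‖ ^ 2) ^ (-(finrank ℝ V : ℝ) / 2 - 1) := by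
      rw [e, mul_div_cancel₀ _ h0]
    beta_reduce
    rw [e']
    ring

theorem drefl0_fix (hΩ : OB Ω) {D r m M : ℝ} (hD : 0 < D) (hr : 0 < r) (hm : 0 < m) {y z : V}
    (hz : z ≠ y) (hb : ∀ x ∈ Ω, rb y r z x ∈ Icc m M) :
    (∀ x ∈ Ω, HasGradientAt (fun x => kap (finrank ℝ V) D 0 (rb y r z x))
      ((-(rb y r z x) ^ (-(finrank ℝ V : ℝ) / 2)) •
        ((x - z) + ((‖z - y‖ ^ 2 - r ^ 2) / r ^ 2) • (x - y))) x) ∧
    WEq Ω (fun x => (-(rb y r z x) ^ (-(finrank ℝ V : ℝ) / 2)) •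
        ((x - z) + ((‖z - y‖ ^ 2 - r ^ 2) / r ^ 2) • (x - y))) (fun _ => 0) := by
  have hn : ‖z - y‖ ≠ 0 := norm_ne_zero_iff.2 (sub_ne_zero.2 hz)
  have e := rb_eq hr.ne' hz
  have e2 : ∀ x : V, (x - z) + ((‖z - y‖ ^ 2 - r ^ 2) / r ^ 2) • (x - y) =
      (‖z - y‖ ^ 2 / r ^ 2) • (x - (y + (r ^ 2 / ‖z - y‖ ^ 2) • (z - y))) := fun x => by
    have a1 : (‖z - y‖ ^ 2 - r ^ 2) / r ^ 2 = ‖z - y‖ ^ 2 / r ^ 2 - 1 := by field_simp
    have a2 : ‖z - y‖ ^ 2 / r ^ 2 * (r ^ 2 / ‖z - y‖ ^ 2) = 1 := by field_simp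
    rw [a1, ← sub_sub, smul_sub _ (x - y), smul_smul, a2]
    module
  have h := drefl0_rad hΩ hD hm (y + (r ^ 2 / ‖z - y‖ ^ 2) • (z - y))
    (fun x hx => e x ▸ hb x hx)
  simp only [e, e2, smul_smul, mul_comm _ (‖z - y‖ ^ 2 / r ^ 2), mul_neg]
  exact h

theorem refl_harm (hΩ : OB Ω) {D r r' : ℝ} (hD : 0 < D) (hr' : 0 < r') (hr : r' < r) {y : V}
    (hy : ∀ z ∈ Ω, r ≤ ‖z - y‖) {g : V → ℝ} (hg : Integrable g (mm Ω)) :
    (∃ F, Reg Ω (fun x => ∫ z, kap (finrank ℝ V) D 0 (rb y r' z x) * g z ∂mm Ω) F ∧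
      WEq Ω F (fun _ => 0)) ∧
    ∀ x ∈ Ω, Integrable (fun z => kap (finrank ℝ V) D 0 (rb y r' z x) * g z) (mm Ω) := by
  obtain ⟨R, hR, hR'⟩ := hΩ.radius y
  have hd : 0 < r ^ 2 - r' ^ 2 := by nlinarith
  have hm : 0 < (r ^ 2 - r' ^ 2) * (r ^ 2 - r' ^ 2) / r' ^ 2 := by positivity
  have hlo : ∀ x ∈ Ω, r ^ 2 - r' ^ 2 ≤ ‖x - y‖ ^ 2 - r' ^ 2 := fun x hx => by
    have := hy x hx
    nlinarith
  have hup : ∀ x ∈ Ω, ‖x - y‖ ^ 2 - r' ^ 2 ≤ R ^ 2 := fun x hx => by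
    have := hR' x hx
    have := norm_nonneg (x - y)
    nlinarith
  have hxz : ∀ z ∈ Ω, ∀ x ∈ Ω, ‖x - z‖ ≤ 2 * R := fun z hz x hx => by
    have := norm_sub_le (x - y) (z - y)
    rw [sub_sub_sub_cancel_right] at this
    linarith [hR' x hx, hR' z hz]
  have hb : ∀ z ∈ Ω, ∀ x ∈ Ω, rb y r' z x ∈
      Icc ((r ^ 2 - r' ^ 2) * (r ^ 2 - r' ^ 2) / r' ^ 2) ((2 * R) ^ 2 + R ^ 2 * R ^ 2 / r' ^ 2) := by
    intro z hz x hx
    have a1 := hlo x hx
    have a2 := hlo z hz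
    have a3 := hup x hx
    have a4 := hup z hz
    have a5 := hxz z hz x hx
    have a6 : 0 ≤ ‖x - y‖ ^ 2 - r' ^ 2 := by linarith
    have a7 : 0 ≤ ‖z - y‖ ^ 2 - r' ^ 2 := by linarith
    unfold rb
    constructor
    · refine le_add_of_nonneg_of_le (by positivity) ?_
      gcongr
    · gcongr
  have hne : ∀ z ∈ Ω, z ≠ y := fun z hz e => by
    have := hy z hz
    rw [e, sub_self, norm_zero] at this
    linarith
  obtain ⟨C1, p1, h1⟩ := drefl0_bd (drefl0_kap (finrank ℝ V) hD) hm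
    ((2 * R) ^ 2 + R ^ 2 * R ^ 2 / r' ^ 2)
  obtain ⟨C2, p2, h2⟩ := drefl0_bd (drefl0_pow (-(finrank ℝ V : ℝ) / 2)) hm
    ((2 * R) ^ 2 + R ^ 2 * R ^ 2 / r' ^ 2)
  have hc : Continuous fun p : V × V => rb y r' p.1 p.2 := by
    unfold rb
    fun_prop
  have hpos : ∀ p ∈ Ω ×ˢ Ω, 0 < rb y r' p.1 p.2 := fun p hp => hm.trans_le (hb _ hp.1 _ hp.2).1
  have hΦ : ContinuousOn (fun p : V × V => kap (finrank ℝ V) D 0 (rb y r' p.1 p.2)) (Ω ×ˢ Ω) :=
    (drefl0_kap (finrank ℝ V) hD).comp hc.continuousOn hpos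
  have hv : Continuous fun p : V × V =>
      (p.2 - p.1) + ((‖p.1 - y‖ ^ 2 - r' ^ 2) / r' ^ 2) • (p.2 - y) := by fun_prop
  constructor
  · have h := param hΩ (Φ := fun z x => kap (finrank ℝ V) D 0 (rb y r' z x)) (ρ := fun _ _ => 0)
      (Γ := fun z x => (-(rb y r' z x) ^ (-(finrank ℝ V : ℝ) / 2)) •
        ((x - z) + ((‖z - y‖ ^ 2 - r' ^ 2) / r' ^ 2) • (x - y))) hΦ
      ((hc.continuousOn.rpow_const fun p hp => Or.inl (hpos p hp).ne').neg.smul hv.continuousOn)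
      continuousOn_const (C := C1 + C2 * (2 * R + R ^ 2 / r' ^ 2 * R))
      (fun z hz x hx => by
        have a0 : 0 ≤ C2 * (2 * R + R ^ 2 / r' ^ 2 * R) := by positivity
        have a1 := h1 _ (hb z hz x hx)
        have a2 := h2 _ (hb z hz x hx)
        have a3 : ‖(x - z) + ((‖z - y‖ ^ 2 - r' ^ 2) / r' ^ 2) • (x - y)‖ ≤
            2 * R + R ^ 2 / r' ^ 2 * R := by
          refine (norm_add_le _ _).trans (add_le_add (hxz z hz x hx) ?_)
          have a7 : 0 ≤ ‖z - y‖ ^ 2 - r' ^ 2 := hd.le.trans (hlo z hz)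
          have a4 := hup z hz
          have a5 := hR' x hx
          rw [norm_smul, Real.norm_of_nonneg (by positivity)]
          gcongr
        refine ⟨by linarith, ?_, by rw [abs_zero]; linarith⟩
        rw [norm_smul, norm_neg, Real.norm_eq_abs]
        exact le_add_of_nonneg_of_le p1 (mul_le_mul a2 a3 (norm_nonneg _) p2))
      (fun z hz => (drefl0_fix hΩ hD hr' hm (hne z hz) (hb z hz)).1)
      (fun z hz => (drefl0_fix hΩ hD hr' hm (hne z hz) (hb z hz)).2) hg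
    refine ⟨_, h.1, h.2.congr (Eventually.of_forall fun _ => rfl)
      (Eventually.of_forall fun x => ?_)⟩
    simp
  · intro x hx
    have hc1 : ContinuousOn (fun z => kap (finrank ℝ V) D 0 (rb y r' z x)) Ω :=
      hΦ.comp (f := fun z => (z, x)) (by fun_prop) fun z hz => ⟨hz, hx⟩
    exact hg.bdd_mul (hc1.aestronglyMeasurable hΩ.op.measurableSet)
      (hΩ.mem.mono fun z hz => h1 _ (hb z hz x hx))

end Pool.Agent.P.MP_0cf84d_an
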