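import Pool.Agent.P.MP_0cf84d_an.DL2

/-! The space `H^1_0`: linear structure and limits. -/

set_option linter.unusedSectionVars false
set_option linter.unusedVariables false

namespace Pool.Agent.P.MP_0cf84d_an

open MeasureTheory Filter Topology Metric Set Module
open scoped RealInnerProductSpace ENNReal NNReal

variable {V : Type*} [NormedAddCommGroup V] [InnerProductSpace ℝ V] [FiniteDimensional ℝ V]
  [MeasurableSpace V] [BorelSpace V] [CompleteSpace V] {Ω : Set V}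

variable {u v : V → ℝ} {G H : V → V}

theorem dsob_reg {φ : V → ℝ} (h : Tst Ω φ) (O : Set V) : Reg O φ (gradient φ) := by
  have hc : Continuous (gradient φ) :=
    (InnerProductSpace.toDual ℝ V).symm.continuous.comp (h.1.continuous_fderiv (by simp))
  have hs : HasCompactSupport (gradient φ) :=
    (h.2.1.fderiv (𝕜 := ℝ)).comp_left (g := (InnerProductSpace.toDual ℝ V).symm) (map_zero _)
  obtain ⟨C, hC⟩ := h.1.continuous.bounded_above_of_compact_support h.2.1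
  obtain ⟨C', hC'⟩ := hc.bounded_above_of_compact_support hs
  exact ⟨fun x _ => (h.1.differentiable (by simp) x).hasGradientAt, hc.continuousOn, max C C',
    fun x _ => ⟨(hC x).trans (le_max_left _ _), (hC' x).trans (le_max_right _ _)⟩⟩

theorem dsob_mk {φ : ℕ → V → ℝ} (h : ∀ n, Tst Ω (φ n)) (h1 : L2T (mm Ω) φ u)
    (h2 : L2T (mm Ω) (fun n => gradient (φ n)) G) : InH10 Ω u G :=
  ⟨h1.2.1, h2.2.1, φ, h, (l2t_iff h1.1 h1.2.1).1 h1, (l2t_iff h2.1 h2.2.1).1 h2⟩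

theorem Tst.mem (hΩ : OB Ω) {φ : V → ℝ} (h : Tst Ω φ) : TT Ω φ (gradient φ) :=
  ⟨dsob_mk (fun _ => h) (l2t_const ((dsob_reg h Ω).memW hΩ 2))
    (l2t_const ((dsob_reg h Ω).memF hΩ 2)), (dsob_reg h Ω).memW hΩ ⊤⟩

theorem Tst.reg {φ : V → ℝ} (h : Tst Ω φ) : Reg Ω φ (gradient φ) := dsob_reg h Ω

theorem InH10.approx (hΩ : OB Ω) (h : InH10 Ω u G) : ∃ φ : ℕ → V → ℝ, (∀ n, Tst Ω (φ n)) ∧
    L2T (mm Ω) φ u ∧ L2T (mm Ω) (fun n => gradient (φ n)) G := by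
  obtain ⟨h1, h2, φ, hφ, h3, h4⟩ := h
  exact ⟨φ, hφ, (l2t_iff (fun n => (dsob_reg (hφ n) Ω).memW hΩ 2) h1).2 h3,
    (l2t_iff (fun n => (dsob_reg (hφ n) Ω).memF hΩ 2) h2).2 h4⟩

theorem dsob_near {α E : Type*} [MeasurableSpace α] {m : Measure α} [NormedAddCommGroup E]
    {f k : ℕ → α → E} {g : α → E} (h : L2T m f g) (hk : ∀ n, MemLp (k n) 2 m)
    (hle : ∀ n : ℕ, ∫ x, ‖k n x - f n x‖ ^ 2 ∂m ≤ 1 / ((n : ℝ) + 1)) : L2T m k g := by
  have h0 : L2T m (fun n x => k n x - f n x) (fun _ => 0) := by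
    refine ⟨fun n => (hk n).sub (h.1 n), MemLp.zero, ?_⟩
    simp only [sub_zero]
    exact squeeze_zero (fun n => integral_nonneg fun x => sq_nonneg _) hle
      tendsto_one_div_add_atTop_nhds_zero_nat
  exact (h0.add h).congr (fun n => Eventually.of_forall fun x => sub_add_cancel _ _)
    (Eventually.of_forall fun x => zero_add _)

theorem inH10_limit (hΩ : OB Ω) {w : ℕ → V → ℝ} {D : ℕ → V → V} (h : ∀ n, InH10 Ω (w n) (D n))
    (h1 : L2T (mm Ω) w u) (h2 : L2T (mm Ω) D G) : InH10 Ω u G := by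
  have key : ∀ n : ℕ, ∃ φ, Tst Ω φ ∧ ∫ x, ‖φ x - w n x‖ ^ 2 ∂mm Ω ≤ 1 / ((n : ℝ) + 1) ∧
      ∫ x, ‖gradient φ x - D n x‖ ^ 2 ∂mm Ω ≤ 1 / ((n : ℝ) + 1) := by
    intro n
    obtain ⟨φ, hφ, a1, a2⟩ := (h n).approx hΩ
    have hp : (0 : ℝ) < 1 / ((n : ℝ) + 1) := by positivity
    obtain ⟨k, b1, b2⟩ := ((a1.2.2.eventually (ge_mem_nhds hp)).and
      (a2.2.2.eventually (ge_mem_nhds hp))).exists
    exact ⟨φ k, hφ k, b1, b2⟩
  choose φ hφ b1 b2 using key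
  exact dsob_mk hφ (dsob_near h1 (fun n => (dsob_reg (hφ n) Ω).memW hΩ 2) b1)
    (dsob_near h2 (fun n => (dsob_reg (hφ n) Ω).memF hΩ 2) b2)

theorem InH10.congr (h : InH10 Ω u G) (h1 : u =ᵐ[mm Ω] v) (h2 : G =ᵐ[mm Ω] H) : InH10 Ω v H := by
  obtain ⟨a1, a2, φ, hφ, a3, a4⟩ := h
  refine ⟨a1.ae_eq h1, a2.ae_eq h2, φ, hφ, a3.congr fun n => ?_, a4.congr fun n => ?_⟩
  · exact eLpNorm_congr_ae (EventuallyEq.rfl.sub h1)
  · exact eLpNorm_congr_ae (EventuallyEq.rfl.sub h2)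

theorem inH10_zero (Ω : Set V) : InH10 Ω (fun _ => 0) (fun _ => 0) := by
  have h1 : MemLp (fun _ : V => (0 : ℝ)) 2 (mm Ω) := MemLp.zero
  have h2 : MemLp (fun _ : V => (0 : V)) 2 (mm Ω) := MemLp.zero
  have h3 : Tst Ω fun _ => 0 := ⟨contDiff_const, HasCompactSupport.zero, by simp⟩
  have h4 : gradient (fun _ : V => (0 : ℝ)) = fun _ => 0 :=
    funext fun x => (hasGradientAt_const x (0 : ℝ)).gradient
  exact dsob_mk (fun _ => h3) (l2t_const h1) (by rw [h4]; exact l2t_const h2)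

theorem InH10.add (hΩ : OB Ω) (h : InH10 Ω u G) (h' : InH10 Ω v H) :
    InH10 Ω (fun x => u x + v x) (fun x => G x + H x) := by
  obtain ⟨φ, hφ, a1, a2⟩ := h.approx hΩ
  obtain ⟨ψ, hψ, b1, b2⟩ := h'.approx hΩ
  refine dsob_mk (φ := fun n x => φ n x + ψ n x) (fun n => ⟨(hφ n).1.add (hψ n).1,
    (hφ n).2.1.add (hψ n).2.1, (tsupport_add _ _).trans (union_subset (hφ n).2.2 (hψ n).2.2)⟩)
    (a1.add b1) ((a2.add b2).congr (fun n => Eventually.of_forall fun x => ?_) EventuallyEq.rfl)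
  exact (((dsob_reg (hφ n) univ).add (dsob_reg (hψ n) univ)).grad x trivial).gradient.symm

theorem InH10.smul (hΩ : OB Ω) (h : InH10 Ω u G) (a : ℝ) :
    InH10 Ω (fun x => a * u x) (fun x => a • G x) := by
  obtain ⟨φ, hφ, a1, a2⟩ := h.approx hΩ
  have b2 : L2T (mm Ω) (fun n x => a • gradient (φ n) x) (fun x => a • G x) :=
    a2.of_le (fun n => (a2.1 n).const_smul a) (a2.2.1.const_smul a) |a| fun n =>
      Eventually.of_forall fun x => by rw [← smul_sub, norm_smul, Real.norm_eq_abs]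
  refine dsob_mk (φ := fun n x => a * φ n x) (fun n => ⟨contDiff_const.mul (hφ n).1,
    (hφ n).2.1.mul_left, tsupport_mul_subset_right.trans (hφ n).2.2⟩)
    (a1.of_le (fun n => (a1.1 n).const_mul a) (a1.2.1.const_mul a) |a| fun n =>
      Eventually.of_forall fun x => by rw [← mul_sub, norm_mul, Real.norm_eq_abs])
    (b2.congr (fun n => Eventually.of_forall fun x => ?_) EventuallyEq.rfl)
  exact (((dsob_reg (hφ n) univ).smul a).grad x trivial).gradient.symm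

theorem InH10.neg (hΩ : OB Ω) (h : InH10 Ω u G) : InH10 Ω (fun x => -u x) (fun x => -G x) := by
  simpa using h.smul hΩ (-1)

theorem InH10.sub (hΩ : OB Ω) (h : InH10 Ω u G) (h' : InH10 Ω v H) :
    InH10 Ω (fun x => u x - v x) (fun x => G x - H x) := by
  simpa only [sub_eq_add_neg] using h.add hΩ (h'.neg hΩ)

theorem TT.congr (h : TT Ω u G) (h1 : u =ᵐ[mm Ω] v) (h2 : G =ᵐ[mm Ω] H) : TT Ω v H :=
  ⟨h.1.congr h1 h2, h.2.ae_eq h1⟩

theorem tt_zero (Ω : Set V) : TT Ω (fun _ => 0) (fun _ => 0) :=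
  ⟨inH10_zero Ω, MemLp.zero⟩

theorem TT.add (hΩ : OB Ω) (h : TT Ω u G) (h' : TT Ω v H) :
    TT Ω (fun x => u x + v x) (fun x => G x + H x) := ⟨h.1.add hΩ h'.1, h.2.add h'.2⟩

theorem TT.smul (hΩ : OB Ω) (h : TT Ω u G) (a : ℝ) :
    TT Ω (fun x => a * u x) (fun x => a • G x) := ⟨h.1.smul hΩ a, h.2.const_mul a⟩

theorem TT.neg (hΩ : OB Ω) (h : TT Ω u G) : TT Ω (fun x => -u x) (fun x => -G x) :=
  ⟨h.1.neg hΩ, h.2.neg⟩

theorem TT.sub (hΩ : OB Ω) (h : TT Ω u G) (h' : TT Ω v H) :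
    TT Ω (fun x => u x - v x) (fun x => G x - H x) := ⟨h.1.sub hΩ h'.1, h.2.sub h'.2⟩

theorem InH10.tt (h : InH10 Ω u G) {M : ℝ} (hM : ∀ᵐ x ∂mm Ω, |u x| ≤ M) : TT Ω u G :=
  ⟨h, memLp_top_of_bound h.1.1 M hM⟩

/-- an equation with right side in `L^2` holds for all test functions in `H^1_0` if it holds for
the smooth ones -/
theorem eq_of_tst (hΩ : OB Ω) {f : V → ℝ} (hG : MemLp G 2 (mm Ω)) (hf : MemLp f 2 (mm Ω))
    (h : ∀ φ, Tst Ω φ → ∫ x, ⟪G x, gradient φ x⟫ ∂mm Ω = ∫ x, f x * φ x ∂mm Ω)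
    (hv : InH10 Ω v H) : ∫ x, ⟪G x, H x⟫ ∂mm Ω = ∫ x, f x * v x ∂mm Ω := by
  obtain ⟨φ, hφ, a1, a2⟩ := hv.approx hΩ
  exact tendsto_nhds_unique (((l2t_const hG).inner a2).congr fun n => h _ (hφ n))
    ((l2t_const hf).mul a1)

theorem weq_of_tst (hΩ : OB Ω) {f : V → ℝ} (hG : MemLp G 2 (mm Ω)) (hf : MemLp f 2 (mm Ω))
    (h : ∀ φ, Tst Ω φ → ∫ x, ⟪G x, gradient φ x⟫ ∂mm Ω = ∫ x, f x * φ x ∂mm Ω) :
    WEq Ω G f := by
  have := hΩ.fin
  exact ⟨hG, hf.integrable (by norm_num), fun v H hv => eq_of_tst hΩ hG hf h hv.1⟩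

theorem WEq.ext (hΩ : OB Ω) {f : V → ℝ} (h : WEq Ω G f) (hf : MemLp f 2 (mm Ω))
    (hv : InH10 Ω v H) : ∫ x, ⟪G x, H x⟫ ∂mm Ω = ∫ x, f x * v x ∂mm Ω :=
  eq_of_tst hΩ h.l2 hf (fun φ hφ => h.eq φ _ (hφ.mem hΩ)) hv

end Pool.Agent.P.MP_0cf84d_an
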