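import Pool.Agent.P.MP_0cf84d_an.DTrunc

/-! One step of the monotone iteration. -/

set_option linter.unusedSectionVars false
set_option linter.unusedVariables false

namespace Pool.Agent.P.MP_0cf84d_an

open MeasureTheory Filter Topology Metric Set Module
open scoped RealInnerProductSpace ENNReal NNReal

variable {V : Type*} [NormedAddCommGroup V] [InnerProductSpace ℝ V] [FiniteDimensional ℝ V]
  [MeasurableSpace V] [BorelSpace V] [CompleteSpace V] {Ω : Set V}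

variable {q μ₁ μ₂ l K B₀ : ℝ} {c h μ y W β : V → ℝ} {Y F B : V → V} {Hk : V → ℝ} {Λ : ℝ≥0}

theorem dstep_lip (hH : LipschitzWith Λ Hk) {m m₂ : ℝ} (hm : |m| ≤ m₂) (p p' : V) :
    -(Λ * m₂ * ‖p - p'‖) ≤ m * (Hk p' - Hk p) := by
  have h1 := hH.dist_le_mul p p'
  rw [Real.dist_eq, dist_eq_norm, abs_sub_comm] at h1
  have h2 : |m * (Hk p' - Hk p)| ≤ m₂ * (Λ * ‖p - p'‖) := by
    rw [abs_mul]
    exact mul_le_mul hm h1 (abs_nonneg _) ((abs_nonneg _).trans hm)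
  have h3 := neg_abs_le (m * (Hk p' - Hk p))
  linarith

theorem step (hΩ : OB Ω) (hD : Dat Ω q c h μ μ₁ μ₂) (hl : 0 ≤ l) (hH : LipschitzWith Λ Hk)
    (hB : ∀ p, |Hk p| ≤ B₀) (hK : 2 ≤ K) (hK' : 2 * (Λ * μ₂) ^ 2 ≤ K) (hy : TT Ω y Y)
    (hW : Reg Ω W F) (hW0 : ∀ x ∈ Ω, 0 ≤ W x)
    (hlow : WGe Ω (fun x => F x - Y x)
      (fun x => -rhs c h μ l Hk (fun x => y x - W x) (fun x => Y x - F x) x))
    (hβ : TT Ω β B) (hup : WGe Ω B (rhs c h μ l Hk β B)) (hle : ∀ᵐ x ∂mm Ω, y x - W x ≤ β x) :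
    ∃ z Z, TT Ω z Z ∧
      WEq Ω Z (fun x => (l * (c x * (y x - W x)) + K * (y x - W x) + h x) + μ x * Hk (Z x) -
        K * z x) ∧
      (∀ᵐ x ∂mm Ω, y x - W x ≤ z x ∧ z x ≤ β x) ∧
      WGe Ω (fun x => -Z x) (fun x => -rhs c h μ l Hk z Z x) := by
  have hfin := hΩ.fin
  have hμ : ∀ᵐ x ∂mm Ω, |μ x| ≤ μ₂ := hD.mu.mono fun x hx =>
    abs_le.2 ⟨by linarith [hD.pos, hD.le, hx.1], hx.2⟩
  have hal : MemLp (fun x => y x - W x) ⊤ (mm Ω) := hy.2.sub (hW.memW hΩ ⊤)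
  have hal2 : MemLp (fun x => y x - W x) 2 (mm Ω) := hal.mono_exponent le_top
  have hf : MemLp (fun x => l * (c x * (y x - W x)) + K * (y x - W x) + h x) 2 (mm Ω) :=
    (((memLp_mul_top (hΩ.two_of_q hD.hq hD.cq) hal).const_mul l).add (hal2.const_mul K)).add
      (hΩ.two_of_q hD.hq hD.hh)
  obtain ⟨z, Z, hz, he⟩ := solve_trunc hΩ hD.mum hμ hH hB hK hK' hf
  have hz2 : MemLp z 2 (mm Ω) := by
    obtain ⟨_, -, h1, -⟩ := hz.approx hΩ
    exact h1.2.1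
  have hg : MemLp (fun x => (l * (c x * (y x - W x)) + K * (y x - W x) + h x) + μ x * Hk (Z x) -
      K * z x) 2 (mm Ω) := by
    have h1 := ((hD.l2_rhs hΩ l hH.continuous hB hal he.l2.1).add (hal2.const_mul K)).sub
      (hz2.const_mul K)
    refine (memLp_congr_ae (Eventually.of_forall fun x => ?_)).1 h1
    simp only [rhs, Pi.add_apply, Pi.sub_apply]
    ring
  have hΛ : (Λ * μ₂) ^ 2 ≤ 2 * K := by nlinarith [sq_nonneg (Λ * μ₂)]
  have hYF : AEStronglyMeasurable (fun x => Y x - F x) (mm Ω) :=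
    hlow.l2.neg.1.congr (Eventually.of_forall fun x => neg_sub _ _)
  have h1 : ∀ᵐ x ∂mm Ω, y x - z x ≤ W x := by
    refine cmp hΩ (hy.1.sub hΩ hz) hW isCompact_empty (empty_subset _) (fun x hx _ => hW0 x hx)
      ((hlow.add he.ge).congr (Eventually.of_forall fun x => ?_) EventuallyEq.rfl)
      ((hD.l2_rhs hΩ l hH.continuous hB hal hYF).neg.add hg) hΛ ?_
    · show F x - Y x + Z x = F x - (Y x - Z x)
      abel
    · filter_upwards [hμ] with x hx _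
      have h2 := dstep_lip hH hx (Y x - F x) (Z x)
      rw [sub_right_comm] at h2
      simp only [rhs]
      linarith
  have h2 : ∀ᵐ x ∂mm Ω, z x - β x ≤ (fun _ => (0 : ℝ)) x := by
    refine cmp hΩ (hz.sub hΩ hβ.1) (reg_const Ω 0) isCompact_empty (empty_subset _)
      (fun x _ _ => le_rfl)
      ((hup.add he.le).congr (Eventually.of_forall fun x => ?_) EventuallyEq.rfl)
      ((hD.l2_rhs hΩ l hH.continuous hB hβ.2 hup.l2.1).add hg.neg) hΛ ?_
    · show B x + -Z x = 0 - (Z x - B x)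
      abel
    · filter_upwards [hμ, hD.c0, hle] with x hx hc hx' _
      have h3 := dstep_lip hH hx (Z x) (B x)
      have h4 : 0 ≤ l * (c x * (β x - (y x - W x))) :=
        mul_nonneg hl (mul_nonneg hc (sub_nonneg.2 hx'))
      have h5 : K * (y x - W x) ≤ K * β x := mul_le_mul_of_nonneg_left hx' (by linarith)
      simp only [rhs, sub_zero]
      linarith
  have h3 : ∀ᵐ x ∂mm Ω, y x - W x ≤ z x ∧ z x ≤ β x := by
    filter_upwards [h1, h2] with x hx hx'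
    exact ⟨by linarith, by linarith⟩
  obtain ⟨M₁, hM₁, hb₁⟩ := top_bound hal
  obtain ⟨M₂, hM₂, hb₂⟩ := top_bound hβ.2
  have hT : TT Ω z Z := hz.tt (M := M₁ + M₂) (by
    filter_upwards [h3, hb₁, hb₂] with x hx hx1 hx2
    exact abs_le.2 ⟨by linarith [(abs_le.1 hx1).1, hx.1], by linarith [(abs_le.1 hx2).2, hx.2]⟩)
  refine ⟨z, Z, hT, he, h3, he.le.mono'
    ((hD.l2_rhs hΩ l hH.continuous hB hT.2 he.l2.1).integrable one_le_two).neg ?_⟩
  filter_upwards [h3, hD.c0] with x hx hc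
  have h4 : 0 ≤ l * (c x * (z x - (y x - W x))) :=
    mul_nonneg hl (mul_nonneg hc (sub_nonneg.2 hx.1))
  have h5 : K * (y x - W x) ≤ K * z x := mul_le_mul_of_nonneg_left hx.1 (by linarith)
  simp only [rhs]
  linarith

theorem step0 (hΩ : OB Ω) (hD : Dat Ω q c h μ μ₁ μ₂) (hl : 0 ≤ l) (hH : LipschitzWith Λ Hk)
    (hB : ∀ p, |Hk p| ≤ B₀) (hK : 2 ≤ K) (hK' : 2 * (Λ * μ₂) ^ 2 ≤ K) (hy : TT Ω y Y)
    (hlow : WGe Ω (fun x => -Y x) (fun x => -rhs c h μ l Hk y Y x))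
    (hβ : TT Ω β B) (hup : WGe Ω B (rhs c h μ l Hk β B)) (hle : ∀ᵐ x ∂mm Ω, y x ≤ β x) :
    ∃ z Z, TT Ω z Z ∧
      WEq Ω Z (fun x => (l * (c x * y x) + K * y x + h x) + μ x * Hk (Z x) - K * z x) ∧
      (∀ᵐ x ∂mm Ω, y x ≤ z x ∧ z x ≤ β x) ∧
      WGe Ω (fun x => -Z x) (fun x => -rhs c h μ l Hk z Z x) := by
  have := step hΩ hD hl hH hB hK hK' hy (reg_const Ω 0) (fun _ _ => le_rfl)
    (by simpa only [sub_zero, zero_sub] using hlow) hβ hup (by simpa only [sub_zero] using hle)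
  simpa only [sub_zero] using this

end Pool.Agent.P.MP_0cf84d_an
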