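import Pool.Agent.P.MP_0cf84d_an.DLin

/-! The problem with a Lipschitz Hamiltonian. -/

set_option linter.unusedSectionVars false
set_option linter.unusedVariables false

namespace Pool.Agent.P.MP_0cf84d_an

open MeasureTheory Filter Topology Metric Set Module
open scoped RealInnerProductSpace ENNReal NNReal

variable {V : Type*} [NormedAddCommGroup V] [InnerProductSpace ℝ V] [FiniteDimensional ℝ V]
  [MeasurableSpace V] [BorelSpace V] [CompleteSpace V] {Ω : Set V}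

variable {μ f f' z z' : V → ℝ} {Z Z' : V → V} {μ₂ K B₀ : ℝ} {Hk : V → ℝ} {Λ : ℝ≥0}

theorem dtrunc_sq {α : Type*} [MeasurableSpace α] {m : Measure α} {a : α → ℝ}
    (ha : MemLp a 2 m) : Integrable (fun x => a x ^ 2) m :=
  (int_mul ha ha).congr (Eventually.of_forall fun x => (sq (a x)).symm)

theorem lin_stab (hΩ : OB Ω) (hK : 0 < K) (hf : MemLp f 2 (mm Ω)) (hf' : MemLp f' 2 (mm Ω))
    (hz : InH10 Ω z Z) (hz' : InH10 Ω z' Z') (h : WEq Ω Z (fun x => f x - K * z x))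
    (h' : WEq Ω Z' (fun x => f' x - K * z' x)) :
    ∫ x, ‖Z x - Z' x‖ ^ 2 ∂mm Ω + K / 2 * ∫ x, (z x - z' x) ^ 2 ∂mm Ω ≤
      1 / (2 * K) * ∫ x, (f x - f' x) ^ 2 ∂mm Ω := by
  have hw := hz.sub hΩ hz'
  have m1 : MemLp (fun x => f x - K * z x) 2 (mm Ω) := hf.sub (hz.1.const_mul K)
  have m2 : MemLp (fun x => f' x - K * z' x) 2 (mm Ω) := hf'.sub (hz'.1.const_mul K)
  have e1 := h.ext hΩ m1 hw
  have e2 := h'.ext hΩ m2 hw
  have e3 : ∫ x, ‖Z x - Z' x‖ ^ 2 ∂mm Ω =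
      ∫ x, ⟪Z x, Z x - Z' x⟫ ∂mm Ω - ∫ x, ⟪Z' x, Z x - Z' x⟫ ∂mm Ω := by
    rw [← integral_sub (int_inner hz.2.1 hw.2.1) (int_inner hz'.2.1 hw.2.1)]
    refine integral_congr_ae (Eventually.of_forall fun x => ?_)
    simp only
    rw [← inner_sub_left, real_inner_self_eq_norm_sq]
  have i1 := int_mul m1 hw.1
  have i2 := int_mul m2 hw.1
  have i3 : Integrable (fun x => K / 2 * (z x - z' x) ^ 2) (mm Ω) := (dtrunc_sq hw.1).const_mul _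
  have i4 : Integrable (fun x => (f x - K * z x) * (z x - z' x) - (f' x - K * z' x) * (z x - z' x))
      (mm Ω) := i1.sub i2
  have i5 : Integrable (fun x => 1 / (2 * K) * (f x - f' x) ^ 2) (mm Ω) :=
    (dtrunc_sq (a := fun x => f x - f' x) (hf.sub hf')).const_mul _
  rw [e3, e1, e2, ← integral_sub i1 i2, ← integral_const_mul, ← integral_const_mul,
    ← integral_add i4 i3]
  refine integral_mono (i4.add i3) i5 fun x => ?_
  have e : 1 / (2 * K) * (f x - f' x) ^ 2 - ((f x - K * z x) * (z x - z' x) -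
      (f' x - K * z' x) * (z x - z' x) + K / 2 * (z x - z' x) ^ 2) =
      (f x - f' x - K * (z x - z' x)) ^ 2 / (2 * K) := by
    field_simp
    ring
  have := div_nonneg (sq_nonneg (f x - f' x - K * (z x - z' x))) (by linarith : 0 ≤ 2 * K)
  simp only
  linarith

theorem dtrunc_mem (hΩ : OB Ω) (hμm : AEStronglyMeasurable μ (mm Ω))
    (hμ : ∀ᵐ x ∂mm Ω, |μ x| ≤ μ₂) (hH : LipschitzWith Λ Hk) (hB : ∀ p, |Hk p| ≤ B₀)
    (hZ : MemLp Z 2 (mm Ω)) : MemLp (fun x => μ x * Hk (Z x)) 2 (mm Ω) := by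
  have := hΩ.fin
  refine MemLp.of_bound (hμm.mul (hH.continuous.comp_aestronglyMeasurable hZ.1)) (μ₂ * B₀)
    (hμ.mono fun x hx => ?_)
  rw [Real.norm_eq_abs, abs_mul]
  exact mul_le_mul hx (hB _) (abs_nonneg _) ((abs_nonneg _).trans hx)

theorem dtrunc_pt (hμ : ∀ᵐ x ∂mm Ω, |μ x| ≤ μ₂) (hH : LipschitzWith Λ Hk) (Z Z' : V → V) :
    ∀ᵐ x ∂mm Ω, ‖μ x * Hk (Z x) - μ x * Hk (Z' x)‖ ≤ Λ * μ₂ * ‖Z x - Z' x‖ :=
  hμ.mono fun x hx => by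
    have h1 := hH.dist_le_mul (Z x) (Z' x)
    rw [Real.dist_eq, dist_eq_norm] at h1
    rw [Real.norm_eq_abs, ← mul_sub, abs_mul, mul_comm (Λ : ℝ), mul_assoc]
    exact mul_le_mul hx h1 (abs_nonneg _) ((abs_nonneg _).trans hx)

theorem dtrunc_int (hΩ : OB Ω) (hμm : AEStronglyMeasurable μ (mm Ω))
    (hμ : ∀ᵐ x ∂mm Ω, |μ x| ≤ μ₂) (hH : LipschitzWith Λ Hk) (hB : ∀ p, |Hk p| ≤ B₀)
    (hf : MemLp f 2 (mm Ω)) (hf' : MemLp f' 2 (mm Ω)) (hZ : MemLp Z 2 (mm Ω))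
    (hZ' : MemLp Z' 2 (mm Ω)) {s t : ℝ} (ht : 0 ≤ t)
    (hst : ∀ x (b : ℝ), (f x - f' x + b) ^ 2 ≤ s * (f x - f' x) ^ 2 + t * b ^ 2) :
    ∫ x, (f x + μ x * Hk (Z x) - (f' x + μ x * Hk (Z' x))) ^ 2 ∂mm Ω ≤
      s * ∫ x, (f x - f' x) ^ 2 ∂mm Ω + t * (Λ * μ₂) ^ 2 * ∫ x, ‖Z x - Z' x‖ ^ 2 ∂mm Ω := by
  have i1 : Integrable (fun x => s * (f x - f' x) ^ 2) (mm Ω) :=
    (dtrunc_sq (a := fun x => f x - f' x) (hf.sub hf')).const_mul _
  have i2 : Integrable (fun x => t * (Λ * μ₂) ^ 2 * ‖Z x - Z' x‖ ^ 2) (mm Ω) :=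
    (int_sq (g := fun x => Z x - Z' x) (hZ.sub hZ')).const_mul _
  rw [← integral_const_mul, ← integral_const_mul, ← integral_add i1 i2]
  refine integral_mono_ae (dtrunc_sq
    (a := fun x => f x + μ x * Hk (Z x) - (f' x + μ x * Hk (Z' x)))
    ((hf.add (dtrunc_mem hΩ hμm hμ hH hB hZ)).sub (hf'.add (dtrunc_mem hΩ hμm hμ hH hB hZ'))))
    (i1.add i2) ((dtrunc_pt hμ hH Z Z').mono fun x hx => ?_)
  have h1 := hst x (μ x * Hk (Z x) - μ x * Hk (Z' x))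
  have h2 := pow_le_pow_left₀ (norm_nonneg _) hx 2
  rw [Real.norm_eq_abs, sq_abs, mul_pow] at h2
  have h3 := mul_le_mul_of_nonneg_left h2 ht
  have e : f x + μ x * Hk (Z x) - (f' x + μ x * Hk (Z' x)) =
      f x - f' x + (μ x * Hk (Z x) - μ x * Hk (Z' x)) := by ring
  simp only [e]
  linarith

theorem trunc_stab (hΩ : OB Ω) (hμm : AEStronglyMeasurable μ (mm Ω))
    (hμ : ∀ᵐ x ∂mm Ω, |μ x| ≤ μ₂) (hH : LipschitzWith Λ Hk) (hB : ∀ p, |Hk p| ≤ B₀) (hK : 2 ≤ K)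
    (hK' : 2 * (Λ * μ₂) ^ 2 ≤ K) (hf : MemLp f 2 (mm Ω)) (hf' : MemLp f' 2 (mm Ω))
    (hz : InH10 Ω z Z) (hz' : InH10 Ω z' Z')
    (h : WEq Ω Z (fun x => f x + μ x * Hk (Z x) - K * z x))
    (h' : WEq Ω Z' (fun x => f' x + μ x * Hk (Z' x) - K * z' x)) :
    ∫ x, ‖Z x - Z' x‖ ^ 2 ∂mm Ω ≤ ∫ x, (f x - f' x) ^ 2 ∂mm Ω := by
  have hK0 : 0 < K := by linarith
  have h1 := lin_stab (f := fun x => f x + μ x * Hk (Z x)) (f' := fun x => f' x + μ x * Hk (Z' x))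
    hΩ hK0 (hf.add (dtrunc_mem hΩ hμm hμ hH hB hz.2.1))
    (hf'.add (dtrunc_mem hΩ hμm hμ hH hB hz'.2.1)) hz hz' h h'
  have h2 := dtrunc_int hΩ hμm hμ hH hB hf hf' hz.2.1 hz'.2.1 (s := 2) (t := 2) two_pos.le
    fun x b => by nlinarith [sq_nonneg (f x - f' x - b)]
  have p1 : 0 ≤ ∫ x, ‖Z x - Z' x‖ ^ 2 ∂mm Ω := integral_nonneg fun x => sq_nonneg _
  have p2 : 0 ≤ ∫ x, (z x - z' x) ^ 2 ∂mm Ω := integral_nonneg fun x => sq_nonneg _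
  have p3 : 0 ≤ ∫ x, (f x - f' x) ^ 2 ∂mm Ω := integral_nonneg fun x => sq_nonneg _
  generalize ∫ x, ‖Z x - Z' x‖ ^ 2 ∂mm Ω = A at *
  generalize ∫ x, (z x - z' x) ^ 2 ∂mm Ω = B at *
  generalize ∫ x, (f x - f' x) ^ 2 ∂mm Ω = C at *
  generalize ∫ x, (f x + μ x * Hk (Z x) - (f' x + μ x * Hk (Z' x))) ^ 2 ∂mm Ω = D at *
  rw [one_div, inv_mul_eq_div, le_div_iff₀ (by linarith)] at h1
  have h3 := mul_le_mul_of_nonneg_right hK' p1
  have h4 := mul_le_mul_of_nonneg_right hK p3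
  have h5 := mul_nonneg (mul_nonneg hK0.le hK0.le) p2
  refine le_of_mul_le_mul_left (?_ : K * A ≤ K * C) hK0
  nlinarith

theorem dtrunc_geo {α E : Type*} [MeasurableSpace α] {m : Measure α} [NormedAddCommGroup E]
    [CompleteSpace E] {F : ℕ → α → E} (hF : ∀ n, MemLp (F n) 2 m) {C : ℝ}
    (h : ∀ n, ∫ x, ‖F (n + 1) x - F n x‖ ^ 2 ∂m ≤ C * (1 / 4) ^ n) : ∃ g, L2T m F g := by
  have i0 : ∀ i j, Integrable (fun x => ‖F i x - F j x‖ ^ 2) m := fun i j =>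
    int_sq (g := fun x => F i x - F j x) ((hF i).sub (hF j))
  have hC : 0 ≤ C := by
    have := (integral_nonneg fun x => sq_nonneg _).trans (h 0)
    simpa using this
  have key : ∀ k i, ∫ x, ‖F (i + k) x - F i x‖ ^ 2 ∂m ≤ 4 * C * (1 / 4) ^ i := by
    intro k
    induction k with
    | zero =>
      intro i
      simp only [add_zero, sub_self, norm_zero, ne_eq, OfNat.ofNat_ne_zero, not_false_eq_true,
        zero_pow, integral_zero]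
      positivity
    | succ k ih =>
      intro i
      have h1 := ih (i + 1)
      have h2 := h i
      have h3 : ∫ x, ‖F (i + (k + 1)) x - F i x‖ ^ 2 ∂m ≤
          2 * ∫ x, ‖F (i + 1 + k) x - F (i + 1) x‖ ^ 2 ∂m +
            2 * ∫ x, ‖F (i + 1) x - F i x‖ ^ 2 ∂m := by
        rw [← integral_const_mul, ← integral_const_mul,
          ← integral_add ((i0 _ _).const_mul 2) ((i0 _ _).const_mul 2),
          show i + (k + 1) = i + 1 + k by ring]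
        refine integral_mono (i0 _ _) (((i0 _ _).const_mul 2).add ((i0 _ _).const_mul 2))
          fun x => ?_
        have h4 := pow_le_pow_left₀ (norm_nonneg _)
          (norm_sub_le_norm_sub_add_norm_sub (F (i + 1 + k) x) (F (i + 1) x) (F i x)) 2
        simp only
        nlinarith [sq_nonneg (‖F (i + 1 + k) x - F (i + 1) x‖ - ‖F (i + 1) x - F i x‖)]
      rw [pow_succ (1 / 4 : ℝ)] at h1
      linarith
  refine exists_l2t hF fun ε hε => ?_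
  have ht : Tendsto (fun i : ℕ => 4 * C * (1 / 4 : ℝ) ^ i) atTop (𝓝 (4 * C * 0)) :=
    (tendsto_pow_atTop_nhds_zero_of_lt_one (by norm_num) (by norm_num)).const_mul _
  rw [mul_zero] at ht
  obtain ⟨N, hN⟩ := eventually_atTop.1 (ht.eventually (gt_mem_nhds hε))
  refine ⟨N, fun i j hi hij => ?_⟩
  obtain ⟨k, rfl⟩ := Nat.exists_eq_add_of_le hij
  exact (key k i).trans (hN i hi).le

theorem solve_trunc (hΩ : OB Ω) (hμm : AEStronglyMeasurable μ (mm Ω))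
    (hμ : ∀ᵐ x ∂mm Ω, |μ x| ≤ μ₂) (hH : LipschitzWith Λ Hk) (hB : ∀ p, |Hk p| ≤ B₀) (hK : 2 ≤ K)
    (hK' : 2 * (Λ * μ₂) ^ 2 ≤ K) (hf : MemLp f 2 (mm Ω)) :
    ∃ z Z, InH10 Ω z Z ∧ WEq Ω Z (fun x => f x + μ x * Hk (Z x) - K * z x) := by
  have := hΩ.fin
  have hK0 : 0 < K := by linarith
  have hm : ∀ {Z : V → V}, MemLp Z 2 (mm Ω) → MemLp (fun x => f x + μ x * Hk (Z x)) 2 (mm Ω) :=
    fun hZ => hf.add (dtrunc_mem hΩ hμm hμ hH hB hZ)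
  obtain ⟨y, S, hS, h1, h2⟩ : ∃ (y : ℕ → V → ℝ) (S : ℕ → V → V), (∀ n, MemLp (S n) 2 (mm Ω)) ∧
      (∀ n, InH10 Ω (y n) (S (n + 1))) ∧
      ∀ n, WEq Ω (S (n + 1)) fun x => f x + μ x * Hk (S n x) - K * y n x := by
    choose y Y hy hY using fun Z : {Z : V → V // MemLp Z 2 (mm Ω)} => solve_lin hΩ hK0.le (hm Z.2)
    obtain ⟨S, hS⟩ : ∃ S : ℕ → {Z : V → V // MemLp Z 2 (mm Ω)}, ∀ n, (S (n + 1)).1 = Y (S n) :=
      ⟨fun n => Nat.rec ⟨0, MemLp.zero⟩ (fun _ Z => ⟨Y Z, (hy Z).2.1⟩) n, fun _ => rfl⟩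
    exact ⟨fun n => y (S n), fun n => (S n).1, fun n => (S n).2, fun n => by
      simpa only [hS] using hy (S n), fun n => by simpa only [hS] using hY (S n)⟩
  have st : ∀ n, ∫ x, ‖S (n + 2) x - S (n + 1) x‖ ^ 2 ∂mm Ω +
      ∫ x, ‖y (n + 1) x - y n x‖ ^ 2 ∂mm Ω ≤ (∫ x, ‖S (n + 1) x - S n x‖ ^ 2 ∂mm Ω) / 4 := by
    intro n
    have a1 := lin_stab hΩ hK0 (hm (hS (n + 1))) (hm (hS n)) (h1 (n + 1)) (h1 n) (h2 (n + 1)) (h2 n)
    have a2 := dtrunc_int hΩ hμm hμ hH hB hf hf (hS (n + 1)) (hS n) (s := 0) (t := 1) one_pos.le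
      fun x b => by simp
    have p1 : 0 ≤ ∫ x, ‖S (n + 1) x - S n x‖ ^ 2 ∂mm Ω := integral_nonneg fun x => sq_nonneg _
    have p2 : 0 ≤ ∫ x, (y (n + 1) x - y n x) ^ 2 ∂mm Ω := integral_nonneg fun x => sq_nonneg _
    simp only [Real.norm_eq_abs, sq_abs]
    rw [zero_mul, zero_add, one_mul] at a2
    generalize ∫ x, ‖S (n + 1) x - S n x‖ ^ 2 ∂mm Ω = A at *
    generalize ∫ x, (y (n + 1) x - y n x) ^ 2 ∂mm Ω = B at *
    generalize ∫ x, ‖S (n + 2) x - S (n + 1) x‖ ^ 2 ∂mm Ω = C at *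
    generalize ∫ x, (f x + μ x * Hk (S (n + 1) x) - (f x + μ x * Hk (S n x))) ^ 2 ∂mm Ω = D at *
    rw [one_div, inv_mul_eq_div, le_div_iff₀ (by linarith)] at a1
    have a3 := mul_le_mul_of_nonneg_right hK' p1
    have a4 := mul_le_mul_of_nonneg_left (mul_le_mul_of_nonneg_right hK p2) hK0.le
    refine le_of_mul_le_mul_left (?_ : K * (C + B) ≤ K * (A / 4)) hK0
    nlinarith
  have g1 : ∀ n, ∫ x, ‖S (n + 1) x - S n x‖ ^ 2 ∂mm Ω ≤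
      (∫ x, ‖S 1 x - S 0 x‖ ^ 2 ∂mm Ω) * (1 / 4) ^ n := by
    intro n
    induction n with
    | zero => simp
    | succ n ih =>
      have p : 0 ≤ ∫ x, ‖y (n + 1) x - y n x‖ ^ 2 ∂mm Ω := integral_nonneg fun x => sq_nonneg _
      rw [pow_succ (1 / 4 : ℝ)]
      linarith [st n]
  have g2 : ∀ n, ∫ x, ‖y (n + 1) x - y n x‖ ^ 2 ∂mm Ω ≤
      (∫ x, ‖S 1 x - S 0 x‖ ^ 2 ∂mm Ω) * (1 / 4) ^ n := fun n => by
    have p : 0 ≤ ∫ x, ‖S (n + 2) x - S (n + 1) x‖ ^ 2 ∂mm Ω := integral_nonneg fun x => sq_nonneg _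
    have p' : 0 ≤ ∫ x, ‖S (n + 1) x - S n x‖ ^ 2 ∂mm Ω := integral_nonneg fun x => sq_nonneg _
    linarith [st n, g1 n]
  obtain ⟨Z, hZ⟩ := dtrunc_geo hS g1
  obtain ⟨z, hz⟩ := dtrunc_geo (fun n => (h1 n).1) g2
  have hZ1 := hZ.comp (tendsto_add_atTop_nat 1)
  have l1 : L2T (mm Ω) (fun n x => μ x * Hk (S n x)) fun x => μ x * Hk (Z x) :=
    hZ.of_le (fun n => dtrunc_mem hΩ hμm hμ hH hB (hS n)) (dtrunc_mem hΩ hμm hμ hH hB hZ.2.1)
      (Λ * μ₂) fun n => dtrunc_pt hμ hH (S n) Z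
  have l2 : L2T (mm Ω) (fun n x => K * y n x) fun x => K * z x :=
    hz.of_le (fun n => (hz.1 n).const_mul K) (hz.2.1.const_mul K) K fun n =>
      Eventually.of_forall fun x => by
        rw [← mul_sub, norm_mul, Real.norm_of_nonneg hK0.le]
  have l3 := ((l2t_const hf).add l1).sub l2
  refine ⟨z, Z, inH10_limit hΩ h1 hz hZ1, hZ.2.1, l3.2.1.integrable one_le_two, fun v H hv => ?_⟩
  exact tendsto_nhds_unique (hZ1.inner (l2t_const hv.1.2.1))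
    ((l3.mul (l2t_const hv.1.1)).congr fun n => ((h2 n).eq v H hv).symm)

end Pool.Agent.P.MP_0cf84d_an
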