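import Pool.Agent.P.MP_0cf84d_an.DChain

/-! Weak inequalities. -/

set_option linter.unusedSectionVars false
set_option linter.unusedVariables false

namespace Pool.Agent.P.MP_0cf84d_an

open MeasureTheory Filter Topology Metric Set Module
open scoped RealInnerProductSpace ENNReal NNReal

variable {V : Type*} [NormedAddCommGroup V] [InnerProductSpace ℝ V] [FiniteDimensional ℝ V]
  [MeasurableSpace V] [BorelSpace V] [CompleteSpace V] {Ω : Set V}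

variable {u v f f' : V → ℝ} {G G' H D : V → V}

theorem dwg_c1 (h1 : G =ᵐ[mm Ω] G') (H : V → V) :
    ∫ x, ⟪G x, H x⟫ ∂mm Ω = ∫ x, ⟪G' x, H x⟫ ∂mm Ω :=
  integral_congr_ae (h1.mono fun x hx => by simp only [hx])

theorem dwg_c2 (h2 : f =ᵐ[mm Ω] f') (v : V → ℝ) :
    ∫ x, f x * v x ∂mm Ω = ∫ x, f' x * v x ∂mm Ω :=
  integral_congr_ae (h2.mono fun x hx => by simp only [hx])

theorem dwg_a1 (h : MemLp G 2 (mm Ω)) (h' : MemLp G' 2 (mm Ω)) (hH : MemLp H 2 (mm Ω)) :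
    ∫ x, ⟪G x + G' x, H x⟫ ∂mm Ω = ∫ x, ⟪G x, H x⟫ ∂mm Ω + ∫ x, ⟪G' x, H x⟫ ∂mm Ω := by
  simp only [inner_add_left]
  exact integral_add (int_inner h hH) (int_inner h' hH)

theorem dwg_a2 (h : Integrable f (mm Ω)) (h' : Integrable f' (mm Ω)) (hv : MemLp v ⊤ (mm Ω)) :
    ∫ x, (f x + f' x) * v x ∂mm Ω = ∫ x, f x * v x ∂mm Ω + ∫ x, f' x * v x ∂mm Ω := by
  simp only [add_mul]
  exact integral_add (int_mul_top h hv) (int_mul_top h' hv)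

theorem WGe.mono_dwg (h : WGe Ω G f) (hf : Integrable f' (mm Ω))
    (hle : ∀ᵐ x ∂mm Ω, f' x ≤ f x) : WGe Ω G f' := by
  refine ⟨h.l2, hf, fun v H hv h0 => le_trans ?_ (h.le v H hv h0)⟩
  refine integral_mono_ae (int_mul_top hf hv.2) (int_mul_top h.l1 hv.2) ?_
  filter_upwards [hle, h0] with x h1 h2 using mul_le_mul_of_nonneg_right h1 h2

theorem WEq.ge (h : WEq Ω G f) : WGe Ω G f :=
  ⟨h.l2, h.l1, fun v H hv _ => (h.eq v H hv).ge⟩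

theorem WEq.le (h : WEq Ω G f) : WGe Ω (fun x => -G x) (fun x => -f x) := by
  refine ⟨h.l2.neg, h.l1.neg, fun v H hv _ => le_of_eq ?_⟩
  simp only [neg_mul, inner_neg_left, integral_neg, h.eq v H hv]

theorem WGe.mono (h : WGe Ω G f) (hf : AEStronglyMeasurable f' (mm Ω)) {b : V → ℝ}
    (hb : Integrable b (mm Ω)) (hle : ∀ᵐ x ∂mm Ω, b x ≤ f' x ∧ f' x ≤ f x) : WGe Ω G f' := by
  refine h.mono_dwg ?_ (hle.mono fun x hx => hx.2)
  refine (hb.norm.add h.l1.norm).mono' hf (hle.mono fun x hx => ?_)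
  simp only [Pi.add_apply, Real.norm_eq_abs]
  have h1 := le_abs_self (f x)
  have h2 := neg_abs_le (b x)
  have h3 := abs_nonneg (f x)
  have h4 := abs_nonneg (b x)
  exact abs_le.2 ⟨by linarith [hx.1], by linarith [hx.2]⟩

theorem WGe.mono' (h : WGe Ω G f) (hf : Integrable f' (mm Ω)) (hle : ∀ᵐ x ∂mm Ω, f' x ≤ f x) :
    WGe Ω G f' := h.mono_dwg hf hle

theorem WGe.congr (h : WGe Ω G f) (h1 : G =ᵐ[mm Ω] G') (h2 : f =ᵐ[mm Ω] f') : WGe Ω G' f' := by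
  refine ⟨h.l2.ae_eq h1, h.l1.congr h2, fun v H hv h0 => ?_⟩
  rw [← dwg_c1 h1 H, ← dwg_c2 h2 v]
  exact h.le v H hv h0

theorem WGe.add (h : WGe Ω G f) (h' : WGe Ω G' f') :
    WGe Ω (fun x => G x + G' x) (fun x => f x + f' x) := by
  refine ⟨h.l2.add h'.l2, h.l1.add h'.l1, fun v H hv h0 => ?_⟩
  rw [dwg_a1 h.l2 h'.l2 hv.1.2.1, dwg_a2 h.l1 h'.l1 hv.2]
  exact add_le_add (h.le v H hv h0) (h'.le v H hv h0)

theorem WGe.smul (h : WGe Ω G f) {a : ℝ} (ha : 0 ≤ a) :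
    WGe Ω (fun x => a • G x) (fun x => a * f x) := by
  refine ⟨h.l2.const_smul a, h.l1.const_mul a, fun v H hv h0 => ?_⟩
  simp only [real_inner_smul_left, mul_assoc, integral_const_mul]
  exact mul_le_mul_of_nonneg_left (h.le v H hv h0) ha

theorem WEq.congr (h : WEq Ω G f) (h1 : G =ᵐ[mm Ω] G') (h2 : f =ᵐ[mm Ω] f') : WEq Ω G' f' := by
  refine ⟨h.l2.ae_eq h1, h.l1.congr h2, fun v H hv => ?_⟩
  rw [← dwg_c1 h1 H, ← dwg_c2 h2 v]
  exact h.eq v H hv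

theorem WEq.add (h : WEq Ω G f) (h' : WEq Ω G' f') :
    WEq Ω (fun x => G x + G' x) (fun x => f x + f' x) := by
  refine ⟨h.l2.add h'.l2, h.l1.add h'.l1, fun v H hv => ?_⟩
  rw [dwg_a1 h.l2 h'.l2 hv.1.2.1, dwg_a2 h.l1 h'.l1 hv.2, h.eq v H hv, h'.eq v H hv]

theorem WEq.smul (h : WEq Ω G f) (a : ℝ) : WEq Ω (fun x => a • G x) (fun x => a * f x) := by
  refine ⟨h.l2.const_smul a, h.l1.const_mul a, fun v H hv => ?_⟩
  simp only [real_inner_smul_left, mul_assoc, integral_const_mul]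
  rw [h.eq v H hv]

/-- multiplication by a nonnegative function of `u` -/
theorem WGe.mul (hΩ : OB Ω) (h : WGe Ω G f) (hu : TT Ω u D) {a b : ℝ} (ha : a ≤ 0) (hb : 0 ≤ b)
    (hab : ∀ᵐ x ∂mm Ω, u x ∈ Icc a b) {ψ ψ' : ℝ → ℝ} (hψ : ∀ s ∈ Icc a b, HasDerivAt ψ (ψ' s) s)
    (hψ' : ContinuousOn ψ' (Icc a b)) (h0 : ∀ s ∈ Icc a b, 0 ≤ ψ s) :
    WGe Ω (fun x => ψ (u x) • G x) (fun x => ψ (u x) * f x - ψ' (u x) * ⟪G x, D x⟫) := by
  have hm : AEStronglyMeasurable u (mm Ω) := hu.2.1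
  have t1 : MemLp (fun x => ψ (u x)) ⊤ (mm Ω) :=
    memLp_top_comp hm hab fun s hs => (hψ s hs).continuousAt.continuousWithinAt
  have t2 : MemLp (fun x => ψ' (u x)) ⊤ (mm Ω) := memLp_top_comp hm hab hψ'
  have i1 : Integrable (fun x => ψ (u x) * f x) (mm Ω) :=
    (int_mul_top h.l1 t1).congr (Eventually.of_forall fun x => mul_comm _ _)
  have i2 : Integrable (fun x => ψ' (u x) * ⟪G x, D x⟫) (mm Ω) :=
    (int_mul_top (int_inner h.l2 hu.1.2.1) t2).congr (Eventually.of_forall fun x => mul_comm _ _)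
  have g2 : MemLp (fun x => ψ (u x) • G x) 2 (mm Ω) := memLp_top_smul t1 h.l2
  refine ⟨g2, i1.sub i2, fun v H hv hv0 => ?_⟩
  have c1 : TT Ω (fun x => ψ (u x) - ψ 0) (fun x => ψ' (u x) • D x) :=
    chain1 hΩ hu ha hb hab hψ hψ'
  have c2 : TT Ω (fun x => ψ (u x) * v x) (fun x => ψ (u x) • H x + v x • ψ' (u x) • D x) := by
    refine ((c1.mul hΩ hv).add hΩ (hv.smul hΩ (ψ 0))).congr
      (Eventually.of_forall fun x => ?_) (Eventually.of_forall fun x => ?_)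
    · ring
    · simp only [sub_smul]
      abel
  have p0 : ∀ᵐ x ∂mm Ω, 0 ≤ ψ (u x) * v x := by
    filter_upwards [hab, hv0] with x h1 h2 using mul_nonneg (h0 _ h1) h2
  have key := h.le _ _ c2 p0
  have j1 : Integrable (fun x => ψ (u x) * f x * v x) (mm Ω) := int_mul_top i1 hv.2
  have j2 : Integrable (fun x => ψ' (u x) * ⟪G x, D x⟫ * v x) (mm Ω) := int_mul_top i2 hv.2
  have j3 : Integrable (fun x => ⟪ψ (u x) • G x, H x⟫) (mm Ω) := int_inner g2 hv.1.2.1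
  have e1 : ∫ x, (ψ (u x) * f x - ψ' (u x) * ⟪G x, D x⟫) * v x ∂mm Ω =
      ∫ x, ψ (u x) * f x * v x ∂mm Ω - ∫ x, ψ' (u x) * ⟪G x, D x⟫ * v x ∂mm Ω := by
    rw [← integral_sub j1 j2]
    exact integral_congr_ae (Eventually.of_forall fun x => sub_mul _ _ _)
  have e2 : ∫ x, f x * (ψ (u x) * v x) ∂mm Ω = ∫ x, ψ (u x) * f x * v x ∂mm Ω :=
    integral_congr_ae (Eventually.of_forall fun x => by ring)
  have e3 : ∫ x, ⟪G x, ψ (u x) • H x + v x • ψ' (u x) • D x⟫ ∂mm Ω =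
      ∫ x, ⟪ψ (u x) • G x, H x⟫ ∂mm Ω + ∫ x, ψ' (u x) * ⟪G x, D x⟫ * v x ∂mm Ω := by
    rw [← integral_add j3 j2]
    refine integral_congr_ae (Eventually.of_forall fun x => ?_)
    simp only [inner_add_right, real_inner_smul_right, real_inner_smul_left]
    ring
  rw [e1]
  rw [e2, e3] at key
  linarith

theorem WGe.ext (hΩ : OB Ω) (h : WGe Ω G f) (hf : MemLp f 2 (mm Ω)) (hv : InH10 Ω v H)
    (h0 : ∀ᵐ x ∂mm Ω, 0 ≤ v x) : ∫ x, f x * v x ∂mm Ω ≤ ∫ x, ⟪G x, H x⟫ ∂mm Ω := by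
  obtain ⟨w, E, h1, h2, h3, h4⟩ := trunc hΩ hv h0
  exact le_of_tendsto_of_tendsto' ((l2t_const hf).mul h3) ((l2t_const h.l2).inner h4)
    fun n => h.le _ _ (h1 n) (h2 n)

variable {q μ₁ μ₂ : ℝ} {c h μ : V → ℝ}

theorem Dat.mu_top (hD : Dat Ω q c h μ μ₁ μ₂) : MemLp μ ⊤ (mm Ω) := by
  refine memLp_top_of_bound hD.mum μ₂ (hD.mu.mono fun x hx => ?_)
  have := hD.pos
  have := hD.le
  exact abs_le.2 ⟨by linarith [hx.1], hx.2⟩

theorem dwg_int (hΩ : OB Ω) (hD : Dat Ω q c h μ μ₁ μ₂) (hu : MemLp u ⊤ (mm Ω))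
    (hG : MemLp G 2 (mm Ω)) : Integrable (fun x => c x * u x) (mm Ω) ∧
      Integrable (fun x => μ x * ‖G x‖ ^ 2) (mm Ω) ∧ Integrable h (mm Ω) := by
  have := hΩ.fin
  refine ⟨int_mul_top ((hΩ.two_of_q hD.hq hD.cq).integrable one_le_two) hu, ?_,
    (hΩ.two_of_q hD.hq hD.hh).integrable one_le_two⟩
  exact (int_mul_top (int_sq hG) hD.mu_top).congr (Eventually.of_forall fun x => mul_comm _ _)

theorem Dat.int_rhs (hΩ : OB Ω) (hD : Dat Ω q c h μ μ₁ μ₂) (l : ℝ) (hu : MemLp u ⊤ (mm Ω))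
    (hG : MemLp G 2 (mm Ω)) : Integrable (rhs c h μ l H2 u G) (mm Ω) := by
  obtain ⟨i1, i2, i3⟩ := dwg_int hΩ hD hu hG
  exact ((i1.const_mul l).add i2).add i3

theorem Dat.l2_rhs (hΩ : OB Ω) (hD : Dat Ω q c h μ μ₁ μ₂) (l : ℝ) {Hk : V → ℝ}
    (hH : Continuous Hk) {B₀ : ℝ} (hB : ∀ p, |Hk p| ≤ B₀) (hu : MemLp u ⊤ (mm Ω))
    (hG : AEStronglyMeasurable G (mm Ω)) : MemLp (rhs c h μ l Hk u G) 2 (mm Ω) := by
  have := hΩ.fin
  have m1 : MemLp (fun x => c x * u x) 2 (mm Ω) := memLp_mul_top (hΩ.two_of_q hD.hq hD.cq) hu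
  have m2 : MemLp (fun x => Hk (G x)) ⊤ (mm Ω) :=
    memLp_top_of_bound (hH.comp_aestronglyMeasurable hG) B₀ (Eventually.of_forall fun x => hB _)
  have m3 : MemLp (fun x => μ x * Hk (G x)) 2 (mm Ω) :=
    memLp_mul_top (hD.mu_top.mono_exponent le_top) m2
  exact ((m1.const_mul l).add m3).add (hΩ.two_of_q hD.hq hD.hh)

theorem Dat.isSol_iff (hΩ : OB Ω) (hD : Dat Ω q c h μ μ₁ μ₂) (l : ℝ) :
    IsSol Ω c h μ l u ↔ ∃ G, TT Ω u G ∧ WEq Ω G (rhs c h μ l H2 u G) := by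
  have key : ∀ G, TT Ω u G → ∀ v : V → ℝ, MemLp v ⊤ (mm Ω) →
      ∫ x, rhs c h μ l H2 u G x * v x ∂mm Ω = l * (∫ x, c x * u x * v x ∂mm Ω)
        + (∫ x, μ x * ‖G x‖ ^ 2 * v x ∂mm Ω) + ∫ x, h x * v x ∂mm Ω := by
    intro G hG v hv
    obtain ⟨i1, i2, i3⟩ := dwg_int hΩ hD hG.2 hG.1.2.1
    have j1 : Integrable (fun x => l * (c x * u x * v x)) (mm Ω) :=
      (int_mul_top i1 hv).const_mul l
    have j2 : Integrable (fun x => μ x * ‖G x‖ ^ 2 * v x) (mm Ω) := int_mul_top i2 hv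
    have j3 : Integrable (fun x => h x * v x) (mm Ω) := int_mul_top i3 hv
    have j4 : Integrable (fun x => l * (c x * u x * v x) + μ x * ‖G x‖ ^ 2 * v x) (mm Ω) :=
      j1.add j2
    rw [← integral_const_mul, ← integral_add j1 j2, ← integral_add j4 j3]
    refine integral_congr_ae (Eventually.of_forall fun x => ?_)
    simp only [rhs, H2]
    ring
  constructor
  · rintro ⟨h1, G, h2, h3⟩
    refine ⟨G, ⟨h2, h1⟩, h2.2.1, hD.int_rhs hΩ l h1 h2.2.1, fun v H hv => ?_⟩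
    rw [key G ⟨h2, h1⟩ v hv.2]
    exact h3 v H hv.1 hv.2
  · rintro ⟨G, h1, h2⟩
    refine ⟨h1.2, G, h1.1, fun v H hv hv' => ?_⟩
    rw [← key G h1 v hv']
    exact h2.eq v H ⟨hv, hv'⟩

end Pool.Agent.P.MP_0cf84d_an
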