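import Mathlib

namespace Pool.Agent.P.MP_0cf84d_an

open MeasureTheory Filter Topology

variable {V : Type*} [NormedAddCommGroup V] [InnerProductSpace ℝ V] [FiniteDimensional ℝ V]
  [MeasurableSpace V] [BorelSpace V]

/-- `u` belongs to `H^1_0(Ω)` with weak gradient `G`. -/
def InH10 (Ω : Set V) (u : V → ℝ) (G : V → V) : Prop :=
  MemLp u 2 (volume.restrict Ω) ∧ MemLp G 2 (volume.restrict Ω) ∧
    ∃ φ : ℕ → V → ℝ,
      (∀ n, ContDiff ℝ (⊤ : ℕ∞) (φ n) ∧ HasCompactSupport (φ n) ∧ tsupport (φ n) ⊆ Ω) ∧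
      Tendsto (fun n => eLpNorm (φ n - u) 2 (volume.restrict Ω)) atTop (𝓝 0) ∧
      Tendsto (fun n => eLpNorm (@gradient ℝ V _ _ _ (FiniteDimensional.complete ℝ V) (φ n) - G) 2
        (volume.restrict Ω)) atTop (𝓝 0)

/-- `u` is a weak solution of `(P_lam)` in `H^1_0 ∩ L^∞`. -/
def IsSol (Ω : Set V) (c h μ : V → ℝ) (lam : ℝ) (u : V → ℝ) : Prop :=
  MemLp u ⊤ (volume.restrict Ω) ∧ ∃ G, InH10 Ω u G ∧
    ∀ v H, InH10 Ω v H → MemLp v ⊤ (volume.restrict Ω) →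
      ∫ x in Ω, inner ℝ (G x) (H x) = lam * (∫ x in Ω, c x * u x * v x)
        + (∫ x in Ω, μ x * ‖G x‖ ^ 2 * v x) + ∫ x in Ω, h x * v x

/-- the conditions of assumption (A) on the coefficients -/
def CondA (Ω : Set V) (p : ENNReal) (c h μ : V → ℝ) : Prop :=
  MemLp c p (volume.restrict Ω) ∧ MemLp h p (volume.restrict Ω) ∧
    (∀ᵐ x ∂(volume.restrict Ω), 0 ≤ c x) ∧ ¬ (c =ᵐ[volume.restrict Ω] 0) ∧
    MemLp μ ⊤ (volume.restrict Ω) ∧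
    ∃ μ₁ μ₂ : ℝ, 0 < μ₁ ∧ ∀ᵐ x ∂(volume.restrict Ω), μ₁ ≤ μ x ∧ μ x ≤ μ₂

/-- `(P_lam)` has a non-positive solution -/
def HasNonposSol (Ω : Set V) (c h μ : V → ℝ) (lam : ℝ) : Prop :=
  ∃ v, IsSol Ω c h μ lam v ∧ ∀ᵐ x ∂(volume.restrict Ω), v x ≤ 0

/-- `φ` is a positive eigenfunction of `-Δ φ = γ c φ` in `H^1_0`, continuous up to the boundary -/
def IsPosEigenfun (Ω : Set V) (c φ : V → ℝ) : Prop :=
  ContinuousOn φ (closure Ω) ∧ (∀ x ∈ Ω, 0 < φ x) ∧ ∃ (γ : ℝ) (G : V → V), InH10 Ω φ G ∧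
    ∀ v H, InH10 Ω v H → ∫ x in Ω, inner ℝ (G x) (H x) = γ * ∫ x in Ω, c x * φ x * v x

end Pool.Agent.P.MP_0cf84d_an
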