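import Pool.Agent.P.MP_0cf84d_an.Q2

namespace Pool.Agent.P.MP_0cf84d_an

open MeasureTheory Filter Topology Metric

lemma int_bdd {a v : E → ℝ} (ha : MemLp a ⊤ mB) (hv : MemLp v 2 mB) :
    Integrable (fun x => a x * v x) mB :=
  (ha.mono_exponent le_top : MemLp a 2 mB).integrable_mul hv

lemma memLp_top_mul {a b : E → ℝ} (ha : MemLp a ⊤ mB) (hb : Continuous b) :
    MemLp (fun x => a x * b x) ⊤ mB :=
  (memLp_of_continuous hb ⊤).mul' ha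

lemma sol_eq {q F' F'' : ℝ → ℝ} (hq : ContDiff ℝ (⊤ : ℕ∞) q)
    (hF' : ∀ s, HasDerivAt F' (F'' s) s) (hF1 : ContDiff ℝ 1 F') {c h μ : E → ℝ} {lam : ℝ}
    (hc : MemLp c ⊤ mB) (hh : MemLp h ⊤ mB) (hμ : MemLp μ ⊤ mB)
    (he : ∀ x ∈ B, -4 * (F' (‖x‖ ^ 2) + ‖x‖ ^ 2 * F'' (‖x‖ ^ 2))
      = lam * (c x * ((1 - ‖x‖ ^ 2) * q (‖x‖ ^ 2))) + μ x * (4 * ‖x‖ ^ 2 * F' (‖x‖ ^ 2) ^ 2) + h x)
    {v : E → ℝ} {H : E → E} (hv : InH10 B v H) :
    ∫ x, inner ℝ ((2 * F' (‖x‖ ^ 2)) • x) (H x) ∂mB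
      = lam * (∫ x, c x * ((1 - ‖x‖ ^ 2) * q (‖x‖ ^ 2)) * v x ∂mB)
      + (∫ x, μ x * ‖(2 * F' (‖x‖ ^ 2)) • x‖ ^ 2 * v x ∂mB) + ∫ x, h x * v x ∂mB := by
  have hd : ∀ s : ℝ, HasDerivAt (fun s : ℝ => 2 * F' s) (2 * F'' s) s :=
    fun s => (hF' s).const_mul 2
  have e1 := ibp hv (a := fun x : E => (fun s : ℝ => 2 * F' s) (‖x‖ ^ 2))
    (contDiff_radial (contDiff_const.mul hF1))
  simp only [fderiv_radial (hd _)] at e1
  have c1 : Continuous (fun x : E => (1 - ‖x‖ ^ 2) * q (‖x‖ ^ 2)) :=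
    (continuous_const.sub cont_nsq).mul (hq.continuous.comp cont_nsq)
  have c2 : Continuous (fun x : E => ‖(2 * F' (‖x‖ ^ 2)) • x‖ ^ 2) :=
    ((continuous_const.mul (hF1.continuous.comp cont_nsq)).smul continuous_id).norm.pow 2
  have i1 : Integrable (fun x => c x * ((1 - ‖x‖ ^ 2) * q (‖x‖ ^ 2)) * v x) mB :=
    int_bdd (memLp_top_mul hc c1) hv.1
  have i2 : Integrable (fun x => μ x * ‖(2 * F' (‖x‖ ^ 2)) • x‖ ^ 2 * v x) mB :=
    int_bdd (memLp_top_mul hμ c2) hv.1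
  have i3 : Integrable (fun x => h x * v x) mB := int_bdd hh hv.1
  have i12 : Integrable (fun x => lam * (c x * ((1 - ‖x‖ ^ 2) * q (‖x‖ ^ 2)) * v x)
    + μ x * ‖(2 * F' (‖x‖ ^ 2)) • x‖ ^ 2 * v x) mB := (i1.const_mul lam).add i2
  rw [e1, ← integral_const_mul, ← integral_add (i1.const_mul lam) i2, ← integral_add i12 i3,
    ← integral_neg]
  apply integral_congr_ae
  filter_upwards [ae_restrict_mem measurableSet_ball] with x hx
  have := he x hx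
  simp only [norm_smul, mul_pow, Real.norm_eq_abs, sq_abs]
  linear_combination (v x) * this

noncomputable def g1 (s : ℝ) : ℝ := Real.smoothTransition (s - 3 / 4)
noncomputable def U0 (s : ℝ) : ℝ := (1 - s) * g1 s
noncomputable def U1 : ℝ → ℝ := deriv U0
noncomputable def U2 : ℝ → ℝ := deriv U1

lemma g1_smooth : ContDiff ℝ (⊤ : ℕ∞) g1 :=
  Real.smoothTransition.contDiff.comp (contDiff_id.sub contDiff_const)

lemma U0_smooth : ContDiff ℝ (⊤ : ℕ∞) U0 := (contDiff_const.sub contDiff_id).mul g1_smooth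

lemma U1_smooth : ContDiff ℝ (⊤ : ℕ∞) U1 := (contDiff_infty_iff_deriv.mp U0_smooth).2

lemma U2_cont : Continuous U2 := (contDiff_infty_iff_deriv.mp U1_smooth).2.continuous

lemma U0_deriv (s : ℝ) : HasDerivAt U0 (U1 s) s :=
  ((contDiff_infty_iff_deriv.mp U0_smooth).1 s).hasDerivAt

lemma U1_deriv (s : ℝ) : HasDerivAt U1 (U2 s) s :=
  ((contDiff_infty_iff_deriv.mp U1_smooth).1 s).hasDerivAt

lemma U_inner {s : ℝ} (hs : s < 3 / 4) : g1 s = 0 ∧ U1 s = 0 ∧ U2 s = 0 := by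
  have h0 : ∀ t < 3 / 4, g1 t = 0 := fun t ht =>
    Real.smoothTransition.zero_of_nonpos (by linarith)
  have h1 : ∀ t < 3 / 4, U1 t = 0 := by
    intro t ht
    have : U0 =ᶠ[𝓝 t] fun _ => 0 := by
      filter_upwards [Iio_mem_nhds ht] with y hy
      simp [U0, h0 y hy]
    rw [U1, this.deriv_eq]; simp
  refine ⟨h0 s hs, h1 s hs, ?_⟩
  have : U1 =ᶠ[𝓝 s] fun _ => 0 := by
    filter_upwards [Iio_mem_nhds hs] with y hy
    exact h1 y hy
  rw [U2, this.deriv_eq]; simp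

lemma U1_ge {s : ℝ} (hs : s ≤ 1) : -1 ≤ U1 s := by
  have hg : HasDerivAt g1 (deriv g1 s) s :=
    ((contDiff_infty_iff_deriv.mp g1_smooth).1 s).hasDerivAt
  have hm : Monotone g1 := fun a b hab => Real.smoothTransition.monotone (by linarith)
  have h1 := hm.deriv_nonneg (x := s)
  have h2 : U1 s = -1 * g1 s + (1 - s) * deriv g1 s :=
    (((hasDerivAt_id' s).const_sub 1).fun_mul hg).deriv
  have h3 : g1 s ≤ 1 := Real.smoothTransition.le_one _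
  rw [h2]
  nlinarith [mul_nonneg (sub_nonneg.mpr hs) h1]

noncomputable def mu1 (k : ℝ) (x : E) : ℝ :=
  if ‖x‖ ^ 2 < 3 / 4 then 1 else 4 * (3 * ‖x‖ ^ 2 - 2)
    / (‖x‖ ^ 2 * (8 - 6 * ‖x‖ ^ 2) * (2 * U1 (‖x‖ ^ 2) + k * (8 - 6 * ‖x‖ ^ 2)))

noncomputable def c1 (k : ℝ) (x : E) : ℝ :=
  if ‖x‖ ^ 2 < 3 / 4 then (4 * ‖x‖ ^ 2 * k * (8 - 6 * ‖x‖ ^ 2) ^ 2 - 16 * (3 * ‖x‖ ^ 2 - 2))
    / ((1 - ‖x‖ ^ 2) * (5 - 3 * ‖x‖ ^ 2)) else 0

noncomputable def h1 (k : ℝ) (x : E) : ℝ :=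
  -4 * (U1 (‖x‖ ^ 2) + ‖x‖ ^ 2 * U2 (‖x‖ ^ 2)) - mu1 k x * (4 * ‖x‖ ^ 2 * U1 (‖x‖ ^ 2) ^ 2)

lemma den_ge {k s : ℝ} (hk : 2 ≤ k) (h1 : 3 / 4 ≤ s) (h2 : s ≤ 1) :
    3 / 2 * k ≤ s * (8 - 6 * s) * (2 * U1 s + k * (8 - 6 * s)) := by
  have a1 := U1_ge h2
  have a2 : k ≤ 2 * U1 s + k * (8 - 6 * s) := by nlinarith
  have a3 : 3 / 2 ≤ s * (8 - 6 * s) := by nlinarith
  exact mul_le_mul a3 a2 (by linarith) (by linarith)

lemma mu1_outer {k : ℝ} (hk : 2 ≤ k) {x : E} (hx : x ∈ B) (h : ¬ ‖x‖ ^ 2 < 3 / 4) :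
    mu1 k x ≤ 8 / (3 * k) := by
  have h2 := normsq_lt hx
  have h3 := den_ge hk (not_lt.mp h) h2.le
  unfold mu1
  rw [if_neg h, div_le_div_iff₀ (by linarith) (by linarith)]
  nlinarith

lemma mu1_bounds {k : ℝ} (hk : 2 ≤ k) : ∃ μ₁ : ℝ, 0 < μ₁ ∧ ∀ x ∈ B, μ₁ ≤ mu1 k x ∧ mu1 k x ≤ 2 := by
  have hc : Continuous (fun s : ℝ => s * (8 - 6 * s) * (2 * U1 s + k * (8 - 6 * s))) := by
    have := U1_smooth.continuous
    fun_prop
  obtain ⟨Q, hQ⟩ := (isCompact_Icc (a := (0 : ℝ)) (b := 1)).exists_bound_of_continuousOn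
    hc.continuousOn
  refine ⟨1 / max Q 1, by positivity, fun x hx => ?_⟩
  have hpos : 0 < max Q 1 := by positivity
  by_cases h : ‖x‖ ^ 2 < 3 / 4
  · unfold mu1
    rw [if_pos h, div_le_one hpos]
    exact ⟨le_max_right _ _, by norm_num⟩
  · constructor
    · have h2 := normsq_lt hx
      have h3 := den_ge hk (not_lt.mp h) h2.le
      have h4 := le_trans (le_trans (le_abs_self _) (hQ _ ⟨sq_nonneg ‖x‖, h2.le⟩)) (le_max_left Q 1)
      unfold mu1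
      rw [if_neg h, div_le_div_iff₀ hpos (by linarith)]
      have h5 := not_lt.mp h
      nlinarith
    · refine le_trans (mu1_outer hk hx h) ?_
      rw [div_le_iff₀ (by linarith)]; linarith

lemma meas_nsq : Measurable (fun x : E => ‖x‖ ^ 2) := cont_nsq.measurable

lemma mu1_mem {k : ℝ} (hk : 2 ≤ k) : MemLp (mu1 k) ⊤ mB := by
  obtain ⟨μ₁, h0, h⟩ := mu1_bounds hk
  have hm : Measurable (mu1 k) := by
    have := U1_smooth.continuous.measurable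
    unfold mu1
    apply Measurable.ite (measurableSet_lt meas_nsq measurable_const) measurable_const
    fun_prop
  apply MemLp.of_bound hm.aestronglyMeasurable 2
  filter_upwards [ae_restrict_mem measurableSet_ball] with x hx
  rw [Real.norm_eq_abs, abs_le]
  constructor <;> linarith [(h x hx).1, (h x hx).2]

lemma c1_pos {k : ℝ} (hk : 2 ≤ k) {x : E} (h : ‖x‖ ^ 2 < 3 / 4) :
    0 < c1 k x ∧ c1 k x ≤ 512 * k := by
  have h0 := sq_nonneg ‖x‖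
  unfold c1
  rw [if_pos h]
  generalize ‖x‖ ^ 2 = s at h h0
  have hd : 1 / 2 ≤ (1 - s) * (5 - 3 * s) := by nlinarith
  have h8 : 12 ≤ (8 - 6 * s) ^ 2 := by nlinarith
  have h9 : (8 - 6 * s) ^ 2 ≤ 64 := by nlinarith
  have h10 : 0 ≤ s * k := by positivity
  have h11 : s * k ≤ 3 / 4 * k := by nlinarith
  constructor
  · apply div_pos _ (by linarith)
    nlinarith [mul_le_mul_of_nonneg_left h8 h10]
  · rw [div_le_iff₀ (by linarith)]
    nlinarith [mul_le_mul_of_nonneg_left h9 h10]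

lemma c1_memq {k : ℝ} (hk : 2 ≤ k) : MemLp (c1 k) ⊤ mB := by
  have hm : Measurable (c1 k) := by
    unfold c1
    apply Measurable.ite (measurableSet_lt meas_nsq measurable_const) _ measurable_const
    fun_prop
  apply MemLp.of_bound hm.aestronglyMeasurable (512 * k)
  filter_upwards with x
  by_cases h : ‖x‖ ^ 2 < 3 / 4
  · rw [Real.norm_eq_abs, abs_of_pos (c1_pos hk h).1]; exact (c1_pos hk h).2
  · simp only [c1, if_neg h, norm_zero]; linarith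

lemma h1_mem {k : ℝ} (hk : 2 ≤ k) : MemLp (h1 k) ⊤ mB := by
  have a1 := U1_smooth.continuous
  have a2 := U2_cont
  have c1 : Continuous (fun x : E => -4 * (U1 (‖x‖ ^ 2) + ‖x‖ ^ 2 * U2 (‖x‖ ^ 2))) := by fun_prop
  have c2 : Continuous (fun x : E => 4 * ‖x‖ ^ 2 * U1 (‖x‖ ^ 2) ^ 2) := by fun_prop
  exact (memLp_of_continuous c1 ⊤).sub (memLp_top_mul (mu1_mem hk) c2)

lemma u1_H10 : InH10 B (fun x : E => (1 - ‖x‖ ^ 2) * g1 (‖x‖ ^ 2))
    (fun x : E => (2 * U1 (‖x‖ ^ 2)) • x) := inH10_radial g1_smooth U0_deriv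

lemma u1_eq {k : ℝ} (hk : 2 ≤ k) (lam : ℝ) {v : E → ℝ} {H : E → E} (hv : InH10 B v H) :
    ∫ x, inner ℝ ((2 * U1 (‖x‖ ^ 2)) • x) (H x) ∂mB
      = lam * (∫ x, c1 k x * ((1 - ‖x‖ ^ 2) * g1 (‖x‖ ^ 2)) * v x ∂mB)
      + (∫ x, mu1 k x * ‖(2 * U1 (‖x‖ ^ 2)) • x‖ ^ 2 * v x ∂mB) + ∫ x, h1 k x * v x ∂mB := by
  apply sol_eq g1_smooth U1_deriv (U1_smooth.of_le (by exact_mod_cast le_top)) (c1_memq hk)
    (h1_mem hk) (mu1_mem hk) _ hv
  intro x _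
  have : c1 k x * ((1 - ‖x‖ ^ 2) * g1 (‖x‖ ^ 2)) = 0 := by
    by_cases h : ‖x‖ ^ 2 < 3 / 4
    · rw [(U_inner h).1]; simp
    · simp [c1, h]
  rw [this, h1]; ring

lemma u1_sol {k : ℝ} (hk : 2 ≤ k) (lam : ℝ) :
    IsSol B (c1 k) (h1 k) (mu1 k) lam (fun x : E => (1 - ‖x‖ ^ 2) * g1 (‖x‖ ^ 2)) :=
  ⟨memLp_of_continuous ((continuous_const.sub cont_nsq).mul (g1_smooth.continuous.comp cont_nsq)) ⊤,
    _, u1_H10, fun _ _ hv _ => u1_eq hk lam hv⟩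

lemma w1_sol {k : ℝ} (hk : 2 ≤ k) : IsSol B (c1 k) (h1 k) (mu1 k) 1
    (fun x : E => (1 - ‖x‖ ^ 2) * (g1 (‖x‖ ^ 2) - k * (5 - 3 * ‖x‖ ^ 2))) := by
  have hq : ContDiff ℝ (⊤ : ℕ∞) (fun s => g1 s - k * (5 - 3 * s)) :=
    g1_smooth.sub (contDiff_const.mul (contDiff_const.sub (contDiff_const.mul contDiff_id)))
  have hF : ∀ s, HasDerivAt (fun s => (1 - s) * (g1 s - k * (5 - 3 * s)))
      (U1 s + k * (8 - 6 * s)) s := by
    intro s
    have h1 : HasDerivAt (fun s : ℝ => (1 - s) * (k * (5 - 3 * s))) (-(k * (8 - 6 * s))) s :=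
      (((hasDerivAt_id' s).const_sub 1).fun_mul
        ((((hasDerivAt_id' s).const_mul 3).const_sub 5).const_mul k)).congr_deriv (by ring)
    have h2 := ((U0_deriv s).fun_sub h1).congr_deriv
      (show _ = U1 s + k * (8 - 6 * s) by ring)
    have e : (fun s => (1 - s) * (g1 s - k * (5 - 3 * s)))
        = fun s => U0 s - (1 - s) * (k * (5 - 3 * s)) := by
      funext s; simp only [U0]; ring
    rw [e]; exact h2
  have hF' : ∀ s, HasDerivAt (fun s => U1 s + k * (8 - 6 * s)) (U2 s - 6 * k) s := fun s =>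
    ((U1_deriv s).fun_add ((((hasDerivAt_id' s).const_mul 6).const_sub 8).const_mul k)).congr_deriv
      (by ring)
  have hF1 : ContDiff ℝ 1 (fun s => U1 s + k * (8 - 6 * s)) :=
    (U1_smooth.of_le (by exact_mod_cast le_top)).add
      (contDiff_const.mul (contDiff_const.sub (contDiff_const.mul contDiff_id)))
  refine ⟨memLp_of_continuous ((continuous_const.sub cont_nsq).mul (hq.continuous.comp cont_nsq)) ⊤,
    _, inH10_radial hq hF, fun v H hv _ => ?_⟩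
  apply sol_eq hq hF' hF1 (c1_memq hk) (h1_mem hk) (mu1_mem hk) _ hv
  intro x hx
  have h2 := normsq_lt hx
  have h0 := sq_nonneg ‖x‖
  by_cases h : ‖x‖ ^ 2 < 3 / 4
  · obtain ⟨a1, a2, a3⟩ := U_inner h
    have b1 : 0 < (1 - ‖x‖ ^ 2) * (5 - 3 * ‖x‖ ^ 2) := by apply mul_pos <;> linarith
    have h4 : c1 k x * ((1 - ‖x‖ ^ 2) * (5 - 3 * ‖x‖ ^ 2))
        = 4 * ‖x‖ ^ 2 * k * (8 - 6 * ‖x‖ ^ 2) ^ 2 - 16 * (3 * ‖x‖ ^ 2 - 2) := by
      unfold c1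
      rw [if_pos h, div_mul_cancel₀ _ b1.ne']
    simp only [h1, mu1, if_pos h, a1, a2, a3]
    linear_combination k * h4
  · have h3 := den_ge hk (not_lt.mp h) h2.le
    have h4 : mu1 k x * (‖x‖ ^ 2 * (8 - 6 * ‖x‖ ^ 2)
        * (2 * U1 (‖x‖ ^ 2) + k * (8 - 6 * ‖x‖ ^ 2))) = 4 * (3 * ‖x‖ ^ 2 - 2) := by
      unfold mu1
      rw [if_neg h, div_mul_cancel₀ _ (by linarith)]
    simp only [h1, c1, if_neg h]
    linear_combination (-4 * k) * h4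

lemma zeta_H10 : InH10 B (fun x : E => (1 - ‖x‖ ^ 2) * 1) (fun x : E => (2 * (-1 : ℝ)) • x) :=
  inH10_radial (q := fun _ => 1) (F' := fun _ => -1) contDiff_const (fun s =>
    (((hasDerivAt_id' s).const_sub 1).mul_const 1).congr_deriv (by ring))

lemma zeta_ibp {v : E → ℝ} {G : E → E} (hv : InH10 B v G) :
    ∫ x, inner ℝ (G x) ((2 * (-1 : ℝ)) • x) ∂mB = 4 * ∫ x, v x ∂mB := by
  have e1 := ibp hv (a := fun _ => 2 * (-1 : ℝ)) contDiff_const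
  simp only [real_inner_comm (G _)] at e1 ⊢
  rw [e1, ← integral_const_mul, ← integral_neg]
  apply integral_congr_ae
  filter_upwards with x
  simp only [fderiv_fun_const, Pi.zero_apply, zero_apply]
  ring

lemma not_ae_outer {p : E → Prop} {a b : ℝ} (ha : 0 < a) (hab : a < b) (hb : b ≤ 1)
    (h : ∀ᵐ x ∂mB, p x) (h' : ∀ x : E, a < ‖x‖ → ‖x‖ < b → ¬ p x) : False := by
  let S : Set E := {x | a < ‖x‖ ∧ ‖x‖ < b}
  have hS : IsOpen S :=
    (isOpen_lt continuous_const continuous_norm).inter (isOpen_lt continuous_norm continuous_const)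
  have hne : S.Nonempty := by
    refine ⟨EuclideanSpace.single 0 ((a + b) / 2), ?_⟩
    simp only [S, Set.mem_ofPred_eq, PiLp.norm_single, Real.norm_eq_abs]
    rw [abs_of_pos (by linarith)]
    constructor <;> linarith
  have hsub : S ⊆ B := fun x hx => mem_ball_zero_iff.mpr (lt_of_lt_of_le hx.2 hb)
  have h2 : ∀ᵐ x ∂(volume.restrict S), p x := ae_restrict_of_ae_restrict_of_subset hsub h
  have : ∀ᵐ _x ∂(volume.restrict S), False := by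
    filter_upwards [h2, ae_restrict_mem hS.measurableSet] with x h1 h2
    exact h' x h2.1 h2.2 h1
  rw [eventually_false_iff_eq_bot, ae_eq_bot, Measure.restrict_eq_zero] at this
  exact (hS.measure_pos volume hne).ne' this

lemma int_u1_pos : 0 < ∫ x, (1 - ‖x‖ ^ 2) * g1 (‖x‖ ^ 2) ∂mB := by
  have hn : ∀ᵐ x ∂mB, 0 ≤ (1 - ‖x‖ ^ 2) * g1 (‖x‖ ^ 2) := by
    filter_upwards [ae_restrict_mem measurableSet_ball] with x hx
    exact mul_nonneg (by linarith [normsq_lt hx]) (Real.smoothTransition.nonneg _)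
  rcases (integral_nonneg_of_ae hn).lt_or_eq with h | h
  · exact h
  · exfalso
    have h2 := (integral_eq_zero_iff_of_nonneg_ae hn (u1_H10.1.integrable (by norm_num))).mp h.symm
    apply not_ae_outer (a := 9 / 10) (b := 1) (by norm_num) (by norm_num) le_rfl h2
    intro x h3 h4
    have a1 : 0 < 1 - ‖x‖ ^ 2 := by nlinarith
    have a2 : 0 < g1 (‖x‖ ^ 2) := Real.smoothTransition.pos_of_pos (by nlinarith)
    exact (mul_pos a1 a2).ne'

theorem q1_main : ∃ (c h μ : E → ℝ) (μ₁ μ₂ : ℝ),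
    (∀ p, MemLp c p mB ∧ MemLp h p mB) ∧ (∀ᵐ x ∂mB, 0 ≤ c x) ∧ ¬ (c =ᵐ[mB] 0) ∧
    MemLp μ ⊤ mB ∧ 0 < μ₁ ∧ (∀ᵐ x ∂mB, μ₁ ≤ μ x ∧ μ x ≤ μ₂) ∧
    (¬ ∃ v, IsSol B c h μ 0 v ∧ ∀ᵐ x ∂mB, v x ≤ 0) ∧
    (∃ lam₀, 0 < lam₀ ∧ ∃ v, IsSol B c h μ lam₀ v ∧ ContinuousOn v (closedBall 0 1) ∧
      ∀ x ∈ B, v x ≤ 0) ∧
    ∀ lam : ℝ, ∃ u, IsSol B c h μ lam u := by
  set I₁ := ∫ x, (1 - ‖x‖ ^ 2) * g1 (‖x‖ ^ 2) ∂mB with hI₁
  set I₂ := ∫ x, ‖(2 * U1 (‖x‖ ^ 2)) • x‖ ^ 2 * ((1 - ‖x‖ ^ 2) * 1) ∂mB with hI₂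
  have hI := int_u1_pos
  obtain ⟨k, hk, hk2⟩ : ∃ k : ℝ, 2 ≤ k ∧ 8 / (3 * k) * I₂ < 4 * I₁ := by
    refine ⟨max 2 (I₂ / I₁), le_max_left _ _, ?_⟩
    have h1 : (0 : ℝ) < max 2 (I₂ / I₁) := lt_of_lt_of_le two_pos (le_max_left _ _)
    have h2 : I₂ ≤ max 2 (I₂ / I₁) * I₁ := (div_le_iff₀ hI).mp (le_max_right _ _)
    rw [div_mul_eq_mul_div, div_lt_iff₀ (by linarith)]
    nlinarith [mul_pos h1 hI]
  obtain ⟨μ₁, hμ₁, hμ⟩ := mu1_bounds hk
  refine ⟨c1 k, h1 k, mu1 k, μ₁, 2,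
    fun p => ⟨(c1_memq hk).mono_exponent le_top, (h1_mem hk).mono_exponent le_top⟩, ?_, ?_,
    mu1_mem hk, hμ₁, ?_, ?_, ⟨1, one_pos, _, w1_sol hk, ?_, ?_⟩, fun lam => ⟨_, u1_sol hk lam⟩⟩
  · filter_upwards with x
    by_cases h : ‖x‖ ^ 2 < 3 / 4
    · exact (c1_pos hk h).1.le
    · simp [c1, h]
  · intro h
    apply not_ae_outer (a := 1 / 4) (b := 1 / 2) (by norm_num) (by norm_num) (by norm_num) h
    intro x h3 h4
    exact (c1_pos hk (by nlinarith)).1.ne'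
  · filter_upwards [ae_restrict_mem measurableSet_ball] with x hx
    exact hμ x hx
  · rintro ⟨v, ⟨_, G, hG, he⟩, hn⟩
    have cz : Continuous (fun x : E => (1 - ‖x‖ ^ 2) * 1) := by fun_prop
    have e1 := he _ _ zeta_H10 (memLp_of_continuous cz ⊤)
    have e2 := u1_eq hk 0 zeta_H10
    rw [zeta_ibp hG] at e1
    rw [zeta_ibp u1_H10] at e2
    have a1 : ∫ x, v x ∂mB ≤ 0 := integral_nonpos_of_ae hn
    have a2 : 0 ≤ ∫ x, mu1 k x * ‖G x‖ ^ 2 * ((1 - ‖x‖ ^ 2) * 1) ∂mB := by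
      apply integral_nonneg_of_ae
      filter_upwards [ae_restrict_mem measurableSet_ball] with x hx
      have := normsq_lt hx
      exact mul_nonneg (mul_nonneg (le_trans hμ₁.le (hμ x hx).1) (sq_nonneg _)) (by linarith)
    have cg : Continuous (fun x : E => ‖(2 * U1 (‖x‖ ^ 2)) • x‖ ^ 2) := by
      have := U1_smooth.continuous
      fun_prop
    have a3 : ∫ x, mu1 k x * ‖(2 * U1 (‖x‖ ^ 2)) • x‖ ^ 2 * ((1 - ‖x‖ ^ 2) * 1) ∂mB
        ≤ 8 / (3 * k) * I₂ := by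
      rw [hI₂, ← integral_const_mul]
      apply integral_mono_ae
      · exact int_bdd (memLp_top_mul (mu1_mem hk) cg) zeta_H10.1
      · exact ((memLp_of_continuous (cg.mul cz) 1).integrable le_rfl).const_mul _
      · filter_upwards [ae_restrict_mem measurableSet_ball] with x hx
        have := normsq_lt hx
        by_cases h : ‖x‖ ^ 2 < 3 / 4
        · simp [(U_inner h).2.1]
        · rw [mul_assoc]
          exact mul_le_mul_of_nonneg_right (mu1_outer hk hx h)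
            (mul_nonneg (sq_nonneg _) (by linarith))
    linarith
  · have := g1_smooth.continuous
    exact Continuous.continuousOn (by fun_prop)
  · intro x hx
    have h1 := normsq_lt hx
    have h2 : g1 (‖x‖ ^ 2) ≤ 1 := Real.smoothTransition.le_one _
    exact mul_nonpos_of_nonneg_of_nonpos (by linarith) (by nlinarith)

end Pool.Agent.P.MP_0cf84d_an
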