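import Pool.Agent.P.MP_0cf84d_an.Basic

namespace Pool.Agent.P.MP_0cf84d_an

open MeasureTheory Filter Topology Metric

lemma int_mulq {a v : E → ℝ} (ha : ContinuousOn a (closedBall 0 1)) (hv : MemLp v 2 mB) :
    Integrable (fun x => a x * v x) mB :=
  (memLp_of_continuousOn ha 2).integrable_mul hv

lemma int_innerq {a H : E → E} (ha : MemLp a 2 mB) (hH : MemLp H 2 mB) :
    Integrable (fun x => inner ℝ (a x) (H x)) mB := by
  have := L2.integrable_inner (𝕜 := ℝ) (ha.toLp a) (hH.toLp H)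
  refine this.congr ?_
  filter_upwards [ha.coeFn_toLp, hH.coeFn_toLp] with x h1 h2
  rw [h1, h2]

lemma memLp_smul_id {d : E → ℝ} (hd : MemLp d 2 mB) : MemLp (fun x => d x • x) 2 mB := by
  have hm : AEStronglyMeasurable (fun x => d x • x) mB := hd.1.smul aestronglyMeasurable_id
  apply hd.of_le hm
  filter_upwards [ae_restrict_mem measurableSet_ball] with x hx
  rw [norm_smul]
  have h6 : ‖x‖ ≤ 1 := (mem_ball_zero_iff.mp hx).le
  have := norm_nonneg (d x)
  nlinarith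

lemma unique_of_grad {v u : E → ℝ} {G G' : E → E} (hv : InH10 B v G) (hu : InH10 B u G')
    (h : G =ᵐ[mB] G') : v =ᵐ[mB] u := by
  have hd : MemLp (fun x => v x - u x) 2 mB := hv.1.sub hu.1
  have h0 : ∀ a : E → ℝ, ContDiff ℝ 1 a →
      ∫ x, inner ℝ ((v x - u x) • x) (gradient a x) ∂mB
        + 2 * ∫ x, (v x - u x) * a x ∂mB = 0 := by
    intro a ha
    have had : Continuous (fderiv ℝ a) := ha.continuous_fderiv (by norm_num)
    have c2 : Continuous (fun x : E => fderiv ℝ a x x + 2 * a x) :=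
      (had.clm_apply continuous_id).add (continuous_const.mul ha.continuous)
    have e1 := ibp hv ha
    have e2 := ibp hu ha
    have e3 : ∫ x, inner ℝ (a x • x) (G x) ∂mB = ∫ x, inner ℝ (a x • x) (G' x) ∂mB := by
      apply integral_congr_ae
      filter_upwards [h] with x hx
      rw [hx]
    have e4 : ∫ x, (fderiv ℝ a x x + 2 * a x) * v x ∂mB
        - ∫ x, (fderiv ℝ a x x + 2 * a x) * u x ∂mB = 0 := by linarith
    rw [← integral_sub (int_mulq c2.continuousOn hv.1) (int_mulq c2.continuousOn hu.1)] at e4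
    rw [← integral_const_mul, ← integral_add, ← e4]
    · apply integral_congr_ae
      filter_upwards with x
      rw [real_inner_smul_left, real_inner_comm, inner_gradient_left]
      ring
    · exact int_innerq (memLp_smul_id hd) (memLp_of_continuous (continuous_gradient ha) 2)
    · exact (hd.integrable_mul (memLp_of_continuous ha.continuous 2)).const_mul 2
  have h1 : ∀ {w : E → ℝ} {K : E → E}, InH10 B w K →
      ∫ x, inner ℝ ((v x - u x) • x) (K x) ∂mB + 2 * ∫ x, (v x - u x) * w x ∂mB = 0 := by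
    rintro w K ⟨hw, hK, φ, hφ, t1, t2⟩
    have hφ1 : ∀ n, ContDiff ℝ 1 (φ n) := fun n => (hφ n).1.of_le (by exact_mod_cast le_top)
    have s1 := tendsto_pairing (memLp_smul_id hd)
      (fun n => memLp_of_continuous (continuous_gradient (hφ1 n)) 2) hK t2
    have s2 := tendsto_pairing_mul hd (fun n => memLp_of_continuous (hφ1 n).continuous 2) hw t1
    have s3 := s1.add (s2.const_mul 2)
    simp only [h0 _ (hφ1 _)] at s3
    exact tendsto_nhds_unique s3 tendsto_const_nhds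
  have a1 := h1 hv
  have a2 := h1 hu
  have e3 : ∫ x, inner ℝ ((v x - u x) • x) (G x) ∂mB
      = ∫ x, inner ℝ ((v x - u x) • x) (G' x) ∂mB := by
    apply integral_congr_ae
    filter_upwards [h] with x hx
    rw [hx]
  have i1 : Integrable (fun x => (v x - u x) * v x) mB := hd.integrable_mul hv.1
  have i2 : Integrable (fun x => (v x - u x) * u x) mB := hd.integrable_mul hu.1
  have e4 : ∫ x, (v x - u x) * v x ∂mB - ∫ x, (v x - u x) * u x ∂mB = 0 := by linarith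
  have i12 : Integrable (fun x => (v x - u x) * v x - (v x - u x) * u x) mB := i1.sub i2
  rw [← integral_sub i1 i2, integral_eq_zero_iff_of_nonneg_ae _ i12] at e4
  · filter_upwards [e4] with x hx
    simp only [Pi.zero_apply] at hx
    have : (v x - u x) ^ 2 = 0 := by linarith
    have := pow_eq_zero_iff (two_ne_zero) |>.mp this
    linarith
  · filter_upwards with x
    simp only [Pi.zero_apply]
    nlinarith [sq_nonneg (v x - u x)]

lemma not_ae_false {p : E → Prop} (h : ∀ᵐ x ∂mB, p x) (h' : ∀ x ∈ B, ¬ p x) : False := by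
  have : ∀ᵐ _x ∂mB, False := by
    filter_upwards [h, ae_restrict_mem measurableSet_ball] with x h1 h2
    exact h' x h2 h1
  rw [eventually_false_iff_eq_bot, ae_eq_bot, Measure.restrict_eq_zero] at this
  exact (measure_ball_pos volume (0 : E) one_pos).ne' this

noncomputable def c2 (x : E) : ℝ := 1 / (3 - ‖x‖ ^ 2)
noncomputable def mu2 (x : E) : ℝ := (5 - ‖x‖ ^ 2) / (2 * (3 - ‖x‖ ^ 2) * (1 + ‖x‖ ^ 2))
noncomputable def h2 (x : E) : ℝ := -4 + 24 * (1 - ‖x‖ ^ 2) * c2 x - 4 * ‖x‖ ^ 2 * mu2 x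
noncomputable def u2 (x : E) : ℝ := (1 - ‖x‖ ^ 2) * (-1)
noncomputable def phi2 (x : E) : ℝ := (1 - ‖x‖ ^ 2) * (3 - ‖x‖ ^ 2)
noncomputable def psi2 (x : E) : ℝ := (1 - ‖x‖ ^ 2) * ((3 - ‖x‖ ^ 2) * (1 + ‖x‖ ^ 2))

lemma cont_nsq : Continuous (fun x : E => ‖x‖ ^ 2) := continuous_norm.pow 2

lemma c2_cont : ContinuousOn c2 (closedBall 0 1) := by
  apply ContinuousOn.div continuousOn_const (continuous_const.sub cont_nsq).continuousOn
  intro x hx; have := normsq_le hx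
  have : 0 < 3 - ‖x‖ ^ 2 := by linarith
  exact this.ne'

lemma mu2_cont : ContinuousOn mu2 (closedBall 0 1) := by
  apply ContinuousOn.div (continuous_const.sub cont_nsq).continuousOn
    ((continuous_const.mul (continuous_const.sub cont_nsq)).mul
      (continuous_const.add cont_nsq)).continuousOn
  intro x hx; have := normsq_le hx; have := sq_nonneg ‖x‖
  have : 0 < 2 * (3 - ‖x‖ ^ 2) * (1 + ‖x‖ ^ 2) := by
    apply mul_pos (mul_pos two_pos _) <;> linarith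
  exact this.ne'

lemma h2_cont : ContinuousOn h2 (closedBall 0 1) :=
  (continuousOn_const.add
    ((continuous_const.mul (continuous_const.sub cont_nsq)).continuousOn.mul c2_cont)).sub
    ((continuous_const.mul cont_nsq).continuousOn.mul mu2_cont)

lemma u2_cont : Continuous u2 := (continuous_const.sub cont_nsq).mul continuous_const
lemma phi2_cont : Continuous phi2 :=
  (continuous_const.sub cont_nsq).mul (continuous_const.sub cont_nsq)
lemma psi2_cont : Continuous psi2 := (continuous_const.sub cont_nsq).mul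
  ((continuous_const.sub cont_nsq).mul (continuous_const.add cont_nsq))

lemma u2_H10 : InH10 B u2 (fun x => (2 * (1 : ℝ)) • x) :=
  inH10_radial (q := fun _ => -1) (F' := fun _ => 1) contDiff_const (fun s => by
    simpa using ((hasDerivAt_id s).const_sub 1).mul_const (-1))

lemma phi2_H10 : InH10 B phi2 (fun x => (2 * (2 * ‖x‖ ^ 2 - 4)) • x) :=
  inH10_radial (q := fun s => 3 - s) (F' := fun s => 2 * s - 4) (contDiff_const.sub contDiff_id)
    (fun s => (((hasDerivAt_id' s).const_sub 1).fun_mul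
      ((hasDerivAt_id' s).const_sub 3)).congr_deriv (by ring))

lemma psi2_H10 : InH10 B psi2 (fun x => (2 * (3 * (‖x‖ ^ 2) ^ 2 - 6 * ‖x‖ ^ 2 - 1)) • x) :=
  inH10_radial (q := fun s => (3 - s) * (1 + s)) (F' := fun s => 3 * s ^ 2 - 6 * s - 1)
    ((contDiff_const.sub contDiff_id).mul (contDiff_const.add contDiff_id))
    (fun s => (((hasDerivAt_id' s).const_sub 1).fun_mul
      (((hasDerivAt_id' s).const_sub 3).fun_mul ((hasDerivAt_id' s).const_add 1))).congr_deriv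
        (by ring))

lemma u2_eq {v : E → ℝ} {H : E → E} (hv : InH10 B v H) :
    ∫ x, inner ℝ ((2 * (1 : ℝ)) • x) (H x) ∂mB = 24 * (∫ x, c2 x * u2 x * v x ∂mB)
      + (∫ x, mu2 x * ‖(2 * (1 : ℝ)) • x‖ ^ 2 * v x ∂mB) + ∫ x, h2 x * v x ∂mB := by
  have e1 := ibp hv (a := fun _ => 2 * (1 : ℝ)) contDiff_const
  have i1 : Integrable (fun x => c2 x * u2 x * v x) mB :=
    int_mulq (a := fun x => c2 x * u2 x) (c2_cont.mul u2_cont.continuousOn) hv.1
  have cc : Continuous (fun x : E => ‖(2 * (1 : ℝ)) • x‖ ^ 2) := by fun_prop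
  have i2 : Integrable (fun x => mu2 x * ‖(2 * (1 : ℝ)) • x‖ ^ 2 * v x) mB :=
    int_mulq (a := fun x => mu2 x * ‖(2 * (1 : ℝ)) • x‖ ^ 2) (mu2_cont.mul cc.continuousOn) hv.1
  have i3 : Integrable (fun x => h2 x * v x) mB := int_mulq h2_cont hv.1
  have i12 : Integrable (fun x => 24 * (c2 x * u2 x * v x)
    + mu2 x * ‖(2 * (1 : ℝ)) • x‖ ^ 2 * v x) mB := (i1.const_mul 24).add i2
  rw [e1, ← integral_const_mul, ← integral_add (i1.const_mul 24) i2, ← integral_add i12 i3,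
    ← integral_neg]
  apply integral_congr_ae
  filter_upwards with x
  simp only [h2, u2, norm_smul, fderiv_fun_const, Pi.zero_apply, zero_apply,
    mul_pow, Real.norm_eq_abs, sq_abs]
  ring

lemma u2_sol : IsSol B c2 h2 mu2 24 u2 :=
  ⟨memLp_of_continuous u2_cont ⊤, _, u2_H10, fun _ _ hv _ => u2_eq hv⟩

lemma phi2_eq {v : E → ℝ} {H : E → E} (hv : InH10 B v H) :
    ∫ x, inner ℝ ((2 * (2 * ‖x‖ ^ 2 - 4)) • x) (H x) ∂mB = 16 * ∫ x, c2 x * phi2 x * v x ∂mB := by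
  have hd : ∀ s : ℝ, HasDerivAt (fun s : ℝ => 2 * (2 * s - 4)) 4 s := fun s =>
    ((((hasDerivAt_id' s).const_mul 2).sub_const 4).const_mul 2).congr_deriv (by norm_num)
  have e1 := ibp hv (a := fun x : E => (fun s : ℝ => 2 * (2 * s - 4)) (‖x‖ ^ 2))
    (contDiff_radial (contDiff_const.mul ((contDiff_const.mul contDiff_id).sub contDiff_const)))
  simp only [fderiv_radial (hd _)] at e1
  rw [e1, ← integral_const_mul, ← integral_neg]
  apply integral_congr_ae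
  filter_upwards [ae_restrict_mem measurableSet_ball] with x hx
  have := normsq_lt hx
  have h3 : (3 - ‖x‖ ^ 2) ≠ 0 := by linarith
  simp only [c2, phi2]
  field_simp
  ring

/-- the weight `μ ψ` -/
noncomputable def kapq (x : E) : ℝ := (1 - ‖x‖ ^ 2) * (5 - ‖x‖ ^ 2) / 2

lemma kap_cont : Continuous kapq :=
  ((continuous_const.sub cont_nsq).mul (continuous_const.sub cont_nsq)).div_const 2

lemma kap_pos {x : E} (hx : x ∈ B) : 0 < kapq x := by
  have := normsq_lt hx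
  unfold kapq
  apply div_pos (mul_pos _ _) two_pos <;> linarith

lemma int_kap {G : E → E} (hG : MemLp G 2 mB) :
    Integrable (fun x => kapq x * ‖G x‖ ^ 2) mB := by
  have h1 : Integrable (fun x => ‖G x‖ ^ 2) mB := by
    simpa [real_inner_self_eq_norm_sq] using int_innerq hG hG
  refine (h1.smul_of_top_left (memLp_of_continuous kap_cont ⊤)).congr ?_
  filter_upwards with x
  simp [mul_comm]

lemma key_id {v : E → ℝ} {G : E → E} {lam : ℝ} (hv : InH10 B v G)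
    (he : ∫ x, inner ℝ (G x) ((2 * (3 * (‖x‖ ^ 2) ^ 2 - 6 * ‖x‖ ^ 2 - 1)) • x) ∂mB
      = lam * (∫ x, c2 x * v x * psi2 x ∂mB) + (∫ x, mu2 x * ‖G x‖ ^ 2 * psi2 x ∂mB)
        + ∫ x, h2 x * psi2 x ∂mB) :
    (24 - lam) * ∫ x, (1 - (‖x‖ ^ 2) ^ 2) * v x ∂mB
      = ∫ x, kapq x * ‖G x - (2 * (1 : ℝ)) • x‖ ^ 2 ∂mB
        + (∫ x, h2 x * psi2 x ∂mB - ∫ x, 4 * kapq x * ‖x‖ ^ 2 ∂mB) := by
  have hd : ∀ s : ℝ, HasDerivAt (fun s : ℝ => 4 * s ^ 2 - 12) (8 * s) s := fun s =>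
    ((((hasDerivAt_id' s).fun_pow 2).const_mul 4).sub_const 12).congr_deriv (by simp; ring)
  have e1 := ibp hv (a := fun x : E => (fun s : ℝ => 4 * s ^ 2 - 12) (‖x‖ ^ 2))
    (contDiff_radial ((contDiff_const.mul (contDiff_id.pow 2)).sub contDiff_const))
  simp only [fderiv_radial (hd _)] at e1
  have e2 : - ∫ x, (2 * ‖x‖ ^ 2 * (8 * ‖x‖ ^ 2) + 2 * (4 * (‖x‖ ^ 2) ^ 2 - 12)) * v x ∂mB
      = 24 * ∫ x, (1 - (‖x‖ ^ 2) ^ 2) * v x ∂mB := by
    rw [← integral_const_mul, ← integral_neg]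
    apply integral_congr_ae
    filter_upwards with x
    ring
  have e3 : ∫ x, c2 x * v x * psi2 x ∂mB = ∫ x, (1 - (‖x‖ ^ 2) ^ 2) * v x ∂mB := by
    apply integral_congr_ae
    filter_upwards [ae_restrict_mem measurableSet_ball] with x hx
    have := normsq_lt hx
    have h3 : (3 - ‖x‖ ^ 2) ≠ 0 := by linarith
    simp only [c2, psi2]
    field_simp
    ring
  have e4 : ∫ x, mu2 x * ‖G x‖ ^ 2 * psi2 x ∂mB = ∫ x, kapq x * ‖G x‖ ^ 2 ∂mB := by
    apply integral_congr_ae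
    filter_upwards [ae_restrict_mem measurableSet_ball] with x hx
    have := normsq_lt hx
    have h3 : (3 - ‖x‖ ^ 2) ≠ 0 := by linarith
    have h4 : (1 + ‖x‖ ^ 2) ≠ 0 := by positivity
    simp only [mu2, psi2, kapq]
    field_simp
  have j1 : Integrable (fun x => inner ℝ ((4 * (‖x‖ ^ 2) ^ 2 - 12) • x) (G x)) mB :=
    int_innerq (memLp_of_continuous (((continuous_const.mul (cont_nsq.pow 2)).sub
      continuous_const).smul continuous_id) 2) hv.2.1
  have j2 : Integrable (fun x =>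
      inner ℝ (G x) ((2 * (3 * (‖x‖ ^ 2) ^ 2 - 6 * ‖x‖ ^ 2 - 1)) • x)) mB :=
    int_innerq hv.2.1 psi2_H10.2.1
  have j3 := int_kap hv.2.1
  have j4 : Integrable (fun x : E => 4 * kapq x * ‖x‖ ^ 2) mB :=
    (memLp_of_continuous ((continuous_const.mul kap_cont).mul cont_nsq) 1).integrable le_rfl
  have e5 : ∫ x, kapq x * ‖G x - (2 * (1 : ℝ)) • x‖ ^ 2 ∂mB
      = ∫ x, kapq x * ‖G x‖ ^ 2 ∂mB + ∫ x, 4 * kapq x * ‖x‖ ^ 2 ∂mB
        + (∫ x, inner ℝ ((4 * (‖x‖ ^ 2) ^ 2 - 12) • x) (G x) ∂mB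
          - ∫ x, inner ℝ (G x) ((2 * (3 * (‖x‖ ^ 2) ^ 2 - 6 * ‖x‖ ^ 2 - 1)) • x) ∂mB) := by
    have j34 : Integrable (fun x : E => kapq x * ‖G x‖ ^ 2 + 4 * kapq x * ‖x‖ ^ 2) mB := j3.add j4
    have j12 : Integrable (fun x : E => inner ℝ ((4 * (‖x‖ ^ 2) ^ 2 - 12) • x) (G x)
      - inner ℝ (G x) ((2 * (3 * (‖x‖ ^ 2) ^ 2 - 6 * ‖x‖ ^ 2 - 1)) • x)) mB := j1.sub j2
    rw [← integral_add j3 j4, ← integral_sub j1 j2, ← integral_add j34 j12]
    apply integral_congr_ae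
    filter_upwards with x
    rw [norm_sub_sq_real, real_inner_smul_left, real_inner_smul_right, real_inner_smul_right,
      real_inner_comm (G x) x, norm_smul, mul_pow, Real.norm_eq_abs, sq_abs]
    simp only [kapq]
    ring
  rw [e5, e1, e2, he, e3, e4]
  ring

lemma key_id' {v : E → ℝ} {lam : ℝ} (hv : IsSol B c2 h2 mu2 lam v) :
    ∃ G, InH10 B v G ∧ (24 - lam) * ∫ x, (1 - (‖x‖ ^ 2) ^ 2) * v x ∂mB
      = ∫ x, kapq x * ‖G x - (2 * (1 : ℝ)) • x‖ ^ 2 ∂mB := by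
  obtain ⟨_, G, hG, he⟩ := hv
  refine ⟨G, hG, ?_⟩
  have h1 := key_id hG (he _ _ psi2_H10 (memLp_of_continuous psi2_cont ⊤))
  have h2 := key_id u2_H10 (u2_eq psi2_H10)
  simp only [sub_self, zero_mul, norm_zero, ne_eq, OfNat.ofNat_ne_zero, not_false_eq_true,
    zero_pow, mul_zero, integral_zero, zero_add] at h2
  rw [h1, ← h2, add_zero]

lemma eq_u2 {v : E → ℝ} {G : E → E} (hG : InH10 B v G)
    (h : ∫ x, kapq x * ‖G x - (2 * (1 : ℝ)) • x‖ ^ 2 ∂mB = 0) : v =ᵐ[mB] u2 := by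
  apply unique_of_grad hG u2_H10
  have ii : Integrable (fun x => kapq x * ‖G x - (2 * (1 : ℝ)) • x‖ ^ 2) mB :=
    int_kap (G := fun x => G x - (2 * (1 : ℝ)) • x) (hG.2.1.sub u2_H10.2.1)
  rw [integral_eq_zero_iff_of_nonneg_ae _ ii] at h
  · filter_upwards [h, ae_restrict_mem measurableSet_ball] with x h1 hx
    simp only [Pi.zero_apply, mul_eq_zero, (kap_pos hx).ne', false_or] at h1
    have := pow_eq_zero_iff (two_ne_zero) |>.mp h1
    exact sub_eq_zero.mp (norm_eq_zero.mp this)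
  · filter_upwards [ae_restrict_mem measurableSet_ball] with x hx
    exact mul_nonneg (kap_pos hx).le (sq_nonneg _)

lemma unique24 {v : E → ℝ} (hv : IsSol B c2 h2 mu2 24 v) : v =ᵐ[mB] u2 := by
  obtain ⟨G, hG, h⟩ := key_id' hv
  exact eq_u2 hG (by rw [← h]; simp)

lemma no_sol {v : E → ℝ} {lam : ℝ} (hl : lam < 24) (hv : IsSol B c2 h2 mu2 lam v)
    (hn : ∀ᵐ x ∂mB, v x ≤ 0) : False := by
  obtain ⟨G, hG, h⟩ := key_id' hv
  have h1 : ∫ x, (1 - (‖x‖ ^ 2) ^ 2) * v x ∂mB ≤ 0 := by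
    apply integral_nonpos_of_ae
    filter_upwards [hn, ae_restrict_mem measurableSet_ball] with x h1 hx
    have := normsq_lt hx
    have := sq_nonneg ‖x‖
    exact mul_nonpos_of_nonneg_of_nonpos (by nlinarith) h1
  have h2 : 0 ≤ ∫ x, kapq x * ‖G x - (2 * (1 : ℝ)) • x‖ ^ 2 ∂mB := by
    apply integral_nonneg_of_ae
    filter_upwards [ae_restrict_mem measurableSet_ball] with x hx
    exact mul_nonneg (kap_pos hx).le (sq_nonneg _)
  have h3 : ∫ x, kapq x * ‖G x - (2 * (1 : ℝ)) • x‖ ^ 2 ∂mB = 0 := by nlinarith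
  have h4 : ∫ x, (1 - (‖x‖ ^ 2) ^ 2) * v x ∂mB = 0 := by
    rw [h3] at h
    rcases mul_eq_zero.mp h with h | h
    · linarith
    · exact h
  have h5 := eq_u2 hG h3
  have h6 : ∫ x, -((1 - (‖x‖ ^ 2) ^ 2) * v x) ∂mB = 0 := by rw [integral_neg, h4, neg_zero]
  have pos : ∀ x ∈ B, 0 < -((1 - (‖x‖ ^ 2) ^ 2) * u2 x) := by
    intro x hx
    have := normsq_lt hx
    have := sq_nonneg ‖x‖
    have a1 : 0 < 1 - (‖x‖ ^ 2) ^ 2 := by nlinarith
    have a2 : 0 < 1 - ‖x‖ ^ 2 := by linarith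
    simp only [u2]
    nlinarith [mul_pos a1 a2]
  have ii : Integrable (fun x => -((1 - (‖x‖ ^ 2) ^ 2) * v x)) mB :=
    (int_mulq (a := fun x : E => 1 - (‖x‖ ^ 2) ^ 2)
      (continuous_const.sub (cont_nsq.pow 2)).continuousOn hG.1).neg
  rw [integral_eq_zero_iff_of_nonneg_ae _ ii] at h6
  · apply not_ae_false (h6.and h5)
    rintro x hx ⟨a1, a2⟩
    have := pos x hx
    rw [← a2] at this
    exact this.ne' a1
  · filter_upwards [h5, ae_restrict_mem measurableSet_ball] with x a2 hx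
    have := pos x hx
    rw [← a2] at this
    exact this.le

theorem q2_main : ∃ (c h μ φ₁ u : E → ℝ) (μ₁ μ₂ γ lamInf ε : ℝ),
    (∀ p, MemLp c p mB ∧ MemLp h p mB) ∧ (∀ᵐ x ∂mB, 0 ≤ c x) ∧ ¬ (c =ᵐ[mB] 0) ∧
    MemLp μ ⊤ mB ∧ 0 < μ₁ ∧ (∀ᵐ x ∂mB, μ₁ ≤ μ x ∧ μ x ≤ μ₂) ∧
    (¬ ∃ v, IsSol B c h μ 0 v ∧ ∀ᵐ x ∂mB, v x ≤ 0) ∧
    (∃ lam₀, 0 < lam₀ ∧ ∃ v, IsSol B c h μ lam₀ v ∧ ∀ᵐ x ∂mB, v x ≤ 0) ∧
    IsGLB {lam | 0 ≤ lam ∧ ∃ v, IsSol B c h μ lam v ∧ ∀ᵐ x ∂mB, v x ≤ 0} lamInf ∧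
    (ContinuousOn φ₁ (closedBall 0 1) ∧ (∀ x ∈ B, 0 < φ₁ x) ∧ ∃ G, InH10 B φ₁ G ∧
      ∀ v H, InH10 B v H → ∫ x in B, inner ℝ (G x) (H x) = γ * ∫ x in B, c x * φ₁ x * v x) ∧
    ContinuousOn u (closedBall 0 1) ∧ IsSol B c h μ lamInf u ∧ (∀ x ∈ B, u x ≤ 0) ∧
    (∀ v, IsSol B c h μ lamInf v → v =ᵐ[mB] u) ∧
    0 < ε ∧ ∀ x ∈ closedBall (0 : E) 1, ε * φ₁ x ≤ -u x := by
  have hu : ∀ x ∈ B, u2 x ≤ 0 := by
    intro x hx
    have := normsq_lt hx
    simp only [u2]; linarith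
  have hu' : ∀ᵐ x ∂mB, u2 x ≤ 0 := by
    filter_upwards [ae_restrict_mem measurableSet_ball] with x hx
    exact hu x hx
  have hc : ∀ x ∈ B, 0 < c2 x := by
    intro x hx
    have := normsq_lt hx
    exact one_div_pos.mpr (by linarith)
  refine ⟨c2, h2, mu2, phi2, u2, 1 / 3, 5 / 4, 16, 24, 1 / 3,
    fun p => ⟨memLp_of_continuousOn c2_cont p, memLp_of_continuousOn h2_cont p⟩, ?_, ?_,
    memLp_of_continuousOn mu2_cont ⊤, by norm_num, ?_, ?_, ⟨24, by norm_num, u2, u2_sol, hu'⟩, ?_,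
    ⟨phi2_cont.continuousOn, ?_, _, phi2_H10, fun v H hv => phi2_eq hv⟩, u2_cont.continuousOn,
    u2_sol, hu, fun v hv => unique24 hv, by norm_num, ?_⟩
  · filter_upwards [ae_restrict_mem measurableSet_ball] with x hx
    exact (hc x hx).le
  · intro h
    exact not_ae_false h (fun x hx h1 => (hc x hx).ne' h1)
  · filter_upwards [ae_restrict_mem measurableSet_ball] with x hx
    have h1 := normsq_lt hx
    have h0 := sq_nonneg ‖x‖
    have h3 : 0 < 2 * (3 - ‖x‖ ^ 2) * (1 + ‖x‖ ^ 2) := by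
      apply mul_pos (mul_pos two_pos _) <;> linarith
    unfold mu2
    rw [le_div_iff₀ h3, div_le_iff₀ h3]
    constructor <;> nlinarith
  · rintro ⟨v, hv, hn⟩
    exact no_sol (by norm_num) hv hn
  · constructor
    · rintro lam ⟨_, v, hv, hn⟩
      by_contra hl
      exact no_sol (not_le.mp hl) hv hn
    · intro b hb
      exact hb ⟨by norm_num, u2, u2_sol, hu'⟩
  · intro x hx
    have := normsq_lt hx
    unfold phi2
    apply mul_pos <;> linarith
  · intro x hx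
    have h1 := normsq_le hx
    have h0 := sq_nonneg ‖x‖
    simp only [phi2, u2]
    nlinarith

end Pool.Agent.P.MP_0cf84d_an
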